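import Pool.Agent.Helper80_DA.K0Base

/-!
The path of two vertices seeing the two ends of an open chain, all other components have online
strategies.
-/

set_option autoImplicit false
set_option linter.unusedSectionVars false

namespace CLB.H80

open Finset Classical
open CLB.H95
open H3DA (Q neg nr)
open CLB.H3 (CExt Cat IsTwo Fits UPath he_of_unc cat_structure chn_side)
open CLB.H91 (ovr ovr_in ovr_out sp11)

variable {V : Type*} {G H : SimpleGraph V} {R : V → Bool} [Fintype V] {k : ℕ} {x y : ℕ → V}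

/-- The chain has an even number of units. -/
lemma beta_even (h : Chn H R k x y) {z c : ℕ → V} (hK : Cat H R 2 z c) {a b : ℕ}
    (hab : (a ≤ 1 ∧ 2 ≤ b ∧ b ≤ 3) ∨ (2 ≤ a ∧ a ≤ 3 ∧ b ≤ 1)) (hca : c a = x 1) (hcb : c b = y k) :
    k % 2 = 0 := by
  have hkp := h.pos
  have ha : a ≤ 2 + 1 := by omega
  have hb : b ≤ 2 + 1 := by omega
  have ma := cl_mem hK.pos ha
  have mb := cl_mem hK.pos hb
  have ua := hK.unc _ ma.1 ma.2
  have ub := hK.unc _ mb.1 mb.2
  have ea := (he_of_unc ua (cat_adj_cl hK ha).symm).2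
  have eb := (he_of_unc ub (cat_adj_cl hK hb).symm).2
  have hz : R (z 1) ≠ R (z 2) := by
    have := (he_of_unc (hK.unc 1 le_rfl (by omega)) (hK.adjz 1 le_rfl (by omega))).2
    revert this
    cases R (z 1) <;> cases R (z 2) <;> simp
  have hcl : (cl 2 a = 1 ∧ cl 2 b = 2) ∨ (cl 2 a = 2 ∧ cl 2 b = 1) := by
    unfold cl
    rcases hab with h1 | h1
    · left; constructor <;> split_ifs <;> omega
    · right; constructor <;> split_ifs <;> omega
  have hxy : R (x 1) ≠ R (y k) := by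
    rw [hca] at ea
    rw [hcb] at eb
    rcases hcl with ⟨e1, e2⟩ | ⟨e1, e2⟩
    · rw [e1] at ea
      rw [e2] at eb
      revert hz ea eb
      cases R (z 1) <;> cases R (z 2) <;> cases R (x 1) <;> cases R (y k) <;> simp
    · rw [e1] at ea
      rw [e2] at eb
      revert hz ea eb
      cases R (z 1) <;> cases R (z 2) <;> cases R (x 1) <;> cases R (y k) <;> simp
  have hs := (chn_side h k hkp le_rfl).2
  by_contra hcon
  apply hxy
  rw [hs, decide_eq_false (by omega)]
  simp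

theorem beta_false (hR : Opt G R) (hG : ClassC G R) (hle : H ≤ G) (hc : Crit H R)
    (h : Chn H R k x y) (hk : 3 ≤ k) (hends : (∀ w, ¬ Lk H R (x 1) w) ∧ ∀ w, ¬ Lk H R (y k) w)
    {z0 c0 : ℕ → V} (hK : Cat H R 2 z0 c0) (hN : NCp 2 (JC k x y c0)) (hs : Sp k x y 2 c0 1 1)
    (hoth : ∀ m z c, Cat H R m z c → cSupp m z ≠ cSupp 2 z0 →
      (m = 1 → ∀ i j, i ≤ 2 → j ≤ 2 → InC k x y (c i) → InC k x y (c j) → i = j) ∧
      (2 ≤ m → ¬ NCp m (JC k x y c))) : False := by
  have hH := hG.mono hle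
  have hkp := h.pos
  have hbad := badH hH hc h hk
  obtain ⟨a, b, ha, hb, hab', hca, hcb, hin⟩ := sp11 h hs
  have hin' : ∀ j ≤ 2 + 1, (JC k x y c0 j ↔ j = a ∨ j = b) := hin
  have hab : (a ≤ 1 ∧ 2 ≤ b ∧ b ≤ 3) ∨ (2 ≤ a ∧ a ≤ 3 ∧ b ≤ 1) := by
    unfold NCp at hN
    have j0 := hin' 0 (by omega)
    have j1 := hin' 1 (by omega)
    have jm := hin' 2 (by omega)
    have jm1 := hin' (2 + 1) (by omega)
    rw [j0, j1, jm, jm1] at hN
    rcases hN with h1 | h1 | h1 | h1 | h1 | h1
    · obtain ⟨-, h2, h3⟩ := h1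
      omega
    · exfalso; omega
    · exfalso; omega
    · exfalso; omega
    · exfalso; omega
    · exfalso; omega
  have hev := beta_even h hK hab hca hcb
  have hk4 : 4 ≤ k := by omega
  have ma := cl_mem hK.pos ha
  have mb := cl_mem hK.pos hb
  set za := z0 (cl 2 a) with hzad
  set zb := z0 (cl 2 b) with hzbd
  have hza : za ∈ prt H R (x 1) := by
    rw [mem_prt, ← hca]
    exact ⟨cat_adj_cl hK ha, hK.unc _ ma.1 ma.2⟩
  have hzb : zb ∈ prt H R (y k) := by
    rw [mem_prt, ← hcb]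
    exact ⟨cat_adj_cl hK hb, hK.unc _ mb.1 mb.2⟩
  have hzaS : za ∈ cSupp 2 z0 := mem_cSupp ma.1 ma.2
  have hzbS : zb ∈ cSupp 2 z0 := mem_cSupp mb.1 mb.2
  -- the labels outside the chain
  obtain ⟨f, hf⟩ := exists_off h hc
  have hma : H95.mt a ≤ 3 ∧ H95.mt a ≠ a ∧ H95.mt a ≠ b := by unfold H95.mt; split_ifs <;> omega
  have hmb : H95.mt b ≤ 3 ∧ H95.mt b ≠ a ∧ H95.mt b ≠ b := by unfold H95.mt; split_ifs <;> omega
  have oa : ¬ InC k x y (c0 (H95.mt a)) := by rw [hin _ (by omega)]; omega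
  have ob : ¬ InC k x y (c0 (H95.mt b)) := by rw [hin _ (by omega)]; omega
  set f1 := f (c0 (H95.mt a)) with hf1
  set f2 := f (c0 (H95.mt b)) with hf2
  have hK0ok : ∀ mu : ℕ → Q, mu 1 ≠ f1 → mu k ≠ f2 → tg f1 f2 (mu 1) (mu k) = false →
      CExt 2 (fun j => lbl k x y mu f (c0 j)) := by
    intro mu h1 h2 h3
    refine cext2_of_ok hab ?_
    show ext2 (lbl k x y mu f (c0 a)) (lbl k x y mu f (c0 (H95.mt a))) (lbl k x y mu f (c0 (H95.mt b)))
      (lbl k x y mu f (c0 b)) = true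
    rw [lbl_out oa, lbl_out ob, hca, hcb, lbl_x h le_rfl hkp, sg_odd (by omega), lbl_y h hkp le_rfl,
      sg_even hev]
    exact beta_lab _ _ _ _ h1 h2 h3
  -- walks to the unit `k - 2`
  have hwalks : ∀ Ψ : V → V → (ℕ → Q) → Finset Q, (∀ v z g g', (Ψ v z g ∪ Ψ v z g').card ≤ 2) →
      Dep k x y Ψ → ∃ (g g' : ℕ → Q) (D : Finset Q),
        PW H R x y (ovr (cSupp 2 z0) (cg (ends k x y {neg f1} ∅)) Ψ) (k - 2) g ∧
        PW H R x y (ovr (cSupp 2 z0) (cg (ends k x y {neg f1} ∅)) Ψ) (k - 2) g' ∧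
        g (k - 2) ≠ g' (k - 2) ∧ D.card ≤ 2 ∧ ∀ mu : ℕ → Q, (Same (k - 1) g mu ∨ Same (k - 1) g' mu) →
        nr (mu (k - 2)) (mu (k - 1)) = true → nr (mu (k - 1)) (mu k) = true → mu k ∉ D →
        mu k ≠ f2 ∧ tg f1 f2 (mu 1) (mu k) = false := by
    intro Ψ h2 hd
    have h2' := ovr_two (S := cSupp 2 z0) (B := ends k x y {neg f1} ∅) (ends_card (by simp) (by simp)) h2
    have hd' := ovr_dep (S := cSupp 2 z0) (B := ends k x y {neg f1} ∅) hd
    obtain ⟨g, g', D, w1, w2, w3, w4, w5⟩ := beta_pair (ldep_of_dep (H := H) (R := R) hd') hk4 hev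
      (lis_inner hH h h2') (fun g => lis_first3 hH h (by omega) h2' hza (fun g => by
        rw [ovr_in hzaS]
        unfold cg
        rw [ends_x1]; simp) g) f1 f2
    exact ⟨g, g', D, aw_pw w1, aw_pw w2, w3, w4, w5⟩
  by_cases hB : ∃ m z c p, Cat H R m z c ∧ BadP m (JC k x y c) p ∧ c p = y (k - 1)
  · -- a component killed at the end
    obtain ⟨m, z, c, p, hKB, hp, hcp⟩ := hB
    obtain ⟨q, hq, hcq, hoth'⟩ : ∃ q ≤ m + 1, c q = y k ∧
        ∀ j ≤ m + 1, j ≠ p → j ≠ q → InC k x y (c j) → idx k x y (c j) + 2 ≤ k := by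
      rcases (hbad m z c hKB p hp).2 hcp with h1 | h1
      · exact h1
      · exact absurd h1.1 (by omega)
    have hpm : 2 ≤ m ∧ 2 ≤ p ∧ p + 1 ≤ m := by
      unfold BadP at hp; omega
    have hpin : InnerPt H R (z (cl m p)) := (CLB.H91.innerPt_iff hKB (by omega)).2 ⟨hpm.2.1, hpm.2.2⟩
    obtain ⟨φ, hφ, -⟩ := CLB.H91.ekill_of_ports hH h hk hf hKB hpm.1 (p := p) (q := q) (by omega) hq hcp
      hcq hoth' (fun _ h1 _ => absurd hpin h1)
    have mp := cl_mem hKB.pos (show p ≤ m + 1 by omega)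
    have mq := cl_mem hKB.pos hq
    have hzy : z (cl m p) ∈ prt H R (y (k - 1)) := by
      rw [mem_prt, ← hcp]
      exact ⟨cat_adj_cl hKB (by omega), hKB.unc _ mp.1 mp.2⟩
    have hzk : z (cl m q) ∈ prt H R (y k) := by
      rw [mem_prt, ← hcq]
      exact ⟨cat_adj_cl hKB hq, hKB.unc _ mq.1 mq.2⟩
    have hne : cSupp m z ≠ cSupp 2 z0 := by
      intro he
      have h1 : z (cl m p) ∈ cSupp 2 z0 := by rw [← he]; exact mem_cSupp mp.1 mp.2
      obtain ⟨i, i1, i2, i3⟩ := h1
      have h2 : H.Adj (z0 i) (y (k - 1)) := by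
        rw [i3]
        exact (mem_prt.1 hzy).1.symm
      have h3 : ∃ j ≤ 2 + 1, c0 j = y (k - 1) := by
        rcases hK.nbr i i1 i2 _ h2 with h4 | ⟨-, h4⟩ | ⟨-, h4⟩ | ⟨h5, h4⟩ | ⟨h5, h4⟩
        · exact ⟨i, by omega, h4.symm⟩
        · exact ⟨0, by omega, h4.symm⟩
        · exact ⟨2 + 1, by omega, h4.symm⟩
        · exfalso
          have : Cov H R (y (k - 1)) := h.cov (InC.y (by omega) (by omega))
          rw [h4] at this
          exact hK.unc _ (by omega) (by omega) this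
        · exfalso
          have : Cov H R (y (k - 1)) := h.cov (InC.y (by omega) (by omega))
          rw [h4] at this
          exact hK.unc _ (by omega) (by omega) this
      obtain ⟨j, hj, hcj⟩ := h3
      have h4 : InC k x y (c0 j) := by rw [hcj]; exact InC.y (by omega) (by omega)
      rcases (hin j hj).1 h4 with rfl | rfl
      · exact h.xy 1 (k - 1) le_rfl (by omega) (by omega) (by omega) (hca.symm.trans hcj)
      · have := h.injy k (k - 1) (by omega) le_rfl (by omega) (by omega) (hcb.symm.trans hcj)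
        omega
    obtain ⟨z₀, hz₀⟩ : ∃ z₀, (prt H R (x k)).card = 0 ∨ z₀ ∈ prt H R (x k) := by
      by_cases h0 : (prt H R (x k)).card = 0
      · exact ⟨x k, Or.inl h0⟩
      · obtain ⟨v, hv⟩ := Finset.card_pos.1 (Nat.pos_of_ne_zero h0)
        exact ⟨v, Or.inr hv⟩
    obtain ⟨Φ, hΦ⟩ := exists_oforb hH h (f := f) (cSupp m z ∪ cSupp 2 z0) (x k) z₀
    have hdΦ : Dep k x y Φ := fun i h1 h2 z g g' hs => hΦ.dep i h1 h2 z g g' (hs.mono (by omega))
    have h2o : ∀ v w g g', (ovr (cSupp m z) φ Φ v w g ∪ ovr (cSupp m z) φ Φ v w g').card ≤ 2 := by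
      intro v w g g'
      by_cases hw : w ∈ cSupp m z
      · rw [ovr_in hw, ovr_in hw]; exact hφ.two v w g g'
      · rw [ovr_out hw, ovr_out hw]; exact hΦ.two v w g g'
    have hdo : Dep k x y (ovr (cSupp m z) φ Φ) := by
      intro i h1 h2 w g g' hs
      by_cases hw : w ∈ cSupp m z
      · rw [ovr_in hw, ovr_in hw, ovr_in hw, ovr_in hw]; exact hφ.dep i h1 h2 w g g' hs
      · rw [ovr_out hw, ovr_out hw, ovr_out hw, ovr_out hw]; exact hdΦ i h1 h2 w g g' hs
    obtain ⟨g, g', D, w1, w2, w3, w4, w5⟩ := hwalks _ h2o hdo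
    -- exchange the two components
    have hdis : ∀ w, w ∈ cSupp 2 z0 → w ∉ cSupp m z := by
      rintro w hw hw'
      exact hne (cSupp_eq hKB hK hw' hw)
    set B := ends k x y {neg f1} (∅ : Finset Q) with hBd
    have hsw : ovr (cSupp 2 z0) (cg B) (ovr (cSupp m z) φ Φ) =
        ovr (cSupp m z) φ (ovr (cSupp 2 z0) (cg B) Φ) := by
      funext v w g
      by_cases hw : w ∈ cSupp 2 z0
      · rw [ovr_in hw, ovr_out (hdis w hw), ovr_in hw]
      · by_cases hw' : w ∈ cSupp m z
        · rw [ovr_out hw, ovr_in hw', ovr_in hw']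
        · rw [ovr_out hw, ovr_out hw', ovr_out hw', ovr_out hw]
    rw [hsw] at w1 w2
    have hOS : OSet H R k x y (x k) z₀ (ovr (cSupp 2 z0) (cg B) Φ) := by
      refine ⟨ovr_two (ends_card (by simp) (by simp)) hΦ.two, fun h1 h3 g g' => ?_,
        fun i h1 h3 w g g' hs => ?_⟩
      · by_cases hw : z₀ ∈ cSupp 2 z0
        · rw [ovr_in hw, ovr_in hw]
          unfold cg
          rw [Finset.union_self, hBd]
          unfold ends
          rw [if_neg (fun he => ?_), if_neg (h.xy k k h.pos le_rfl h.pos le_rfl)]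
          · simp
          · have := h.injx k 1 (by omega) le_rfl le_rfl (by omega) he
            omega
        · rw [ovr_out hw, ovr_out hw]; exact hΦ.one h1 h3 g g'
      · by_cases hw : w ∈ cSupp 2 z0
        · rw [ovr_in hw, ovr_in hw, ovr_in hw, ovr_in hw]; exact ⟨rfl, rfl⟩
        · rw [ovr_out hw, ovr_out hw, ovr_out hw, ovr_out hw]; exact hΦ.dep i h1 h3 w g g' hs
    obtain ⟨mu, v1, v2, v3, w, hw⟩ := CLB.H91.end_walk hR hG hle hc h hk hKB hzy
      (mem_cSupp mp.1 mp.2) hzk (mem_cSupp mq.1 mq.2) hφ hz₀ hOS (D := D)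
      (Or.inr ⟨w4, zb, hzb, hdis zb hzbS, fun g => by
        rw [ovr_in hzbS]
        unfold cg
        rw [hBd, ends_yk h]⟩) w1 w2 w3
    have hmu1 : mu 1 ≠ f1 := by
      have : PW H R x y (ovr (cSupp 2 z0) (cg B) (ovr (cSupp m z) φ Φ)) k mu := by rw [hsw]; exact v1
      have := pw_x1 (by omega) this hza hzaS
      intro he
      apply this
      rw [he]; simp
    obtain ⟨u1, u2⟩ := w5 mu v2 (by
        have := v1.nwk (k - 2) (by omega) (by omega)
        rwa [show k - 2 + 1 = k - 1 by omega] at this) (by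
        have := v1.nwk (k - 1) (by omega) (by omega)
        rwa [show k - 1 + 1 = k by omega] at this) v3
    refine CLB.H91.end_contra hH hc h hends hf hΦ ?_ ?_ v1 ?_
    · rintro v hv a b hT
      rcases hv with hv | hv
      · obtain ⟨j, j1, j2, rfl⟩ := hv
        exact isTwo_not_cat hKB j1 j2 hT
      · obtain ⟨j, j1, j2, rfl⟩ := hv
        exact isTwo_not_cat hK j1 j2 hT
    · intro v w g hw
      rw [ovr_out (fun h' => hw (Or.inl h')), ovr_out (fun h' => hw (Or.inr h'))]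
    · intro m1 z1 c1 hc1 hex
      by_cases hS : cSupp m1 z1 = cSupp m z
      · right
        rw [cext_iff_fits hc1, hS]
        exact ⟨w, hw⟩
      · by_cases hS' : cSupp m1 z1 = cSupp 2 z0
        · right
          rw [cext_iff_fits hc1, hS', ← cext_iff_fits hK]
          exact hK0ok mu hmu1 u1 u2
        · left
          refine ⟨okill_of_not_nc hH h hf hc1 hex (hoth m1 z1 c1 hc1 hS').1 (hoth m1 z1 c1 hc1 hS').2 ?_,
            fun i i1 i2 hi => ?_⟩
          · intro p' _ _ h5 _ h6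
            exact (hbad m1 z1 c1 hc1 p' h6).1 h5
          · rcases hi with hi | hi
            · exact hS (cSupp_eq hc1 hKB (mem_cSupp i1 i2) hi)
            · exact hS' (cSupp_eq hc1 hK (mem_cSupp i1 i2) hi)
  · -- online strategies for all other components
    obtain ⟨v₀, z₀, hv₀, hlight⟩ := light_right hR hG hle hc h hk
    obtain ⟨Φ, hΦ⟩ := exists_oforb hH h (f := f) (cSupp 2 z0) v₀ z₀
    have hdΦ : Dep k x y Φ := fun i h1 h2 z g g' hs => hΦ.dep i h1 h2 z g g' (hs.mono (by omega))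
    obtain ⟨g, g', D, w1, w2, w3, w4, w5⟩ := hwalks _ hΦ.two hdΦ
    have hDi : (D.image neg).card ≤ 2 := Finset.card_image_le.trans w4
    set B := ends k x y {neg f1} (D.image neg) with hBd
    have w1' := pw_ends h (D' := D.image neg) (by omega) w1
    have w2' := pw_ends h (D' := D.image neg) (by omega) w2
    have h2' := ovr_two (S := cSupp 2 z0) (B := B) (ends_card (by simp) hDi) hΦ.two
    have hd' := ovr_dep (S := cSupp 2 z0) (B := B) hdΦ
    have hdk : ∀ z g g', Same (k - 1) g g' →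
        ovr (cSupp 2 z0) (cg B) Φ (x k) z g = ovr (cSupp 2 z0) (cg B) Φ (x k) z g' ∧
        ovr (cSupp 2 z0) (cg B) Φ (y k) z g = ovr (cSupp 2 z0) (cg B) Φ (y k) z g' := by
      intro w g g' hs
      by_cases hw : w ∈ cSupp 2 z0
      · rw [ovr_in hw, ovr_in hw, ovr_in hw, ovr_in hw]; exact ⟨rfl, rfl⟩
      · rw [ovr_out hw, ovr_out hw, ovr_out hw, ovr_out hw]; exact hΦ.depk hkp w g g' hs
    have hl := hlight (uni (ovr (cSupp 2 z0) (cg B) Φ) g g') (fun v z => h2' v z g g') (by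
      intro h1 h3
      show (ovr (cSupp 2 z0) (cg B) Φ v₀ z₀ g ∪ ovr (cSupp 2 z0) (cg B) Φ v₀ z₀ g').card ≤ 1
      by_cases hw : z₀ ∈ cSupp 2 z0
      · rw [ovr_in hw, ovr_in hw]
        unfold cg
        rw [Finset.union_self, hBd]
        unfold ends
        rw [if_neg, if_neg]
        · simp
        · rcases hv₀ with rfl | rfl
          · exact h.xy k k h.pos le_rfl h.pos le_rfl
          · intro he
            have := h.injy (k - 1) k (by omega) (by omega) (by omega) le_rfl he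
            omega
        · rcases hv₀ with rfl | rfl
          · intro he
            have := h.injx k 1 (by omega) le_rfl le_rfl (by omega) he
            omega
          · intro he
            exact h.xy 1 (k - 1) le_rfl (by omega) (by omega) (by omega) he.symm
      · rw [ovr_out hw, ovr_out hw]; exact hΦ.one h1 h3 g g')
    obtain ⟨mu, v1, v2⟩ := finish_walk hH h hk h2' hd' hdk w1' w2' w3 hl
    have hmu1 : mu 1 ≠ f1 := by
      have := pw_x1 (by omega) v1 hza hzaS
      intro he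
      apply this
      rw [he]; simp
    have hmuk : mu k ∉ D := by
      have := pw_yk h v1 hzb hzbS
      rw [sg_even hev] at this
      intro he
      exact this (mem_image_of_mem _ he)
    obtain ⟨u1, u2⟩ := w5 mu v2 (by
        have := v1.nwk (k - 2) (by omega) (by omega)
        rwa [show k - 2 + 1 = k - 1 by omega] at this) (by
        have := v1.nwk (k - 1) (by omega) (by omega)
        rwa [show k - 1 + 1 = k by omega] at this) hmuk
    refine CLB.H91.end_contra hH hc h hends hf hΦ ?_ ?_ v1 ?_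
    · rintro v hv a b hT
      obtain ⟨j, j1, j2, rfl⟩ := hv
      exact isTwo_not_cat hK j1 j2 hT
    · intro v w g hw
      rw [ovr_out hw]
    · intro m1 z1 c1 hc1 hex
      by_cases hS' : cSupp m1 z1 = cSupp 2 z0
      · right
        rw [cext_iff_fits hc1, hS', ← cext_iff_fits hK]
        exact hK0ok mu hmu1 u1 u2
      · left
        refine ⟨okill_of_not_nc hH h hf hc1 hex (hoth m1 z1 c1 hc1 hS').1 (hoth m1 z1 c1 hc1 hS').2 ?_,
          fun i i1 i2 hi => hS' (cSupp_eq hc1 hK (mem_cSupp i1 i2) hi)⟩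
        intro p' _ _ h5 _ h6
        rcases hv₀ with hv₀ | hv₀
        · exact (hbad m1 z1 c1 hc1 p' h6).1 (h5.trans hv₀)
        · exact hB ⟨m1, z1, c1, p', hc1, h6, h5.trans hv₀⟩

end CLB.H80
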