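import Pool.Agent.Helper80_DA.StarBad
import Pool.Agent.Helper80_DA.Beta

/-!
No component sees only the two ends of an open chain with at least three units.
-/

set_option autoImplicit false
set_option linter.unusedSectionVars false

namespace CLB.H80

open Finset Classical
open CLB.H95
open H3DA (Q neg nr)
open CLB.H3 (CExt Cat IsTwo Fits UPath he_of_unc cat_structure chn_side)
open CLB.H91 (sp11 ends_rev k0H_of)

variable {V : Type*} {G H : SimpleGraph V} {R : V → Bool} [Fintype V] {k : ℕ} {x y : ℕ → V}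

/-- A nearly closed component with exactly two ports in the chain has two vertices. -/
lemma nc_two {m a b : ℕ} {J : ℕ → Prop} (hm : 2 ≤ m) (hin : ∀ j ≤ m + 1, (J j ↔ j = a ∨ j = b))
    (hN : NCp m J) : m = 2 := by
  by_contra hne
  have j0 := hin 0 (by omega)
  have j1 := hin 1 (by omega)
  have jm := hin m (by omega)
  have jm1 := hin (m + 1) (by omega)
  unfold NCp at hN
  rw [j0, j1, jm, jm1] at hN
  rcases hN with h1 | h1 | h1 | h1 | h1 | h1
  · exact hne h1.1
  · obtain ⟨b1, b2, b3, b4, -⟩ := h1; omega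
  · obtain ⟨b1, b2, b3, b4, -⟩ := h1; omega
  · obtain ⟨b1, b2, b3, b4, -⟩ := h1; omega
  · omega
  · omega

/-- **A component seeing the two ends only, all others are not nearly closed.** -/
theorem k0_alone (hR : Opt G R) (hG : ClassC G R) (hle : H ≤ G) (hc : Crit H R)
    (h : Chn H R k x y) (hk : 3 ≤ k) (hends : (∀ w, ¬ Lk H R (x 1) w) ∧ ∀ w, ¬ Lk H R (y k) w)
    {m0 : ℕ} {z0 c0 : ℕ → V} (hK0 : Cat H R m0 z0 c0)
    (h0 : m0 = 1 ∨ (2 ≤ m0 ∧ NCp m0 (JC k x y c0))) (hs0 : Sp k x y m0 c0 1 1)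
    (hoth : ∀ m z c, Cat H R m z c → cSupp m z ≠ cSupp m0 z0 →
        (m = 1 → ∀ i j, i ≤ 2 → j ≤ 2 → InC k x y (c i) → InC k x y (c j) → i = j) ∧
        (2 ≤ m → ¬ NCp m (JC k x y c))) : False := by
  have hH := hG.mono hle
  rcases h0 with rfl | ⟨hm, hN⟩
  · have hs : StarD H R k x y z0 c0 := ⟨hK0, hs0, hoth⟩
    refine star_false hR hG hle hc h hk hends hs
      (fun m z c hK p hp => star_no_bad hH hc h hk hs hK hp) (fun m z c hK p hp => ?_)
    have := star_no_bad hH hc h.rev hk hs.rev hK (p := p) (by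
      show c p = x (k + 1 - (k - 1))
      rw [show k + 1 - (k - 1) = 2 by omega]; exact hp)
    rwa [jc_rev] at this
  · obtain ⟨a, b, ha, hb, hab, hca, hcb, hin⟩ := sp11 h hs0
    have e := nc_two (J := JC k x y c0) hm hin hN
    subst e
    exact beta_false hR hG hle hc h hk hends hK0 hN hs0 hoth

/-- **No component sees the two ends only.** -/
theorem k0H (hR : Opt G R) (hG : ClassC G R) (hle : H ≤ G) (hc : Crit H R)
    (h : Chn H R k x y) (hk : 3 ≤ k) (hends : (∀ w, ¬ Lk H R (x 1) w) ∧ ∀ w, ¬ Lk H R (y k) w)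
    (hloc : LocH H R k x y) : K0H H R k x y :=
  k0H_of hR hG hle hc h hk hends hloc (fun _ _ _ hK0 h0 hs0 hoth =>
    k0_alone hR hG hle hc h hk hends hK0 h0 hs0 hoth)

end CLB.H80
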