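import Pool.Agent.Helper95_CLB.OnlEnd
import Pool.Agent.Helper3_DA.LastUnit

/-!
Open chains with two units.
-/

set_option autoImplicit false
set_option linter.unusedSectionVars false

namespace CLB.H80

open Finset Classical
open CLB.H95
open H3DA (Q neg nr nr_comm)
open CLB.H3 (CExt Cat IsTwo Fits UPath he_of_unc cat_structure chn_side Leaf cext_or cext_near goodE
  mem_goodE goodE_card5)

variable {V : Type*} {G H : SimpleGraph V} {R : V → Bool} [Fintype V] {x y : ℕ → V}

lemma idx_two {v : V} (hv : InC 2 x y v) : idx 2 x y v = 1 ∨ idx 2 x y v = 2 := by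
  obtain ⟨h1, h2, -⟩ := idx_spec hv
  omega

/-- Two different covered neighbours of an uncovered vertex are not both on a chain with two units. -/
lemma two_noq (hH : ClassC H R) (h : Chn H R 2 x y) {z a b : V} (hz : ¬ Cov H R z) (ha : H.Adj z a)
    (hb : H.Adj z b) (hne : a ≠ b) (hqa : InC 2 x y a) (hqb : InC 2 x y b) : False := by
  have e1 := (he_of_unc hz ha).2
  have e2 := (he_of_unc hz hb).2
  have e3 : R a = R b := by
    revert e1 e2
    cases R z <;> cases R a <;> cases R b <;> simp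
  have p := idx_parity h hqa hqb e3
  have n := idx_ne hH h hqa hqb hne ha hb
  have i1 := idx_two hqa
  have i2 := idx_two hqb
  omega

/-- An exceptional component: two vertices, one port of each on the chain. -/
structure Exc (H : SimpleGraph V) (R : V → Bool) (x y : ℕ → V) (z c : ℕ → V) (j j' : ℕ) : Prop where
  cat : Cat H R 2 z c
  hj : j ≤ 1
  hj' : 2 ≤ j' ∧ j' ≤ 3
  q : InC 2 x y (c j)
  q' : InC 2 x y (c j')

lemma exc_of (hH : ClassC H R) (h : Chn H R 2 x y) {m : ℕ} {z c : ℕ → V} (hcat : Cat H R m z c)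
    (hs : ¬ StatC 2 x y m c) : m = 2 ∧ ∃ j j', Exc H R x y z c j j' := by
  have hp := hcat.pos
  have key : ∀ i j, i ≤ m + 1 → j ≤ m + 1 → i ≠ j → cl m i = cl m j → InC 2 x y (c i) →
      InC 2 x y (c j) → False := by
    intro i j hi hj hij hcl h1 h2
    have hz := cl_mem hp hi
    have a1 := (cat_adj_cl hcat hi).symm
    have a2 := (cat_adj_cl hcat hj).symm
    rw [← hcl] at a2
    exact two_noq hH h (hcat.unc _ hz.1 hz.2) a1 a2
      (fun e => hij (port_unique hcat hi hj e (by rw [hcl]))) h1 h2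
  unfold StatC at hs
  rw [not_and_or] at hs
  rcases hs with hs | hs
  · exfalso
    push Not at hs
    obtain ⟨hm, i, j, hi, hj, h1, h2, h3⟩ := hs
    subst hm
    have c1 := cl_mem (m := 1) le_rfl (show i ≤ 1 + 1 by omega)
    have c2 := cl_mem (m := 1) le_rfl (show j ≤ 1 + 1 by omega)
    exact key i j (by omega) (by omega) h3 (by omega) h1 h2
  · rw [Classical.not_imp] at hs
    obtain ⟨hm, hs⟩ := hs
    have e0 : cl m 0 = 1 := by unfold cl; simp
    have e1 : cl m 1 = 1 := by unfold cl; rw [if_neg (by omega), if_neg (by omega)]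
    have em : cl m m = m := by unfold cl; rw [if_neg (by omega), if_neg (by omega)]
    have em1 : cl m (m + 1) = m := by unfold cl; rw [if_neg (by omega), if_pos rfl]
    have k1 : ¬ (InC 2 x y (c 0) ∧ InC 2 x y (c 1)) := fun ⟨a, b⟩ =>
      key 0 1 (by omega) (by omega) (by omega) (by rw [e0, e1]) a b
    have k2 : ¬ (InC 2 x y (c m) ∧ InC 2 x y (c (m + 1))) := fun ⟨a, b⟩ =>
      key m (m + 1) (by omega) (by omega) (by omega) (by rw [em, em1]) a b
    have hs' : ¬ (InC 2 x y (c 0) ∨ InC 2 x y (c 1) → InC 2 x y (c m) ∨ InC 2 x y (c (m + 1)) →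
        3 ≤ m) := fun hh => hs ⟨k1, k2, hh⟩
    rw [Classical.not_imp, Classical.not_imp] at hs'
    obtain ⟨a, b, hm3⟩ := hs'
    have hm2 : m = 2 := by omega
    subst hm2
    refine ⟨rfl, ?_⟩
    rcases a with a | a <;> rcases b with b | b
    · exact ⟨0, 2, hcat, by omega, by omega, a, b⟩
    · exact ⟨0, 3, hcat, by omega, by omega, a, b⟩
    · exact ⟨1, 2, hcat, by omega, by omega, a, b⟩
    · exact ⟨1, 3, hcat, by omega, by omega, a, b⟩

namespace Exc

variable {z c : ℕ → V} {j j' : ℕ}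

lemma adj (he : Exc H R x y z c j j') : H.Adj (z 1) (c j) := by
  have h1 := he.hj
  have : j = 0 ∨ j = 1 := by omega
  rcases this with rfl | rfl
  · exact he.cat.adj0
  · exact he.cat.adjc 1 le_rfl (by omega)

lemma adj' (he : Exc H R x y z c j j') : H.Adj (z 2) (c j') := by
  have h1 := he.hj'
  have : j' = 2 ∨ j' = 3 := by omega
  rcases this with rfl | rfl
  · exact he.cat.adjc 2 (by omega) le_rfl
  · exact he.cat.adjm

lemma adjo (he : Exc H R x y z c j j') : H.Adj (z 1) (c (1 - j)) := by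
  have h1 := he.hj
  have : j = 0 ∨ j = 1 := by omega
  rcases this with rfl | rfl
  · exact he.cat.adjc 1 le_rfl (by omega)
  · exact he.cat.adj0

lemma adjo' (he : Exc H R x y z c j j') : H.Adj (z 2) (c (5 - j')) := by
  have h1 := he.hj'
  have : j' = 2 ∨ j' = 3 := by omega
  rcases this with rfl | rfl
  · exact he.cat.adjm
  · exact he.cat.adjc 2 (by omega) le_rfl

lemma neo (he : Exc H R x y z c j j') : c (1 - j) ≠ c j := by
  have h1 := he.hj
  have : j = 0 ∨ j = 1 := by omega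
  rcases this with rfl | rfl
  · exact he.cat.ne0.symm
  · exact he.cat.ne0

lemma neo' (he : Exc H R x y z c j j') : c (5 - j') ≠ c j' := by
  have h1 := he.hj'
  have : j' = 2 ∨ j' = 3 := by omega
  rcases this with rfl | rfl
  · exact he.cat.nem.symm
  · exact he.cat.nem

lemma nq (hH : ClassC H R) (h : Chn H R 2 x y) (he : Exc H R x y z c j j') :
    ¬ InC 2 x y (c (1 - j)) := fun hq =>
  two_noq hH h (he.cat.unc 1 le_rfl (by omega)) he.adjo he.adj he.neo hq he.q

lemma nq' (hH : ClassC H R) (h : Chn H R 2 x y) (he : Exc H R x y z c j j') :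
    ¬ InC 2 x y (c (5 - j')) := fun hq =>
  two_noq hH h (he.cat.unc 2 (by omega) le_rfl) he.adjo' he.adj' he.neo' hq he.q'

lemma side (he : Exc H R x y z c j j') : R (c j) ≠ R (c j') := by
  have e1 := (he_of_unc (he.cat.unc 1 le_rfl (by omega)) he.adj).2
  have e2 := (he_of_unc (he.cat.unc 2 (by omega) le_rfl) he.adj').2
  have e3 := (he_of_unc (he.cat.unc 1 le_rfl (by omega)) (he.cat.adjz 1 le_rfl (by omega))).2
  revert e1 e2 e3
  cases R (z 1) <;> cases R (z (1 + 1)) <;> cases R (c j) <;> cases R (c j') <;> simp_all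

lemma idx_ne (h : Chn H R 2 x y) (he : Exc H R x y z c j j') :
    idx 2 x y (c j) ≠ idx 2 x y (c j') := by
  intro e
  apply he.side
  obtain ⟨a1, a2, a3⟩ := idx_spec he.q
  obtain ⟨b1, b2, b3⟩ := idx_spec he.q'
  have hm := (h.me _ a1 a2).2
  rw [← e] at b3
  rcases a3 with a3 | a3 <;> rcases b3 with b3 | b3
  · exact congrArg R (a3.trans b3.symm)
  · rw [← a3, ← b3] at hm
    exact hm
  · rw [← a3, ← b3] at hm
    exact hm.symm
  · exact congrArg R (a3.trans b3.symm)

/-- The ports. -/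
lemma cases_le {i j j' : ℕ} (hi : i ≤ 3) (hj : j ≤ 1) (hj' : 2 ≤ j' ∧ j' ≤ 3) :
    i = j ∨ i = j' ∨ i = 1 - j ∨ i = 5 - j' := by omega

end Exc

/-- The unit determines the label. -/
lemma lbl_ne (h : Chn H R 2 x y) {f : V → Q} {mu mu' : ℕ → Q} {v : V} (hv : InC 2 x y v)
    (hne : mu (idx 2 x y v) ≠ mu' (idx 2 x y v)) : lbl 2 x y mu f v ≠ lbl 2 x y mu' f v := by
  obtain ⟨i, h1, h2, rfl | rfl⟩ := hv
  · rw [idx_x h h1 h2] at hne
    rw [lbl_x h h1 h2, lbl_x h h1 h2]
    intro e
    apply hne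
    rw [← sg_sg i (mu i), e, sg_sg]
  · rw [idx_y h h1 h2] at hne
    rw [lbl_y h h1 h2, lbl_y h h1 h2]
    intro e
    apply hne
    rw [← sg_sg i (mu i), ← H3DA.neg_neg (sg i (mu i)), e, H3DA.neg_neg, sg_sg]

/-- Two labellings that differ at one unit: one of them extends to the exceptional component. -/
lemma Exc.or (hH : ClassC H R) (h : Chn H R 2 x y) {f : V → Q} {z c : ℕ → V} {j j' : ℕ}
    (he : Exc H R x y z c j j') {mu mu' : ℕ → Q} {i0 : ℕ} (hi0 : i0 = 1 ∨ i0 = 2)
    (hsame : ∀ i, i ≠ i0 → mu i = mu' i) (hne : mu i0 ≠ mu' i0)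
    (hl : Leaf 2 (fun i => lbl 2 x y mu f (c i))) (hl' : Leaf 2 (fun i => lbl 2 x y mu' f (c i))) :
    CExt 2 (fun i => lbl 2 x y mu f (c i)) ∨ CExt 2 (fun i => lbl 2 x y mu' f (c i)) := by
  have hidx := he.idx_ne h
  have i1 := idx_two he.q
  have i2 := idx_two he.q'
  have h1 := he.hj
  have h2 := he.hj'
  have hoff : ∀ i ≤ 3, InC 2 x y (c i) → i = j ∨ i = j' := by
    intro i hi hq
    rcases Exc.cases_le hi h1 h2 with e | e | e | e
    · exact Or.inl e
    · exact Or.inr e
    · exact absurd (e ▸ hq) (he.nq hH h)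
    · exact absurd (e ▸ hq) (he.nq' hH h)
  obtain ⟨J, hJ3, hJq, hJ, hJo⟩ : ∃ J ≤ 3, InC 2 x y (c J) ∧ idx 2 x y (c J) = i0 ∧
      ∀ i ≤ 3, i ≠ J → InC 2 x y (c i) → idx 2 x y (c i) ≠ i0 := by
    by_cases hh : idx 2 x y (c j) = i0
    · refine ⟨j, by omega, he.q, hh, fun i hi hij hq => ?_⟩
      rcases hoff i hi hq with e | e
      · exact absurd e hij
      · subst e; rw [← hh]; exact hidx.symm
    · refine ⟨j', by omega, he.q', by omega, fun i hi hij hq => ?_⟩
      rcases hoff i hi hq with e | e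
      · subst e; exact hh
      · exact absurd e hij
  refine cext_or le_rfl hJ3 (fun i hi hij => ?_) ?_ hl hl'
  · by_cases hq : InC 2 x y (c i)
    · exact lbl_congr h hq (hsame _ (hJo i hi hij hq))
    · show lbl 2 x y mu f (c i) = lbl 2 x y mu' f (c i)
      rw [lbl_out hq, lbl_out hq]
  · exact lbl_ne h hJq (by rw [hJ]; exact hne)

/-- The vertices of the exceptional components. -/
def ES (H : SimpleGraph V) (R : V → Bool) (x y : ℕ → V) : Set V :=
  {v | ∃ z c j j', Exc H R x y z c j j' ∧ (v = z 1 ∨ v = z 2)}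

lemma ES_nb {v : V} (hv : v ∈ ES H R x y) : ¬ Cov H R v ∧ ∃ w, H.Adj v w ∧ ¬ Cov H R w := by
  obtain ⟨z, c, j, j', he, rfl | rfl⟩ := hv
  · exact ⟨he.cat.unc 1 le_rfl (by omega), z 2, he.cat.adjz 1 le_rfl (by omega),
      he.cat.unc 2 (by omega) le_rfl⟩
  · exact ⟨he.cat.unc 2 (by omega) le_rfl, z 1, (he.cat.adjz 1 le_rfl (by omega)).symm,
      he.cat.unc 1 le_rfl (by omega)⟩

/-- Forbidden sets: at the exceptional components only the conflict in the fork. -/
noncomputable def Ph (H : SimpleGraph V) (R : V → Bool) (x y : ℕ → V) (f : V → Q)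
    (Φ : V → V → Finset Q) : V → V → Finset Q := fun v z =>
  if z ∈ ES H R x y then
    (univ.filter (fun w => H.Adj z w ∧ Cov H R w ∧ w ≠ v)).image (fun w => neg (f w)) else Φ v z

lemma ph_card2 (hH : ClassC H R) {f : V → Q} {Φ : V → V → Finset Q} (v : V) {z : V}
    (hz : z ∈ ES H R x y) : (Ph H R x y f Φ v z).card ≤ 2 := by
  unfold Ph
  rw [if_pos hz]
  refine Finset.card_image_le.trans ?_
  obtain ⟨-, w, hw, hcw⟩ := ES_nb hz
  have h1 : univ.filter (fun u => H.Adj z u ∧ Cov H R u ∧ u ≠ v) ⊆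
      (univ.filter (fun u => H.Adj z u)).erase w := by
    intro u hu
    rw [mem_filter] at hu
    rw [mem_erase, mem_filter]
    exact ⟨fun e => hcw (e ▸ hu.2.2.1), mem_univ _, hu.2.1⟩
  have h2 := Finset.card_le_card h1
  rw [Finset.card_erase_of_mem (by simp [hw])] at h2
  have := hH.deg3 z
  omega

lemma ph_card1 (hH : ClassC H R) {f : V → Q} {Φ : V → V → Finset Q} {v z : V}
    (hz : z ∈ ES H R x y) (hv : H.Adj v z) (hcv : Cov H R v) : (Ph H R x y f Φ v z).card ≤ 1 := by
  unfold Ph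
  rw [if_pos hz]
  refine Finset.card_image_le.trans ?_
  obtain ⟨-, w, hw, hcw⟩ := ES_nb hz
  have hwv : w ≠ v := fun e => hcw (e ▸ hcv)
  have h1 : univ.filter (fun u => H.Adj z u ∧ Cov H R u ∧ u ≠ v) ⊆
      ((univ.filter (fun u => H.Adj z u)).erase w).erase v := by
    intro u hu
    rw [mem_filter] at hu
    rw [mem_erase, mem_erase, mem_filter]
    exact ⟨hu.2.2.2, fun e => hcw (e ▸ hu.2.2.1), mem_univ _, hu.2.1⟩
  have h2 := Finset.card_le_card h1
  rw [Finset.card_erase_of_mem (by simp [hwv.symm, hv.symm]),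
    Finset.card_erase_of_mem (by simp [hw])] at h2
  have := hH.deg3 z
  omega

section fin

variable {f : V → Q} {Φ : V → V → Finset Q} {mu : ℕ → Q}

/-- Labels from the lists have no conflict in the forks of the exceptional components. -/
lemma Exc.leaf (hH : ClassC H R) (h : Chn H R 2 x y) {z c : ℕ → V} {j j' : ℕ}
    (he : Exc H R x y z c j j')
    (hmu : ∀ i, 1 ≤ i → i ≤ 2 → mu i ∈ lst H R x y (Ph H R x y f Φ) i) :
    Leaf 2 (fun i => lbl 2 x y mu f (c i)) := by
  have hav := lbl_avoid (f := f) h hmu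
  have hz1 : z 1 ∈ ES H R x y := ⟨z, c, j, j', he, Or.inl rfl⟩
  have hz2 : z 2 ∈ ES H R x y := ⟨z, c, j, j', he, Or.inr rfl⟩
  have h1 := he.hj
  have h2 := he.hj'
  have a1 : lbl 2 x y mu f (c j) ≠ neg (lbl 2 x y mu f (c (1 - j))) := by
    intro e
    apply hav (z 1) (c j) (he.cat.unc 1 le_rfl (by omega)) he.adj.symm he.q
    unfold Ph
    rw [if_pos hz1, mem_image]
    refine ⟨c (1 - j), ?_, ?_⟩
    · rw [mem_filter]
      exact ⟨mem_univ _, he.adjo, he.cat.cov _ (by omega), he.neo⟩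
    · rw [e, lbl_out (he.nq hH h)]
  have a2 : lbl 2 x y mu f (c j') ≠ neg (lbl 2 x y mu f (c (5 - j'))) := by
    intro e
    apply hav (z 2) (c j') (he.cat.unc 2 (by omega) le_rfl) he.adj'.symm he.q'
    unfold Ph
    rw [if_pos hz2, mem_image]
    refine ⟨c (5 - j'), ?_, ?_⟩
    · rw [mem_filter]
      exact ⟨mem_univ _, he.adjo', he.cat.cov _ (by omega), he.neo'⟩
    · rw [e, lbl_out (he.nq' hH h)]
  constructor
  · have : j = 0 ∨ j = 1 := by omega
    rcases this with rfl | rfl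
    · exact a1
    · exact CLB.H3.neg_swap a1
  · have : j' = 2 ∨ j' = 3 := by omega
    rcases this with rfl | rfl
    · exact a2
    · exact CLB.H3.neg_swap a2

/-- Near labels from the lists extend to the components with ports `y 1` and `x 2`, or `x 1` and `y 2`. -/
lemma Exc.near (hH : ClassC H R) (h : Chn H R 2 x y) {z c : ℕ → V} {j j' : ℕ}
    (he : Exc H R x y z c j j')
    (hmu : ∀ i, 1 ≤ i → i ≤ 2 → mu i ∈ lst H R x y (Ph H R x y f Φ) i)
    (hn : nr (mu 1) (mu 2) = true) :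
    ((c j = x 1 ∨ c j' = x 1) ∧ (c j = x 2 ∨ c j' = x 2)) ∨
    ((c j = y 1 ∨ c j' = y 1) ∧ (c j = y 2 ∨ c j' = y 2)) ∨
    CExt 2 (fun i => lbl 2 x y mu f (c i)) := by
  have h1 := he.hj
  have h2 := he.hj'
  have hidx := he.idx_ne h
  have i1 := idx_two he.q
  have i2 := idx_two he.q'
  have l1 : lbl 2 x y mu f (x 1) = neg (mu 1) := by
    rw [lbl_x h le_rfl (by omega), sg_odd (by omega)]
  have l2 : lbl 2 x y mu f (y 1) = mu 1 := by
    rw [lbl_y h le_rfl (by omega), sg_odd (by omega), H3DA.neg_neg]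
  have l3 : lbl 2 x y mu f (x 2) = mu 2 := by
    rw [lbl_x h (by omega) le_rfl, sg_even (by omega)]
  have l4 : lbl 2 x y mu f (y 2) = neg (mu 2) := by
    rw [lbl_y h (by omega) le_rfl, sg_even (by omega)]
  have hfin : nr (lbl 2 x y mu f (c j)) (lbl 2 x y mu f (c j')) = true →
      CExt 2 (fun i => lbl 2 x y mu f (c i)) := by
    intro hh
    have p1 : CLB.H3.pos 2 j = 1 := by
      have : j = 0 ∨ j = 1 := by omega
      rcases this with rfl | rfl <;> rfl
    have p2 : CLB.H3.pos 2 j' = 2 := by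
      have : j' = 2 ∨ j' = 3 := by omega
      rcases this with rfl | rfl <;> rfl
    exact cext_near (j := j) (j' := j') (he.leaf hH h hmu) (by omega) (by omega) (by omega)
      (by omega) (by omega) hh
  obtain ⟨a1, a2, a3⟩ := idx_spec he.q
  obtain ⟨b1, b2, b3⟩ := idx_spec he.q'
  rcases i1 with i1 | i1
  · have i2' : idx 2 x y (c j') = 2 := by omega
    rw [i1] at a3
    rw [i2'] at b3
    rcases a3 with a3 | a3 <;> rcases b3 with b3 | b3
    · exact Or.inl ⟨Or.inl a3, Or.inr b3⟩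
    · right; right
      apply hfin
      rw [a3, b3, l1, l4, nr_neg_neg]; exact hn
    · right; right
      apply hfin
      rw [a3, b3, l2, l3]; exact hn
    · exact Or.inr (Or.inl ⟨Or.inl a3, Or.inr b3⟩)
  · have i2' : idx 2 x y (c j') = 1 := by omega
    rw [i1] at a3
    rw [i2'] at b3
    rcases a3 with a3 | a3 <;> rcases b3 with b3 | b3
    · exact Or.inl ⟨Or.inr b3, Or.inl a3⟩
    · right; right
      apply hfin
      rw [a3, b3, l2, l3, nr_comm]; exact hn
    · right; right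
      apply hfin
      rw [a3, b3, l1, l4, nr_neg_neg, nr_comm]; exact hn
    · exact Or.inr (Or.inl ⟨Or.inr b3, Or.inl a3⟩)

/-- The end of the proof: labels that extend to all exceptional components. -/
theorem fin_two (hH : ClassC H R) (hc : Crit H R) (h : Chn H R 2 x y)
    (hends : (∀ w, ¬ Lk H R (x 1) w) ∧ ∀ w, ¬ Lk H R (y 2) w) (hf : OffC H R 2 x y f) {v₀ z₀ : V}
    (hΦ : Forb H R 2 x y f (ES H R x y) v₀ z₀ Φ)
    (hmu : ∀ i, 1 ≤ i → i ≤ 2 → mu i ∈ lst H R x y (Ph H R x y f Φ) i)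
    (hn : nr (mu 1) (mu 2) = true)
    (hX : ∀ z c j j', Exc H R x y z c j j' → CExt 2 (fun i => lbl 2 x y mu f (c i))) : False := by
  have hav : ∀ z v, ¬ Cov H R z → H.Adj v z → InC 2 x y v → lbl 2 x y mu f v ∉ Φ v z := by
    intro z v hz hv hq
    by_cases hE : z ∈ ES H R x y
    · rw [hΦ.triv v z hE]; exact Finset.notMem_empty _
    · have := lbl_avoid (f := f) h hmu z v hz hv hq
      unfold Ph at this
      rwa [if_neg hE] at this
  refine chain_contra hH hc h (Or.inr hends) hf (mu := mu) ⟨?_, ?_, ?_, ?_⟩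
  · intro i h1 h2
    have : i = 1 := by omega
    subst this
    exact hn
  · intro hl
    exact absurd hl (hends.2 _)
  · intro v a b hT ha
    have hb : ¬ InC 2 x y b := fun hb =>
      two_noq hH h hT.1 hT.2.1 hT.2.2.1 hT.2.2.2.1 ha hb
    have hvE : v ∉ ES H R x y := by
      rintro ⟨z, c, j, j', he, rfl | rfl⟩
      · exact isTwo_not_cat he.cat le_rfl (by omega) hT
      · exact isTwo_not_cat he.cat (by omega) le_rfl hT
    exact hΦ.isTwo _ (fun v _ hv => lbl_out hv) hav v a b hT hvE ha hb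
  · intro m z c hcat hex
    by_cases hE : ∃ i, 1 ≤ i ∧ i ≤ m ∧ z i ∈ ES H R x y
    · obtain ⟨i, h1, h2, z', c', j, j', he, hor⟩ := hE
      have hv : z i ∈ cSupp m z := mem_cSupp h1 h2
      have hv' : z i ∈ cSupp 2 z' := by
        rcases hor with e | e
        · rw [e]; exact mem_cSupp le_rfl (by omega)
        · rw [e]; exact mem_cSupp (by omega) le_rfl
      have hs := cSupp_eq hcat he.cat hv hv'
      rw [cext_iff_fits hcat, hs, ← cext_iff_fits he.cat]
      exact hX z' c' j j' he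
    · push Not at hE
      have hst : StatC 2 x y m c := by
        by_contra hns
        obtain ⟨hm, j, j', he⟩ := exc_of hH h hcat hns
        subst hm
        exact hE 1 le_rfl (by omega) ⟨z, c, j, j', he, Or.inl rfl⟩
      exact hΦ.cat _ (fun v _ hv => lbl_out hv) hav m z c hcat hst hex hE

end fin

/-- A port of a component of type `α`. -/
def PA (H : SimpleGraph V) (R : V → Bool) (x y : ℕ → V) (v : V) : Prop :=
  ∃ w, w ∈ prt H R v ∧ w ∈ ES H R x y ∧ 1 ≤ hcv H R w v

lemma Exc.pa {z c : ℕ → V} {j j' : ℕ} (he : Exc H R x y z c j j') {v : V}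
    (hv : c j = v ∨ c j' = v) : PA H R x y v := by
  have h1 := he.hj
  have h2 := he.hj'
  rcases hv with rfl | rfl
  · exact ⟨z 1, mem_prt.2 ⟨he.adj.symm, he.cat.unc 1 le_rfl (by omega)⟩, ⟨z, c, j, j', he, Or.inl rfl⟩,
      hcv_pos he.adjo he.neo (he.cat.cov _ (by omega))⟩
  · exact ⟨z 2, mem_prt.2 ⟨he.adj'.symm, he.cat.unc 2 (by omega) le_rfl⟩, ⟨z, c, j, j', he, Or.inr rfl⟩,
      hcv_pos he.adjo' he.neo' (he.cat.cov _ (by omega))⟩

/-- The components with a given linked port have the same vertices. -/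
lemma Exc.supp (hH : ClassC H R) {v u : V} (hl : Lk H R v u) {z c z' c' : ℕ → V} {j j' i i' : ℕ}
    (he : Exc H R x y z c j j') (he' : Exc H R x y z' c' i i') (hv : c j = v ∨ c j' = v)
    (hv' : c' i = v ∨ c' i' = v) : cSupp 2 z = cSupp 2 z' := by
  have key : ∀ {z c : ℕ → V} {j j' : ℕ}, Exc H R x y z c j j' → (c j = v ∨ c j' = v) →
      ∃ w ∈ cSupp 2 z, w ∈ prt H R v := by
    intro z c j j' he hv
    rcases hv with rfl | rfl
    · exact ⟨z 1, mem_cSupp le_rfl (by omega), mem_prt.2 ⟨he.adj.symm, he.cat.unc 1 le_rfl (by omega)⟩⟩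
    · exact ⟨z 2, mem_cSupp (by omega) le_rfl, mem_prt.2 ⟨he.adj'.symm, he.cat.unc 2 (by omega) le_rfl⟩⟩
  obtain ⟨w, hw1, hw2⟩ := key he hv
  obtain ⟨w', hw1', hw2'⟩ := key he' hv'
  have := Finset.card_le_one.1 (prt_card_lk hH hl) w hw2 w' hw2'
  subst this
  exact cSupp_eq he.cat he'.cat hw1 hw1'

/-- Two options for all components with a given linked port. -/
lemma options (hH : ClassC H R) (h : Chn H R 2 x y) {f : V → Q} {v u : V} (hl : Lk H R v u)
    {mu mu' : ℕ → Q} {i0 : ℕ} (hi0 : i0 = 1 ∨ i0 = 2) (hsame : ∀ i, i ≠ i0 → mu i = mu' i)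
    (hne : mu i0 ≠ mu' i0)
    (hlf : ∀ z c j j', Exc H R x y z c j j' → Leaf 2 (fun i => lbl 2 x y mu f (c i)))
    (hlf' : ∀ z c j j', Exc H R x y z c j j' → Leaf 2 (fun i => lbl 2 x y mu' f (c i))) :
    (∀ z c j j', Exc H R x y z c j j' → (c j = v ∨ c j' = v) →
      CExt 2 (fun i => lbl 2 x y mu f (c i))) ∨
    (∀ z c j j', Exc H R x y z c j j' → (c j = v ∨ c j' = v) →
      CExt 2 (fun i => lbl 2 x y mu' f (c i))) := by
  by_cases hex : ∃ z c j j', Exc H R x y z c j j' ∧ (c j = v ∨ c j' = v)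
  · obtain ⟨z, c, j, j', he, hv⟩ := hex
    rcases he.or hH h hi0 hsame hne (hlf z c j j' he) (hlf' z c j j' he) with hh | hh
    · left
      intro z' c' i i' he' hv'
      rw [cext_iff_fits he'.cat, he'.supp hH hl he hv' hv, ← cext_iff_fits he.cat]
      exact hh
    · right
      intro z' c' i i' he' hv'
      rw [cext_iff_fits he'.cat, he'.supp hH hl he hv' hv, ← cext_iff_fits he.cat]
      exact hh
  · left
    intro z c j j' he hv
    exact absurd ⟨z, c, j, j', he, hv⟩ hex

lemma sel2 {A B : Finset Q} (hA : 5 ≤ A.card) (hB : 3 ≤ B.card) : ∃ t ∈ B, ∃ s ∈ A, ∃ s' ∈ A, s ≠ s' ∧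
    nr s t = true ∧ nr s' t = true := by
  have h1 := (goodE_card5 hA).1
  have h2 := card_inter_ge (goodE 2 A) B
  obtain ⟨t, ht⟩ := Finset.card_pos.1 (show 0 < (goodE 2 A ∩ B).card by omega)
  rw [mem_inter, mem_goodE] at ht
  obtain ⟨s, hs, s', hs', hne⟩ := Finset.one_lt_card.1 (show 1 < (ball t ∩ A).card by omega)
  rw [mem_inter, mem_ball] at hs hs'
  exact ⟨t, ht.2, s, hs.2, s', hs'.2, hne, nr_symm hs.1, nr_symm hs'.1⟩

lemma sel3 {A B : Finset Q} (hA : 6 ≤ A.card) (hB : 6 ≤ B.card) : ∃ t ∈ B, ∃ s ∈ A, ∃ s' ∈ A, ∃ s'' ∈ A,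
    s ≠ s' ∧ s ≠ s'' ∧ s' ≠ s'' ∧ nr s t = true ∧ nr s' t = true ∧ nr s'' t = true := by
  have h1 := (goodE_card5 (show 5 ≤ A.card by omega)).2
  have h2 := card_inter_ge (goodE 3 A) B
  obtain ⟨t, ht⟩ := Finset.card_pos.1 (show 0 < (goodE 3 A ∩ B).card by omega)
  rw [mem_inter, mem_goodE] at ht
  obtain ⟨s, s', s'', hs, hs', hs'', h3, h4, h5⟩ := Finset.two_lt_card_iff.1
    (show 2 < (ball t ∩ A).card by omega)
  rw [mem_inter, mem_ball] at hs hs' hs''
  exact ⟨t, ht.2, s, hs.2, s', hs'.2, s'', hs''.2, h3, h4, h5, nr_symm hs.1, nr_symm hs'.1,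
    nr_symm hs''.1⟩

/-- Labels of the two units. -/
def mk2 (s t : Q) : ℕ → Q := fun i => if i = 1 then s else if i = 2 then t else (false, false, false)

lemma mk2_one (s t : Q) : mk2 s t 1 = s := rfl

lemma mk2_two (s t : Q) : mk2 s t 2 = t := rfl

lemma mk2_same1 (s s' t : Q) : ∀ i, i ≠ 1 → mk2 s t i = mk2 s' t i := by
  intro i hi
  unfold mk2
  rw [if_neg hi, if_neg hi]

lemma mk2_same2 (s t t' : Q) : ∀ i, i ≠ 2 → mk2 s t i = mk2 s t' i := by
  intro i hi
  unfold mk2
  rw [if_neg hi, if_neg hi]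

lemma mk2_mem {A : ℕ → Finset Q} {s t : Q} (hs : s ∈ A 1) (ht : t ∈ A 2) :
    ∀ i, 1 ≤ i → i ≤ 2 → mk2 s t i ∈ A i := by
  intro i h1 h2
  have : i = 1 ∨ i = 2 := by omega
  rcases this with rfl | rfl
  · exact hs
  · exact ht

/-- **There is no open chain with two units.** -/
theorem open_two (hR : Opt G R) (hG : ClassC G R) (hle : H ≤ G) (hc : Crit H R)
    (h : Chn H R 2 x y) (hends : (∀ w, ¬ Lk H R (x 1) w) ∧ ∀ w, ¬ Lk H R (y 2) w) : False := by
  have hH := hG.mono hle
  obtain ⟨f, hf⟩ := exists_off h hc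
  obtain ⟨v₀, z₀, hlight⟩ := light_left hR hG hle hc h (by omega)
  obtain ⟨Φ, hΦ⟩ := exists_forb h hf (ES H R x y) v₀ z₀
  set Ψ := Ph H R x y f Φ with hΨ
  have hout : ∀ v z, z ∉ ES H R x y → Ψ v z = Φ v z := by
    intro v z hz; rw [hΨ]; unfold Ph; rw [if_neg hz]
  have h2 : ∀ v z, (Ψ v z).card ≤ 2 := by
    intro v z
    by_cases hz : z ∈ ES H R x y
    · exact ph_card2 hH v hz
    · rw [hout v z hz]; exact hΦ.two v z
  have hE2 : ∀ v ∈ ES H R x y, ∃ z c, Cat H R 2 z c ∧ ∃ i, 1 ≤ i ∧ i ≤ 2 ∧ v = z i := by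
    rintro v ⟨z, c, j, j', he, hv | hv⟩
    · exact ⟨z, c, he.cat, 1, le_rfl, by omega, hv⟩
    · exact ⟨z, c, he.cat, 2, by omega, le_rfl, hv⟩
  have hl := hlight Ψ h2 (fun hin => by
    have hz : z₀ ∉ ES H R x y := by
      intro hz
      obtain ⟨z, c, hcat, i, h3, h4, rfl⟩ := hE2 _ hz
      have := innerPt_pos hcat h3 h4 hin
      omega
    rw [hout _ _ hz]; exact hΦ.one hin) (fun z a b hT => by
    have hz : z ∉ ES H R x y := by
      intro hz
      obtain ⟨z, c, hcat, i, h3, h4, rfl⟩ := hE2 _ hz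
      exact isTwo_not_cat hcat h3 h4 hT
    rw [hout _ _ hz]; exact hΦ.deg2 z a b hT)
  -- cardinalities
  have lk : Lk H R (y 1) (x 2) := h.lk 1 le_rfl (by omega)
  have cx1 : Cov H R (x 1) := h.cov (InC.x le_rfl (by omega))
  have cy1 : Cov H R (y 1) := h.cov (InC.y le_rfl (by omega))
  have cx2 : Cov H R (x 2) := h.cov (InC.x (by omega) le_rfl)
  have cy2 : Cov H R (y 2) := h.cov (InC.y (by omega) le_rfl)
  have px1 := prt_card hH cx1
  have py1 := prt_card_lk hH lk
  have px2 := prt_card_lk hH lk.symm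
  have py2 := prt_card hH cy2
  have b1 := lst_card (G := H) (R := R) (x := x) (y := y) Ψ 1
  have b2 := lst_card (G := H) (R := R) (x := x) (y := y) Ψ 2
  have dx1 := cst_le h2 px1
  have dy1 := cst_le h2 py1
  have dx2 := cst_le h2 px2
  have dy2 := cst_le h2 py2
  have light : ∀ v n, Cov H R v → (prt H R v).card ≤ n + 1 → PA H R x y v →
      cst H R Ψ v ≤ 2 * n + 1 := by
    rintro v n hcv hn ⟨w, hw, hwE, -⟩
    exact cst_le_light h2 hn hw (ph_card1 hH hwE (mem_prt.1 hw).1 hcv)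
  -- the inequality at the link
  have hpm : ∀ u v, u ∈ prt H R (y 1) → v ∈ prt H R (x 2) →
      hcv H R u (y 1) + hcv H R v (x 2) ≤
      (if (prt H R (x 1)).card ≤ 1 then 1 else 0) + (if (prt H R (y 2)).card ≤ 1 then 1 else 0) := by
    intro u v hu hv
    have := pm_sub hR hG hle hc lk.1 (h.me 1 le_rfl (by omega)).symm (h.me 2 (by omega) le_rfl) hu hv
    omega
  -- leaves
  have hleaf : ∀ mu : ℕ → Q, (∀ i, 1 ≤ i → i ≤ 2 → mu i ∈ lst H R x y Ψ i) → ∀ z c j j',
      Exc H R x y z c j j' → Leaf 2 (fun i => lbl 2 x y mu f (c i)) :=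
    fun mu hmu z c j j' he => he.leaf hH h hmu
  have hfin : ∀ mu : ℕ → Q, (∀ i, 1 ≤ i → i ≤ 2 → mu i ∈ lst H R x y Ψ i) →
      nr (mu 1) (mu 2) = true →
      (∀ z c j j', Exc H R x y z c j j' → (c j = x 2 ∨ c j' = x 2) →
        (c j = x 1 ∨ c j' = x 1) → CExt 2 (fun i => lbl 2 x y mu f (c i))) →
      (∀ z c j j', Exc H R x y z c j j' → (c j = y 1 ∨ c j' = y 1) →
        (c j = y 2 ∨ c j' = y 2) → CExt 2 (fun i => lbl 2 x y mu f (c i))) → False := by
    intro mu hmu hn hA hB
    refine fin_two hH hc h hends hf hΦ hmu hn (fun z c j j' he => ?_)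
    rcases he.near hH h hmu hn with hh | hh | hh
    · exact hA z c j j' he hh.2 hh.1
    · exact hB z c j j' he hh.1 hh.2
    · exact hh
  -- types of exceptional components
  by_cases hA : ∃ z c j j', Exc H R x y z c j j' ∧ (c j = x 2 ∨ c j' = x 2) ∧ (c j = x 1 ∨ c j' = x 1)
  · obtain ⟨z, c, j, j', he, hv2, hv1⟩ := hA
    have pa1 := he.pa hv1
    have pa2 := he.pa hv2
    have ex2 := light _ 0 cx2 px2 pa2
    by_cases hB : ∃ z c j j', Exc H R x y z c j j' ∧ (c j = y 1 ∨ c j' = y 1) ∧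
        (c j = y 2 ∨ c j' = y 2)
    · -- both types
      obtain ⟨z', c', i, i', he', hw1, hw2⟩ := hB
      have pb1 := he'.pa hw1
      have pb2 := he'.pa hw2
      have ey1 := light _ 0 cy1 py1 pb1
      obtain ⟨u, hu, -, hu1⟩ := pb1
      obtain ⟨v, hv, -, hv1⟩ := pa2
      have hp := hpm u v hu hv
      have q1 : (prt H R (x 1)).card ≤ 1 ∧ (prt H R (y 2)).card ≤ 1 := by
        split_ifs at hp <;> omega
      have ex1 := light _ 0 cx1 q1.1 pa1
      have ey2 := light _ 0 cy2 q1.2 pb2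
      obtain ⟨t, ht, s, hs, s', hs', s'', hs'', n1, n2, n3, r1, r2, r3⟩ := sel3
        (A := lst H R x y Ψ 1) (B := lst H R x y Ψ 2) (by omega) (by omega)
      have opt : ∀ {v u : V}, Lk H R v u → ∀ {s s' : Q}, s ∈ lst H R x y Ψ 1 → s' ∈ lst H R x y Ψ 1 →
          s ≠ s' → _ := fun {v u} hl {s s'} hs hs' hne =>
        options hH h hl (mu := mk2 s t) (mu' := mk2 s' t) (i0 := 1) (Or.inl rfl)
          (mk2_same1 _ _ _) hne
          (hleaf _ (mk2_mem (A := lst H R x y Ψ) hs ht)) (hleaf _ (mk2_mem (A := lst H R x y Ψ) hs' ht))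
      have done : ∀ {s : Q}, s ∈ lst H R x y Ψ 1 → nr s t = true →
          (∀ z c j j', Exc H R x y z c j j' → (c j = x 2 ∨ c j' = x 2) →
            CExt 2 (fun i => lbl 2 x y (mk2 s t) f (c i))) →
          (∀ z c j j', Exc H R x y z c j j' → (c j = y 1 ∨ c j' = y 1) →
            CExt 2 (fun i => lbl 2 x y (mk2 s t) f (c i))) → False :=
        fun {s} hs hn hX hY => hfin (mk2 s t) (mk2_mem (A := lst H R x y Ψ) hs ht) hn
          (fun z c j j' he hv _ => hX z c j j' he hv) (fun z c j j' he hv _ => hY z c j j' he hv)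
      rcases opt lk.symm hs hs' n1 with a | a
      · rcases opt lk hs hs' n1 with b | b
        · exact done hs r1 a b
        · rcases opt lk hs hs'' n2 with d | d
          · exact done hs r1 a d
          · rcases opt lk.symm hs' hs'' n3 with e | e
            · exact done hs' r2 e b
            · exact done hs'' r3 e d
      · rcases opt lk hs' hs n1.symm with b | b
        · exact done hs' r2 a b
        · rcases opt lk hs' hs'' n3 with d | d
          · exact done hs' r2 a d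
          · rcases opt lk.symm hs hs'' n2 with e | e
            · exact done hs r1 e b
            · exact done hs'' r3 e d
    · -- only the first type
      have hB' : ∀ mu : ℕ → Q, ∀ z c j j', Exc H R x y z c j j' → (c j = y 1 ∨ c j' = y 1) →
        (c j = y 2 ∨ c j' = y 2) → CExt 2 (fun i => lbl 2 x y mu f (c i)) :=
        fun mu z c j j' he a b => absurd ⟨z, c, j, j', he, a, b⟩ hB
      have hcount : (5 ≤ (lst H R x y Ψ 1).card ∧ 3 ≤ (lst H R x y Ψ 2).card) ∨
          (3 ≤ (lst H R x y Ψ 1).card ∧ 5 ≤ (lst H R x y Ψ 2).card) := by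
        have ex1 := light _ 1 cx1 px1 pa1
        by_cases q1 : (prt H R (x 1)).card ≤ 1
        · have := light _ 0 cx1 q1 pa1
          left; omega
        · by_cases q2 : (prt H R (y 2)).card ≤ 1
          · have := cst_le h2 q2
            right; omega
          · obtain ⟨v, hv, -, hv1⟩ := pa2
            have hy0 : (prt H R (y 1)).card ≤ 0 := by
              by_contra hpos
              obtain ⟨u, hu⟩ := Finset.card_pos.1 (show 0 < (prt H R (y 1)).card by omega)
              have := hpm u v hu hv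
              rw [if_neg q1, if_neg q2] at this
              omega
            have := cst_le h2 hy0
            left; omega
      rcases hcount with ⟨n1, n2⟩ | ⟨n1, n2⟩
      · obtain ⟨t, ht, s, hs, s', hs', hne, r1, r2⟩ := sel2 n1 n2
        rcases options hH h lk.symm (f := f) (mu := mk2 s t) (mu' := mk2 s' t) (i0 := 1) (Or.inl rfl)
          (mk2_same1 _ _ _) hne
          (hleaf _ (mk2_mem (A := lst H R x y Ψ) hs ht))
          (hleaf _ (mk2_mem (A := lst H R x y Ψ) hs' ht)) with a | a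
        · exact hfin _ (mk2_mem (A := lst H R x y Ψ) hs ht) r1 (fun z c j j' he hv _ => a z c j j' he hv)
            (hB' _)
        · exact hfin _ (mk2_mem (A := lst H R x y Ψ) hs' ht) r2 (fun z c j j' he hv _ => a z c j j' he hv)
            (hB' _)
      · obtain ⟨t, ht, s, hs, s', hs', hne, r1, r2⟩ := sel2 n2 n1
        rcases options hH h lk.symm (f := f) (mu := mk2 t s) (mu' := mk2 t s') (i0 := 2) (Or.inr rfl)
          (mk2_same2 _ _ _) hne
          (hleaf _ (mk2_mem (A := lst H R x y Ψ) ht hs))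
          (hleaf _ (mk2_mem (A := lst H R x y Ψ) ht hs')) with a | a
        · exact hfin _ (mk2_mem (A := lst H R x y Ψ) ht hs) (nr_symm r1)
            (fun z c j j' he hv _ => a z c j j' he hv) (hB' _)
        · exact hfin _ (mk2_mem (A := lst H R x y Ψ) ht hs') (nr_symm r2)
            (fun z c j j' he hv _ => a z c j j' he hv) (hB' _)
  · by_cases hB : ∃ z c j j', Exc H R x y z c j j' ∧ (c j = y 1 ∨ c j' = y 1) ∧
        (c j = y 2 ∨ c j' = y 2)
    · -- only the second type
      obtain ⟨z', c', i, i', he', hw1, hw2⟩ := hB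
      have pb1 := he'.pa hw1
      have pb2 := he'.pa hw2
      have ey1 := light _ 0 cy1 py1 pb1
      have hA' : ∀ mu : ℕ → Q, ∀ z c j j', Exc H R x y z c j j' → (c j = x 2 ∨ c j' = x 2) →
        (c j = x 1 ∨ c j' = x 1) → CExt 2 (fun i => lbl 2 x y mu f (c i)) :=
        fun mu z c j j' he a b => absurd ⟨z, c, j, j', he, a, b⟩ hA
      have hcount : (5 ≤ (lst H R x y Ψ 1).card ∧ 3 ≤ (lst H R x y Ψ 2).card) ∨
          (3 ≤ (lst H R x y Ψ 1).card ∧ 5 ≤ (lst H R x y Ψ 2).card) := by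
        have ey2 := light _ 1 cy2 py2 pb2
        by_cases q2 : (prt H R (y 2)).card ≤ 1
        · have := light _ 0 cy2 q2 pb2
          right; omega
        · by_cases q1 : (prt H R (x 1)).card ≤ 1
          · have := cst_le h2 q1
            left; omega
          · obtain ⟨u, hu, -, hu1⟩ := pb1
            have hx0 : (prt H R (x 2)).card ≤ 0 := by
              by_contra hpos
              obtain ⟨v, hv⟩ := Finset.card_pos.1 (show 0 < (prt H R (x 2)).card by omega)
              have := hpm u v hu hv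
              rw [if_neg q1, if_neg q2] at this
              omega
            have := cst_le h2 hx0
            right; omega
      rcases hcount with ⟨n1, n2⟩ | ⟨n1, n2⟩
      · obtain ⟨t, ht, s, hs, s', hs', hne, r1, r2⟩ := sel2 n1 n2
        rcases options hH h lk (f := f) (mu := mk2 s t) (mu' := mk2 s' t) (i0 := 1) (Or.inl rfl)
          (mk2_same1 _ _ _) hne
          (hleaf _ (mk2_mem (A := lst H R x y Ψ) hs ht))
          (hleaf _ (mk2_mem (A := lst H R x y Ψ) hs' ht)) with a | a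
        · exact hfin _ (mk2_mem (A := lst H R x y Ψ) hs ht) r1 (hA' _)
            (fun z c j j' he hv _ => a z c j j' he hv)
        · exact hfin _ (mk2_mem (A := lst H R x y Ψ) hs' ht) r2 (hA' _)
            (fun z c j j' he hv _ => a z c j j' he hv)
      · obtain ⟨t, ht, s, hs, s', hs', hne, r1, r2⟩ := sel2 n2 n1
        rcases options hH h lk (f := f) (mu := mk2 t s) (mu' := mk2 t s') (i0 := 2) (Or.inr rfl)
          (mk2_same2 _ _ _) hne
          (hleaf _ (mk2_mem (A := lst H R x y Ψ) ht hs))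
          (hleaf _ (mk2_mem (A := lst H R x y Ψ) ht hs')) with a | a
        · exact hfin _ (mk2_mem (A := lst H R x y Ψ) ht hs) (nr_symm r1) (hA' _)
            (fun z c j j' he hv _ => a z c j j' he hv)
        · exact hfin _ (mk2_mem (A := lst H R x y Ψ) ht hs') (nr_symm r2) (hA' _)
            (fun z c j j' he hv _ => a z c j j' he hv)
    · -- no component of these types
      have hroot : (1 < 1 ∧ 1 < 2 ∧ 5 ≤ (lst H R x y Ψ 1).card) ∨
          (1 < 2 ∧ (1 = 1 ∨ 1 = 2) ∧ 3 ≤ (lst H R x y Ψ 1).card) ∨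
          3 ≤ (lst H R x y Ψ 2).card := by
        rcases hl with a | ⟨-, a⟩ | ⟨a, -⟩
        · exact Or.inr (Or.inl ⟨by omega, Or.inl rfl, a⟩)
        · exact Or.inr (Or.inr a)
        · omega
      have hlists : ∀ i, 1 ≤ i → i ≤ 2 → 4 ≤ (lst H R x y Ψ i).card ∨
          ((i = 1 ∨ i = 2) ∧ 2 ≤ (lst H R x y Ψ i).card) := by
        intro i h3 h4
        right
        have : i = 1 ∨ i = 2 := by omega
        rcases this with rfl | rfl
        · exact ⟨Or.inl rfl, by omega⟩
        · exact ⟨Or.inr rfl, by omega⟩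
      have hex : ∃ mu : ℕ → Q, (∀ i, 1 ≤ i → i ≤ 2 → mu i ∈ lst H R x y Ψ i) ∧
          ∀ i, 1 ≤ i → i < 2 → nr (mu i) (mu (i + 1)) = true := by
        rcases hroot with a | a | a
        · exact absurd a.1 (by omega)
        · exact walk_exists (r := 1) le_rfl (by omega) hlists (Or.inr a)
        · exact walk_exists (r := 2) (by omega) le_rfl hlists (Or.inr ⟨by omega, Or.inr rfl, a⟩)
      obtain ⟨mu, hmu1, hmu2⟩ := hex
      exact hfin mu hmu1 (hmu2 1 le_rfl (by omega))
        (fun z c j j' he a b => absurd ⟨z, c, j, j', he, a, b⟩ hA)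
        (fun z c j j' he a b => absurd ⟨z, c, j, j', he, a, b⟩ hB)

end CLB.H80
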