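import Pool.Agent.Helper80_DA.Star8
import Pool.Agent.Helper95_CLB.BadX

/-!
Next to one vertex seeing the two ends of an open chain there are no bad patterns.
-/

set_option autoImplicit false
set_option linter.unusedSectionVars false

namespace CLB.H80

open Finset Classical
open CLB.H95
open H3DA (Q neg nr)
open CLB.H3 (CExt Cat IsTwo Fits UPath he_of_unc cat_structure chn_side rlaw_sets llS mmS uuS eU pos)
open CLB.H91 (sp11 ends_rev)

variable {V : Type*} {G H : SimpleGraph V} {R : V → Bool} [Fintype V] {k : ℕ} {x y : ℕ → V}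

lemma eU_one {P : Finset V} {v u : V} (hu : u ∈ P) (hvu : G.Adj v u) : 1 ≤ eU G P v := by
  unfold eU
  exact Finset.card_pos.2 ⟨u, by rw [mem_filter]; exact ⟨hu, hvu⟩⟩

lemma eU_two {P : Finset V} {v u w : V} (hu : u ∈ P) (hw : w ∈ P) (huw : u ≠ w) (hvu : G.Adj v u)
    (hvw : G.Adj v w) : 2 ≤ eU G P v := by
  unfold eU
  rw [← Finset.card_pair huw]
  refine Finset.card_le_card fun t ht => ?_
  rw [mem_insert, mem_singleton] at ht
  rw [mem_filter]
  rcases ht with rfl | rfl
  · exact ⟨hu, hvu⟩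
  · exact ⟨hw, hvw⟩

/-- The third port of the vertex seeing both ends. -/
lemma third_port (h : Chn H R k x y) {z0 c0 : ℕ → V} (hK0 : Cat H R 1 z0 c0)
    (hs0 : Sp k x y 1 c0 1 1) : ∃ o, Cov H R o ∧ ¬ InC k x y o ∧ H.Adj o (z0 1) := by
  obtain ⟨a, b, ha, hb, hab, hca, hcb, hin⟩ := sp11 h hs0
  obtain ⟨j, hj, hja, hjb⟩ : ∃ j ≤ 1 + 1, j ≠ a ∧ j ≠ b := by
    have : (0 ≠ a ∧ 0 ≠ b) ∨ (1 ≠ a ∧ 1 ≠ b) ∨ (2 ≠ a ∧ 2 ≠ b) := by omega
    rcases this with h1 | h1 | h1
    · exact ⟨0, by omega, h1⟩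
    · exact ⟨1, by omega, h1⟩
    · exact ⟨2, by omega, h1⟩
  refine ⟨c0 j, hK0.cov j hj, ?_, ?_⟩
  · rw [hin j hj]; rintro (h1 | h1)
    · exact hja h1
    · exact hjb h1
  · have := cat_adj_cl hK0 hj
    have e : cl 1 j = 1 := by unfold cl; split_ifs <;> omega
    rwa [e] at this

lemma star_adj (h : Chn H R k x y) {z0 c0 : ℕ → V} (hK0 : Cat H R 1 z0 c0)
    (hs0 : Sp k x y 1 c0 1 1) : H.Adj (x 1) (z0 1) ∧ H.Adj (y k) (z0 1) := by
  obtain ⟨a, b, ha, hb, hab, hca, hcb, -⟩ := sp11 h hs0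
  have e : ∀ j ≤ 1 + 1, cl 1 j = 1 := by
    intro j hj
    unfold cl
    split_ifs <;> omega
  constructor
  · rw [← hca]
    have := cat_adj_cl hK0 ha
    rwa [e a ha] at this
  · rw [← hcb]
    have := cat_adj_cl hK0 hb
    rwa [e b hb] at this

/-- No other vertex sees both ends. -/
lemma fork_end (hH : ClassC H R) (h : Chn H R k x y) {z0 c0 : ℕ → V}
    (hK0 : Cat H R 1 z0 c0) (hs0 : Sp k x y 1 c0 1 1) {u : V} (hu : ¬ Cov H R u) (hu0 : u ≠ z0 1)
    (hux : H.Adj (x 1) u) (huy : H.Adj (y k) u) : False := by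
  obtain ⟨o, ho, hoC, hoz⟩ := third_port h hK0 hs0
  obtain ⟨hx, hy⟩ := star_adj h hK0 hs0
  have hkp := h.pos
  have hw := hK0.unc 1 le_rfl le_rfl
  have cx : InC k x y (x 1) := InC.x le_rfl hkp
  have cy : InC k x y (y k) := InC.y hkp le_rfl
  have d1 : x 1 ≠ y k := h.xy 1 k le_rfl hkp hkp le_rfl
  have d2 : x 1 ≠ o := fun he => hoC (he ▸ cx)
  have d3 : y k ≠ o := fun he => hoC (he ▸ cy)
  have key := rlaw_sets hH {u, z0 1} {x 1, y k, o} (by
      intro v hv
      rw [mem_insert, mem_singleton] at hv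
      rcases hv with rfl | rfl
      · exact hu
      · exact hw) (by
      intro v hv
      simp only [mem_insert, mem_singleton] at hv
      rcases hv with rfl | rfl | rfl
      · exact h.cov cx
      · exact h.cov cy
      · exact ho)
  have hadj : ∀ v ∈ ({x 1, y k, o} : Finset V), H.Adj v (z0 1) := by
    intro v hv
    simp only [mem_insert, mem_singleton] at hv
    rcases hv with rfl | rfl | rfl
    · exact hx
    · exact hy
    · exact hoz
  have hmm : mmS H R {x 1, y k, o} = 0 := by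
    unfold mmS
    refine Finset.sum_eq_zero fun v hv => ?_
    rw [Finset.card_eq_zero, Finset.filter_eq_empty_iff]
    intro t ht hm
    exact hH.tri (z0 1) v t (hadj v hv).symm hm.1 (hadj t ht).symm
  have hP : ({u, z0 1} : Finset V).card = 2 := Finset.card_pair hu0
  have hS : ({x 1, y k, o} : Finset V).card = 3 := by
    rw [Finset.card_insert_of_notMem (by
      simp only [mem_insert, mem_singleton, not_or]; exact ⟨d1, d2⟩), Finset.card_pair d3]
  have hsum : 5 ≤ ∑ v ∈ ({x 1, y k, o} : Finset V), eU H {u, z0 1} v := by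
    rw [Finset.sum_insert (by
      simp only [mem_insert, mem_singleton, not_or]; exact ⟨d1, d2⟩), Finset.sum_pair d3]
    have m1 : u ∈ ({u, z0 1} : Finset V) := by simp
    have m2 : z0 1 ∈ ({u, z0 1} : Finset V) := by simp
    have a1 := eU_two (G := H) m1 m2 hu0 hux hx
    have a2 := eU_two (G := H) m1 m2 hu0 huy hy
    have a3 := eU_one (G := H) m2 hoz
    omega
  rw [hmm, hP, hS] at key
  omega

lemma idx_mate (hH : ClassC H R) (h : Chn H R k x y) {v w : V} (hv : InC k x y v) (hvw : Me H R v w) :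
    InC k x y w ∧ idx k x y w = idx k x y v := by
  refine ⟨h.mate hH hv hvw, ?_⟩
  obtain ⟨i, h1, h2, rfl | rfl⟩ := hv
  · rw [hH.matching hvw (h.me i h1 h2), idx_x h h1 h2, idx_y h h1 h2]
  · rw [hH.matching hvw (h.me i h1 h2).symm, idx_x h h1 h2, idx_y h h1 h2]

/-- No other vertex sees `x 1` and an inner unit other than the second one and the last but one. -/
lemma fork_mid (hH : ClassC H R) (h : Chn H R k x y) (hk : 3 ≤ k) {z0 c0 : ℕ → V}
    (hK0 : Cat H R 1 z0 c0) (hs0 : Sp k x y 1 c0 1 1) {u : V} (hu : ¬ Cov H R u) (hu0 : u ≠ z0 1)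
    (hux : H.Adj (x 1) u) {b : V} (hb : InC k x y b) (hbu : H.Adj b u) (hb1 : 3 ≤ idx k x y b)
    (hb2 : idx k x y b + 2 ≤ k) : False := by
  obtain ⟨o, ho, hoC, hoz⟩ := third_port h hK0 hs0
  obtain ⟨hx, hy⟩ := star_adj h hK0 hs0
  have hkp := h.pos
  have hw := hK0.unc 1 le_rfl le_rfl
  have cx : InC k x y (x 1) := InC.x le_rfl hkp
  have cy : InC k x y (y k) := InC.y hkp le_rfl
  have ix : idx k x y (x 1) = 1 := idx_x h le_rfl hkp
  have iy : idx k x y (y k) = k := idx_y h hkp le_rfl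
  -- the link partner of `b`
  obtain ⟨b', hb', hlk, j1, j2, j3⟩ : ∃ b', InC k x y b' ∧ Lk H R b b' ∧ 2 ≤ idx k x y b' ∧
      idx k x y b' + 1 ≤ k ∧ idx k x y b' ≠ idx k x y b := by
    obtain ⟨i, i1, i2, rfl | rfl⟩ := hb
    · rw [idx_x h i1 i2] at hb1 hb2 ⊢
      refine ⟨y (i - 1), InC.y (by omega) (by omega), ?_, ?_⟩
      · have := h.lk (i - 1) (by omega) (by omega)
        rw [show i - 1 + 1 = i by omega] at this
        exact this.symm
      · rw [idx_y h (by omega) (by omega)]
        omega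
    · rw [idx_y h i1 i2] at hb1 hb2 ⊢
      refine ⟨x (i + 1), InC.x (by omega) (by omega), h.lk i i1 (by omega), ?_⟩
      rw [idx_x h (by omega) (by omega)]
      omega
  have d12 : x 1 ≠ y k := h.xy 1 k le_rfl hkp hkp le_rfl
  have dxo : x 1 ≠ o := fun he => hoC (he ▸ cx)
  have dyo : y k ≠ o := fun he => hoC (he ▸ cy)
  have dbo : b ≠ o := fun he => hoC (he ▸ hb)
  have dxb : x 1 ≠ b := fun he => by rw [← he, ix] at hb1; omega
  have dyb : y k ≠ b := fun he => by rw [← he, iy] at hb2; omega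
  have dbb : b ≠ b' := fun he => j3 (by rw [he])
  set S : Finset V := {x 1, y k, o, b, b'} with hS
  have hmem : ∀ v, v ∈ S ↔ v = x 1 ∨ v = y k ∨ v = o ∨ v = b ∨ v = b' := by
    intro v; simp only [hS, mem_insert, mem_singleton]
  have key := rlaw_sets hH {u, z0 1} S (by
      intro v hv
      rw [mem_insert, mem_singleton] at hv
      rcases hv with rfl | rfl
      · exact hu
      · exact hw) (by
      intro v hv
      rcases (hmem v).1 hv with rfl | rfl | rfl | rfl | rfl
      · exact h.cov cx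
      · exact h.cov cy
      · exact ho
      · exact h.cov hb
      · exact h.cov hb')
  have hinC : ∀ v ∈ S, v = o ∨ InC k x y v := by
    intro v hv
    rcases (hmem v).1 hv with rfl | rfl | rfl | rfl | rfl
    · exact Or.inr cx
    · exact Or.inr cy
    · exact Or.inl rfl
    · exact Or.inr hb
    · exact Or.inr hb'
  have hinj : ∀ v ∈ S, ∀ t ∈ S, InC k x y v → InC k x y t → idx k x y v = idx k x y t → v = t := by
    intro v hv t ht cv ct he
    rcases (hmem v).1 hv with rfl | rfl | rfl | rfl | rfl <;>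
      rcases (hmem t).1 ht with rfl | rfl | rfl | rfl | rfl <;>
      first
        | rfl
        | exact absurd cv hoC
        | exact absurd ct hoC
        | (exfalso; omega)
  have hmm : mmS H R S = 0 := by
    unfold mmS
    refine Finset.sum_eq_zero fun v hv => ?_
    rw [Finset.card_eq_zero, Finset.filter_eq_empty_iff]
    intro t ht hm
    rcases hinC v hv with rfl | cv
    · rcases hinC t ht with rfl | ct
      · exact hm.1.ne rfl
      · exact hoC (h.mate hH ct hm.symm)
    · obtain ⟨ct, he⟩ := idx_mate hH h cv hm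
      have := hinj v hv t ht cv ct he.symm
      subst this
      exact hm.1.ne rfl
  have hP : ({u, z0 1} : Finset V).card = 2 := Finset.card_pair hu0
  have hSc : S.card ≤ 5 := Finset.card_le_five
  have hll : 2 ≤ llS H R S := by
    unfold llS
    have hbS : b ∈ S := (hmem _).2 (by simp)
    have hbS' : b' ∈ S := (hmem _).2 (by simp)
    have h1 : 1 ≤ (S.filter (fun v => He H R b v)).card :=
      Finset.card_pos.2 ⟨b', by rw [mem_filter]; exact ⟨hbS', hlk.1⟩⟩
    have h2 : 1 ≤ (S.filter (fun v => He H R b' v)).card :=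
      Finset.card_pos.2 ⟨b, by rw [mem_filter]; exact ⟨hbS, hlk.symm.1⟩⟩
    have h3 : ∑ v ∈ ({b, b'} : Finset V), (S.filter (fun u => He H R v u)).card ≤
        ∑ v ∈ S, (S.filter (fun u => He H R v u)).card := by
      refine Finset.sum_le_sum_of_subset ?_
      intro v hv
      simp only [mem_insert, mem_singleton] at hv
      rcases hv with rfl | rfl
      · exact hbS
      · exact hbS'
    rw [Finset.sum_pair dbb] at h3
    omega
  have hsum : 5 ≤ ∑ v ∈ S, eU H {u, z0 1} v := by
    have h3 : ∑ v ∈ ({x 1, y k, o, b} : Finset V), eU H {u, z0 1} v ≤ ∑ v ∈ S, eU H {u, z0 1} v := by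
      refine Finset.sum_le_sum_of_subset ?_
      intro v hv
      simp only [mem_insert, mem_singleton] at hv
      rw [hmem]
      tauto
    rw [Finset.sum_insert (by
      simp only [mem_insert, mem_singleton, not_or]; exact ⟨d12, dxo, dxb⟩), Finset.sum_insert (by
      simp only [mem_insert, mem_singleton, not_or]; exact ⟨dyo, dyb⟩), Finset.sum_pair dbo.symm] at h3
    have m1 : u ∈ ({u, z0 1} : Finset V) := by simp
    have m2 : z0 1 ∈ ({u, z0 1} : Finset V) := by simp
    have a1 := eU_two (G := H) m1 m2 hu0 hux hx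
    have a2 := eU_one (G := H) m2 hy
    have a3 := eU_one (G := H) m2 hoz
    have a4 := eU_one (G := H) m1 hbu
    omega
  rw [hmm, hP] at key
  omega

section

variable {z0 c0 z c : ℕ → V} {m : ℕ}

lemma supp_ne (hK0 : Cat H R 1 z0 c0) (hK : Cat H R m z c) (hm : 2 ≤ m) : cSupp m z ≠ cSupp 1 z0 := by
  intro he
  have e : ∀ i, 1 ≤ i → i ≤ m → z i = z0 1 := by
    intro i i1 i2
    have : z i ∈ cSupp 1 z0 := by rw [← he]; exact mem_cSupp i1 i2
    obtain ⟨j, j1, j2, j3⟩ := this
    rw [← j3, show j = 1 by omega]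
  have := hK.inj 1 2 le_rfl (by omega) (by omega) hm ((e 1 le_rfl (by omega)).trans (e 2 (by omega) hm).symm)
  omega

/-- No fork with `x 1` and another port of the chain. -/
lemma full_fork (hH : ClassC H R) (h : Chn H R k x y) (hk : 3 ≤ k) (hK0 : Cat H R 1 z0 c0)
    (hs0 : Sp k x y 1 c0 1 1) (hK : Cat H R m z c) (hm : 2 ≤ m) {i j : ℕ} (hi : i ≤ m + 1)
    (hj : j ≤ m + 1) (hij : cl m i = cl m j) (hne : i ≠ j) (hci : c i = x 1)
    (hJ : InC k x y (c j)) (hb : c j = y k ∨ idx k x y (c j) + 2 ≤ k) : False := by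
  have hkp := h.pos
  have mi := cl_mem hK.pos hi
  have hu := hK.unc _ mi.1 mi.2
  have hu0 : z (cl m i) ≠ z0 1 := by
    intro he
    exact supp_ne hK0 hK hm (cSupp_eq hK hK0 (mem_cSupp mi.1 mi.2)
      (by rw [he]; exact mem_cSupp le_rfl le_rfl))
  have hux : H.Adj (x 1) (z (cl m i)) := by rw [← hci]; exact cat_adj_cl hK hi
  have hbu : H.Adj (c j) (z (cl m i)) := by rw [hij]; exact cat_adj_cl hK hj
  have hcne : x 1 ≠ c j := by
    intro he
    exact hne (port_unique hK hi hj (hci.trans he) (by rw [hij]))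
  rcases hb with hb | hb
  · rw [hb] at hbu
    exact fork_end hH h hK0 hs0 hu hu0 hux hbu
  · have cx : InC k x y (x 1) := InC.x le_rfl hkp
    have h1 := idx_ne hH h cx hJ hcne hux.symm hbu.symm
    have hpar : R (x 1) = R (c j) := by
      have e1 := (he_of_unc hu hux.symm).2
      have e2 := (he_of_unc hu hbu.symm).2
      revert e1 e2
      cases R (z (cl m i)) <;> cases R (x 1) <;> cases R (c j) <;> simp
    have h2 := idx_parity h cx hJ hpar
    have h3 := (idx_spec hJ).1
    rw [idx_x h le_rfl hkp] at h1 h2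
    exact fork_mid hH h hk hK0 hs0 hu hu0 hux hJ hbu (by omega) hb

/-- **No bad patterns next to a vertex seeing both ends.** -/
theorem star_no_bad (hH : ClassC H R) (hc : Crit H R) (h : Chn H R k x y) (hk : 3 ≤ k)
    (hs : StarD H R k x y z0 c0) (hK : Cat H R m z c) {p : ℕ} (hp : c p = y (k - 1)) :
    ¬ BadP m (JC k x y c) p := by
  intro hB
  have hkp := h.pos
  have hm : 2 ≤ m ∧ p ≤ m + 1 := by unfold BadP at hB; omega
  have hne := supp_ne hs.star hK hm.1
  obtain ⟨⟨j1, hj1, e1⟩, -⟩ := bad_x1 hH hc h hk hK hB hp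
  obtain ⟨q, hq, eq, hoth⟩ : ∃ q ≤ m + 1, c q = y k ∧ ∀ j ≤ m + 1, j ≠ p → j ≠ q →
      InC k x y (c j) → idx k x y (c j) + 2 ≤ k := by
    rcases (badC hH hc h hk hK hB).2 hp with h1 | ⟨-, ⟨i, j, hi, hj, hij, e2, e3⟩, -⟩
    · exact h1
    · exfalso
      apply hij
      refine one_port hH h.rev hs.rev hK hne hi hj ?_ ?_
      · show c i = y (k + 1 - 1)
        rw [show k + 1 - 1 = k by omega]; exact e2
      · show c j = y (k + 1 - 1)
        rw [show k + 1 - 1 = k by omega]; exact e3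
  -- the number of units is odd
  have hodd : k % 2 = 1 := by
    obtain ⟨a, b, ha, hb, hab, hca, hcb, -⟩ := sp11 h hs.sp
    have := port_par h hs.star ha hb (u := 1) (v := k) ⟨by omega, by omega⟩ ⟨by omega, by omega⟩
      (Or.inl hca) (Or.inr hcb)
    have e : ∀ j ≤ 1 + 1, pos 1 j = 1 := by
      intro j hj
      unfold pos
      split_ifs <;> omega
    rw [e a ha, e b hb] at this
    omega
  have hx1 : InC k x y (c j1) := by rw [e1]; exact InC.x le_rfl hkp
  have hpy : p ≤ m + 1 := hm.2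
  have hpar : (pos m j1 + 1) % 2 = (pos m p + (k - 1)) % 2 :=
    port_par h hK hj1 hpy ⟨by omega, by omega⟩ ⟨by omega, by omega⟩ (Or.inl e1) (Or.inr hp)
  have hj1p : j1 ≠ p := by
    rintro rfl
    exact h.xy 1 (k - 1) le_rfl hkp (by omega) (by omega) (e1.symm.trans hp)
  have ff : ∀ j, j ≤ m + 1 → cl m j1 = cl m j → j1 ≠ j → j ≠ p → InC k x y (c j) → False := by
    intro j hj hij hne' hjp hJ
    refine full_fork hH h hk hs.star hs.sp hK hm.1 hj1 hj hij hne' e1 hJ ?_
    by_cases hjq : j = q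
    · left; rw [hjq]; exact eq
    · right; exact hoth j hj hjp hjq hJ
  unfold BadP JC at hB
  rcases hB with ⟨rfl, rfl, h0, h1, -, h3, h4, h5⟩ | ⟨rfl, rfl, h4, h5, -, h2, h0, h1⟩ |
    ⟨rfl, rfl, h0, h1, -, h3, h4, h5, h6⟩ | ⟨rfl, rfl, h0, h1, -, h2, h3, h5, h6⟩
  · have hj : j1 = 0 ∨ j1 = 1 ∨ j1 = 3 ∨ j1 = 4 ∨ j1 = 5 := by omega
    rcases hj with rfl | rfl | rfl | rfl | rfl
    · exact ff 1 (by omega) (by decide) (by omega) (by omega) h1
    · exact ff 0 (by omega) (by decide) (by omega) (by omega) h0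
    · exact h3 hx1
    · unfold pos at hpar
      norm_num at hpar
      omega
    · unfold pos at hpar
      norm_num at hpar
      omega
  · have hj : j1 = 0 ∨ j1 = 1 ∨ j1 = 2 ∨ j1 = 4 ∨ j1 = 5 := by omega
    rcases hj with rfl | rfl | rfl | rfl | rfl
    · unfold pos at hpar
      norm_num at hpar
      omega
    · unfold pos at hpar
      norm_num at hpar
      omega
    · exact h2 hx1
    · exact ff 5 (by omega) (by decide) (by omega) (by omega) h5
    · exact ff 4 (by omega) (by decide) (by omega) (by omega) h4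
  · have hj : j1 = 0 ∨ j1 = 1 ∨ j1 = 3 ∨ j1 = 4 ∨ j1 = 5 ∨ j1 = 6 := by omega
    rcases hj with rfl | rfl | rfl | rfl | rfl | rfl
    · exact ff 1 (by omega) (by decide) (by omega) (by omega) h1
    · exact ff 0 (by omega) (by decide) (by omega) (by omega) h0
    · exact h3 hx1
    · exact h4 hx1
    · exact ff 6 (by omega) (by decide) (by omega) (by omega) h6
    · exact ff 5 (by omega) (by decide) (by omega) (by omega) h5
  · have hj : j1 = 0 ∨ j1 = 1 ∨ j1 = 2 ∨ j1 = 3 ∨ j1 = 5 ∨ j1 = 6 := by omega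
    rcases hj with rfl | rfl | rfl | rfl | rfl | rfl
    · exact ff 1 (by omega) (by decide) (by omega) (by omega) h1
    · exact ff 0 (by omega) (by decide) (by omega) (by omega) h0
    · exact h2 hx1
    · exact h3 hx1
    · exact ff 6 (by omega) (by decide) (by omega) (by omega) h6
    · exact ff 5 (by omega) (by decide) (by omega) (by omega) h5

end

end CLB.H80
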