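import Pool.Agent.Helper80_DA.Le4G
import Pool.Agent.Helper80_DA.StarBad

/-!
MP_da6743_co: the classification of the nearly closed components with at most four vertices.
-/

set_option autoImplicit false
set_option linter.unusedSectionVars false

namespace CLB.H80

open Finset Classical CLB.H95
open H3DA (Q neg nr)
open CLB.H3 (CExt Cat IsTwo Fits UPath he_of_unc cat_structure chn_side pos NoFull noFull_shape noFull_inj
  noFull_small)
open CLB.H91 (LM no_fork_xx ncp_forks ends_rev)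
open CLB.H80.L4

variable {V : Type*} {G : SimpleGraph V} {R : V → Bool} [Fintype V] {k : ℕ} {x y : ℕ → V}
  {m m' : ℕ} {z c z' c' : ℕ → V} {f : V → Q}

/-- Two stars at `x 1` next to a third component coincide. -/
lemma star_same (hG : ClassC G R) (h : Chn G R k x y) (hcat : Cat G R 2 z c) {j : ℕ} (hj : j ≤ 2 + 1)
    (e1 : c j = x 1) {zs cs : ℕ → V} (hS : Cat G R 1 zs cs) (hSp : Sp k x y 1 cs 1 1)
    {zt ct : ℕ → V} (hT : Cat G R 1 zt ct) (hTp : Sp k x y 1 ct 1 1) : zt 1 = zs 1 := by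
  by_contra hne
  obtain ⟨i1, hi1, a1⟩ := hSp.px 1 le_rfl le_rfl
  obtain ⟨i2, hi2, a2⟩ := hTp.px 1 le_rfl le_rfl
  have hcl1 : ∀ j ≤ 1 + 1, cl 1 j = 1 := by
    intro j hj
    have := cl_mem (le_refl 1) hj
    omega
  have p1 := port_mem hS hi1 a1
  have p2 := port_mem hT hi2 a2
  have p3 := port_mem hcat hj e1
  rw [hcl1 i1 hi1] at p1
  rw [hcl1 i2 hi2] at p2
  have n1 : z (cl 2 j) ≠ zs 1 := fun he =>
    supp_ne hS hcat le_rfl (cSupp_eq hcat hS p3.2 (by rw [he]; exact p1.2))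
  have n2 : z (cl 2 j) ≠ zt 1 := fun he =>
    supp_ne hT hcat le_rfl (cSupp_eq hcat hT p3.2 (by rw [he]; exact p2.2))
  have hc3 : 2 < (prt G R (x 1)).card :=
    Finset.two_lt_card.2 ⟨_, p3.1, _, p1.1, _, p2.1, n1, n2, fun he => hne he.symm⟩
  have := prt_card hG (h.cov (InC.x (x := x) (y := y) le_rfl h.pos))
  omega

theorem dlt_false (hG : ClassC G R) (hc : Crit G R) (h : Chn G R k x y) (hk : 3 ≤ k)
    (hends : (∀ w, ¬ Lk G R (x 1) w) ∧ ∀ w, ¬ Lk G R (y k) w) (hcat : Cat G R 2 z c)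
    (hD : Dlt k x y c) : False := by
  have hD' := hD
  obtain ⟨o, o', q, q', h1, h2, hpq, e1, e2, e3, e4⟩ := hD'
  have l1 := h1.le (by omega : 2 ≤ 2)
  have l2 := h2.le (by omega : 2 ≤ 2)
  have s1 : ∃ j ≤ 2 + 1, c j = x 1 := ⟨o, l1.1, e1⟩
  have s2 : ∃ j ≤ 2 + 1, c j = x 2 := ⟨q, l2.1, e3⟩
  have s3 : ∃ j ≤ 2 + 1, c j = x 3 := ⟨o', l1.2.1, e2⟩
  obtain ⟨f, hf⟩ := exists_off (chn3 h hk) hc
  by_cases hU : ∃ z' c' : ℕ → V, (k = 3 ∨ k = 4) ∧ Cat G R 2 z' c' ∧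
      (∀ i, 1 ≤ i → i ≤ 2 → z' i ∉ cSupp 2 z) ∧ UC k x y c'
  · obtain ⟨z', c', hk4, hC, hzn, hUC⟩ := hU
    have hne := z_out hC hzn
    -- uniqueness of the second component
    have huniq : (k = 3 ∨ k = 4) → ∀ z'' c'', Cat G R 2 z'' c'' →
        (∀ i, 1 ≤ i → i ≤ 2 → z'' i ∉ cSupp 2 z) → UC k x y c'' → z'' 1 ∈ cSupp 2 z' := by
      intro _ z'' c'' hC'' _ hU''
      obtain ⟨a, a', b, b', g1, g2, gpq, u1, u2, -⟩ := hUC
      obtain ⟨d, d', t, t', k1, k2, kpq, v1, v2, -⟩ := hU''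
      have r1 := g2.le (by omega : 2 ≤ 2)
      have r2 := k2.le (by omega : 2 ≤ 2)
      have := own_lk hG hC hC'' (h.lk 2 (by omega) (by omega)) r1.1 r2.1 u2 v2
      rw [← this]
      exact mem_cSupp le_rfl (by omega)
    by_cases hS : k = 3 ∧ ∃ zs cs : ℕ → V, Cat G R 1 zs cs ∧ Sp k x y 1 cs 1 1
    · obtain ⟨hk3, zs, cs, hS1, hS2⟩ := hS
      subst hk3
      have hcl : CleanE G R 3 x y ((cSupp 2 z ∪ cSupp 2 z') ∪ cSupp 1 zs) := by
        refine cleanE_gen hG hc h hk hcat s1 s2 s3 _ ?_ ?_ ?_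
        · exact fun v hv => Or.inl (Or.inl hv)
        · intro _ zt ct hT hTp
          rw [star_same hG h hcat l1.1 e1 hS1 hS2 hT hTp]
          exact Or.inr (mem_cSupp le_rfl le_rfl)
        · intro hk' z'' c'' hC'' hn'' hU''
          exact Or.inl (Or.inr (huniq hk' z'' c'' hC'' hn'' hU''))
      have hzs : zs 1 ∉ cSupp 2 z ∪ cSupp 2 z' := by
        rintro (hv | hv)
        · exact supp_ne hS1 hcat le_rfl (cSupp_eq hcat hS1 hv (mem_cSupp le_rfl le_rfl))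
        · exact supp_ne hS1 hC le_rfl (cSupp_eq hC hS1 hv (mem_cSupp le_rfl le_rfl))
      obtain ⟨F1, F2, F3, hF1, hF2, hF3, hK⟩ := win3S hG hc hcat h hends.1 hf
        (cSupp 2 z ∪ cSupp 2 z') (fun v a b hT hv => by
          rcases hv with ⟨i, i1, i2, i3⟩ | ⟨i, i1, i2, i3⟩
          · exact isTwo_not_cat hcat i1 i2 (i3 ▸ hT)
          · exact isTwo_not_cat hC i1 i2 (i3 ▸ hT)) hS1 hS2 hzs hcl
      exact uc_fin hG h hk4 hends hf hcat hC hne hD hUC (by omega) hF2 hF3 hK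
    · have hcl : CleanE G R 3 x y (cSupp 2 z ∪ cSupp 2 z') := by
        refine cleanE_gen hG hc h hk hcat s1 s2 s3 _ ?_ ?_ ?_
        · exact fun v hv => Or.inl hv
        · intro hk3 zt ct hT hTp
          exact absurd ⟨hk3, zt, ct, hT, hTp⟩ hS
        · intro hk' z'' c'' hC'' hn'' hU''
          exact Or.inr (huniq hk' z'' c'' hC'' hn'' hU'')
      obtain ⟨F1, F2, F3, hF1, hF2, hF3, hK⟩ := win3 hG hc hcat (chn3 h hk) hends.1 hf
        (cSupp 2 z ∪ cSupp 2 z') (fun v a b hT hv => by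
          rcases hv with ⟨i, i1, i2, i3⟩ | ⟨i, i1, i2, i3⟩
          · exact isTwo_not_cat hcat i1 i2 (i3 ▸ hT)
          · exact isTwo_not_cat hC i1 i2 (i3 ▸ hT)) hcl
      refine uc_fin hG h hk4 hends hf hcat hC hne hD hUC hF1 hF2 (fun e => ?_) hK
      have := hF3 e e
      rwa [Finset.union_self] at this
  · by_cases hS : k = 3 ∧ ∃ zs cs : ℕ → V, Cat G R 1 zs cs ∧ Sp k x y 1 cs 1 1
    · obtain ⟨hk3, zs, cs, hS1, hS2⟩ := hS
      subst hk3
      have hcl : CleanE G R 3 x y (cSupp 2 z ∪ cSupp 1 zs) := by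
        refine cleanE_gen hG hc h hk hcat s1 s2 s3 _ ?_ ?_ ?_
        · exact fun v hv => Or.inl hv
        · intro _ zt ct hT hTp
          rw [star_same hG h hcat l1.1 e1 hS1 hS2 hT hTp]
          exact Or.inr (mem_cSupp le_rfl le_rfl)
        · intro hk' z'' c'' hC'' hn'' hU''
          exact absurd ⟨z'', c'', hk', hC'', hn'', hU''⟩ hU
      have hzs : zs 1 ∉ cSupp 2 z := fun hv =>
        supp_ne hS1 hcat le_rfl (cSupp_eq hcat hS1 hv (mem_cSupp le_rfl le_rfl))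
      obtain ⟨F1, F2, F3, hF1, hF2, hF3, hK⟩ := win3S hG hc hcat h hends.1 hf
        (cSupp 2 z) (fun v a b hT ⟨i, i1, i2, i3⟩ => isTwo_not_cat hcat i1 i2 (i3 ▸ hT)) hS1 hS2 hzs hcl
      exact star_fin hG h hends hcat hD hF1 hF2 hF3 hK
    · have hcl : CleanE G R 3 x y (cSupp 2 z) := by
        refine cleanE_gen hG hc h hk hcat s1 s2 s3 _ (le_refl _) ?_ ?_
        · intro hk3 zt ct hT hTp
          exact absurd ⟨hk3, zt, ct, hT, hTp⟩ hS
        · intro hk' z'' c'' hC'' hn'' hU''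
          exact absurd ⟨z'', c'', hk', hC'', hn'', hU''⟩ hU
      exact dlt_clean hG hc h hk hends hcat hD hcl

/-- One side only. -/
theorem oneX_le4 (hG : ClassC G R) (hc : Crit G R) (h : Chn G R k x y) (hk : 3 ≤ k)
    (hends : (∀ w, ¬ Lk G R (x 1) w) ∧ ∀ w, ¬ Lk G R (y k) w) (hcat : Cat G R m z c) (hm : 2 ≤ m)
    (hm4 : m ≤ 4) (hN : NCp m (JC k x y c)) {a : ℕ} (hX : OneX k x y m c a) :
    m = 2 ∧ AL k x y c (x 1) (x 2) := by
  have : m = 2 ∨ m = 3 ∨ m = 4 := by omega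
  rcases this with rfl | rfl | rfl
  · rcases one_two hG h hcat hN hX with h1 | ⟨-, h1⟩
    · exact ⟨rfl, h1⟩
    · exact absurd (dlt_false hG hc h hk hends hcat h1) (by simp)
  · exact absurd (one_three h hcat hN hX) (by simp)
  · obtain ⟨z', c', hC, hM⟩ := one_four hG h hcat hN hX
    exact absurd (m4_false hG hc h hends hC hM) (by simp)

/-- **Nearly closed components with at most four vertices.** -/
theorem loc_le4 (hG : ClassC G R) (hc : Crit G R) (h : Chn G R k x y) (hk : 3 ≤ k)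
    (hends : (∀ w, ¬ Lk G R (x 1) w) ∧ ∀ w, ¬ Lk G R (y k) w) (hcat : Cat G R m z c) (hm : 2 ≤ m)
    (hm4 : m ≤ 4) (hN : NCp m (JC k x y c)) :
    (∃ a b, Sp k x y m c a b) ∨ (m = 2 ∧ AL k x y c (x 1) (x 2)) ∨
      (m = 2 ∧ AL k x y c (y k) (y (k - 1))) := by
  have hF := noFull_small hG hc hcat hm4
  rcases shape_cases hG h hcat hF with h1 | ⟨a, hX⟩ | ⟨a, hX⟩
  · exact Or.inl h1
  · exact Or.inr (Or.inl (oneX_le4 hG hc h hk hends hcat hm hm4 hN hX))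
  · right; right
    have hNr : NCp m (JC k (fun i => y (k + 1 - i)) (fun i => x (k + 1 - i)) c) := by
      rw [jc_rev]; exact hN
    have hendsr : (∀ w, ¬ Lk G R ((fun i => y (k + 1 - i)) 1) w) ∧
        ∀ w, ¬ Lk G R ((fun i => x (k + 1 - i)) k) w := by
      refine ⟨hends.2, fun w => ?_⟩
      show ¬ Lk G R (x (k + 1 - k)) w
      rw [show k + 1 - k = 1 by omega]; exact hends.1 w
    obtain ⟨e, hA⟩ := oneX_le4 hG hc h.rev hk hendsr hcat hm hm4 hNr hX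
    refine ⟨e, ?_⟩
    obtain ⟨a', b', hab, ea, eb, hall⟩ := hA
    exact ⟨a', b', hab, ea, eb, fun j hj n1 n2 hin => hall j hj n1 n2 (inC_rev.2 hin)⟩

end CLB.H80
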