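import Pool.Agent.Helper80_DA.Le4
import Pool.Agent.Helper95_CLB.WinR

/-!
MP_da6743_co: the foreign components in a window at an end of an open chain.
-/

set_option autoImplicit false
set_option linter.unusedSectionVars false

namespace CLB.H80

open Finset Classical CLB.H95
open H3DA (Q neg nr)
open CLB.H3 (CExt Cat IsTwo Fits UPath he_of_unc cat_structure chn_side pos NoFull noFull_shape noFull_inj
  noFull_small)
open CLB.H91 (LM no_fork_xx ncp_forks ends_rev)

variable {V : Type*} {G : SimpleGraph V} {R : V → Bool} [Fintype V] {k r : ℕ} {x y : ℕ → V}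
  {m m' : ℕ} {z c z' c' : ℕ → V}

/-- The component sees `X 1`, `X 3` with one fork and `X 2` with the other fork, and nothing else in the
window. -/
def Tern (X : ℕ → V) (r : ℕ) (Y : ℕ → V) (m : ℕ) (c : ℕ → V) : Prop :=
  m = 2 ∧ 3 ≤ r ∧ ∃ o o' q q', LM 2 o o' ∧ LM 2 q q' ∧ pos 2 o ≠ pos 2 q ∧ c o = X 1 ∧ c o' = X 3 ∧
    c q = X 2 ∧ ¬ InC r X Y (c q')

/-- Own and foreign port edges. -/
lemma fp_see (hcat : Cat G R m z c) (v : V) :
    fp G R m z v + ((range (m + 2)).filter (fun j => c j = v)).card ≤ (prt G R v).card := by
  have h1 : ((range (m + 2)).filter (fun j => c j = v)).card ≤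
      ((prt G R v).filter (fun w => ¬ w ∉ cSupp m z)).card := by
    refine Finset.card_le_card_of_injOn (fun j => z (cl m j)) ?_ ?_
    · intro j hj
      rw [mem_coe, mem_filter, mem_range] at hj
      rw [mem_coe, mem_filter, not_not]
      exact port_mem hcat (by omega) hj.2
    · intro i hi j hj hij
      rw [mem_coe, mem_filter, mem_range] at hi hj
      exact port_unique hcat (by omega) (by omega) (hi.2.trans hj.2.symm) hij
  have h2 := Finset.card_filter_add_card_filter_not (s := prt G R v) (fun w => w ∉ cSupp m z)
  unfold fp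
  omega

/-- The indices of the window. -/
lemma win_see (c : ℕ → V) (n : ℕ) : ((range n).filter (fun j => InC r x y (c j))).card ≤
    ∑ i ∈ Icc 1 r, (((range n).filter (fun j => c j = x i)).card +
      ((range n).filter (fun j => c j = y i)).card) := by
  have h1 : (range n).filter (fun j => InC r x y (c j)) ⊆
      (Icc 1 r).biUnion (fun i => (range n).filter (fun j => c j = x i) ∪
        (range n).filter (fun j => c j = y i)) := by
    intro j hj
    rw [mem_filter] at hj
    obtain ⟨hj, i, i1, i2, i3⟩ := hj
    rw [mem_biUnion]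
    refine ⟨i, mem_Icc.2 ⟨i1, i2⟩, ?_⟩
    rw [mem_union, mem_filter, mem_filter]
    rcases i3 with i3 | i3
    · exact Or.inl ⟨hj, i3⟩
    · exact Or.inr ⟨hj, i3⟩
  refine (Finset.card_le_card h1).trans (Finset.card_biUnion_le.trans ?_)
  exact Finset.sum_le_sum fun i _ => Finset.card_union_le _ _

lemma fp_sum_le (hG : ClassC G R) (h : Chn G R k x y) (hr : r < k) (hcat : Cat G R m z c) :
    ∑ i ∈ Icc 1 r, (fp G R m z (x i) + fp G R m z (y i)) +
      ((range (m + 2)).filter (fun j => InC r x y (c j))).card ≤ 2 * r + 1 := by
  have h1 := win_see (r := r) (x := x) (y := y) c (m + 2)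
  have h2 : ∑ i ∈ Icc 1 r, (fp G R m z (x i) + fp G R m z (y i)) +
      ∑ i ∈ Icc 1 r, (((range (m + 2)).filter (fun j => c j = x i)).card +
        ((range (m + 2)).filter (fun j => c j = y i)).card) ≤
      ∑ i ∈ Icc 1 r, (2 + (if i = 1 then 1 else 0)) := by
    rw [← Finset.sum_add_distrib]
    refine Finset.sum_le_sum fun i hi => ?_
    rw [mem_Icc] at hi
    have a1 := fp_see hcat (x i)
    have a2 := fp_see hcat (y i)
    have a3 : (prt G R (y i)).card ≤ 1 := prt_card_lk hG (h.lk i hi.1 (by omega))
    have a4 : (prt G R (x i)).card ≤ 1 + (if i = 1 then 1 else 0) := by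
      by_cases h1 : i = 1
      · rw [if_pos h1]
        exact prt_card hG (h.cov (InC.x (x := x) (y := y) hi.1 (by omega)))
      · rw [if_neg h1]
        have := h.lk (i - 1) (by omega) (by omega)
        rw [show i - 1 + 1 = i by omega] at this
        exact prt_card_lk hG this.symm
    omega
  have h3 : ∑ i ∈ Icc 1 r, (2 + (if i = 1 then 1 else 0)) ≤ 2 * r + 1 := by
    rw [Finset.sum_add_distrib, Finset.sum_const, Nat.card_Icc]
    have : ∑ i ∈ Icc 1 r, (if i = 1 then 1 else 0) ≤ 1 := by
      rw [Finset.sum_ite_eq']
      split_ifs <;> omega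
    simp only [smul_eq_mul]
    omega
  omega

lemma not_mem_supp (hcat : Cat G R m z c) (hC : Cat G R m' z' c') (hne : cSupp m' z' ≠ cSupp m z)
    {i : ℕ} (h1 : 1 ≤ i) (h2 : i ≤ m') : z' i ∉ cSupp m z :=
  fun h' => hne (cSupp_eq hC hcat (mem_cSupp h1 h2) h')

lemma units4 {u0 u1 u4 u5 : ℕ} (a0 : 1 ≤ u0) (a0' : u0 ≤ 4) (a1 : 1 ≤ u1) (a1' : u1 ≤ 4)
    (a4 : 1 ≤ u4) (a4' : u4 ≤ 4) (a5 : 1 ≤ u5) (a5' : u5 ≤ 4) (r01 : u0 % 2 = u1 % 2)
    (r04 : u0 % 2 ≠ u4 % 2) (r45 : u4 % 2 = u5 % 2) (n01 : u0 ≠ u1) (n45 : u4 ≠ u5) :
    ((u0 = 2 ∧ u1 = 4) ∨ (u0 = 4 ∧ u1 = 2) ∨ (u4 = 2 ∧ u5 = 4) ∨ (u4 = 4 ∧ u5 = 2)) ∧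
      ∀ u, 1 ≤ u → u ≤ 4 → u = u0 ∨ u = u1 ∨ u = u4 ∨ u = u5 := by
  have e01 : (u0 = 1 ∧ u1 = 3) ∨ (u0 = 3 ∧ u1 = 1) ∨ (u0 = 2 ∧ u1 = 4) ∨ (u0 = 4 ∧ u1 = 2) := by omega
  have e45 : (u4 = 1 ∧ u5 = 3) ∨ (u4 = 3 ∧ u5 = 1) ∨ (u4 = 2 ∧ u5 = 4) ∨ (u4 = 4 ∧ u5 = 2) := by omega
  rcases e01 with ⟨rfl, rfl⟩ | ⟨rfl, rfl⟩ | ⟨rfl, rfl⟩ | ⟨rfl, rfl⟩ <;>
    rcases e45 with ⟨rfl, rfl⟩ | ⟨rfl, rfl⟩ | ⟨rfl, rfl⟩ | ⟨rfl, rfl⟩ <;>
    first
    | (exfalso; omega)
    | exact ⟨by omega, fun u h1 h2 => by omega⟩

/-- **The foreign components in a window at an end of an open chain.** -/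
theorem clean_end (hG : ClassC G R) (hc : Crit G R) (h : Chn G R k x y)
    (hends : (∀ w, ¬ Lk G R (x 1) w) ∧ ∀ w, ¬ Lk G R (y k) w) (hcat : Cat G R m z c) (hr : r < k)
    (hrk : (r ≤ 3 ∧ 5 ≤ k) ∨ (r ≤ 4 ∧ 7 ≤ k))
    (hfp : ∑ i ∈ Icc 1 r, (fp G R m z (x i) + fp G R m z (y i)) ≤ 5) (hC : Cat G R m' z' c')
    (hne : cSupp m' z' ≠ cSupp m z) :
    (m' = 1 → ∀ i j, i ≤ 2 → j ≤ 2 → InC r x y (c' i) → InC r x y (c' j) → i = j) ∧
    (2 ≤ m' → Cpl x r y m' c' ∨ Tern x r y m' c' ∨ ¬ NCp m' (fun j => InC r x y (c' j))) := by
  have hk3 : 3 ≤ k := by omega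
  have mono : ∀ v, InC r x y v → InC k x y v := by
    rintro v ⟨u, u1, u2, u3⟩
    exact ⟨u, u1, by omega, u3⟩
  refine ⟨fun hm i j hi hj hin hjn => ?_, fun hm => ?_⟩
  · subst hm
    rcases oneH hG h hk3 z' c' hC with hS | hS
    · have key : ∀ l ≤ 1 + 1, InC r x y (c' l) → c' l = x 1 := by
        intro l hl hlin
        rcases hS.all l hl (mono _ hlin) with ⟨u, u1, u2, u3⟩ | ⟨u, u1, u2, u3⟩
        · have : u = 1 := by omega
          rw [this] at u3; exact u3
        · exfalso
          have hu : u = k := by omega
          subst hu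
          obtain ⟨v, v1, v2, v3 | v3⟩ := hlin
          · exact h.xy v u v1 (by omega) (by omega) le_rfl (v3.symm.trans u3)
          · have := h.injy v u v1 (by omega) (by omega) le_rfl (v3.symm.trans u3)
            omega
      exact hS.inj i j hi hj (mono _ hin) ((key i hi hin).trans (key j hj hjn).symm)
    · exact hS i j hi hj (mono _ hin) (mono _ hjn)
  · by_cases hN : NCp m' (fun j => InC r x y (c' j))
    swap
    · exact Or.inr (Or.inr hN)
    rcases Nat.lt_or_ge m' 5 with h5 | h5
    swap
    · -- at least five vertices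
      exfalso
      obtain ⟨j0, hj0⟩ := ncp_miss h5 hN
      have c1 : m' + 1 ≤ ((range (m' + 2)).erase j0).card := by
        by_cases hj : j0 ∈ range (m' + 2)
        · rw [Finset.card_erase_of_mem hj, card_range]; omega
        · rw [Finset.erase_eq_of_notMem hj, card_range]; omega
      have c2 : (range (m' + 2)).erase j0 ⊆ (range (m' + 2)).filter (fun j => InC r x y (c' j)) := by
        intro j hj
        rw [mem_erase, mem_range] at hj
        rw [mem_filter, mem_range]
        exact ⟨hj.2, hj0 j (by omega) hj.1⟩
      have c3 := Finset.card_le_card c2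
      have c4 := win_see (r := r) (x := x) (y := y) c' (m' + 2)
      have c5 : ∑ i ∈ Icc 1 r, (((range (m' + 2)).filter (fun j => c' j = x i)).card +
          ((range (m' + 2)).filter (fun j => c' j = y i)).card) ≤
          ∑ i ∈ Icc 1 r, (fp G R m z (x i) + fp G R m z (y i)) :=
        Finset.sum_le_sum fun i _ => Nat.add_le_add
          (see_card hC (E := cSupp m z) (fun i h1 h2 => not_mem_supp hcat hC hne h1 h2) (x i))
          (see_card hC (E := cSupp m z) (fun i h1 h2 => not_mem_supp hcat hC hne h1 h2) (y i))
      omega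
    · have hF := noFull_small hG hc hC (show m' ≤ 4 by omega)
      obtain ⟨hinj, -⟩ := noFull_inj hG h hC hF
      have su : ∀ {l l' u : ℕ}, l ≤ m' + 1 → l' ≤ m' + 1 → 1 ≤ u → u ≤ k →
          (c' l = x u ∨ c' l = y u) → (c' l' = x u ∨ c' l' = y u) → l = l' :=
        fun hl hl' u1 u2 e e' => same_unit h hF hinj hl hl' u1 u2 e e'
      have hNk : NCp m' (JC k x y c') := ncp_mono (fun j hj => mono _ hj) hN
      have hm' : m' = 2 ∨ m' = 3 ∨ m' = 4 := by omega
      rcases hm' with rfl | rfl | rfl
      · -- two vertices
        have P : ∀ j ≤ 2 + 1, (j ≤ 1 ∧ pos 2 j = 1) ∨ (2 ≤ j ∧ pos 2 j = 2) := by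
          intro j hj
          unfold pos
          split_ifs <;> omega
        obtain ⟨hl, hrr⟩ := ncp_forks hN
        obtain ⟨o, ho, hoJ⟩ : ∃ o ≤ 1, InC r x y (c' o) := by
          rcases hl with h1 | h1
          · exact ⟨0, by omega, h1⟩
          · exact ⟨1, le_rfl, h1⟩
        obtain ⟨q, hq, hq', hqJ⟩ : ∃ q, 2 ≤ q ∧ q ≤ 3 ∧ InC r x y (c' q) := by
          rcases hrr with h1 | h1
          · exact ⟨2, by omega, by omega, h1⟩
          · exact ⟨3, by omega, by omega, h1⟩
        -- all ports in the window are of the form `x i` with `i ≤ a ≤ 3`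
        obtain ⟨a, ha1, ha3, hax, hall⟩ : ∃ a, 1 ≤ a ∧ a ≤ 3 ∧
            (∀ i, 1 ≤ i → i ≤ a → ∃ j ≤ 2 + 1, c' j = x i) ∧
            ∀ j ≤ 2 + 1, InC r x y (c' j) → ∃ i, 1 ≤ i ∧ i ≤ a ∧ i ≤ r ∧ c' j = x i := by
          rcases loc_le4 hG hc h hk3 hends hC hm (by omega) hNk with ⟨a, b, hS⟩ | ⟨-, hA⟩ | ⟨-, hA⟩
          · have ha1 := hS.a1
            have hb1 := hS.b1
            have hab := hS.ab
            have hab4 : a + b ≤ 4 := by
              have ex1 : ∀ i, 1 ≤ i → i ≤ a → ∃ j ≤ 2 + 1, c' j = x i := fun i i1 i2 => hS.px i i1 i2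
              have ex2 : ∀ i, i ≤ k → k + 1 ≤ i + b → ∃ j ≤ 2 + 1, c' j = y i :=
                fun i i1 i2 => hS.py i i1 i2
              by_contra hcon
              -- five different ports
              let g : ℕ → ℕ := fun i => if hi : 1 ≤ i ∧ i ≤ a then (ex1 i hi.1 hi.2).choose
                else if hi : i ≤ k ∧ k + 1 ≤ i + b then (ex2 i hi.1 hi.2).choose else 0
              have gx : ∀ i, 1 ≤ i → i ≤ a → g i ≤ 3 ∧ c' (g i) = x i := by
                intro i i1 i2
                simp only [g, dif_pos (show 1 ≤ i ∧ i ≤ a from ⟨i1, i2⟩)]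
                exact (ex1 i i1 i2).choose_spec
              have gy : ∀ i, a < i → i ≤ k → k + 1 ≤ i + b → g i ≤ 3 ∧ c' (g i) = y i := by
                intro i i0 i1 i2
                simp only [g, dif_neg (show ¬ (1 ≤ i ∧ i ≤ a) by omega),
                  dif_pos (show i ≤ k ∧ k + 1 ≤ i + b from ⟨i1, i2⟩)]
                exact (ex2 i i1 i2).choose_spec
              have hcd : ((Icc 1 a) ∪ (Icc (k + 1 - b) k)).card ≤ (range 4).card := by
                refine Finset.card_le_card_of_injOn g ?_ ?_
                · intro i hi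
                  rw [mem_coe, mem_union, mem_Icc, mem_Icc] at hi
                  rw [mem_coe, mem_range]
                  rcases hi with hi | hi
                  · have := (gx i hi.1 hi.2).1; omega
                  · have := (gy i (by omega) hi.2 (by omega)).1; omega
                · intro i hi j hj hij
                  rw [mem_coe, mem_union, mem_Icc, mem_Icc] at hi hj
                  rcases hi with hi | hi <;> rcases hj with hj | hj
                  · have e1 := (gx i hi.1 hi.2).2
                    have e2 := (gx j hj.1 hj.2).2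
                    rw [hij] at e1
                    exact h.injx i j hi.1 (by omega) hj.1 (by omega) (e1.symm.trans e2)
                  · have e1 := (gx i hi.1 hi.2).2
                    have e2 := (gy j (by omega) hj.2 (by omega)).2
                    rw [hij] at e1
                    exact absurd (e1.symm.trans e2) (h.xy i j hi.1 (by omega) (by omega) hj.2)
                  · have e1 := (gy i (by omega) hi.2 (by omega)).2
                    have e2 := (gx j hj.1 hj.2).2
                    rw [hij] at e1
                    exact absurd (e2.symm.trans e1) (h.xy j i hj.1 (by omega) (by omega) hi.2)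
                  · have e1 := (gy i (by omega) hi.2 (by omega)).2
                    have e2 := (gy j (by omega) hj.2 (by omega)).2
                    rw [hij] at e1
                    exact h.injy i j (by omega) hi.2 (by omega) hj.2 (e1.symm.trans e2)
              rw [Finset.card_union_of_disjoint (by
                rw [Finset.disjoint_left]
                intro i hi hi'
                rw [mem_Icc] at hi hi'
                omega), Nat.card_Icc, Nat.card_Icc, card_range] at hcd
              omega
            refine ⟨a, ha1, by omega, fun i i1 i2 => hS.px i i1 i2, fun j hj hin => ?_⟩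
            rcases hS.all j hj (mono _ hin) with ⟨u, u1, u2, u3⟩ | ⟨u, u1, u2, u3⟩
            · refine ⟨u, u1, u2, ?_, u3⟩
              obtain ⟨v, v1, v2, v3 | v3⟩ := hin
              · have := h.injx u v u1 (by omega) v1 (by omega) (u3.symm.trans v3)
                omega
              · exact absurd (u3.symm.trans v3) (h.xy u v u1 (by omega) v1 (by omega))
            · exfalso
              have hur : u ≤ r := by
                obtain ⟨v, v1, v2, v3 | v3⟩ := hin
                · exact absurd (v3.symm.trans u3) (h.xy v u v1 (by omega) (by omega) u1)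
                · have := h.injy u v (by omega) u1 v1 (by omega) (u3.symm.trans v3)
                  omega
              -- only `k = 5`, `r = 3`, `a = 1`, `b = 3`
              have e1 : b = 3 := by omega
              have e2 : a = 1 := by omega
              have e3 : k = 5 := by omega
              obtain ⟨j1, hj1, f1⟩ := hS.px 1 le_rfl ha1
              obtain ⟨j3, hj3, f3⟩ := hS.py 3 (by omega) (by omega)
              obtain ⟨j5, hj5, f5⟩ := hS.py 5 (by omega) (by omega)
              have q13 := port_par h hC hj1 hj3 (u := 1) (v := 3) ⟨by omega, by omega⟩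
                ⟨by omega, by omega⟩ (Or.inl f1) (Or.inr f3)
              have q15 := port_par h hC hj1 hj5 (u := 1) (v := 5) ⟨by omega, by omega⟩
                ⟨by omega, by omega⟩ (Or.inl f1) (Or.inr f5)
              have n13 : j1 ≠ j3 := by
                rintro rfl
                exact h.xy 1 3 (by omega) (by omega) (by omega) (by omega) (f1.symm.trans f3)
              have n15 : j1 ≠ j5 := by
                rintro rfl
                exact h.xy 1 5 (by omega) (by omega) (by omega) (by omega) (f1.symm.trans f5)
              have n35 : j3 ≠ j5 := by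
                rintro rfl
                have := h.injy 3 5 (by omega) (by omega) (by omega) (by omega) (f3.symm.trans f5)
                omega
              have p1 := P j1 hj1
              have p3 := P j3 hj3
              have p5 := P j5 hj5
              omega
          · obtain ⟨a', b', hab, ea, eb, hall⟩ := hA
            refine ⟨2, by omega, by omega, fun i i1 i2 => ?_, fun j hj hin => ?_⟩
            · have : i = 1 ∨ i = 2 := by omega
              rcases this with rfl | rfl
              · exact ⟨a', by omega, ea⟩
              · exact ⟨b', by omega, eb⟩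
            · have hj' : j = a' ∨ j = b' := by
                by_contra hcon
                push Not at hcon
                exact hall j (by omega) hcon.1 hcon.2 (mono _ hin)
              rcases hj' with rfl | rfl
              · refine ⟨1, le_rfl, by omega, ?_, ea⟩
                obtain ⟨v, v1, v2, -⟩ := hin
                omega
              · refine ⟨2, by omega, le_rfl, ?_, eb⟩
                obtain ⟨v, v1, v2, v3 | v3⟩ := hin
                · have := h.injx 2 v (by omega) (by omega) v1 (by omega) (eb.symm.trans v3)
                  omega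
                · exact absurd (eb.symm.trans v3) (h.xy 2 v (by omega) (by omega) v1 (by omega))
          · exfalso
            obtain ⟨a', b', hab, ea, eb, hall⟩ := hA
            have key : ∀ j ≤ 3, InC r x y (c' j) → j = b' := by
              intro j hj hin
              by_contra hne
              have hja : j = a' := by
                by_contra hne'
                exact hall j hj hne' hne (mono _ hin)
              subst hja
              obtain ⟨v, v1, v2, v3 | v3⟩ := hin
              · exact h.xy v k v1 (by omega) (by omega) le_rfl (v3.symm.trans ea)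
              · have := h.injy v k v1 (by omega) (by omega) le_rfl (v3.symm.trans ea)
                omega
            have k1 := key o (by omega) hoJ
            have k2 := key q hq' hqJ
            omega
        obtain ⟨j1, hj1, e1⟩ := hax 1 le_rfl ha1
        have par : ∀ i j u v, i ≤ 2 + 1 → j ≤ 2 + 1 → 1 ≤ u → u ≤ k → 1 ≤ v → v ≤ k → c' i = x u →
            c' j = x v → (pos 2 i + u) % 2 = (pos 2 j + v) % 2 := fun i j u v hi hj u1 u2 v1 v2 e1 e2 =>
          port_par h hC hi hj ⟨u1, u2⟩ ⟨v1, v2⟩ (Or.inl e1) (Or.inl e2)
        have ha2 : 2 ≤ a ∧ 2 ≤ r := by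
          obtain ⟨u, u1, u2, u3, u4⟩ := hall o (by omega) hoJ
          obtain ⟨v, v1, v2, v3, v4⟩ := hall q (by omega) hqJ
          have := par o q u v (by omega) (by omega) u1 (by omega) v1 (by omega) u4 v4
          have p1 := P o (by omega)
          have p2 := P q (by omega)
          constructor <;> omega
        obtain ⟨j2, hj2, e2⟩ := hax 2 (by omega) ha2.1
        have q12 := par j1 j2 1 2 hj1 hj2 (by omega) (by omega) (by omega) (by omega) e1 e2
        have p1 := P j1 hj1
        have p2 := P j2 hj2
        by_cases h3 : 3 ≤ a ∧ 3 ≤ r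
        · -- the ternary type
          right; left
          obtain ⟨j3, hj3, e3⟩ := hax 3 (by omega) h3.1
          have q13 := par j1 j3 1 3 hj1 hj3 (by omega) (by omega) (by omega) (by omega) e1 e3
          have p3 := P j3 hj3
          have n13 : j1 ≠ j3 := by
            rintro rfl
            have := h.injx 1 3 (by omega) (by omega) (by omega) (by omega) (e1.symm.trans e3)
            omega
          have l13 : LM 2 j1 j3 := by unfold LM; omega
          obtain ⟨q', hq'⟩ := LM.ex (q := j2) (by omega)
          have hq3 := hq'.le (by omega : 2 ≤ 2)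
          have p4 := P q' hq3.2.1
          have hpq : pos 2 j2 = pos 2 q' := hq'.pos_eq (by omega)
          refine ⟨rfl, h3.2, j1, j3, j2, q', l13, hq', by omega, e1, e3, e2, fun hin => ?_⟩
          obtain ⟨u, u1, u2, u3, u4⟩ := hall q' hq3.2.1 hin
          have : u = 1 ∨ u = 2 ∨ u = 3 := by omega
          rcases this with rfl | rfl | rfl
          · have := hinj q' j1 hq3.2.1 hj1 (u4.trans e1.symm)
            subst this; omega
          · exact hq3.2.2 (hinj q' j2 hq3.2.1 hj2 (u4.trans e2.symm)).symm
          · have := hinj q' j3 hq3.2.1 hj3 (u4.trans e3.symm)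
            subst this; omega
        · -- the couple
          left
          have out : ∀ j ≤ 3, j ≠ j1 → j ≠ j2 → ¬ InC r x y (c' j) := by
            intro j hj n1 n2 hin
            obtain ⟨u, u1, u2, u3, u4⟩ := hall j (by omega) hin
            have : u = 1 ∨ u = 2 := by omega
            rcases this with rfl | rfl
            · exact n1 (hinj j j1 hj hj1 (u4.trans e1.symm))
            · exact n2 (hinj j j2 hj hj2 (u4.trans e2.symm))
          refine ⟨rfl, ?_⟩
          rcases p1 with ⟨p1, p1'⟩ | ⟨p1, p1'⟩
          · refine ⟨j1, j2, by omega, by omega, out _ (by omega) (by omega) (by omega),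
              out _ (by omega) (by omega) (by omega), Or.inl ⟨e1, e2⟩⟩
          · refine ⟨j2, j1, by omega, by omega, out _ (by omega) (by omega) (by omega),
              out _ (by omega) (by omega) (by omega), Or.inr ⟨e2, e1⟩⟩
      · -- three vertices
        exfalso
        obtain ⟨p, q, s, hp, hq, hs, npq, nqs, nps, ⟨u, u1, u2, u3⟩, ⟨v, v1, v2, v3⟩, ⟨w, w1, w2, w3⟩⟩ :=
          ncp_three hN
        have P1 : ∀ j, (j = 0 ∨ j = 1 ∨ j = 3 ∨ j = 4) → j ≤ 3 + 1 ∧ pos 3 j % 2 = 1 := by
          intro j hj
          unfold pos
          split_ifs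
          all_goals omega
        obtain ⟨p1, p2⟩ := P1 p hp
        obtain ⟨q1, q2⟩ := P1 q hq
        obtain ⟨s1, s2⟩ := P1 s hs
        have a1 := port_par h hC p1 q1 ⟨u1, by omega⟩ ⟨v1, by omega⟩ u3 v3
        have a2 := port_par h hC p1 s1 ⟨u1, by omega⟩ ⟨w1, by omega⟩ u3 w3
        have nuv : u ≠ v := by
          rintro rfl; exact npq (su p1 q1 u1 (by omega) u3 v3)
        have nuw : u ≠ w := by
          rintro rfl; exact nps (su p1 s1 u1 (by omega) u3 w3)
        have nvw : v ≠ w := by
          rintro rfl; exact nqs (su q1 s1 v1 (by omega) v3 w3)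
        clear hp hq hs P1
        omega
      · -- four vertices
        exfalso
        have P : ∀ j ≤ 4 + 1, (j ≤ 1 ∧ pos 4 j = 1) ∨ (j = 2 ∧ pos 4 j = 2) ∨ (j = 3 ∧ pos 4 j = 3) ∨
            (4 ≤ j ∧ pos 4 j = 4) := by
          intro j hj
          unfold pos
          split_ifs <;> omega
        -- the number of ports in the window
        have hcount : ∀ T : Finset ℕ, (∀ j ∈ T, j ≤ 4 + 1 ∧ InC r x y (c' j)) → T.card ≤ r := by
          intro T hT
          have h1 : T.card ≤ (Icc 1 r).card := by
            refine Finset.card_le_card_of_injOn (fun j => idx r x y (c' j)) ?_ ?_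
            · intro j hj
              have := idx_spec (hT j hj).2
              rw [Finset.mem_coe, mem_Icc]
              exact ⟨this.1, this.2.1⟩
            · intro i hi j hj hij
              have e1 := idx_spec (hT i hi).2
              have e2 := idx_spec (hT j hj).2
              have hij' : idx r x y (c' i) = idx r x y (c' j) := hij
              rw [← hij'] at e2
              exact su (hT i hi).1 (hT j hj).1 e1.1 (by omega) e1.2.2 e2.2.2
          rw [Nat.card_Icc] at h1
          omega
        have hABC := ncp_abc hN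
        obtain ⟨b0, b1, b4, b5⟩ : InC r x y (c' 0) ∧ InC r x y (c' 1) ∧ InC r x y (c' 4) ∧
            InC r x y (c' 5) := by
          rcases hABC with hb | ⟨a, b, c, d, e⟩ | ⟨a, b, c, d, e⟩
          · exact hb
          · exfalso
            rcases e with e | e
            · have := hcount {0, 1, 2, 3, 4} (fun j hj => by
                simp only [mem_insert, mem_singleton] at hj
                rcases hj with rfl | rfl | rfl | rfl | rfl
                exacts [⟨by omega, a⟩, ⟨by omega, b⟩, ⟨by omega, c⟩, ⟨by omega, d⟩, ⟨by omega, e⟩])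
              rw [show ({0, 1, 2, 3, 4} : Finset ℕ).card = 5 from rfl] at this
              omega
            · have := hcount {0, 1, 2, 3, 5} (fun j hj => by
                simp only [mem_insert, mem_singleton] at hj
                rcases hj with rfl | rfl | rfl | rfl | rfl
                exacts [⟨by omega, a⟩, ⟨by omega, b⟩, ⟨by omega, c⟩, ⟨by omega, d⟩, ⟨by omega, e⟩])
              rw [show ({0, 1, 2, 3, 5} : Finset ℕ).card = 5 from rfl] at this
              omega
          · exfalso
            rcases e with e | e
            · have := hcount {4, 5, 2, 3, 0} (fun j hj => by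
                simp only [mem_insert, mem_singleton] at hj
                rcases hj with rfl | rfl | rfl | rfl | rfl
                exacts [⟨by omega, a⟩, ⟨by omega, b⟩, ⟨by omega, c⟩, ⟨by omega, d⟩, ⟨by omega, e⟩])
              rw [show ({4, 5, 2, 3, 0} : Finset ℕ).card = 5 from rfl] at this
              omega
            · have := hcount {4, 5, 2, 3, 1} (fun j hj => by
                simp only [mem_insert, mem_singleton] at hj
                rcases hj with rfl | rfl | rfl | rfl | rfl
                exacts [⟨by omega, a⟩, ⟨by omega, b⟩, ⟨by omega, c⟩, ⟨by omega, d⟩, ⟨by omega, e⟩])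
              rw [show ({4, 5, 2, 3, 1} : Finset ℕ).card = 5 from rfl] at this
              omega
        have hr4 : 4 ≤ r := by
          have := hcount {0, 1, 4, 5} (fun j hj => by
            simp only [mem_insert, mem_singleton] at hj
            rcases hj with rfl | rfl | rfl | rfl
            exacts [⟨by omega, b0⟩, ⟨by omega, b1⟩, ⟨by omega, b4⟩, ⟨by omega, b5⟩])
          rw [show ({0, 1, 4, 5} : Finset ℕ).card = 4 from rfl] at this
          exact this
        have hk7 : 7 ≤ k := by omega
        have hr4' : r = 4 := by omega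
        subst hr4'
        rcases loc_le4 hG hc h hk3 hends hC hm (by omega) hNk with ⟨a, b, hS⟩ | ⟨h', -⟩ | ⟨h', -⟩
        swap
        · exact absurd h' (by omega)
        swap
        · exact absurd h' (by omega)
        -- the units of the four leaves
        obtain ⟨u0, u01, u02, u03⟩ := b0
        obtain ⟨u1, u11, u12, u13⟩ := b1
        obtain ⟨u4, u41, u42, u43⟩ := b4
        obtain ⟨u5, u51, u52, u53⟩ := b5
        have r01 := port_par h hC (show 0 ≤ 4 + 1 by omega) (show 1 ≤ 4 + 1 by omega) ⟨u01, by omega⟩
          ⟨u11, by omega⟩ u03 u13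
        have r04 := port_par h hC (show 0 ≤ 4 + 1 by omega) (show 4 ≤ 4 + 1 by omega) ⟨u01, by omega⟩
          ⟨u41, by omega⟩ u03 u43
        have r45 := port_par h hC (show 4 ≤ 4 + 1 by omega) (show 5 ≤ 4 + 1 by omega) ⟨u41, by omega⟩
          ⟨u51, by omega⟩ u43 u53
        have q0 : pos 4 0 = 1 := rfl
        have q1 : pos 4 1 = 1 := rfl
        have q4 : pos 4 4 = 4 := rfl
        have q5 : pos 4 5 = 4 := rfl
        rw [q0, q1] at r01
        rw [q0, q4] at r04
        rw [q4, q5] at r45
        have n01 : u0 ≠ u1 := by
          rintro rfl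
          have := su (show 0 ≤ 4 + 1 by omega) (show 1 ≤ 4 + 1 by omega) u01 (by omega) u03 u13
          omega
        have n45 : u4 ≠ u5 := by
          rintro rfl
          have := su (show 4 ≤ 4 + 1 by omega) (show 5 ≤ 4 + 1 by omega) u41 (by omega) u43 u53
          omega
        -- the letters
        have hab6 : a + b ≤ 6 := by
          by_contra hcon
          have ex1 : ∀ i, 1 ≤ i → i ≤ a → ∃ j ≤ 4 + 1, c' j = x i := fun i i1 i2 => hS.px i i1 i2
          have ex2 : ∀ i, i ≤ k → k + 1 ≤ i + b → ∃ j ≤ 4 + 1, c' j = y i :=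
            fun i i1 i2 => hS.py i i1 i2
          have hab := hS.ab
          let g : ℕ → ℕ := fun i => if hi : 1 ≤ i ∧ i ≤ a then (ex1 i hi.1 hi.2).choose
            else if hi : i ≤ k ∧ k + 1 ≤ i + b then (ex2 i hi.1 hi.2).choose else 0
          have gx : ∀ i, 1 ≤ i → i ≤ a → g i ≤ 5 ∧ c' (g i) = x i := by
            intro i i1 i2
            simp only [g, dif_pos (show 1 ≤ i ∧ i ≤ a from ⟨i1, i2⟩)]
            exact (ex1 i i1 i2).choose_spec
          have gy : ∀ i, a < i → i ≤ k → k + 1 ≤ i + b → g i ≤ 5 ∧ c' (g i) = y i := by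
            intro i i0 i1 i2
            simp only [g, dif_neg (show ¬ (1 ≤ i ∧ i ≤ a) by omega),
              dif_pos (show i ≤ k ∧ k + 1 ≤ i + b from ⟨i1, i2⟩)]
            exact (ex2 i i1 i2).choose_spec
          have hcd : ((Icc 1 a) ∪ (Icc (k + 1 - b) k)).card ≤ (range 6).card := by
            refine Finset.card_le_card_of_injOn g ?_ ?_
            · intro i hi
              rw [mem_coe, mem_union, mem_Icc, mem_Icc] at hi
              rw [mem_coe, mem_range]
              rcases hi with hi | hi
              · have := (gx i hi.1 hi.2).1; omega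
              · have := (gy i (by omega) hi.2 (by omega)).1; omega
            · intro i hi j hj hij
              rw [mem_coe, mem_union, mem_Icc, mem_Icc] at hi hj
              rcases hi with hi | hi <;> rcases hj with hj | hj
              · have e1 := (gx i hi.1 hi.2).2
                have e2 := (gx j hj.1 hj.2).2
                rw [hij] at e1
                exact h.injx i j hi.1 (by omega) hj.1 (by omega) (e1.symm.trans e2)
              · have e1 := (gx i hi.1 hi.2).2
                have e2 := (gy j (by omega) hj.2 (by omega)).2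
                rw [hij] at e1
                exact absurd (e1.symm.trans e2) (h.xy i j hi.1 (by omega) (by omega) hj.2)
              · have e1 := (gy i (by omega) hi.2 (by omega)).2
                have e2 := (gx j hj.1 hj.2).2
                rw [hij] at e1
                exact absurd (e2.symm.trans e1) (h.xy j i hj.1 (by omega) (by omega) hi.2)
              · have e1 := (gy i (by omega) hi.2 (by omega)).2
                have e2 := (gy j (by omega) hj.2 (by omega)).2
                rw [hij] at e1
                exact h.injy i j (by omega) hi.2 (by omega) hj.2 (e1.symm.trans e2)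
          rw [Finset.card_union_of_disjoint (by
            rw [Finset.disjoint_left]
            intro i hi hi'
            rw [mem_Icc] at hi hi'
            omega), Nat.card_Icc, Nat.card_Icc, card_range] at hcd
          have := hS.a1
          have := hS.b1
          omega
        have hx : ∀ j u, j ≤ 4 + 1 → 1 ≤ u → u ≤ 4 → (c' j = x u ∨ c' j = y u) → c' j = x u ∧ u ≤ a ∨
            (c' j = y u ∧ k + 1 ≤ u + b) := by
          intro j u hj hu1 hu2 e
          rcases hS.all j hj ⟨u, hu1, by omega, e⟩ with ⟨i, i1, i2, i3⟩ | ⟨i, i1, i2, i3⟩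
          · rcases e with e | e
            · have := h.injx u i hu1 (by omega) i1 (by have := hS.ab; omega) (e.symm.trans i3)
              subst this
              exact Or.inl ⟨e, i2⟩
            · exact absurd (i3.symm.trans e) (h.xy i u i1 (by have := hS.ab; omega) hu1 (by omega))
          · rcases e with e | e
            · exact absurd (e.symm.trans i3) (h.xy u i hu1 (by omega) (by have := hS.ab; omega) i1)
            · have := h.injy u i hu1 (by omega) (by have := hS.ab; omega) i1 (e.symm.trans i3)
              subst this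
              exact Or.inr ⟨e, i2⟩
        -- the unit four is seen through `x`
        obtain ⟨h24, hcov⟩ := units4 u01 u02 u11 u12 u41 u42 u51 u52 (show u0 % 2 = u1 % 2 by omega)
          (show u0 % 2 ≠ u4 % 2 by omega) (show u4 % 2 = u5 % 2 by omega) n01 n45
        have fin : ∀ j j', LM 4 j j' → j ≤ 4 + 1 → j' ≤ 4 + 1 → (c' j = x 4 ∨ c' j = y 4) →
            (c' j' = x 2 ∨ c' j' = y 2) → False := by
          intro j j' hlm hj hj' e e'
          rcases hx j 4 hj (by omega) le_rfl e with ⟨e, ha⟩ | ⟨e, hb⟩
          · rcases hx j' 2 hj' (by omega) (by omega) e' with ⟨e', -⟩ | ⟨e', hb⟩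
            · exact no_fork_xx hG h hC (by omega) hlm (u := 4) (v := 2) (by omega) (by omega) (by omega) e e'
            · omega
          · -- then also unit 3, 2, 1 are seen through `y`, or through `x`
            have ha1 := hS.a1
            -- all four units of the window are covered by `1..a` and `k+1-b..`
            have cov4 : ∀ u, 1 ≤ u → u ≤ 4 → u ≤ a ∨ k + 1 ≤ u + b := by
              intro u hu1 hu2
              have hex : ∃ j ≤ 4 + 1, (c' j = x u ∨ c' j = y u) := by
                rcases hcov u hu1 hu2 with rfl | rfl | rfl | rfl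
                exacts [⟨0, by omega, u03⟩, ⟨1, by omega, u13⟩, ⟨4, by omega, u43⟩, ⟨5, by omega, u53⟩]
              obtain ⟨j, hj, hju⟩ := hex
              rcases hx j u hj hu1 hu2 hju with h' | h'
              · exact Or.inl h'.2
              · exact Or.inr h'.2
            have c1 := cov4 1 le_rfl (by omega)
            have c2 := cov4 2 (by omega) (by omega)
            have c3 := cov4 3 (by omega) (by omega)
            have c4 := cov4 4 (by omega) le_rfl
            omega
        have m01 : LM 4 0 1 := by unfold LM; omega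
        have m45 : LM 4 4 5 := by unfold LM; omega
        rcases h24 with ⟨e, e'⟩ | ⟨e, e'⟩ | ⟨e, e'⟩ | ⟨e, e'⟩
        · rw [e] at u03; rw [e'] at u13
          exact fin 1 0 m01.symm (by omega) (by omega) u13 u03
        · rw [e] at u03; rw [e'] at u13
          exact fin 0 1 m01 (by omega) (by omega) u03 u13
        · rw [e] at u43; rw [e'] at u53
          exact fin 5 4 m45.symm (by omega) (by omega) u53 u43
        · rw [e] at u43; rw [e'] at u53
          exact fin 4 5 m45 (by omega) (by omega) u43 u53

/-- The same with the number of own ports. -/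
theorem clean_end' (hG : ClassC G R) (hc : Crit G R) (h : Chn G R k x y)
    (hends : (∀ w, ¬ Lk G R (x 1) w) ∧ ∀ w, ¬ Lk G R (y k) w) (hcat : Cat G R m z c) (hr : r < k)
    (hrk : (r ≤ 3 ∧ 5 ≤ k) ∨ (r ≤ 4 ∧ 7 ≤ k))
    (hown : 2 * r ≤ 4 + ((range (m + 2)).filter (fun j => InC r x y (c j))).card)
    (hC : Cat G R m' z' c') (hne : cSupp m' z' ≠ cSupp m z) :
    (m' = 1 → ∀ i j, i ≤ 2 → j ≤ 2 → InC r x y (c' i) → InC r x y (c' j) → i = j) ∧
    (2 ≤ m' → Cpl x r y m' c' ∨ Tern x r y m' c' ∨ ¬ NCp m' (fun j => InC r x y (c' j))) := by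
  have := fp_sum_le (z := z) hG h hr hcat
  exact clean_end hG hc h hends hcat hr hrk (by omega) hC hne

end CLB.H80
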