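import Pool.Agent.Helper95_CLB.OnlWalk
import Pool.Agent.Helper3_DA.LastUnit

/-!
Walks through history dependent lists that avoid a partial injection between the first and the last label.
-/

set_option autoImplicit false
set_option linter.unusedSectionVars false

namespace CLB.H80

open Finset
open CLB.H95
open H3DA (Q neg nr nr_comm)

/-! ### Three starts: a finite fact -/

/-- Far from both labels. -/
def sf (a b v : Q) : Bool := !(nr v a) && !(nr v b)

lemma sf_iff {a b v : Q} : sf a b v = true ↔ nr v a = false ∧ nr v b = false := by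
  unfold sf
  cases nr v a <;> cases nr v b <;> simp

set_option synthInstance.maxSize 100000 in
set_option synthInstance.maxHeartbeats 4000000 in
lemma claimA : ∀ k1 k2 e : Q, k1 ≠ k2 → k1 ≠ e → k2 ≠ e →
    ∀ u1 : Q, (∀ v : Q, sf k2 e v = true → nr u1 v = true) → (∃ v : Q, sf k2 e v = true) →
    ∀ u2 : Q, (∀ v : Q, sf k1 e v = true → nr u2 v = true) → (∃ v : Q, sf k1 e v = true) →
    u1 ≠ u2 →
    (∃ r : Q, nr u1 r = true ∧ nr u2 r = true ∧ sf k2 e r = false ∧ sf k1 e r = false) →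
    ∀ u3 : Q, (∀ v : Q, sf k1 k2 v = true → nr u3 v = true) → u3 ≠ u1 → u3 ≠ u2 →
    (∃ r : Q, nr u1 r = true ∧ nr u3 r = true ∧ sf k2 e r = false ∧ sf k1 k2 r = false) →
    (∃ r : Q, nr u2 r = true ∧ nr u3 r = true ∧ sf k1 e r = false ∧ sf k1 k2 r = false) →
    False := by
  decide +kernel

set_option synthInstance.maxSize 100000 in
set_option synthInstance.maxHeartbeats 4000000 in
lemma claimB : ∀ k1 k2 e : Q, k1 ≠ k2 → k1 ≠ e → k2 ≠ e →
    ∀ u1 : Q, (∀ v : Q, sf k2 e v = true → nr u1 v = true) → (∃ v : Q, sf k2 e v = true) →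
    ∀ u2 : Q, (∀ v : Q, sf k1 e v = true → nr u2 v = true) → (∃ v : Q, sf k1 e v = true) →
    u1 ≠ u2 →
    ∀ u3 z : Q, nr u3 z = true → sf k2 e z = false → sf k1 e z = false →
    (∀ r : Q, nr u1 r = true → sf k2 e r = false → nr u3 r = true ∧ r ≠ z) →
    (∀ r : Q, nr u2 r = true → sf k1 e r = false → nr u3 r = true ∧ r ≠ z) →
    (nr z k1 = true ∧ nr z k2 = true) ∨ (nr z k1 = true ∧ nr z e = true) ∨
      (nr z k2 = true ∧ nr z e = true) := by
  decide +kernel

lemma sf_card : ∀ a b : Q, a ≠ b → (univ.filter (fun v : Q => sf a b v = true)).card ≤ 2 := by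
  decide +kernel

/-- The list `L` after the label `u`, the last list `M`: only the label `k` is reached. -/
def Bd (u k : Q) (L M : Finset Q) : Prop :=
  ∀ z ∈ ball u ∩ L, ∀ e ∈ M, nr z e = true → e = k

lemma Bd.sub {u k : Q} {L M : Finset Q} (h : Bd u k L M) : nb (ball u ∩ L) ∩ M ⊆ {k} := by
  intro e he
  rw [mem_inter, mem_nb] at he
  obtain ⟨⟨z, hz, hze⟩, heM⟩ := he
  rw [mem_singleton]
  exact h z hz e heM hze

lemma Bd.card_le {u k : Q} {L M : Finset Q} (h : Bd u k L M) (hM : 3 ≤ M.card) :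
    (ball u ∩ L).card ≤ 2 := by
  by_contra hcon
  have h1 := nb_card3 (show 3 ≤ (ball u ∩ L).card by omega)
  have h2 := card_inter_ge (nb (ball u ∩ L)) M
  have h3 := Finset.card_le_card h.sub
  rw [card_singleton] at h3
  omega

lemma Bd.two {u k : Q} {L M : Finset Q} (h : Bd u k L M) (hM : 3 ≤ M.card)
    (hS : 2 ≤ (ball u ∩ L).card) : M.card = 3 ∧ k ∈ M := by
  have h1 := nb_card2 hS
  have h2 := card_inter_ge (nb (ball u ∩ L)) M
  have h3 := Finset.card_le_card h.sub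
  rw [card_singleton] at h3
  have hk : k ∈ M := by
    obtain ⟨e, he⟩ := Finset.card_pos.1 (show 0 < (nb (ball u ∩ L) ∩ M).card by omega)
    have := mem_singleton.1 (h.sub he)
    rw [← this]
    exact (mem_inter.1 he).2
  exact ⟨by omega, hk⟩

/-- The reached labels are exactly those far from the two other labels of `M`. -/
lemma Bd.eq {u k a b : Q} {L M : Finset Q} (h : Bd u k L M) (hS : 2 ≤ (ball u ∩ L).card)
    (ha : a ∈ M) (hb : b ∈ M) (hab : a ≠ b) (hak : a ≠ k) (hbk : b ≠ k) :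
    ball u ∩ L = univ.filter (fun v : Q => sf a b v = true) := by
  apply Finset.eq_of_subset_of_card_le
  · intro z hz
    rw [mem_filter, sf_iff]
    refine ⟨mem_univ _, ?_, ?_⟩
    · by_contra hn
      exact hak (h z hz a ha (by simpa using hn))
    · by_contra hn
      exact hbk (h z hz b hb (by simpa using hn))
  · exact (sf_card a b hab).trans hS

lemma union_card {u u' : Q} {L L' : Finset Q} (hu : u ≠ u') (hL : 5 ≤ (L ∩ L').card) :
    3 ≤ (ball u ∩ L ∪ ball u' ∩ L').card := by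
  have h1 := ball_union_card u u' hu
  have h2 := card_inter_ge (ball u ∪ ball u') (L ∩ L')
  have h3 : (ball u ∪ ball u') ∩ (L ∩ L') ⊆ ball u ∩ L ∪ ball u' ∩ L' := by
    intro z hz
    simp only [mem_inter, mem_union] at hz ⊢
    tauto
  have := Finset.card_le_card h3
  omega

/-- The labels near `u` outside of `L`. -/
lemma out_card {u : Q} {L : Finset Q} : (ball u \ (ball u ∩ L)).card + (ball u ∩ L).card = 4 := by
  rw [← ball_card u]
  exact Finset.card_sdiff_add_card_eq_card inter_subset_left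

lemma out_union {u u' : Q} {L L' : Finset Q} (hL : 5 ≤ (L ∩ L').card) :
    ((ball u \ (ball u ∩ L)) ∪ (ball u' \ (ball u' ∩ L'))).card ≤ 3 := by
  have h1 : (ball u \ (ball u ∩ L)) ∪ (ball u' \ (ball u' ∩ L')) ⊆ univ \ (L ∩ L') := by
    intro z hz
    simp only [mem_union, mem_sdiff, mem_inter, mem_univ, true_and] at hz ⊢
    tauto
  have h2 := Finset.card_le_card h1
  have h3 := Finset.card_sdiff_add_card_eq_card (subset_univ (L ∩ L'))
  rw [card_univ_Q] at h3
  omega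

lemma meet_of {u u' : Q} {L L' : Finset Q} (hL : 5 ≤ (L ∩ L').card)
    (h1 : (ball u ∩ L).card = 2) (h2 : (ball u' ∩ L').card = 2) :
    ∃ r, nr u r = true ∧ nr u' r = true ∧ r ∉ ball u ∩ L ∧ r ∉ ball u' ∩ L' := by
  have e1 := out_card (u := u) (L := L)
  have e2 := out_card (u := u') (L := L')
  have e3 := out_union (u := u) (u' := u') hL
  have e4 := Finset.card_union_add_card_inter (ball u \ (ball u ∩ L)) (ball u' \ (ball u' ∩ L'))
  obtain ⟨r, hr⟩ := Finset.card_pos.1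
    (show 0 < ((ball u \ (ball u ∩ L)) ∩ (ball u' \ (ball u' ∩ L'))).card by omega)
  rw [mem_inter, mem_sdiff, mem_sdiff, mem_ball, mem_ball] at hr
  exact ⟨r, hr.1.1, hr.2.1, hr.1.2, hr.2.2⟩

theorem core3 {u1 u2 u3 k1 k2 k3 : Q} {L1 L2 L3 M1 M2 M3 : Finset Q} (hu12 : u1 ≠ u2)
    (hu13 : u1 ≠ u3) (hu23 : u2 ≠ u3) (hk12 : k1 ≠ k2) (hk13 : k1 ≠ k3) (hk23 : k2 ≠ k3)
    (l12 : 5 ≤ (L1 ∩ L2).card) (l13 : 5 ≤ (L1 ∩ L3).card) (l23 : 5 ≤ (L2 ∩ L3).card)
    (m12 : 3 ≤ (M1 ∩ M2).card) (m13 : 3 ≤ (M1 ∩ M3).card) (b1 : Bd u1 k1 L1 M1) (b2 : Bd u2 k2 L2 M2)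
    (b3 : Bd u3 k3 L3 M3) (s1 : 2 ≤ (ball u1 ∩ L1).card) (s2 : 2 ≤ (ball u2 ∩ L2).card) : False := by
  have hM1 : 3 ≤ M1.card := m12.trans (Finset.card_le_card inter_subset_left)
  have hM2 : 3 ≤ M2.card := m12.trans (Finset.card_le_card inter_subset_right)
  have hM3 : 3 ≤ M3.card := m13.trans (Finset.card_le_card inter_subset_right)
  obtain ⟨c1, hk1⟩ := b1.two hM1 s1
  obtain ⟨c2, hk2⟩ := b2.two hM2 s2
  have hM : M1 = M2 := by
    have e1 : M1 ∩ M2 = M1 := Finset.eq_of_subset_of_card_le inter_subset_left (by omega)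
    have e2 : M1 ∩ M2 = M2 := Finset.eq_of_subset_of_card_le inter_subset_right (by omega)
    rw [← e1, e2]
  subst hM
  have hM13 : M1 ⊆ M3 := by
    have e1 : M1 ∩ M3 = M1 := Finset.eq_of_subset_of_card_le inter_subset_left (by omega)
    rw [← e1]; exact inter_subset_right
  obtain ⟨e, he⟩ : ∃ e, e ∈ (M1.erase k1).erase k2 := by
    apply Finset.card_pos.1
    rw [Finset.card_erase_of_mem (mem_erase.2 ⟨hk12.symm, hk2⟩), Finset.card_erase_of_mem hk1]
    omega
  rw [mem_erase, mem_erase] at he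
  obtain ⟨he2, he1, heM⟩ := he
  have S1 := b1.eq s1 hk2 heM he2.symm hk12.symm he1
  have S2 := b2.eq s2 hk1 heM he1.symm hk12 he2
  have t1 := b1.card_le hM1
  have t2 := b2.card_le hM2
  have t3 := b3.card_le hM3
  have f1 : ∀ v : Q, sf k2 e v = true → nr u1 v = true := by
    intro v hv
    have : v ∈ ball u1 ∩ L1 := by rw [S1, mem_filter]; exact ⟨mem_univ _, hv⟩
    exact mem_ball.1 (mem_inter.1 this).1
  have f2 : ∀ v : Q, sf k1 e v = true → nr u2 v = true := by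
    intro v hv
    have : v ∈ ball u2 ∩ L2 := by rw [S2, mem_filter]; exact ⟨mem_univ _, hv⟩
    exact mem_ball.1 (mem_inter.1 this).1
  have g1 : ∃ v : Q, sf k2 e v = true := by
    obtain ⟨v, hv⟩ := Finset.card_pos.1 (show 0 < (ball u1 ∩ L1).card by omega)
    rw [S1, mem_filter] at hv
    exact ⟨v, hv.2⟩
  have g2 : ∃ v : Q, sf k1 e v = true := by
    obtain ⟨v, hv⟩ := Finset.card_pos.1 (show 0 < (ball u2 ∩ L2).card by omega)
    rw [S2, mem_filter] at hv
    exact ⟨v, hv.2⟩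
  have n1 : ∀ r, r ∉ ball u1 ∩ L1 ↔ sf k2 e r = false := by
    intro r
    rw [S1, mem_filter]
    simp
  have n2 : ∀ r, r ∉ ball u2 ∩ L2 ↔ sf k1 e r = false := by
    intro r
    rw [S2, mem_filter]
    simp
  have c13 := union_card hu13 l13
  have c23 := union_card hu23 l23
  have c13' := Finset.card_union_le (ball u1 ∩ L1) (ball u3 ∩ L3)
  by_cases hS3 : 2 ≤ (ball u3 ∩ L3).card
  · obtain ⟨c3, hk3⟩ := b3.two hM3 hS3
    have hM31 : M1 = M3 := Finset.eq_of_subset_of_card_le hM13 (by omega)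
    subst hM31
    have S3 := b3.eq hS3 hk1 hk2 hk12 hk13 hk23
    have f3 : ∀ v : Q, sf k1 k2 v = true → nr u3 v = true := by
      intro v hv
      have : v ∈ ball u3 ∩ L3 := by rw [S3, mem_filter]; exact ⟨mem_univ _, hv⟩
      exact mem_ball.1 (mem_inter.1 this).1
    have n3 : ∀ r, r ∉ ball u3 ∩ L3 ↔ sf k1 k2 r = false := by
      intro r
      rw [S3, mem_filter]
      simp
    have p12 := meet_of l12 (by omega) (show (ball u2 ∩ L2).card = 2 by omega)
      (u := u1)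
    have p13 := meet_of l13 (by omega) (show (ball u3 ∩ L3).card = 2 by omega) (u := u1)
    have p23 := meet_of l23 (by omega) (show (ball u3 ∩ L3).card = 2 by omega) (u := u2)
    simp only [n1, n2, n3] at p12 p13 p23
    exact claimA k1 k2 e hk12 he1.symm he2.symm u1 f1 g1 u2 f2 g2 hu12 p12 u3 f3 hu13.symm hu23.symm
      p13 p23
  · have hS31 : (ball u3 ∩ L3).card = 1 := by omega
    obtain ⟨z, hz⟩ := Finset.card_eq_one.1 hS31
    have hzm : z ∈ ball u3 ∩ L3 := by rw [hz]; exact mem_singleton_self z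
    have hz1 : z ∉ ball u1 ∩ L1 := by
      intro h'
      have : ball u1 ∩ L1 ∪ ball u3 ∩ L3 = ball u1 ∩ L1 := by
        rw [hz]; exact Finset.union_eq_left.2 (singleton_subset_iff.2 h')
      rw [this] at c13; omega
    have hz2 : z ∉ ball u2 ∩ L2 := by
      intro h'
      have : ball u2 ∩ L2 ∪ ball u3 ∩ L3 = ball u2 ∩ L2 := by
        rw [hz]; exact Finset.union_eq_left.2 (singleton_subset_iff.2 h')
      rw [this] at c23; omega
    have key : ∀ (u : Q) (L : Finset Q), 5 ≤ (L ∩ L3).card → ∀ r, nr u r = true →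
        r ∉ ball u ∩ L → nr u3 r = true ∧ r ≠ z := by
      intro u L hl r hr hrn
      have e3 := out_union (u := u) (u' := u3) hl
      have e2 := out_card (u := u3) (L := L3)
      have e4 : (ball u \ (ball u ∩ L)) ∪ (ball u3 \ (ball u3 ∩ L3)) = ball u3 \ (ball u3 ∩ L3) :=
        (Finset.eq_of_subset_of_card_le subset_union_right (by omega)).symm
      have e5 : r ∈ ball u3 \ (ball u3 ∩ L3) := by
        rw [← e4, mem_union]
        exact Or.inl (mem_sdiff.2 ⟨mem_ball.2 hr, hrn⟩)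
      rw [mem_sdiff] at e5
      refine ⟨mem_ball.1 e5.1, ?_⟩
      rintro rfl
      exact e5.2 hzm
    have q := claimB k1 k2 e hk12 he1.symm he2.symm u1 f1 g1 u2 f2 g2 hu12 u3 z
      (mem_ball.1 (mem_inter.1 hzm).1) ((n1 z).1 hz1) ((n2 z).1 hz2)
      (fun r h1 h2 => key u1 L1 l13 r h1 ((n1 r).2 h2))
      (fun r h1 h2 => key u2 L2 l23 r h1 ((n2 r).2 h2))
    rcases q with ⟨q1, q2⟩ | ⟨q1, q2⟩ | ⟨q1, q2⟩
    · exact hk12 ((b3 z hzm k1 (hM13 hk1) q1).trans (b3 z hzm k2 (hM13 hk2) q2).symm)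
    · exact he1 ((b3 z hzm e (hM13 heM) q2).trans (b3 z hzm k1 (hM13 hk1) q1).symm)
    · exact he2 ((b3 z hzm e (hM13 heM) q2).trans (b3 z hzm k2 (hM13 hk2) q1).symm)

/-- **Three starts**: one of them reaches a label different from its own. -/
theorem three_starts {u1 u2 u3 k1 k2 k3 : Q} {L1 L2 L3 M1 M2 M3 : Finset Q} (hu12 : u1 ≠ u2)
    (hu13 : u1 ≠ u3) (hu23 : u2 ≠ u3) (hk12 : k1 ≠ k2) (hk13 : k1 ≠ k3) (hk23 : k2 ≠ k3)
    (l12 : 5 ≤ (L1 ∩ L2).card) (l13 : 5 ≤ (L1 ∩ L3).card) (l23 : 5 ≤ (L2 ∩ L3).card)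
    (m12 : 3 ≤ (M1 ∩ M2).card) (m13 : 3 ≤ (M1 ∩ M3).card) (m23 : 3 ≤ (M2 ∩ M3).card)
    (b1 : Bd u1 k1 L1 M1) (b2 : Bd u2 k2 L2 M2) (b3 : Bd u3 k3 L3 M3) : False := by
  have c12 := union_card hu12 l12
  have c13 := union_card hu13 l13
  have c23 := union_card hu23 l23
  have d12 := Finset.card_union_le (ball u1 ∩ L1) (ball u2 ∩ L2)
  have d13 := Finset.card_union_le (ball u1 ∩ L1) (ball u3 ∩ L3)
  have d23 := Finset.card_union_le (ball u2 ∩ L2) (ball u3 ∩ L3)
  by_cases h1 : 2 ≤ (ball u1 ∩ L1).card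
  · by_cases h2 : 2 ≤ (ball u2 ∩ L2).card
    · exact core3 hu12 hu13 hu23 hk12 hk13 hk23 l12 l13 l23 m12 m13 b1 b2 b3 h1 h2
    · exact core3 hu13 hu12 hu23.symm hk13 hk12 hk23.symm l13 l12 (by rwa [inter_comm]) m13 m12
        b1 b3 b2 h1 (by omega)
  · exact core3 hu23 hu12.symm hu13.symm hk23 hk12.symm hk13.symm l23 (by rwa [inter_comm])
      (by rwa [inter_comm]) m23 (by rwa [inter_comm]) b2 b3 b1 (by omega) (by omega)

end CLB.H80
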