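import Pool.Agent.Helper80_DA.AWalk

/-!
Walks through history dependent lists whose last label is different from a given injective function of
the first label.
-/

set_option autoImplicit false
set_option linter.unusedSectionVars false

namespace CLB.H80

open Finset Classical
open CLB.H95
open H3DA (Q neg nr nr_comm)

variable {k : ℕ} {A : (ℕ → Q) → ℕ → Finset Q}

/-- The list of unit `i` depends only on the labels of the units below `i`. -/
def LDep (k : ℕ) (A : (ℕ → Q) → ℕ → Finset Q) : Prop :=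
  ∀ i, 1 ≤ i → i ≤ k → ∀ h h', Same i h h' → A h i = A h' i

/-- The last list does not depend on the label of unit `k - 1`. -/
def LDk (k : ℕ) (A : (ℕ → Q) → ℕ → Finset Q) : Prop :=
  ∀ h h', Same (k - 1) h h' → A h k = A h' k

/-- A partial walk through the lists. -/
structure AW (A : (ℕ → Q) → ℕ → Finset Q) (n : ℕ) (h : ℕ → Q) : Prop where
  nwk : Nwk n h
  mem : ∀ i, 1 ≤ i → i ≤ n → h i ∈ A h i

/-- Appending a label. -/
def app (n : ℕ) (h : ℕ → Q) (a : Q) : ℕ → Q := fun i => if i ≤ n then h i else a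

lemma app_le {n : ℕ} {h : ℕ → Q} {a : Q} {i : ℕ} (hi : i ≤ n) : app n h a i = h i := by
  unfold app; rw [if_pos hi]

lemma app_gt {n : ℕ} {h : ℕ → Q} {a : Q} {i : ℕ} (hi : n < i) : app n h a i = a := by
  unfold app; rw [if_neg (by omega)]

lemma app_same {n : ℕ} {h : ℕ → Q} {a : Q} {i : ℕ} (hi : i ≤ n + 1) : Same i h (app n h a) :=
  fun j _ h2 => (app_le (by omega)).symm

lemma AW.snoc (hd : LDep k A) {n : ℕ} {h : ℕ → Q} (hp : AW A n h) (hn : n + 1 ≤ k) {a : Q}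
    (ha : a ∈ A h (n + 1)) (hna : 1 ≤ n → nr (h n) a = true) : AW A (n + 1) (app n h a) := by
  refine ⟨fun i h1 h2 => ?_, fun i h1 h2 => ?_⟩
  · by_cases h3 : i + 1 ≤ n
    · rw [app_le (by omega), app_le h3]
      exact hp.nwk i h1 (by omega)
    · have h4 : i = n := by omega
      subst h4
      rw [app_le le_rfl, app_gt (by omega)]
      exact hna h1
  · rw [← hd i h1 (by omega) h (app n h a) (app_same (by omega))]
    by_cases h3 : i ≤ n
    · rw [app_le h3]; exact hp.mem i h1 h3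
    · have h4 : i = n + 1 := by omega
      subst h4
      rw [app_gt (by omega)]; exact ha

lemma aw_one (hd : LDep k A) (hk : 1 ≤ k) {h : ℕ → Q} {a : Q} (ha : a ∈ A h 1) :
    AW A 1 (app 0 h a) ∧ app 0 h a 1 = a := by
  have h0 : AW A 0 h := ⟨fun i h1 h2 => by omega, fun i h1 h2 => by omega⟩
  exact ⟨h0.snoc hd (by omega) ha (fun h' => by omega), app_gt (by omega)⟩

/-- Labels reached from one of two partial walks. -/
lemma ext_pair (hd : LDep k A) {n : ℕ} (hn : n + 1 ≤ k) {g g' : ℕ → Q} (hg : AW A n g)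
    (hg' : AW A n g') {a : Q} (ha : a ∈ nb {g n, g' n} ∩ (A g (n + 1) ∩ A g' (n + 1))) :
    ∃ w, AW A (n + 1) w ∧ w (n + 1) = a ∧ (Same (n + 1) g w ∨ Same (n + 1) g' w) := by
  rw [mem_inter, mem_nb, mem_inter] at ha
  obtain ⟨⟨t, ht, hta⟩, hal, har⟩ := ha
  simp only [mem_insert, mem_singleton] at ht
  rcases ht with rfl | rfl
  · exact ⟨_, hg.snoc hd hn hal (fun _ => hta), app_gt (by omega), Or.inl (app_same le_rfl)⟩
  · exact ⟨_, hg'.snoc hd hn har (fun _ => hta), app_gt (by omega), Or.inr (app_same le_rfl)⟩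

/-- Two walks starting from two given ones, the starts have the property `P`. -/
theorem pair_from (hd : LDep k A) (hA : ∀ g g' i, 1 < i → i < k → 4 ≤ (A g i ∩ A g' i).card)
    {P : Q → Prop} {n0 : ℕ} (h0 : 1 ≤ n0) {g0 g0' : ℕ → Q} (hg0 : AW A n0 g0) (hg0' : AW A n0 g0')
    (hne0 : g0 n0 ≠ g0' n0) (hP : P (g0 1)) (hP' : P (g0' 1)) {n : ℕ} (hn : n0 ≤ n) :
    n + 1 ≤ k → ∃ g g', AW A n g ∧ AW A n g' ∧ g n ≠ g' n ∧ P (g 1) ∧ P (g' 1) := by
  induction n, hn using Nat.le_induction with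
  | base => intro _; exact ⟨g0, g0', hg0, hg0', hne0, hP, hP'⟩
  | succ n hn ih =>
    intro hk
    obtain ⟨g, g', hg, hg', hne, hPg, hPg'⟩ := ih (by omega)
    have e1 := hA g g' (n + 1) (by omega) (by omega)
    have e2 : 6 ≤ (nb {g n, g' n}).card := nb_card2 (by rw [Finset.card_pair hne])
    have e3 := card_inter_ge (nb {g n, g' n}) (A g (n + 1) ∩ A g' (n + 1))
    obtain ⟨a, ha, b, hb, hab⟩ := Finset.one_lt_card.1
      (show 1 < (nb {g n, g' n} ∩ (A g (n + 1) ∩ A g' (n + 1))).card by omega)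
    obtain ⟨w, hw, hwa, hws⟩ := ext_pair hd (by omega) hg hg' ha
    obtain ⟨w', hw', hwb, hws'⟩ := ext_pair hd (by omega) hg hg' hb
    have hPP : ∀ w : ℕ → Q, (Same (n + 1) g w ∨ Same (n + 1) g' w) → P (w 1) := by
      intro w hs
      rcases hs with hs | hs
      · rw [← hs 1 le_rfl (by omega)]; exact hPg
      · rw [← hs 1 le_rfl (by omega)]; exact hPg'
    exact ⟨w, w', hw, hw', by rw [hwa, hwb]; exact hab, hPP w hws, hPP w' hws'⟩

variable {K : Q → Q}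

/-- The starts are `a` or `b`, and `a` is equal to `b` or harmless. -/
def Sfe (k : ℕ) (A : (ℕ → Q) → ℕ → Finset Q) (K : Q → Q) (a b : Q) : Prop := a = b ∨ ∀ h, K a ∉ A h k

lemma two_ends {a b : Q} (hab : Sfe k A K a b) {w w' : ℕ → Q} (hk : 1 ≤ k) (hw : AW A k w)
    (hw' : AW A k w') (hne : w k ≠ w' k) (hP : w 1 = a ∨ w 1 = b) (hP' : w' 1 = a ∨ w' 1 = b) :
    ∃ w, AW A k w ∧ w k ≠ K (w 1) := by
  by_contra hcon
  push Not at hcon
  have h1 := hcon w hw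
  have h2 := hcon w' hw'
  rcases hab with rfl | hab
  · have e1 : w 1 = a := by tauto
    have e2 : w' 1 = a := by tauto
    rw [e1] at h1
    rw [e2] at h2
    exact hne (h1.trans h2.symm)
  · have e1 : w 1 = b := by
      rcases hP with h | h
      · exfalso
        rw [h] at h1
        exact hab w (h1 ▸ hw.mem k hk le_rfl)
      · exact h
    have e2 : w' 1 = b := by
      rcases hP' with h | h
      · exfalso
        rw [h] at h2
        exact hab w' (h2 ▸ hw'.mem k hk le_rfl)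
      · exact h
    rw [e1] at h1
    rw [e2] at h2
    exact hne (h1.trans h2.symm)

/-- The end of the walk, four labels at the last unit. -/
theorem finish1 (hd : LDep k A) (hA : ∀ g g' i, 1 < i → i < k → 4 ≤ (A g i ∩ A g' i).card)
    (hk4 : ∀ g g', 4 ≤ (A g k ∩ A g' k).card) {a b : Q} (hab : Sfe k A K a b) {n0 : ℕ} (h0 : 1 ≤ n0)
    (hn0 : n0 + 1 ≤ k) {g0 g0' : ℕ → Q} (hg0 : AW A n0 g0) (hg0' : AW A n0 g0')
    (hne0 : g0 n0 ≠ g0' n0) (hP : g0 1 = a ∨ g0 1 = b) (hP' : g0' 1 = a ∨ g0' 1 = b) :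
    ∃ w, AW A k w ∧ w k ≠ K (w 1) := by
  obtain ⟨g, g', hg, hg', hne, hPg, hPg'⟩ := pair_from hd hA (P := fun t => t = a ∨ t = b) h0 hg0 hg0'
    hne0 hP hP' (n := k - 1) (by omega) (by omega)
  have e1 := hk4 g g'
  have e2 : 6 ≤ (nb {g (k - 1), g' (k - 1)}).card := nb_card2 (by rw [Finset.card_pair hne])
  have e3 := card_inter_ge (nb {g (k - 1), g' (k - 1)}) (A g k ∩ A g' k)
  obtain ⟨s, hs, t, ht, hst⟩ := Finset.one_lt_card.1
    (show 1 < (nb {g (k - 1), g' (k - 1)} ∩ (A g k ∩ A g' k)).card by omega)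
  have hkk : k - 1 + 1 = k := by omega
  have key : ∀ s ∈ nb {g (k - 1), g' (k - 1)} ∩ (A g k ∩ A g' k),
      ∃ w, AW A k w ∧ w k = s ∧ (w 1 = a ∨ w 1 = b) := by
    intro s hs
    obtain ⟨w, hw, hws, hsame⟩ := ext_pair hd (n := k - 1) (by omega) hg hg' (a := s)
      (by rw [hkk]; exact hs)
    rw [hkk] at hw hws hsame
    refine ⟨w, hw, hws, ?_⟩
    rcases hsame with h | h
    · rw [← h 1 le_rfl (by omega)]; exact hPg
    · rw [← h 1 le_rfl (by omega)]; exact hPg'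
  obtain ⟨w, hw, hws, hwP⟩ := key s hs
  obtain ⟨w', hw', hwt, hwP'⟩ := key t ht
  exact two_ends hab (by omega) hw hw' (by rw [hws, hwt]; exact hst) hwP hwP'

/-- The end of the walk from one start with two labels, four labels at the last unit. -/
theorem finish_start (hd : LDep k A) (hA : ∀ g g' i, 1 < i → i < k → 4 ≤ (A g i ∩ A g' i).card)
    (hk4 : ∀ g g', 4 ≤ (A g k ∩ A g' k).card) {a e : Q} {n0 : ℕ} (h0 : 1 ≤ n0)
    (hn0 : n0 + 1 ≤ k) {g0 g0' : ℕ → Q} (hg0 : AW A n0 g0) (hg0' : AW A n0 g0')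
    (hne0 : g0 n0 ≠ g0' n0) (hP : g0 1 = a) (hP' : g0' 1 = a) :
    ∃ w, AW A k w ∧ w k ≠ e ∧ w 1 = a := by
  obtain ⟨g, g', hg, hg', hne, hPg, hPg'⟩ := pair_from hd hA (P := fun t => t = a) h0 hg0 hg0'
    hne0 hP hP' (n := k - 1) (by omega) (by omega)
  have e1 := hk4 g g'
  have e2 : 6 ≤ (nb {g (k - 1), g' (k - 1)}).card := nb_card2 (by rw [Finset.card_pair hne])
  have e3 := card_inter_ge (nb {g (k - 1), g' (k - 1)}) (A g k ∩ A g' k)
  obtain ⟨s, hs, hse⟩ : ∃ s ∈ nb {g (k - 1), g' (k - 1)} ∩ (A g k ∩ A g' k), s ≠ e := by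
    obtain ⟨s, hs, t, ht, hst⟩ := Finset.one_lt_card.1
      (show 1 < (nb {g (k - 1), g' (k - 1)} ∩ (A g k ∩ A g' k)).card by omega)
    by_cases h : s = e
    · exact ⟨t, ht, fun h' => hst (h.trans h'.symm)⟩
    · exact ⟨s, hs, h⟩
  have hkk : k - 1 + 1 = k := by omega
  obtain ⟨w, hw, hws, hsame⟩ := ext_pair hd (n := k - 1) (by omega) hg hg' (a := s)
    (by rw [hkk]; exact hs)
  rw [hkk] at hw hws hsame
  refine ⟨w, hw, by rw [hws]; exact hse, ?_⟩
  rcases hsame with h | h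
  · rw [← h 1 le_rfl (by omega)]; exact hPg
  · rw [← h 1 le_rfl (by omega)]; exact hPg'

/-- Two more labels. -/
lemma app_two (hd : LDep k A) (hdk : LDk k A) (hk : 3 ≤ k) {g : ℕ → Q} (hg : AW A (k - 2) g) {z e : Q}
    (hz : z ∈ A g (k - 1)) (hgz : nr (g (k - 2)) z = true) (he : e ∈ A g k) (hze : nr z e = true) :
    AW A k (app (k - 1) (app (k - 2) g z) e) ∧ app (k - 1) (app (k - 2) g z) e k = e ∧
      app (k - 1) (app (k - 2) g z) e 1 = g 1 := by
  have e1 : k - 2 + 1 = k - 1 := by omega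
  have e2 : k - 1 + 1 = k := by omega
  have h1 := hg.snoc hd (a := z) (by omega) (by rw [e1]; exact hz) (fun _ => hgz)
  rw [e1] at h1
  have h2 := h1.snoc hd (a := e) (by omega) (by
    rw [e2, ← hdk g (app (k - 2) g z) (app_same (by omega))]; exact he)
    (fun _ => by rw [app_gt (by omega)]; exact hze)
  rw [e2] at h2
  exact ⟨h2, app_gt (by omega), by rw [app_le (by omega), app_le (by omega)]⟩

/-- The end of the walk, slack at the last unit but one. -/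
theorem finish2 (hd : LDep k A) (hdk : LDk k A) (hk : 3 ≤ k)
    (hA : ∀ g g' i, 1 < i → i < k → 4 ≤ (A g i ∩ A g' i).card)
    (hk5 : ∀ g g', 5 ≤ (A g (k - 1) ∩ A g' (k - 1)).card)
    (hk3 : ∀ g g', 3 ≤ (A g k ∩ A g' k).card) {a b : Q} (hab : Sfe k A K a b) {n0 : ℕ} (h0 : 1 ≤ n0)
    (hn0 : n0 + 2 ≤ k) {g0 g0' : ℕ → Q} (hg0 : AW A n0 g0) (hg0' : AW A n0 g0')
    (hne0 : g0 n0 ≠ g0' n0) (hP : g0 1 = a ∨ g0 1 = b) (hP' : g0' 1 = a ∨ g0' 1 = b) :
    ∃ w, AW A k w ∧ w k ≠ K (w 1) := by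
  obtain ⟨g, g', hg, hg', hne, hPg, hPg'⟩ := pair_from hd hA (P := fun t => t = a ∨ t = b) h0 hg0 hg0'
    hne0 hP hP' (n := k - 2) (by omega) (by omega)
  set S := nb {g (k - 2), g' (k - 2)} ∩ (A g (k - 1) ∩ A g' (k - 1)) with hS
  have e1 := hk5 g g'
  have e2 : 6 ≤ (nb {g (k - 2), g' (k - 2)}).card := nb_card2 (by rw [Finset.card_pair hne])
  have e3 := card_inter_ge (nb {g (k - 2), g' (k - 2)}) (A g (k - 1) ∩ A g' (k - 1))
  rw [← hS] at e3
  have e4 := nb_card3 (show 3 ≤ S.card by omega)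
  have e5 := card_inter_ge (nb S) (A g k ∩ A g' k)
  have e6 := hk3 g g'
  obtain ⟨s, hs, t, ht, hst⟩ := Finset.one_lt_card.1 (show 1 < (nb S ∩ (A g k ∩ A g' k)).card by omega)
  have key : ∀ s ∈ nb S ∩ (A g k ∩ A g' k), ∃ w, AW A k w ∧ w k = s ∧ (w 1 = a ∨ w 1 = b) := by
    intro s hs
    rw [mem_inter, mem_nb, mem_inter] at hs
    obtain ⟨⟨z, hz, hzs⟩, hsl, hsr⟩ := hs
    rw [hS, mem_inter, mem_nb, mem_inter] at hz
    obtain ⟨⟨u, hu, huz⟩, hzl, hzr⟩ := hz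
    simp only [mem_insert, mem_singleton] at hu
    rcases hu with rfl | rfl
    · obtain ⟨h1, h2, h3⟩ := app_two hd hdk hk hg hzl huz hsl hzs
      exact ⟨_, h1, h2, by rw [h3]; exact hPg⟩
    · obtain ⟨h1, h2, h3⟩ := app_two hd hdk hk hg' hzr huz hsr hzs
      exact ⟨_, h1, h2, by rw [h3]; exact hPg'⟩
  obtain ⟨w, hw, hws, hwP⟩ := key s hs
  obtain ⟨w', hw', hwt, hwP'⟩ := key t ht
  exact two_ends hab (by omega) hw hw' (by rw [hws, hwt]; exact hst) hwP hwP'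

/-- Antipodal labels in a list of four labels. -/
lemma exists_anti {p : Q} {B : Finset Q} (h4 : 4 ≤ B.card) (h1 : p ∉ B) (h2 : neg p ∉ B) :
    ∃ t ∈ B, neg t ∈ B := by
  have e1 : (B.image neg).card = B.card := Finset.card_image_of_injective _ (fun _ _ h => H3DA.neg_inj h)
  have e2 : B ∪ B.image neg ⊆ univ \ {p, neg p} := by
    intro t ht
    rw [mem_union, mem_image] at ht
    rw [mem_sdiff, mem_insert, mem_singleton, not_or]
    refine ⟨mem_univ _, ?_, ?_⟩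
    · rintro rfl
      rcases ht with ht | ⟨s, hs, hst⟩
      · exact h1 ht
      · apply h2; rw [← hst, H3DA.neg_neg]; exact hs
    · rintro rfl
      rcases ht with ht | ⟨s, hs, hst⟩
      · exact h2 ht
      · apply h1; rw [← H3DA.neg_neg p, ← hst, H3DA.neg_neg]; exact hs
  have e3 := Finset.card_le_card e2
  have e4 : (univ \ {p, neg p} : Finset Q).card = 6 := by
    rw [Finset.card_sdiff_of_subset (subset_univ _), Finset.card_pair (H3DA.neg_ne p).symm, card_univ_Q]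
  have e5 := Finset.card_union_add_card_inter B (B.image neg)
  obtain ⟨t, ht⟩ := Finset.card_pos.1 (show 0 < (B ∩ B.image neg).card by omega)
  rw [mem_inter, mem_image] at ht
  obtain ⟨h3, s, hs, hst⟩ := ht
  exact ⟨t, h3, by rw [← hst, H3DA.neg_neg]; exact hs⟩

/-- A start with two labels at unit `n`. -/
def Two2 (A : (ℕ → Q) → ℕ → Finset Q) (n : ℕ) : Prop :=
  ∃ g g', AW A n g ∧ AW A n g' ∧ g 1 = g' 1 ∧ g n ≠ g' n

/-- Three labels from two partial walks: two of them have the same start. -/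
lemma two2_of_slack (hd : LDep k A) {n : ℕ} (h1 : 1 ≤ n) (hn : n + 1 ≤ k) {g g' : ℕ → Q}
    (hg : AW A n g) (hg' : AW A n g') (hne : g n ≠ g' n) (h5 : 5 ≤ (A g (n + 1) ∩ A g' (n + 1)).card) :
    Two2 A (n + 1) := by
  have e2 : 6 ≤ (nb {g n, g' n}).card := nb_card2 (by rw [Finset.card_pair hne])
  have e3 := card_inter_ge (nb {g n, g' n}) (A g (n + 1) ∩ A g' (n + 1))
  obtain ⟨a, ha, b, hb, c, hc, hab, hac, hbc⟩ := Finset.two_lt_card.1
    (show 2 < (nb {g n, g' n} ∩ (A g (n + 1) ∩ A g' (n + 1))).card by omega)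
  obtain ⟨w1, hw1, e1, s1⟩ := ext_pair hd hn hg hg' ha
  obtain ⟨w2, hw2, e2, s2⟩ := ext_pair hd hn hg hg' hb
  obtain ⟨w3, hw3, e3, s3⟩ := ext_pair hd hn hg hg' hc
  have hs : ∀ w : ℕ → Q, (Same (n + 1) g w ∨ Same (n + 1) g' w) → w 1 = g 1 ∨ w 1 = g' 1 := by
    intro w hs
    rcases hs with hs | hs
    · exact Or.inl (hs 1 le_rfl (by omega)).symm
    · exact Or.inr (hs 1 le_rfl (by omega)).symm
  have n12 : w1 (n + 1) ≠ w2 (n + 1) := by rw [e1, e2]; exact hab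
  have n13 : w1 (n + 1) ≠ w3 (n + 1) := by rw [e1, e3]; exact hac
  have n23 : w2 (n + 1) ≠ w3 (n + 1) := by rw [e2, e3]; exact hbc
  rcases hs w1 s1 with t1 | t1 <;> rcases hs w2 s2 with t2 | t2 <;> rcases hs w3 s3 with t3 | t3
  · exact ⟨w1, w2, hw1, hw2, t1.trans t2.symm, n12⟩
  · exact ⟨w1, w2, hw1, hw2, t1.trans t2.symm, n12⟩
  · exact ⟨w1, w3, hw1, hw3, t1.trans t3.symm, n13⟩
  · exact ⟨w2, w3, hw2, hw3, t2.trans t3.symm, n23⟩
  · exact ⟨w2, w3, hw2, hw3, t2.trans t3.symm, n23⟩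
  · exact ⟨w1, w3, hw1, hw3, t1.trans t3.symm, n13⟩
  · exact ⟨w1, w2, hw1, hw2, t1.trans t2.symm, n12⟩
  · exact ⟨w1, w2, hw1, hw2, t1.trans t2.symm, n12⟩

lemma two2_of_ball (hd : LDep k A) {n : ℕ} (h1 : 1 ≤ n) (hn : n + 1 ≤ k) {g : ℕ → Q}
    (hg : AW A n g) (h2 : 2 ≤ (ball (g n) ∩ A g (n + 1)).card) : Two2 A (n + 1) := by
  obtain ⟨a, ha, b, hb, hab⟩ := Finset.one_lt_card.1 (show 1 < (ball (g n) ∩ A g (n + 1)).card by omega)
  rw [mem_inter, mem_ball] at ha hb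
  refine ⟨_, _, hg.snoc hd hn ha.2 (fun _ => ha.1), hg.snoc hd hn hb.2 (fun _ => hb.1), ?_, ?_⟩
  · rw [app_le (by omega), app_le (by omega)]
  · rw [app_gt (by omega), app_gt (by omega)]; exact hab

/-- **Slack at both ends.** -/
theorem walk_ends (hd : LDep k A) (hk : 3 ≤ k)
    (hA : ∀ g g' i, 1 < i → i < k → 4 ≤ (A g i ∩ A g' i).card)
    (hk4 : ∀ g g', 4 ≤ (A g k ∩ A g' k).card) (h14 : ∀ h, 4 ≤ (A h 1).card) {p : Q}
    (hp : ∀ h, p ∉ A h 1) (hfree : ∀ h, K (neg p) ∉ A h k) : ∃ w, AW A k w ∧ w k ≠ K (w 1) := by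
  have g0 : ℕ → Q := fun _ => (false, false, false)
  have hc : ∀ h, A h 1 = A g0 1 := fun h => hd 1 le_rfl (by omega) h g0 (fun j _ h2 => by omega)
  by_cases hs : neg p ∈ A g0 1
  · have e1 := h14 g0
    obtain ⟨b, hb⟩ : ∃ b, b ∈ (A g0 1).erase (neg p) := by
      apply Finset.card_pos.1
      rw [Finset.card_erase_of_mem hs]; omega
    rw [mem_erase] at hb
    obtain ⟨w1, e1⟩ := aw_one hd (by omega) (h := g0) hs
    obtain ⟨w2, e2⟩ := aw_one hd (by omega) (h := g0) hb.2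
    exact finish1 hd hA hk4 (a := neg p) (b := b) (Or.inr hfree) le_rfl (by omega) w1 w2
      (by rw [e1, e2]; exact hb.1.symm) (Or.inl e1) (Or.inr e2)
  · obtain ⟨t, ht, ht'⟩ := exists_anti (h14 g0) (hp g0) hs
    obtain ⟨w1, e1⟩ := aw_one hd (by omega) (h := g0) ht
    obtain ⟨w2, e2⟩ := aw_one hd (by omega) (h := g0) ht'
    set g := app 0 g0 t with hg
    set g' := app 0 g0 (neg t) with hg'
    have e3 := hA g g' 2 (by omega) (by omega)
    have hcov : ∀ z : Q, nr t z = true ∨ nr (neg t) z = true := by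
      intro z
      rw [nr_neg]
      cases nr t z <;> simp
    have e4 : (A g 2 ∩ A g' 2) ⊆ (ball t ∩ A g 2) ∪ (ball (neg t) ∩ A g' 2) := by
      intro z hz
      rw [mem_inter] at hz
      rw [mem_union, mem_inter, mem_inter, mem_ball, mem_ball]
      rcases hcov z with h | h
      · exact Or.inl ⟨h, hz.1⟩
      · exact Or.inr ⟨h, hz.2⟩
    have e5 := Finset.card_le_card e4
    have e6 := Finset.card_union_le (ball t ∩ A g 2) (ball (neg t) ∩ A g' 2)
    have hT : Two2 A 2 := by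
      by_cases h2 : 2 ≤ (ball t ∩ A g 2).card
      · exact two2_of_ball hd le_rfl (by omega) w1 (by rw [e1]; exact h2)
      · exact two2_of_ball hd le_rfl (by omega) w2 (by rw [e2]; show 2 ≤ (ball (neg t) ∩ A g' 2).card; omega)
    obtain ⟨v, v', hv, hv', hvv, hne⟩ := hT
    exact finish1 hd hA hk4 (a := v 1) (b := v 1) (Or.inl rfl) (by omega) (by omega) hv hv' hne
      (Or.inl rfl) (Or.inl hvv.symm)

/-- **Slack at the right end and at an inner unit.** -/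
theorem walk_inner (hd : LDep k A) (hk : 3 ≤ k)
    (hA : ∀ g g' i, 1 < i → i < k → 4 ≤ (A g i ∩ A g' i).card)
    (hk4 : ∀ g g', 4 ≤ (A g k ∩ A g' k).card) (h12 : ∀ h, 2 ≤ (A h 1).card) {i0 : ℕ} (h1 : 1 < i0)
    (h2 : i0 < k) (h5 : ∀ g g', 5 ≤ (A g i0 ∩ A g' i0).card) : ∃ w, AW A k w ∧ w k ≠ K (w 1) := by
  have g0 : ℕ → Q := fun _ => (false, false, false)
  obtain ⟨a, ha, b, hb, hab⟩ := Finset.one_lt_card.1 (show 1 < (A g0 1).card by have := h12 g0; omega)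
  obtain ⟨w1, e1⟩ := aw_one hd (by omega) (h := g0) ha
  obtain ⟨w2, e2⟩ := aw_one hd (by omega) (h := g0) hb
  obtain ⟨g, g', hg, hg', hne, -, -⟩ := pair_from hd hA (P := fun _ => True) le_rfl w1 w2
    (by rw [e1, e2]; exact hab) trivial trivial (n := i0 - 1) (by omega) (by omega)
  have hT := two2_of_slack hd (n := i0 - 1) (by omega) (by omega) hg hg' hne
    (by rw [show i0 - 1 + 1 = i0 by omega]; exact h5 g g')
  rw [show i0 - 1 + 1 = i0 by omega] at hT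
  obtain ⟨v, v', hv, hv', hvv, hne'⟩ := hT
  exact finish1 hd hA hk4 (a := v 1) (b := v 1) (Or.inl rfl) (by omega) (by omega) hv hv' hne'
    (Or.inl rfl) (Or.inl hvv.symm)

/-- Two labels with one successor each. -/
lemma single_pair {u u' : Q} {L L' : Finset Q} (hu : u ≠ u') (h4 : 4 ≤ (L ∩ L').card)
    (h1 : ¬ 2 ≤ (ball u ∩ L).card) (h2 : ¬ 2 ≤ (ball u' ∩ L').card) :
    (∃ a, a ∈ ball u ∩ L) ∧ ∀ a ∈ ball u ∩ L, ∀ a' ∈ ball u' ∩ L', a ≠ a' := by
  have e1 := ball_union_card u u' hu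
  have e2 := card_inter_ge (ball u ∪ ball u') (L ∩ L')
  have e3 : (ball u ∪ ball u') ∩ (L ∩ L') ⊆ ball u ∩ L ∪ ball u' ∩ L' := by
    intro z hz
    simp only [mem_inter, mem_union] at hz ⊢
    tauto
  have e4 := Finset.card_le_card e3
  have e5 := Finset.card_union_le (ball u ∩ L) (ball u' ∩ L')
  have e6 := Finset.card_union_add_card_inter (ball u ∩ L) (ball u' ∩ L')
  refine ⟨?_, ?_⟩
  · obtain ⟨a, ha⟩ := Finset.card_pos.1 (show 0 < (ball u ∩ L).card by omega)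
    exact ⟨a, ha⟩
  · rintro a ha a' ha' rfl
    have : 0 < (ball u ∩ L ∩ (ball u' ∩ L')).card := Finset.card_pos.2 ⟨a, mem_inter.2 ⟨ha, ha'⟩⟩
    omega

/-- Three partial walks with different starts and different labels, or a start with two labels. -/
lemma three_walks (hd : LDep k A) (hA : ∀ g g' i, 1 < i → i < k → 4 ≤ (A g i ∩ A g' i).card)
    (h13 : ∀ h, 3 ≤ (A h 1).card) {n : ℕ} (h1 : 1 ≤ n) : n + 1 ≤ k →
    (∃ i, i ≤ n ∧ 1 ≤ i ∧ Two2 A i) ∨ ∃ g1 g2 g3, AW A n g1 ∧ AW A n g2 ∧ AW A n g3 ∧ g1 1 ≠ g2 1 ∧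
      g1 1 ≠ g3 1 ∧ g2 1 ≠ g3 1 ∧ g1 n ≠ g2 n ∧ g1 n ≠ g3 n ∧ g2 n ≠ g3 n := by
  induction n, h1 using Nat.le_induction with
  | base =>
    intro hk
    right
    have g0 : ℕ → Q := fun _ => (false, false, false)
    obtain ⟨a, ha, b, hb, c, hc, hab, hac, hbc⟩ := Finset.two_lt_card.1
      (show 2 < (A g0 1).card by have := h13 g0; omega)
    obtain ⟨w1, e1⟩ := aw_one hd (by omega) (h := g0) ha
    obtain ⟨w2, e2⟩ := aw_one hd (by omega) (h := g0) hb
    obtain ⟨w3, e3⟩ := aw_one hd (by omega) (h := g0) hc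
    refine ⟨_, _, _, w1, w2, w3, ?_⟩
    rw [e1, e2, e3]
    exact ⟨hab, hac, hbc, hab, hac, hbc⟩
  | succ n hn ih =>
    intro hk
    rcases ih (by omega) with ⟨i, h1, h2, h3⟩ | ⟨g1, g2, g3, a1, a2, a3, s12, s13, s23, t12, t13, t23⟩
    · exact Or.inl ⟨i, by omega, h2, h3⟩
    by_cases b1 : 2 ≤ (ball (g1 n) ∩ A g1 (n + 1)).card
    · exact Or.inl ⟨n + 1, le_rfl, by omega, two2_of_ball hd hn (by omega) a1 b1⟩
    by_cases b2 : 2 ≤ (ball (g2 n) ∩ A g2 (n + 1)).card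
    · exact Or.inl ⟨n + 1, le_rfl, by omega, two2_of_ball hd hn (by omega) a2 b2⟩
    by_cases b3 : 2 ≤ (ball (g3 n) ∩ A g3 (n + 1)).card
    · exact Or.inl ⟨n + 1, le_rfl, by omega, two2_of_ball hd hn (by omega) a3 b3⟩
    right
    obtain ⟨⟨x1, hx1⟩, c12⟩ := single_pair t12 (hA g1 g2 (n + 1) (by omega) (by omega)) b1 b2
    obtain ⟨⟨x2, hx2⟩, c23⟩ := single_pair t23 (hA g2 g3 (n + 1) (by omega) (by omega)) b2 b3
    obtain ⟨⟨x3, hx3⟩, c31⟩ := single_pair t13.symm (hA g3 g1 (n + 1) (by omega) (by omega)) b3 b1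
    have m1 := mem_inter.1 hx1
    have m2 := mem_inter.1 hx2
    have m3 := mem_inter.1 hx3
    rw [mem_ball] at m1 m2 m3
    refine ⟨app n g1 x1, app n g2 x2, app n g3 x3, a1.snoc hd (by omega) m1.2 (fun _ => m1.1),
      a2.snoc hd (by omega) m2.2 (fun _ => m2.1), a3.snoc hd (by omega) m3.2 (fun _ => m3.1), ?_⟩
    rw [app_le hn, app_le hn, app_le hn, app_gt (by omega), app_gt (by omega), app_gt (by omega)]
    exact ⟨s12, s13, s23, c12 x1 hx1 x2 hx2, (c31 x3 hx3 x1 hx1).symm, c23 x2 hx2 x3 hx3⟩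

/-- **Slack at the last unit but one.** -/
theorem walk_slack (hd : LDep k A) (hdk : LDk k A) (hk : 3 ≤ k)
    (hA : ∀ g g' i, 1 < i → i < k → 4 ≤ (A g i ∩ A g' i).card)
    (h13 : ∀ h, 3 ≤ (A h 1).card)
    (hk5 : ∀ g g', 5 ≤ (A g (k - 1) ∩ A g' (k - 1)).card)
    (hk3 : ∀ g g', 3 ≤ (A g k ∩ A g' k).card) (hK : Function.Injective K) :
    ∃ w, AW A k w ∧ w k ≠ K (w 1) := by
  rcases three_walks hd hA h13 (n := k - 2) (by omega) (by omega) with
    ⟨i, h1, h2, v, v', hv, hv', hvv, hne⟩ | ⟨g1, g2, g3, a1, a2, a3, s12, s13, s23, t12, t13, t23⟩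
  · exact finish2 hd hdk hk hA hk5 hk3 (a := v 1) (b := v 1) (Or.inl rfl) h2 (by omega) hv hv' hne
      (Or.inl rfl) (Or.inl hvv.symm)
  · by_contra hcon
    push Not at hcon
    have hB : ∀ g, AW A (k - 2) g → Bd (g (k - 2)) (K (g 1)) (A g (k - 1)) (A g k) := by
      intro g hg z hz e he hze
      rw [mem_inter, mem_ball] at hz
      obtain ⟨c1, c2, c3⟩ := app_two hd hdk hk hg hz.2 hz.1 he hze
      rw [← c2, ← c3]
      exact hcon _ c1
    exact three_starts t12 t13 t23 (hK.ne s12) (hK.ne s13) (hK.ne s23) (hk5 g1 g2) (hk5 g1 g3)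
      (hk5 g2 g3) (hk3 g1 g2) (hk3 g1 g3) (hk3 g2 g3) (hB g1 a1) (hB g2 a2) (hB g3 a3)

end CLB.H80
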