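import Pool.Agent.Helper95_CLB.AlphaLab

/-!
Finite facts about labels: three labels with one successor each; the path of two vertices seeing the first
and the last unit.
-/

set_option autoImplicit false
set_option linter.unusedSectionVars false

namespace CLB.H80

open Finset
open CLB.H95
open H3DA (Q neg nr nr_comm)

/-- `t` is near `s` and far from the two others. -/
def pv (s s' s'' t : Q) : Bool := nr s t && !(nr s' t) && !(nr s'' t)

lemma pv_iff {s s' s'' t : Q} : pv s s' s'' t = true ↔ nr s t = true ∧ nr s' t = false ∧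
    nr s'' t = false := by
  unfold pv
  cases nr s t <;> cases nr s' t <;> cases nr s'' t <;> simp

set_option synthInstance.maxSize 100000 in
set_option synthInstance.maxHeartbeats 4000000 in
lemma rig1 : ∀ s1 s2 : Q, s1 ≠ s2 → s1 ≠ neg s2 → ∀ s3 : Q, s1 ≠ s3 → s2 ≠ s3 → s1 ≠ neg s3 →
    s2 ≠ neg s3 → ∀ t1 : Q, pv s1 s2 s3 t1 = true → ∀ t2 : Q, pv s2 s1 s3 t2 = true →
    ∀ t3 : Q, pv s3 s1 s2 t3 = true → add s2 (add s1 t1) = t2 ∧ add s3 (add s1 t1) = t3 := by
  decide +kernel

set_option synthInstance.maxSize 100000 in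
set_option synthInstance.maxHeartbeats 4000000 in
lemma rig2 : ∀ s1 s2 : Q, s1 ≠ s2 → s1 ≠ neg s2 → ∀ s3 : Q, s1 ≠ s3 → s2 ≠ s3 → s1 ≠ neg s3 →
    s2 ≠ neg s3 → ∀ E : Q, pv s1 s2 s3 (add s1 E) = true → pv s2 s1 s3 (add s2 E) = true →
    pv s3 s1 s2 (add s3 E) = true → ∀ r : Q, pv (add s1 E) (add s2 E) (add s3 E) r = true →
    r = s1 := by
  decide +kernel

lemma add_add_same : ∀ s t : Q, add s (add s t) = t := by decide

lemma add_right_inj : ∀ s t E : Q, add s E = add t E → s = t := by decide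

lemma add_left_inj : ∀ s' s t t' r : Q, add s' (add s t) = r → add s' (add s t') = r → t = t' := by
  decide +kernel

/-- The tight pairs of the path of two vertices `{x 1, f1 | y k, f2}`, `k` even. -/
def tg (f1 f2 a t : Q) : Bool := nr (neg f1) f2 && nr f2 a && !(a == neg f1) && t == add a (add f1 f2)

set_option synthInstance.maxSize 100000 in
set_option synthInstance.maxHeartbeats 4000000 in
lemma beta_lab : ∀ f1 f2 a t : Q, a ≠ f1 → t ≠ f2 → tg f1 f2 a t = false →
    ext2 (neg a) f1 f2 (neg t) = true := by decide +kernel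

set_option synthInstance.maxSize 100000 in
set_option synthInstance.maxHeartbeats 4000000 in
/-- If all three starts are dangerous, the dangerous label is antipodal to the label at unit `k - 2`. -/
lemma beta_rig : ∀ f1 f2 : Q, nr (neg f1) f2 = true → ∀ a1 : Q, nr f2 a1 = true → a1 ≠ neg f1 →
    ∀ a2 : Q, nr f2 a2 = true → a2 ≠ neg f1 → a1 ≠ a2 → ∀ a3 : Q, nr f2 a3 = true → a3 ≠ neg f1 →
    a1 ≠ a3 → a2 ≠ a3 → ∀ E : Q, pv a1 a2 a3 (add a1 E) = true →
    add a1 (add f1 f2) = neg (add a1 E) := by decide +kernel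

lemma two_steps_ne : ∀ a b c : Q, nr a b = true → nr b c = true → c ≠ neg a := by decide

end CLB.H80
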