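import Pool.Agent.Helper80_DA.AWalk2
import Pool.Agent.Helper80_DA.Lab3

/-!
Three walks without a choice are translated by one direction; the path of two vertices seeing the first
and the last unit.
-/

set_option autoImplicit false
set_option linter.unusedSectionVars false

namespace CLB.H80

open Finset Classical
open CLB.H95
open H3DA (Q neg nr nr_comm)

variable {k : ℕ} {A : (ℕ → Q) → ℕ → Finset Q}

/-- Two labels with one successor each. -/
lemma step_pair {u u' t t' : Q} {L L' : Finset Q} (hu : u ≠ u') (h4 : 4 ≤ (L ∩ L').card)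
    (h1 : ball u ∩ L = {t}) (h2 : ball u' ∩ L' = {t'}) :
    t ≠ t' ∧ nr u' t = false ∧ nr u t' = false ∧ u ≠ neg u' := by
  have e1 := ball_union_card u u' hu
  have e2 := card_inter_ge (ball u ∪ ball u') (L ∩ L')
  have e3 : (ball u ∪ ball u') ∩ (L ∩ L') ⊆ {t, t'} := by
    intro z hz
    simp only [mem_inter, mem_union] at hz
    rw [mem_insert, mem_singleton]
    rcases hz.1 with h | h
    · left
      have : z ∈ ball u ∩ L := mem_inter.2 ⟨h, hz.2.1⟩
      rwa [h1, mem_singleton] at this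
    · right
      have : z ∈ ball u' ∩ L' := mem_inter.2 ⟨h, hz.2.2⟩
      rwa [h2, mem_singleton] at this
  have e4 := Finset.card_le_card e3
  have hne : t ≠ t' := by
    rintro rfl
    rw [Finset.pair_eq_singleton, Finset.card_singleton] at e4
    omega
  have e5 : ({t, t'} : Finset Q).card = 2 := Finset.card_pair hne
  have e6 := Finset.eq_of_subset_of_card_le e3 (by omega)
  have ht : t ∈ L ∩ L' := by
    have : t ∈ (ball u ∪ ball u') ∩ (L ∩ L') := by rw [e6]; simp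
    exact (mem_inter.1 this).2
  have ht' : t' ∈ L ∩ L' := by
    have : t' ∈ (ball u ∪ ball u') ∩ (L ∩ L') := by rw [e6]; simp
    exact (mem_inter.1 this).2
  refine ⟨hne, ?_, ?_, ?_⟩
  · by_contra hn
    have h3 : nr u' t = true := by simpa using hn
    have : t ∈ ball u' ∩ L' := mem_inter.2 ⟨mem_ball.2 h3, (mem_inter.1 ht).2⟩
    rw [h2, mem_singleton] at this
    exact hne this
  · by_contra hn
    have h3 : nr u t' = true := by simpa using hn
    have : t' ∈ ball u ∩ L := mem_inter.2 ⟨mem_ball.2 h3, (mem_inter.1 ht').1⟩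
    rw [h1, mem_singleton] at this
    exact hne this.symm
  · rintro rfl
    have e7 : ball (neg u') ∪ ball u' = univ := by
      ext z
      rw [mem_union, mem_ball, mem_ball]
      have : nr (neg u') z = !(nr u' z) := nr_neg u' z
      rw [this]
      cases nr u' z <;> simp
    rw [e7] at e2 e6
    rw [univ_inter] at e2 e6
    rw [e6, e5, card_univ_Q] at e2
    rw [e6, e5] at h4
    omega

/-- The labels of the three walks at unit `n`. -/
def lab3 (n : ℕ) (s E : Q) : Q := if n % 2 = 1 then s else add s E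

/-- Three starts and a direction. -/
structure Rg (s1 s2 s3 E : Q) : Prop where
  n12 : s1 ≠ s2
  n13 : s1 ≠ s3
  n23 : s2 ≠ s3
  a12 : s1 ≠ neg s2
  a13 : s1 ≠ neg s3
  a23 : s2 ≠ neg s3
  p1 : pv s1 s2 s3 (add s1 E) = true
  p2 : pv s2 s1 s3 (add s2 E) = true
  p3 : pv s3 s1 s2 (add s3 E) = true

lemma add_cancel {s t E : Q} (h : s ≠ t) : add s E ≠ add t E := by
  exact fun h' => h (add_right_inj _ _ _ h')

/-- **Rigidity.** -/
theorem rigid_walks (hd : LDep k A) (hA : ∀ g g' i, 1 < i → i < k → 4 ≤ (A g i ∩ A g' i).card)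
    (h13 : ∀ h, 3 ≤ (A h 1).card) {n : ℕ} (h1 : 1 ≤ n) : n + 1 ≤ k →
    (∃ i, i ≤ n ∧ 1 ≤ i ∧ Two2 A i) ∨ ∃ g1 g2 g3, AW A n g1 ∧ AW A n g2 ∧ AW A n g3 ∧
      ((n = 1 ∧ g1 1 ≠ g2 1 ∧ g1 1 ≠ g3 1 ∧ g2 1 ≠ g3 1) ∨ (2 ≤ n ∧ ∃ E, Rg (g1 1) (g2 1) (g3 1) E ∧
        g1 n = lab3 n (g1 1) E ∧ g2 n = lab3 n (g2 1) E ∧ g3 n = lab3 n (g3 1) E)) := by
  induction n, h1 using Nat.le_induction with
  | base =>
    intro hk
    right
    have g0 : ℕ → Q := fun _ => (false, false, false)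
    obtain ⟨a, ha, b, hb, c, hc, hab, hac, hbc⟩ := Finset.two_lt_card.1
      (show 2 < (A g0 1).card by have := h13 g0; omega)
    obtain ⟨w1, e1⟩ := aw_one hd (by omega) (h := g0) ha
    obtain ⟨w2, e2⟩ := aw_one hd (by omega) (h := g0) hb
    obtain ⟨w3, e3⟩ := aw_one hd (by omega) (h := g0) hc
    refine ⟨_, _, _, w1, w2, w3, Or.inl ?_⟩
    rw [e1, e2, e3]
    exact ⟨rfl, hab, hac, hbc⟩
  | succ n hn ih =>
    intro hk
    rcases ih (by omega) with ⟨i, h1, h2, h3⟩ | ⟨g1, g2, g3, a1, a2, a3, hg⟩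
    · exact Or.inl ⟨i, by omega, h2, h3⟩
    by_cases b1 : 2 ≤ (ball (g1 n) ∩ A g1 (n + 1)).card
    · exact Or.inl ⟨n + 1, le_rfl, by omega, two2_of_ball hd hn (by omega) a1 b1⟩
    by_cases b2 : 2 ≤ (ball (g2 n) ∩ A g2 (n + 1)).card
    · exact Or.inl ⟨n + 1, le_rfl, by omega, two2_of_ball hd hn (by omega) a2 b2⟩
    by_cases b3 : 2 ≤ (ball (g3 n) ∩ A g3 (n + 1)).card
    · exact Or.inl ⟨n + 1, le_rfl, by omega, two2_of_ball hd hn (by omega) a3 b3⟩
    right
    have t12 : g1 n ≠ g2 n := by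
      rcases hg with ⟨rfl, c1, c2, c3⟩ | ⟨-, E, hE, c1, c2, c3⟩
      · exact c1
      · rw [c1, c2]; unfold lab3; split_ifs
        · exact hE.n12
        · exact add_cancel hE.n12
    have t13 : g1 n ≠ g3 n := by
      rcases hg with ⟨rfl, c1, c2, c3⟩ | ⟨-, E, hE, c1, c2, c3⟩
      · exact c2
      · rw [c1, c3]; unfold lab3; split_ifs
        · exact hE.n13
        · exact add_cancel hE.n13
    have t23 : g2 n ≠ g3 n := by
      rcases hg with ⟨rfl, c1, c2, c3⟩ | ⟨-, E, hE, c1, c2, c3⟩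
      · exact c3
      · rw [c2, c3]; unfold lab3; split_ifs
        · exact hE.n23
        · exact add_cancel hE.n23
    obtain ⟨⟨x1, hx1⟩, -⟩ := single_pair t12 (hA g1 g2 (n + 1) (by omega) (by omega)) b1 b2
    obtain ⟨⟨x2, hx2⟩, -⟩ := single_pair t23 (hA g2 g3 (n + 1) (by omega) (by omega)) b2 b3
    obtain ⟨⟨x3, hx3⟩, -⟩ := single_pair t13.symm (hA g3 g1 (n + 1) (by omega) (by omega)) b3 b1
    have s1 : ball (g1 n) ∩ A g1 (n + 1) = {x1} :=
      (Finset.eq_of_subset_of_card_le (singleton_subset_iff.2 hx1) (by rw [card_singleton]; omega)).symm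
    have s2 : ball (g2 n) ∩ A g2 (n + 1) = {x2} :=
      (Finset.eq_of_subset_of_card_le (singleton_subset_iff.2 hx2) (by rw [card_singleton]; omega)).symm
    have s3 : ball (g3 n) ∩ A g3 (n + 1) = {x3} :=
      (Finset.eq_of_subset_of_card_le (singleton_subset_iff.2 hx3) (by rw [card_singleton]; omega)).symm
    obtain ⟨d1, d2, d3, d4⟩ := step_pair t12 (hA g1 g2 (n + 1) (by omega) (by omega)) s1 s2
    obtain ⟨f1, f2, f3, f4⟩ := step_pair t13 (hA g1 g3 (n + 1) (by omega) (by omega)) s1 s3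
    obtain ⟨q1, q2, q3, q4⟩ := step_pair t23 (hA g2 g3 (n + 1) (by omega) (by omega)) s2 s3
    have m1 := mem_inter.1 hx1
    have m2 := mem_inter.1 hx2
    have m3 := mem_inter.1 hx3
    rw [mem_ball] at m1 m2 m3
    have P1 : pv (g1 n) (g2 n) (g3 n) x1 = true := pv_iff.2 ⟨m1.1, d2, f2⟩
    have P2 : pv (g2 n) (g1 n) (g3 n) x2 = true := pv_iff.2 ⟨m2.1, d3, q2⟩
    have P3 : pv (g3 n) (g1 n) (g2 n) x3 = true := pv_iff.2 ⟨m3.1, f3, q3⟩
    refine ⟨app n g1 x1, app n g2 x2, app n g3 x3, a1.snoc hd (by omega) m1.2 (fun _ => m1.1),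
      a2.snoc hd (by omega) m2.2 (fun _ => m2.1), a3.snoc hd (by omega) m3.2 (fun _ => m3.1),
      Or.inr ⟨by omega, ?_⟩⟩
    rw [app_le hn, app_le hn, app_le hn, app_gt (by omega), app_gt (by omega), app_gt (by omega)]
    rcases hg with ⟨rfl, c1, c2, c3⟩ | ⟨hn2, E, hE, c1, c2, c3⟩
    · obtain ⟨r2, r3⟩ := rig1 _ _ c1 d4 _ c2 c3 f4 q4 _ P1 _ P2 _ P3
      refine ⟨add (g1 1) x1, ⟨c1, c2, c3, d4, f4, q4, ?_, ?_, ?_⟩, ?_, ?_, ?_⟩
      · rw [add_add_same]; exact P1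
      · rw [r2]; exact P2
      · rw [r3]; exact P3
      · show x1 = lab3 2 _ _
        unfold lab3; rw [if_neg (by omega), add_add_same]
      · show x2 = lab3 2 _ _
        unfold lab3; rw [if_neg (by omega), r2]
      · show x3 = lab3 2 _ _
        unfold lab3; rw [if_neg (by omega), r3]
    · refine ⟨E, hE, ?_⟩
      unfold lab3 at c1 c2 c3 ⊢
      by_cases hp : n % 2 = 1
      · rw [if_pos hp] at c1 c2 c3
        rw [if_neg (by omega), if_neg (by omega), if_neg (by omega)]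
        rw [c1, c2, c3] at P1 P2 P3
        have hu : ∀ s s' s'' : Q, s ≠ s' → s ≠ neg s' → s ≠ s'' → s' ≠ s'' → s ≠ neg s'' →
            s' ≠ neg s'' → ∀ t t' : Q, pv s s' s'' t = true → pv s s' s'' t' = true →
            (∃ r, pv s' s s'' r = true) → (∃ r, pv s'' s s' r = true) → t = t' := by
          intro s s' s'' w1 w2 w3 w4 w5 w6 t t' w7 w8 ⟨r, w9⟩ ⟨r', w10⟩
          have y1 := (rig1 s s' w1 w2 s'' w3 w4 w5 w6 t w7 r w9 r' w10).1
          have y2 := (rig1 s s' w1 w2 s'' w3 w4 w5 w6 t' w8 r w9 r' w10).1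
          exact add_left_inj _ _ _ _ _ y1 y2
        have ns := fun {a b : Q} (h : a ≠ neg b) => H3DA.ne_neg_symm h
        refine ⟨?_, ?_, ?_⟩
        · exact hu _ _ _ hE.n12 hE.a12 hE.n13 hE.n23 hE.a13 hE.a23 _ _ P1 hE.p1 ⟨_, P2⟩ ⟨_, P3⟩
        · exact hu _ _ _ hE.n12.symm (ns hE.a12) hE.n23 hE.n13 hE.a23 hE.a13 _ _ P2 hE.p2 ⟨_, P1⟩
            ⟨_, by rw [pv_iff] at P3 ⊢; exact ⟨P3.1, P3.2.2, P3.2.1⟩⟩
        · exact hu _ _ _ hE.n13.symm (ns hE.a13) hE.n23.symm hE.n12 (ns hE.a23) hE.a12 _ _ P3 hE.p3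
            ⟨_, by rw [pv_iff] at P1 ⊢; exact ⟨P1.1, P1.2.2, P1.2.1⟩⟩
            ⟨_, by rw [pv_iff] at P2 ⊢; exact ⟨P2.1, P2.2.2, P2.2.1⟩⟩
      · rw [if_neg hp] at c1 c2 c3
        rw [if_pos (by omega), if_pos (by omega), if_pos (by omega)]
        rw [c1, c2, c3] at P1 P2 P3
        have ns := fun {a b : Q} (h : a ≠ neg b) => H3DA.ne_neg_symm h
        refine ⟨?_, ?_, ?_⟩
        · exact rig2 _ _ hE.n12 hE.a12 _ hE.n13 hE.n23 hE.a13 hE.a23 _ hE.p1 hE.p2 hE.p3 _ P1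
        · refine rig2 _ _ hE.n12.symm (ns hE.a12) _ hE.n23 hE.n13 hE.a23 hE.a13 _ hE.p2 hE.p1 ?_ _ P2
          have := hE.p3
          rw [pv_iff] at this ⊢
          exact ⟨this.1, this.2.2, this.2.1⟩
        · refine rig2 _ _ hE.n13.symm (ns hE.a13) _ hE.n23.symm hE.n12 (ns hE.a23) hE.a12 _ hE.p3 ?_ ?_
            _ P3
          · have := hE.p1
            rw [pv_iff] at this ⊢
            exact ⟨this.1, this.2.2, this.2.1⟩
          · have := hE.p2
            rw [pv_iff] at this ⊢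
            exact ⟨this.1, this.2.2, this.2.1⟩

lemma tg_false_of_ne {f1 f2 a t : Q} (h : t ≠ add a (add f1 f2)) : tg f1 f2 a t = false := by
  unfold tg
  have : (t == add a (add f1 f2)) = false := by simpa using h
  rw [this, Bool.and_false]

/-- The start has a dangerous partner. -/
def dg (f1 f2 a : Q) : Prop := nr (neg f1) f2 = true ∧ nr f2 a = true ∧ a ≠ neg f1

lemma tg_false_of_dg {f1 f2 a t : Q} (h : ¬ dg f1 f2 a) : tg f1 f2 a t = false := by
  by_contra hcon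
  apply h
  have h1 : tg f1 f2 a t = true := by simpa using hcon
  unfold tg at h1
  simp only [Bool.and_eq_true, Bool.not_eq_true', beq_eq_false_iff_ne] at h1
  exact ⟨h1.1.1.1, h1.1.1.2, h1.1.2⟩

/-- **The path of two vertices seeing both ends**: two walks to the unit `k - 2` such that at most two
labels at the unit `k` are dangerous. -/
theorem beta_pair (hd : LDep k A) (hk : 4 ≤ k) (hev : k % 2 = 0)
    (hA : ∀ g g' i, 1 < i → i < k → 4 ≤ (A g i ∩ A g' i).card) (h13 : ∀ h, 3 ≤ (A h 1).card)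
    (f1 f2 : Q) : ∃ (g g' : ℕ → Q) (D : Finset Q), AW A (k - 2) g ∧ AW A (k - 2) g' ∧
      g (k - 2) ≠ g' (k - 2) ∧ D.card ≤ 2 ∧ ∀ mu : ℕ → Q, (Same (k - 1) g mu ∨ Same (k - 1) g' mu) →
        nr (mu (k - 2)) (mu (k - 1)) = true → nr (mu (k - 1)) (mu k) = true → mu k ∉ D →
        mu k ≠ f2 ∧ tg f1 f2 (mu 1) (mu k) = false := by
  have hD : ∀ a t : Q, t ∉ ({f2, add a (add f1 f2)} : Finset Q) → t ≠ f2 ∧ tg f1 f2 a t = false := by
    intro a t ht
    rw [mem_insert, mem_singleton, not_or] at ht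
    exact ⟨ht.1, tg_false_of_ne ht.2⟩
  have key : ∀ g g' : ℕ → Q, AW A (k - 2) g → AW A (k - 2) g' → g (k - 2) ≠ g' (k - 2) →
      ¬ dg f1 f2 (g 1) → ∃ (g g' : ℕ → Q) (D : Finset Q), AW A (k - 2) g ∧ AW A (k - 2) g' ∧
      g (k - 2) ≠ g' (k - 2) ∧ D.card ≤ 2 ∧ ∀ mu : ℕ → Q, (Same (k - 1) g mu ∨ Same (k - 1) g' mu) →
        nr (mu (k - 2)) (mu (k - 1)) = true → nr (mu (k - 1)) (mu k) = true → mu k ∉ D →
        mu k ≠ f2 ∧ tg f1 f2 (mu 1) (mu k) = false := by
    intro g g' hg hg' hne hng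
    refine ⟨g, g', {f2, add (g' 1) (add f1 f2)}, hg, hg', hne, Finset.card_le_two, ?_⟩
    intro mu hs _ _ hmu
    rcases hs with hs | hs
    · have e := hs 1 le_rfl (by omega)
      refine ⟨(hD _ _ hmu).1, ?_⟩
      rw [← e]
      exact tg_false_of_dg hng
    · have e := hs 1 le_rfl (by omega)
      rw [← e]
      exact hD _ _ hmu
  rcases rigid_walks hd hA h13 (n := k - 2) (by omega) (by omega) with
    ⟨i, h1, h2, v, v', hv, hv', hvv, hne⟩ | ⟨g1, g2, g3, a1, a2, a3, hg⟩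
  · obtain ⟨g, g', hg, hg', hgg, hP, hP'⟩ := pair_from hd hA (P := fun t => t = v 1) h2 hv hv' hne rfl
      hvv.symm h1 (by omega)
    refine ⟨g, g', {f2, add (v 1) (add f1 f2)}, hg, hg', hgg, Finset.card_le_two, ?_⟩
    intro mu hs _ _ hmu
    have e : mu 1 = v 1 := by
      rcases hs with hs | hs
      · rw [← hs 1 le_rfl (by omega)]; exact hP
      · rw [← hs 1 le_rfl (by omega)]; exact hP'
    rw [e]
    exact hD _ _ hmu
  · rcases hg with ⟨hn, -⟩ | ⟨-, E, hE, c1, c2, c3⟩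
    · omega
    unfold lab3 at c1 c2 c3
    rw [if_neg (by omega)] at c1 c2 c3
    have t12 : g1 (k - 2) ≠ g2 (k - 2) := by rw [c1, c2]; exact add_cancel hE.n12
    have t13 : g1 (k - 2) ≠ g3 (k - 2) := by rw [c1, c3]; exact add_cancel hE.n13
    by_cases d1 : dg f1 f2 (g1 1)
    · by_cases d2 : dg f1 f2 (g2 1)
      · by_cases d3 : dg f1 f2 (g3 1)
        · refine ⟨g1, g2, {f2}, a1, a2, t12, by simp, ?_⟩
          intro mu hs n1 n2 hmu
          rw [mem_singleton] at hmu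
          refine ⟨hmu, tg_false_of_ne ?_⟩
          have h3 := two_steps_ne _ _ _ n1 n2
          rcases hs with hs | hs
          · rw [← hs (k - 2) (by omega) (by omega), c1] at h3
            rw [← hs 1 le_rfl (by omega)]
            rw [beta_rig f1 f2 d1.1 _ d1.2.1 d1.2.2 _ d2.2.1 d2.2.2 hE.n12 _ d3.2.1 d3.2.2 hE.n13
              hE.n23 E hE.p1]
            exact h3
          · rw [← hs (k - 2) (by omega) (by omega), c2] at h3
            rw [← hs 1 le_rfl (by omega)]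
            rw [beta_rig f1 f2 d1.1 _ d2.2.1 d2.2.2 _ d1.2.1 d1.2.2 hE.n12.symm _ d3.2.1 d3.2.2 hE.n23
              hE.n13 E hE.p2]
            exact h3
        · exact key g3 g1 a3 a1 t13.symm d3
      · exact key g2 g1 a2 a1 t12.symm d2
    · exact key g1 g2 a1 a2 t12 d1

end CLB.H80
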