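import Pool.Agent.Helper95_CLB.StatQG

/-!
Forbidden sets on the port edges of one component from static kill sets at the label level; some ports of
the chain may be left uncharged when their labels are known.
-/

set_option autoImplicit false
set_option linter.unusedSectionVars false

namespace CLB.H80

open Finset Classical
open CLB.H95
open H3DA (Q neg nr)
open CLB.H3 (CExt Cat IsTwo Fits UPath he_of_unc cat_structure chn_side)

variable {V : Type*} {G H : SimpleGraph V} {R : V → Bool} [Fintype V] {k : ℕ} {x y : ℕ → V}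

/-- Static kill sets with forks in the chain. -/
structure KQ (m : ℕ) (J : ℕ → Prop) (e e' : ℕ) (s₀ : ℕ → Q) (F : ℕ → Finset Q) : Prop where
  two : ∀ j, (F j).card ≤ 2
  lft : J 0 → J 1 → F (1 - e) = ∅
  rgt : J m → J (m + 1) → F (2 * m + 1 - e') = ∅
  ok : ∀ s : ℕ → Q, (∀ j ≤ m + 1, ¬ J j → s j = s₀ j) → (∀ j ≤ m + 1, J j → s j ∉ F j) →
    (J 0 → J 1 → s 0 ≠ neg (s 1)) → (J m → J (m + 1) → s m ≠ neg (s (m + 1))) → CExt m s

lemma kq_of_killsQ {m : ℕ} {J : ℕ → Prop} {e e' : ℕ} {s₀ : ℕ → Q} {p : ℕ}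
    (h : KillsQ m J e e' s₀ p) : ∃ F, KQ m J e e' s₀ F ∧ (2 ≤ p → p + 1 ≤ m → (F p).card ≤ 1) := by
  obtain ⟨F, c1, c2, c3, c4, c5⟩ := h
  exact ⟨F, ⟨c1, c3, c4, c5⟩, c2⟩

/-- The earlier ports of the forks. -/
structure Early (G : SimpleGraph V) (k : ℕ) (x y : ℕ → V) (m : ℕ) (c : ℕ → V) (e e' : ℕ) : Prop where
  he : e = 0 ∨ e = 1
  he' : e' = m ∨ e' = m + 1
  lt : InC k x y (c 0) → InC k x y (c 1) → idx k x y (c e) < idx k x y (c (1 - e))
  lt' : InC k x y (c m) → InC k x y (c (m + 1)) → idx k x y (c e') < idx k x y (c (2 * m + 1 - e'))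

lemma exists_early (hG : ClassC G R) (hch : Chn G R k x y) {m : ℕ} {z c : ℕ → V} (h : Cat G R m z c) :
    ∃ e e', Early G k x y m c e e' := by
  have hp := h.pos
  obtain ⟨e, he, heO⟩ : ∃ e, (e = 0 ∨ e = 1) ∧ (InC k x y (c 0) → InC k x y (c 1) →
      idx k x y (c e) < idx k x y (c (1 - e))) := by
    rcases Nat.lt_trichotomy (idx k x y (c 0)) (idx k x y (c 1)) with h1 | h1 | h1
    · exact ⟨0, Or.inl rfl, fun _ _ => h1⟩
    · refine ⟨0, Or.inl rfl, fun h2 h3 => absurd h1 ?_⟩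
      exact idx_ne hG hch h2 h3 h.ne0 h.adj0 (h.adjc 1 le_rfl (by omega))
    · exact ⟨1, Or.inr rfl, fun _ _ => h1⟩
  obtain ⟨e', he', heO'⟩ : ∃ e', (e' = m ∨ e' = m + 1) ∧ (InC k x y (c m) → InC k x y (c (m + 1)) →
      idx k x y (c e') < idx k x y (c (2 * m + 1 - e'))) := by
    rcases Nat.lt_trichotomy (idx k x y (c m)) (idx k x y (c (m + 1))) with h1 | h1 | h1
    · refine ⟨m, Or.inl rfl, fun _ _ => ?_⟩
      rw [show 2 * m + 1 - m = m + 1 by omega]; exact h1
    · refine ⟨m, Or.inl rfl, fun h2 h3 => absurd h1 ?_⟩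
      exact idx_ne hG hch h2 h3 h.nem (h.adjc m (by omega) le_rfl) h.adjm
    · refine ⟨m + 1, Or.inr rfl, fun _ _ => ?_⟩
      rw [show 2 * m + 1 - (m + 1) = m by omega]; exact h1
  exact ⟨e, e', he, he', heO, heO'⟩

/-- The forbidden set at the port with index `j`. -/
noncomputable def Gam (k : ℕ) (x y : ℕ → V) (f : V → Q) (m : ℕ) (c : ℕ → V) (e e' : ℕ) (J : ℕ → Prop)
    (F : ℕ → Finset Q) (j : ℕ) (g : ℕ → Q) : Finset Q :=
  if (J 0 ∧ J 1) ∧ j = 1 - e then {neg (lbl k x y g f (c e))} else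
    if (J m ∧ J (m + 1)) ∧ j = 2 * m + 1 - e' then {neg (lbl k x y g f (c e'))} else
      if J j then F j else ∅

/-- The forbidden sets on the port edges of a component. -/
noncomputable def phiQ (k : ℕ) (x y : ℕ → V) (f : V → Q) (m : ℕ) (z c : ℕ → V) (e e' : ℕ) (J : ℕ → Prop)
    (F : ℕ → Finset Q) (v w : V) (g : ℕ → Q) : Finset Q :=
  if hh : ∃ j ≤ m + 1, c j = v ∧ z (cl m j) = w then Gam k x y f m c e e' J F hh.choose g else ∅

section

variable {f : V → Q} {m : ℕ} {z c : ℕ → V} {e e' : ℕ} {J : ℕ → Prop} {F : ℕ → Finset Q}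

lemma phiQ_port (h : Cat G R m z c) {j : ℕ} (hj : j ≤ m + 1) (g : ℕ → Q) :
    phiQ k x y f m z c e e' J F (c j) (z (cl m j)) g = Gam k x y f m c e e' J F j g := by
  unfold phiQ
  have hh : ∃ j' ≤ m + 1, c j' = c j ∧ z (cl m j') = z (cl m j) := ⟨j, hj, rfl, rfl⟩
  rw [dif_pos hh]
  have hs := hh.choose_spec
  rw [port_unique h hs.1 hj hs.2.1 hs.2.2]

lemma phiQ_none {v w : V} (hn : ∀ j ≤ m + 1, c j = v → z (cl m j) = w → False) (g : ℕ → Q) :
    phiQ k x y f m z c e e' J F v w g = ∅ := by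
  unfold phiQ
  rw [dif_neg]
  rintro ⟨j, hj, h1, h2⟩
  exact hn j hj h1 h2

lemma gam_none (hJ0 : ∀ j ≤ m + 1, J j → InC k x y (c j)) (he : e = 0 ∨ e = 1)
    (he' : e' = m ∨ e' = m + 1) {j : ℕ} (hj : ¬ J j) (g : ℕ → Q) :
    Gam k x y f m c e e' J F j g = ∅ := by
  unfold Gam
  rw [if_neg, if_neg, if_neg hj]
  · rintro ⟨⟨h1, h2⟩, h3⟩
    rcases he' with rfl | rfl
    · apply hj; rw [h3, show 2 * e' + 1 - e' = e' + 1 by omega]; exact h2
    · apply hj; rw [h3, show 2 * m + 1 - (m + 1) = m by omega]; exact h1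
  · rintro ⟨⟨h1, h2⟩, h3⟩
    rcases he with rfl | rfl
    · apply hj; rw [h3]; exact h2
    · apply hj; rw [h3]; exact h1

lemma gam_two (hF : ∀ j, (F j).card ≤ 2) (j : ℕ) (g g' : ℕ → Q) :
    (Gam k x y f m c e e' J F j g ∪ Gam k x y f m c e e' J F j g').card ≤ 2 := by
  unfold Gam
  split_ifs
  · exact (Finset.card_union_le _ _).trans (by simp)
  · exact (Finset.card_union_le _ _).trans (by simp)
  · rw [Finset.union_self]; exact hF j
  · simp

lemma phiQ_two (hF : ∀ j, (F j).card ≤ 2) (v w : V) (g g' : ℕ → Q) :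
    (phiQ k x y f m z c e e' J F v w g ∪ phiQ k x y f m z c e e' J F v w g').card ≤ 2 := by
  unfold phiQ
  split_ifs
  · exact gam_two hF _ _ _
  · simp

/-- The charge at an inner port is static. -/
lemma gam_inner (he : e = 0 ∨ e = 1) (he' : e' = m ∨ e' = m + 1) {j : ℕ} (h1 : 2 ≤ j)
    (h2 : j + 1 ≤ m) (g : ℕ → Q) :
    Gam k x y f m c e e' J F j g = if J j then F j else ∅ := by
  unfold Gam
  rw [if_neg (by omega), if_neg (by omega)]

/-- The charge at the earlier port of a fork is static. -/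
lemma gam_early (hm : 2 ≤ m) (he : e = 0 ∨ e = 1) (he' : e' = m ∨ e' = m + 1) {j : ℕ}
    (h0 : J 0 → J 1 → j ≠ 1 - e) (h0' : J m → J (m + 1) → j ≠ 2 * m + 1 - e') (g : ℕ → Q) :
    Gam k x y f m c e e' J F j g = if J j then F j else ∅ := by
  unfold Gam
  rw [if_neg (fun h => h0 h.1.1 h.1.2 h.2), if_neg (fun h => h0' h.1.1 h.1.2 h.2)]

lemma gam_dep (hch : Chn G R k x y) (h : Cat G R m z c) (hE : Early G k x y m c e e')
    (hJ0 : ∀ j ≤ m + 1, J j → InC k x y (c j)) {j : ℕ} (hj : j ≤ m + 1) {i : ℕ} (h1 : 1 ≤ i)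
    (h2 : i ≤ k) (hc : c j = x i ∨ c j = y i) {g g' : ℕ → Q} (hs : Same (i - 1) g g') :
    Gam k x y f m c e e' J F j g = Gam k x y f m c e e' J F j g' := by
  have hp := h.pos
  have hz1 : ¬ Cov G R (z 1) := h.unc 1 le_rfl (by omega)
  have hzm : ¬ Cov G R (z m) := h.unc m (by omega) le_rfl
  have he := hE.he
  have he' := hE.he'
  unfold Gam
  split_ifs with h3 h4
  · have b0 := hJ0 0 (by omega) h3.1.1
    have b1 := hJ0 1 (by omega) h3.1.2
    have a1 : G.Adj (z 1) (c e) := by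
      rcases he with rfl | rfl
      · exact h.adj0
      · exact h.adjc 1 le_rfl (by omega)
    have a2 : G.Adj (z 1) (c (1 - e)) := by
      rcases he with rfl | rfl
      · exact h.adjc 1 le_rfl (by omega)
      · exact h.adj0
    have a3 : InC k x y (c e) := by
      rcases he with rfl | rfl
      · exact b0
      · exact b1
    have a4 : InC k x y (c (1 - e)) := by
      rcases he with rfl | rfl
      · exact b1
      · exact b0
    rw [lbl_earlier hch a3 a4 a1 a2 hz1 (hE.lt b0 b1) (i := i) (by rw [← h3.2]; exact hc) h1 h2 hs]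
  · have b0 := hJ0 m (by omega) h4.1.1
    have b1 := hJ0 (m + 1) le_rfl h4.1.2
    have a1 : G.Adj (z m) (c e') := by
      rcases he' with rfl | rfl
      · exact h.adjc e' (by omega) le_rfl
      · exact h.adjm
    have a2 : G.Adj (z m) (c (2 * m + 1 - e')) := by
      rcases he' with h5 | h5
      · rw [show 2 * m + 1 - e' = m + 1 by omega]; exact h.adjm
      · rw [show 2 * m + 1 - e' = m by omega]; exact h.adjc m (by omega) le_rfl
    have a3 : InC k x y (c e') := by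
      rcases he' with h5 | h5
      · rw [h5]; exact b0
      · rw [h5]; exact b1
    have a4 : InC k x y (c (2 * m + 1 - e')) := by
      rcases he' with h5 | h5
      · rw [show 2 * m + 1 - e' = m + 1 by omega]; exact b1
      · rw [show 2 * m + 1 - e' = m by omega]; exact b0
    rw [lbl_earlier hch a3 a4 a1 a2 hzm (hE.lt' b0 b1) (i := i) (by rw [← h4.2]; exact hc) h1 h2 hs]
  · rfl
  · rfl

lemma phiQ_dep (hch : Chn G R k x y) (h : Cat G R m z c) (hE : Early G k x y m c e e')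
    (hJ0 : ∀ j ≤ m + 1, J j → InC k x y (c j)) {i : ℕ} (h1 : 1 ≤ i) (h2 : i ≤ k) (w : V)
    {g g' : ℕ → Q} (hs : Same (i - 1) g g') :
    phiQ k x y f m z c e e' J F (x i) w g = phiQ k x y f m z c e e' J F (x i) w g' ∧
      phiQ k x y f m z c e e' J F (y i) w g = phiQ k x y f m z c e e' J F (y i) w g' := by
  unfold phiQ
  constructor
  · split_ifs with hh
    · obtain ⟨a1, a2, a3⟩ := hh.choose_spec
      exact gam_dep hch h hE hJ0 a1 h1 h2 (Or.inl a2) hs
    · rfl
  · split_ifs with hh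
    · obtain ⟨a1, a2, a3⟩ := hh.choose_spec
      exact gam_dep hch h hE hJ0 a1 h1 h2 (Or.inr a2) hs
    · rfl

/-- The component is killed. -/
theorem phiQ_ok (h : Cat G R m z c) (hm : 2 ≤ m) (hE : Early G k x y m c e e')
    (hJ0 : ∀ j ≤ m + 1, J j → InC k x y (c j)) {s₀ : ℕ → Q} (hF : KQ m J e e' s₀ F) {mu : ℕ → Q}
    (hav : Avd G R k x y f (cSupp m z) (phiQ k x y f m z c e e' J F) mu)
    (hs : ∀ j ≤ m + 1, ¬ J j → lbl k x y mu f (c j) = s₀ j) :
    CExt m (fun j => lbl k x y mu f (c j)) := by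
  have hp := h.pos
  have he := hE.he
  have he' := hE.he'
  have hav' : ∀ j ≤ m + 1, J j → lbl k x y mu f (c j) ∉ Gam k x y f m c e e' J F j mu := by
    intro j hj hJ
    have h4 := cl_mem h.pos hj
    have := hav (z (cl m j)) (mem_cSupp h4.1 h4.2) (c j) (cat_adj_cl h hj) (hJ0 j hj hJ)
    rwa [phiQ_port h hj] at this
  refine hF.ok _ hs (fun j hj hJ => ?_) (fun h1 h2 => ?_) (fun h1 h2 => ?_)
  · have := hav' j hj hJ
    unfold Gam at this
    split_ifs at this with h3 h4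
    · rw [h3.2, hF.lft h3.1.1 h3.1.2]; simp
    · rw [h4.2, hF.rgt h4.1.1 h4.1.2]; simp
    · exact this
  · rcases he with rfl | rfl
    · have := hav' 1 (by omega) h2
      unfold Gam at this
      rw [if_pos ⟨⟨h1, h2⟩, by simp⟩, mem_singleton] at this
      exact H3DA.ne_neg_symm this
    · have := hav' 0 (by omega) h1
      unfold Gam at this
      rw [if_pos ⟨⟨h1, h2⟩, by simp⟩, mem_singleton] at this
      exact this
  · rcases he' with rfl | rfl
    · have := hav' (e' + 1) le_rfl h2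
      unfold Gam at this
      rw [if_neg (by omega), if_pos ⟨⟨h1, h2⟩, by omega⟩, mem_singleton] at this
      exact H3DA.ne_neg_symm this
    · have := hav' m (by omega) h1
      unfold Gam at this
      rw [if_neg (by omega), if_pos ⟨⟨h1, h2⟩, by omega⟩, mem_singleton] at this
      exact this

end

end CLB.H80
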