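import Pool.Agent.Helper80_DA.AWalk3
import Pool.Agent.Helper80_DA.KQ
import Pool.Agent.Helper91_DA.K0All

/-!
A component seeing only the two ends of an open chain: from forbidden sets to lists.
-/

set_option autoImplicit false
set_option linter.unusedSectionVars false

namespace CLB.H80

open Finset Classical
open CLB.H95
open H3DA (Q neg nr)
open CLB.H3 (CExt Cat IsTwo Fits UPath he_of_unc cat_structure chn_side)
open CLB.H91 (ovr ovr_in ovr_out)

variable {V : Type*} {G H : SimpleGraph V} {R : V → Bool} [Fintype V] {k : ℕ} {x y : ℕ → V}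

/-- The lists of the units. -/
noncomputable def lis (H : SimpleGraph V) (R : V → Bool) (x y : ℕ → V)
    (Φ : V → V → (ℕ → Q) → Finset Q) : (ℕ → Q) → ℕ → Finset Q := fun h i => olst H R x y Φ h i

section

variable {Φ : V → V → (ℕ → Q) → Finset Q}

lemma ldep_of_dep (hd : Dep k x y Φ) : LDep k (lis H R x y Φ) :=
  fun _ h1 h2 _ _ hs => olst_congr hd h1 h2 hs

lemma aw_pw {n : ℕ} {g : ℕ → Q} (h : AW (lis H R x y Φ) n g) : PW H R x y Φ n g := ⟨h.nwk, h.mem⟩

lemma pw_aw {n : ℕ} {g : ℕ → Q} (h : PW H R x y Φ n g) : AW (lis H R x y Φ) n g := ⟨h.nwk, h.mem⟩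

lemma lis_inter (Φ : V → V → (ℕ → Q) → Finset Q) (g g' : ℕ → Q) (i : ℕ) :
    (lst H R x y (uni Φ g g') i).card ≤ (lis H R x y Φ g i ∩ lis H R x y Φ g' i).card :=
  Finset.card_le_card fun _ ht => mem_inter.2 ⟨uni_left _ _ _ _ ht, uni_right _ _ _ _ ht⟩

lemma lis_inner (hH : ClassC H R) (h : Chn H R k x y)
    (h2 : ∀ v z g g', (Φ v z g ∪ Φ v z g').card ≤ 2) (g g' : ℕ → Q) (i : ℕ) (h1 : 1 < i)
    (hk : i < k) : 4 ≤ (lis H R x y Φ g i ∩ lis H R x y Φ g' i).card :=
  (lst_inner hH h (fun v z => h2 v z g g') h1 hk).trans (lis_inter Φ g g' i)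

lemma card_of_two (h2 : ∀ v z g g', (Φ v z g ∪ Φ v z g').card ≤ 2) (g : ℕ → Q) :
    ∀ v z, (Φ v z g).card ≤ 2 := by
  intro v z
  have := h2 v z g g
  rwa [Finset.union_self] at this

/-- The first list if one port of `x 1` is charged with one label. -/
lemma lis_first3 (hH : ClassC H R) (h : Chn H R k x y) (hk : 2 ≤ k)
    (h2 : ∀ v z g g', (Φ v z g ∪ Φ v z g').card ≤ 2) {za : V} (hza : za ∈ prt H R (x 1))
    (h1 : ∀ g, (Φ (x 1) za g).card ≤ 1) (g : ℕ → Q) : 3 ≤ (lis H R x y Φ g 1).card := by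
  have b := lst_card (G := H) (R := R) (x := x) (y := y) (fun v z => Φ v z g) 1
  have e1 := cst_le_light (card_of_two h2 g) (n := 1) (prt_card hH (h.cov (InC.x le_rfl h.pos))) hza
    (h1 g)
  have e2 := cst_le (card_of_two h2 g) (prt_card_lk hH (h.lk 1 le_rfl (by omega)))
  show 3 ≤ (lst H R x y (fun v z => Φ v z g) 1).card
  omega

end

/-- Charges depending on the vertex of the chain only. -/
def cg (B : V → Finset Q) : V → V → (ℕ → Q) → Finset Q := fun v _ _ => B v

section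

variable {S : Set V} {B B' : V → Finset Q} {Φ : V → V → (ℕ → Q) → Finset Q}

lemma ovr_two (hB : ∀ v, (B v).card ≤ 2) (h2 : ∀ v z g g', (Φ v z g ∪ Φ v z g').card ≤ 2) :
    ∀ v z g g', (ovr S (cg B) Φ v z g ∪ ovr S (cg B) Φ v z g').card ≤ 2 := by
  intro v z g g'
  by_cases hz : z ∈ S
  · rw [ovr_in hz, ovr_in hz]
    unfold cg
    rw [Finset.union_self]; exact hB v
  · rw [ovr_out hz, ovr_out hz]; exact h2 v z g g'

lemma ovr_dep (hd : Dep k x y Φ) : Dep k x y (ovr S (cg B) Φ) := by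
  intro i h1 h2 z g g' hs
  by_cases hz : z ∈ S
  · rw [ovr_in hz, ovr_in hz, ovr_in hz, ovr_in hz]; exact ⟨rfl, rfl⟩
  · rw [ovr_out hz, ovr_out hz, ovr_out hz, ovr_out hz]; exact hd i h1 h2 z g g' hs

/-- Partial walks with other charges at later units. -/
lemma PW.congr_le {Φ Φ' : V → V → (ℕ → Q) → Finset Q} {n : ℕ} {g : ℕ → Q}
    (hp : PW H R x y Φ n g)
    (he : ∀ i, 1 ≤ i → i ≤ n → ∀ z, Φ (x i) z g = Φ' (x i) z g ∧ Φ (y i) z g = Φ' (y i) z g) :
    PW H R x y Φ' n g := by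
  refine ⟨hp.nwk, fun i h1 h2 => ?_⟩
  have : olst H R x y Φ g i = olst H R x y Φ' g i := lst_congr' (he i h1 h2)
  rw [← this]
  exact hp.mem i h1 h2

end

/-- The charges of the component at the two ends. -/
noncomputable def ends (k : ℕ) (x y : ℕ → V) (P D : Finset Q) : V → Finset Q :=
  fun v => if v = x 1 then P else if v = y k then D else ∅

lemma ends_card {P D : Finset Q} (hP : P.card ≤ 2) (hD : D.card ≤ 2) (v : V) :
    (ends k x y P D v).card ≤ 2 := by
  unfold ends
  split_ifs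
  · exact hP
  · exact hD
  · simp

lemma ends_x1 {P D : Finset Q} : ends k x y P D (x 1) = P := by unfold ends; rw [if_pos rfl]

lemma ends_yk (h : Chn H R k x y) {P D : Finset Q} : ends k x y P D (y k) = D := by
  unfold ends
  rw [if_neg (fun he => h.xy 1 k le_rfl h.pos h.pos le_rfl he.symm), if_pos rfl]

lemma ends_congr (h : Chn H R k x y) {P D D' : Finset Q} {i : ℕ} (h1 : 1 ≤ i) (h2 : i < k) :
    ends k x y P D (x i) = ends k x y P D' (x i) ∧ ends k x y P D (y i) = ends k x y P D' (y i) := by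
  unfold ends
  constructor
  · split_ifs with h3 h4
    · rfl
    · exact absurd h4 (h.xy i k h1 (by omega) (by omega) le_rfl)
    · rfl
  · split_ifs with h3 h4
    · rfl
    · have := h.injy i k h1 (by omega) (by omega) le_rfl h4
      omega
    · rfl

/-- The charges of the component agree below the last unit. -/
lemma pw_ends (h : Chn H R k x y) {S : Set V} {P D D' : Finset Q}
    {Φ : V → V → (ℕ → Q) → Finset Q} {n : ℕ} (hn : n < k) {g : ℕ → Q}
    (hp : PW H R x y (ovr S (cg (ends k x y P D)) Φ) n g) :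
    PW H R x y (ovr S (cg (ends k x y P D')) Φ) n g := by
  refine PW.congr_le hp (fun i h1 h2 z => ?_)
  have e := ends_congr (P := P) (D := D) (D' := D') h h1 (show i < k by omega)
  by_cases hz : z ∈ S
  · rw [ovr_in hz, ovr_in hz, ovr_in hz, ovr_in hz]; exact e
  · rw [ovr_out hz, ovr_out hz, ovr_out hz, ovr_out hz]; exact ⟨rfl, rfl⟩

/-- The label of unit `1`. -/
lemma pw_x1 {S : Set V} {P D : Finset Q} {Φ : V → V → (ℕ → Q) → Finset Q} {n : ℕ} (hn : 1 ≤ n)
    {g : ℕ → Q} (hp : PW H R x y (ovr S (cg (ends k x y P D)) Φ) n g) {za : V}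
    (hza : za ∈ prt H R (x 1)) (hzS : za ∈ S) : neg (g 1) ∉ P := by
  have h1 := hp.mem 1 le_rfl hn
  unfold olst at h1
  rw [mem_lst] at h1
  have := h1.1 za hza
  rw [ovr_in hzS] at this
  unfold cg at this
  rw [ends_x1, sg_odd (by omega)] at this
  exact this

/-- The label of the last unit. -/
lemma pw_yk (h : Chn H R k x y) {S : Set V} {P D : Finset Q} {Φ : V → V → (ℕ → Q) → Finset Q}
    {g : ℕ → Q} (hp : PW H R x y (ovr S (cg (ends k x y P D)) Φ) k g) {zb : V}
    (hzb : zb ∈ prt H R (y k)) (hzS : zb ∈ S) : neg (sg k (g k)) ∉ D := by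
  have h1 := hp.mem k h.pos le_rfl
  unfold olst at h1
  rw [mem_lst] at h1
  have := h1.2 zb hzb
  rw [ovr_in hzS] at this
  unfold cg at this
  rw [ends_yk h] at this
  exact this

end CLB.H80
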