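import Pool.Agent.Helper91_DA.Laws2
import Pool.Agent.Helper3_DA.CritK

/-!
Nearly closed components with at most four vertices: the shapes.
-/

set_option autoImplicit false
set_option linter.unusedSectionVars false

namespace CLB.H80

open Finset Classical
open CLB.H95
open H3DA (Q neg nr)
open CLB.H3 (CExt Cat IsTwo Fits UPath he_of_unc cat_structure chn_side pos NoFull noFull_shape noFull_inj
  noFull_small chs mem_chs mmS)
open CLB.H91 (LM no_fork_xx ncp_forks)

variable {V : Type*} {G H : SimpleGraph V} {R : V → Bool} [Fintype V] {k : ℕ} {x y : ℕ → V}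
  {m : ℕ} {z c : ℕ → V}

/-- The component sees the vertices `x 1, ..., x a` and no other vertex of the chain. -/
structure OneX (k : ℕ) (x y : ℕ → V) (m : ℕ) (c : ℕ → V) (a : ℕ) : Prop where
  ak : a ≤ k
  see : ∀ i, 1 ≤ i → i ≤ a → ∃ j ≤ m + 1, c j = x i
  all : ∀ j ≤ m + 1, InC k x y (c j) → ∃ i, 1 ≤ i ∧ i ≤ a ∧ c j = x i
  inj : ∀ i j, i ≤ m + 1 → j ≤ m + 1 → c i = c j → i = j

lemma shape_cases (hH : ClassC H R) (h : Chn H R k x y) (hK : Cat H R m z c) (hF : NoFull H R m c) :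
    (∃ a b, Sp k x y m c a b) ∨ (∃ a, OneX k x y m c a) ∨
      ∃ a, OneX k (fun i => y (k + 1 - i)) (fun i => x (k + 1 - i)) m c a := by
  obtain ⟨a, g, hag, hg, hx, hy⟩ := noFull_shape hH h hK hF
  obtain ⟨hinj, -⟩ := noFull_inj hH h hK hF
  by_cases h1 : g = k + 1
  · right; left
    refine ⟨min a k, by omega, fun i i1 i2 => (hx i i1 (by omega)).2 (by omega), fun j hj hin => ?_,
      hinj⟩
    obtain ⟨i, i1, i2, i3 | i3⟩ := hin
    · exact ⟨i, i1, le_min ((hx i i1 i2).1 ⟨j, hj, i3⟩) i2, i3⟩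
    · have := (hy i i1 i2).1 ⟨j, hj, i3⟩
      omega
  · by_cases h2 : a = 0
    · right; right
      refine ⟨min (k + 1 - g) k, by omega, fun i i1 i2 => (hy (k + 1 - i) (by omega) (by omega)).2
        (by omega), fun j hj hin => ?_, hinj⟩
      obtain ⟨i, i1, i2, i3 | i3⟩ := (inC_rev (k := k) (x := x) (y := y)).1 hin
      · have := (hx i i1 i2).1 ⟨j, hj, i3⟩
        omega
      · have := (hy i i1 i2).1 ⟨j, hj, i3⟩
        refine ⟨k + 1 - i, by omega, le_min (by omega) (by omega), ?_⟩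
        show c j = y (k + 1 - (k + 1 - i))
        rw [show k + 1 - (k + 1 - i) = i by omega]; exact i3
    · left
      refine ⟨a, k + 1 - g, by omega, by omega, by omega, fun i i1 i2 => (hx i i1 (by omega)).2 i2,
        fun i i1 i2 => (hy i (by omega) i1).2 (by omega), fun j hj hin => ?_,
        fun i j hi hj _ he => hinj i j hi hj he⟩
      obtain ⟨i, i1, i2, i3 | i3⟩ := hin
      · exact Or.inl ⟨i, i1, (hx i i1 i2).1 ⟨j, hj, i3⟩, i3⟩
      · have := (hy i i1 i2).1 ⟨j, hj, i3⟩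
        exact Or.inr ⟨i, i2, by omega, i3⟩

/-- The path of two vertices seeing `x 1`, `x 3` at one vertex and `x 2` at the other one. -/
def Dlt (k : ℕ) (x y : ℕ → V) (c : ℕ → V) : Prop :=
  ∃ o o' q q', LM 2 o o' ∧ LM 2 q q' ∧ pos 2 o ≠ pos 2 q ∧ c o = x 1 ∧ c o' = x 3 ∧ c q = x 2 ∧
    ¬ InC k x y (c q')

theorem one_two (hH : ClassC H R) (h : Chn H R k x y) (hK : Cat H R 2 z c)
    (hN : NCp 2 (JC k x y c)) {a : ℕ} (hX : OneX k x y 2 c a) :
    AL k x y c (x 1) (x 2) ∨ (3 ≤ k ∧ Dlt k x y c) := by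
  have hak := hX.ak
  have P : ∀ j ≤ 2 + 1, (j ≤ 1 ∧ pos 2 j = 1) ∨ (2 ≤ j ∧ pos 2 j = 2) := by
    intro j hj
    unfold pos
    split_ifs <;> omega
  obtain ⟨hl, hr⟩ := ncp_forks hN
  have par : ∀ i j u v, i ≤ 2 + 1 → j ≤ 2 + 1 → 1 ≤ u → u ≤ a → 1 ≤ v → v ≤ a → c i = x u → c j = x v →
      (pos 2 i + u) % 2 = (pos 2 j + v) % 2 := fun i j u v hi hj u1 u2 v1 v2 e1 e2 =>
    port_par h hK hi hj ⟨u1, by omega⟩ ⟨v1, by omega⟩ (Or.inl e1) (Or.inl e2)
  have ha2 : 2 ≤ a := by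
    obtain ⟨o, ho, hoJ⟩ : ∃ o ≤ 1, JC k x y c o := by
      rcases hl with h1 | h1
      · exact ⟨0, by omega, h1⟩
      · exact ⟨1, le_rfl, h1⟩
    obtain ⟨q, hq, hq', hqJ⟩ : ∃ q, 2 ≤ q ∧ q ≤ 3 ∧ JC k x y c q := by
      rcases hr with h1 | h1
      · exact ⟨2, by omega, by omega, h1⟩
      · exact ⟨3, by omega, by omega, h1⟩
    obtain ⟨u, u1, u2, u3⟩ := hX.all o (by omega) hoJ
    obtain ⟨v, v1, v2, v3⟩ := hX.all q (by omega) hqJ
    have := par o q u v (by omega) (by omega) u1 u2 v1 v2 u3 v3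
    have p1 := P o (by omega)
    have p2 := P q (by omega)
    by_contra hcon
    have : u = 1 := by omega
    have : v = 1 := by omega
    omega
  obtain ⟨j1, hj1, e1⟩ := hX.see 1 le_rfl (by omega)
  obtain ⟨j2, hj2, e2⟩ := hX.see 2 (by omega) (by omega)
  have q12 := par j1 j2 1 2 hj1 hj2 (by omega) (by omega) (by omega) (by omega) e1 e2
  have p1 := P j1 hj1
  have p2 := P j2 hj2
  have n12 : j1 ≠ j2 := by rintro rfl; omega
  by_cases ha3 : a = 2
  · left
    refine ⟨j1, j2, by omega, e1, e2, fun j hj n1 n2 hin => ?_⟩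
    obtain ⟨i, i1, i2, i3⟩ := hX.all j hj hin
    have : i = 1 ∨ i = 2 := by omega
    rcases this with rfl | rfl
    · exact n1 (hX.inj j j1 hj hj1 (i3.trans e1.symm))
    · exact n2 (hX.inj j j2 hj hj2 (i3.trans e2.symm))
  · right
    refine ⟨by omega, ?_⟩
    obtain ⟨j3, hj3, e3⟩ := hX.see 3 (by omega) (by omega)
    have q13 := par j1 j3 1 3 hj1 hj3 (by omega) (by omega) (by omega) (by omega) e1 e3
    have p3 := P j3 hj3
    have n13 : j1 ≠ j3 := by
      rintro rfl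
      have := h.injx 1 3 (by omega) (by omega) (by omega) (by omega) (e1.symm.trans e3)
      omega
    have l13 : LM 2 j1 j3 := by unfold LM; omega
    have ha4 : a = 3 := by
      by_contra hcon
      obtain ⟨j4, hj4, e4⟩ := hX.see 4 (by omega) (by omega)
      have q24 := par j2 j4 2 4 hj2 hj4 (by omega) (by omega) (by omega) (by omega) e2 e4
      have p4 := P j4 hj4
      have n24 : j4 ≠ j2 := by
        rintro rfl
        have := h.injx 2 4 (by omega) (by omega) (by omega) (by omega) (e2.symm.trans e4)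
        omega
      have l24 : LM 2 j4 j2 := by unfold LM; omega
      exact no_fork_xx hH h hK le_rfl l24 (u := 4) (v := 2) (by omega) (by omega) (by omega) e4 e2
    obtain ⟨q', hq'⟩ : ∃ q', LM 2 j2 q' := by
      refine ⟨if j2 = 0 then 1 else if j2 = 1 then 0 else if j2 = 2 then 3 else 2, ?_⟩
      unfold LM
      split_ifs <;> omega
    have hq3 := hq'.le (by omega : 2 ≤ 2)
    have p4 := P q' hq3.2.1
    have hpq : pos 2 j2 = pos 2 q' := hq'.pos_eq (by omega)
    refine ⟨j1, j3, j2, q', l13, hq', by omega, e1, e3, e2, fun hin => ?_⟩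
    obtain ⟨i, i1, i2, i3⟩ := hX.all q' hq3.2.1 hin
    have : i = 1 ∨ i = 2 ∨ i = 3 := by omega
    rcases this with rfl | rfl | rfl
    · have := hX.inj q' j1 hq3.2.1 hj1 (i3.trans e1.symm)
      subst this; omega
    · have := hX.inj q' j2 hq3.2.1 hj2 (i3.trans e2.symm)
      exact hq3.2.2 this.symm
    · have := hX.inj q' j3 hq3.2.1 hj3 (i3.trans e3.symm)
      subst this; omega

lemma ncp_three {J : ℕ → Prop} (hN : NCp 3 J) :
    ∃ p q r, (p = 0 ∨ p = 1 ∨ p = 3 ∨ p = 4) ∧ (q = 0 ∨ q = 1 ∨ q = 3 ∨ q = 4) ∧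
      (r = 0 ∨ r = 1 ∨ r = 3 ∨ r = 4) ∧ p ≠ q ∧ q ≠ r ∧ p ≠ r ∧ J p ∧ J q ∧ J r := by
  have key : (J 0 ∧ J 1 ∧ (J 3 ∨ J 4)) ∨ (J 3 ∧ J 4 ∧ (J 0 ∨ J 1)) := by
    rcases hN with h | ⟨h0, h1, -, h2, h3⟩ | ⟨h0, h1, -, h2, h3⟩ | ⟨h0, h1, h2, h3, h4⟩ | ⟨-, h⟩ |
      ⟨h, -⟩
    · exact absurd h.1 (by omega)
    · exact Or.inl ⟨h0, h1, h2⟩
    · exact Or.inr ⟨h0, h1, h2⟩
    · exact Or.inl ⟨h0, h1, Or.inl h2⟩
    · exact h
    · exact absurd h (by omega)
  rcases key with ⟨h0, h1, h2 | h2⟩ | ⟨h0, h1, h2 | h2⟩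
  · exact ⟨0, 1, 3, by omega, by omega, by omega, by omega, by omega, by omega, h0, h1, h2⟩
  · exact ⟨0, 1, 4, by omega, by omega, by omega, by omega, by omega, by omega, h0, h1, h2⟩
  · exact ⟨3, 4, 0, by omega, by omega, by omega, by omega, by omega, by omega, h0, h1, h2⟩
  · exact ⟨3, 4, 1, by omega, by omega, by omega, by omega, by omega, by omega, h0, h1, h2⟩

theorem one_three (h : Chn H R k x y) (hK : Cat H R 3 z c)
    (hN : NCp 3 (JC k x y c)) {a : ℕ} (hX : OneX k x y 3 c a) : False := by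
  have hak := hX.ak
  have P1 : ∀ j, (j = 0 ∨ j = 1 ∨ j = 3 ∨ j = 4) → j ≤ 3 + 1 ∧ pos 3 j % 2 = 1 := by
    intro j hj
    unfold pos
    split_ifs
    all_goals omega
  have P2 : ∀ j ≤ 3 + 1, pos 3 j % 2 = 0 → j = 2 := by
    intro j hj hj'
    unfold pos at hj'
    split_ifs at hj' <;> omega
  have par : ∀ i j u v, i ≤ 3 + 1 → j ≤ 3 + 1 → 1 ≤ u → u ≤ a → 1 ≤ v → v ≤ a → c i = x u → c j = x v →
      (pos 3 i + u) % 2 = (pos 3 j + v) % 2 := fun i j u v hi hj u1 u2 v1 v2 e1 e2 =>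
    port_par h hK hi hj ⟨u1, by omega⟩ ⟨v1, by omega⟩ (Or.inl e1) (Or.inl e2)
  obtain ⟨p, q, r, hp, hq, hr, npq, nqr, npr, jp, jq, jr⟩ := ncp_three hN
  obtain ⟨p1, p2⟩ := P1 p hp
  obtain ⟨q1, q2⟩ := P1 q hq
  obtain ⟨r1, r2⟩ := P1 r hr
  clear hp hq hr
  obtain ⟨u, u1, u2, u3⟩ := hX.all p p1 jp
  obtain ⟨v, v1, v2, v3⟩ := hX.all q q1 jq
  obtain ⟨w, w1, w2, w3⟩ := hX.all r r1 jr
  have a1 := par p q u v p1 q1 u1 u2 v1 v2 u3 v3
  have a2 := par p r u w p1 r1 u1 u2 w1 w2 u3 w3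
  have nuv : u ≠ v := by rintro rfl; exact npq (hX.inj p q p1 q1 (u3.trans v3.symm))
  have nuw : u ≠ w := by rintro rfl; exact npr (hX.inj p r p1 r1 (u3.trans w3.symm))
  have nvw : v ≠ w := by rintro rfl; exact nqr (hX.inj q r q1 r1 (v3.trans w3.symm))
  have a1' : u % 2 = v % 2 := by omega
  have a2' : u % 2 = w % 2 := by omega
  have ha5 : 5 ≤ a := by
    clear a1 a2 par P1 P2
    omega
  -- two units of the other parity
  obtain ⟨s, t, s1, s2, t1, t2, hst, hs, ht⟩ : ∃ s t, 1 ≤ s ∧ s ≤ a ∧ 1 ≤ t ∧ t ≤ a ∧ s ≠ t ∧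
      s % 2 ≠ u % 2 ∧ t % 2 ≠ u % 2 := by
    rcases Nat.mod_two_eq_zero_or_one u with hu | hu
    · exact ⟨1, 3, by omega, by omega, by omega, by omega, by omega, by omega, by omega⟩
    · exact ⟨2, 4, by omega, by omega, by omega, by omega, by omega, by omega, by omega⟩
  obtain ⟨js, hjs, es⟩ := hX.see s s1 s2
  obtain ⟨jt, hjt, et⟩ := hX.see t t1 t2
  have a3 := par p js u s p1 hjs u1 u2 s1 s2 u3 es
  have a4 := par p jt u t p1 hjt u1 u2 t1 t2 u3 et
  have b4 := P2 js hjs (by omega)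
  have b5 := P2 jt hjt (by omega)
  subst b4
  subst b5
  exact hst (h.injx s t s1 (by omega) t1 (by omega) (es.symm.trans et))

/-- The ports of a nearly closed path of four vertices. -/
def ABC (J : ℕ → Prop) : Prop :=
  (J 0 ∧ J 1 ∧ J 4 ∧ J 5) ∨ (J 0 ∧ J 1 ∧ J 2 ∧ J 3 ∧ (J 4 ∨ J 5)) ∨
    (J 4 ∧ J 5 ∧ J 2 ∧ J 3 ∧ (J 0 ∨ J 1))

lemma ncp_abc {J : ℕ → Prop} (hN : NCp 4 J) : ABC J := by
  rcases hN with h | ⟨h0, h1, -, h2, h3⟩ | ⟨h0, h1, -, h2, h3⟩ | ⟨h0, h1, h2, h3, h4⟩ | ⟨h, -⟩ |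
    ⟨-, h0, h1, h2, h3⟩
  · exact absurd h.1 (by omega)
  · exact Or.inr (Or.inl ⟨h0, h1, h3 2 (by omega) (by omega), h3 3 (by omega) (by omega), h2⟩)
  · exact Or.inr (Or.inr ⟨h0, h1, h3 2 (by omega) (by omega), h3 3 (by omega) (by omega), h2⟩)
  · exact Or.inl ⟨h0, h1, h2, h3⟩
  · exact absurd h (by omega)
  · exact Or.inl ⟨h0, h1, h2, h3⟩

/-- The two shapes with four vertices. -/
def M4 (k : ℕ) (x y : ℕ → V) (c : ℕ → V) : Prop :=
  5 ≤ k ∧ ∃ o o' q q', ((o = 0 ∧ o' = 1) ∨ (o = 1 ∧ o' = 0)) ∧ ((q = 4 ∧ q' = 5) ∨ (q = 5 ∧ q' = 4)) ∧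
    c o = x 1 ∧ c o' = x 5 ∧ c 3 = x 3 ∧ ((c 2 = x 2 ∧ c q = x 4) ∨ (c 2 = x 4 ∧ c q = x 2)) ∧
    ¬ InC k x y (c q')

/-- Injectivity gives a lower bound for the number of seen vertices. -/
lemma OneX.card_le (h : Chn H R k x y) {a : ℕ} (hX : OneX k x y m c a) (T : Finset ℕ)
    (hT : ∀ j ∈ T, j ≤ m + 1 ∧ InC k x y (c j)) : T.card ≤ a := by
  have hak := hX.ak
  have hex : ∀ j, j ∈ T → ∃ i, 1 ≤ i ∧ i ≤ a ∧ c j = x i := fun j hj => hX.all j (hT j hj).1 (hT j hj).2
  let g : ℕ → ℕ := fun j => if hj : j ∈ T then (hex j hj).choose else 0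
  have hg : ∀ j ∈ T, 1 ≤ g j ∧ g j ≤ a ∧ c j = x (g j) := by
    intro j hj
    simp only [g, dif_pos hj]
    exact (hex j hj).choose_spec
  have h1 : T.card ≤ (Icc 1 a).card := by
    refine Finset.card_le_card_of_injOn g ?_ ?_
    · intro j hj
      have := hg j hj
      rw [Finset.mem_coe, mem_Icc]
      exact ⟨this.1, this.2.1⟩
    · intro i hi j hj hij
      have e1 := hg i hi
      have e2 := hg j hj
      exact hX.inj i j (hT i hi).1 (hT j hj).1 (by rw [e1.2.2, e2.2.2, hij])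
  rw [Nat.card_Icc] at h1
  omega

theorem one_four_I (hH : ClassC H R) (h : Chn H R k x y) (hK : Cat H R 4 z c)
    (hN : ABC (JC k x y c)) {a : ℕ} (hX : OneX k x y 4 c a) {j1 : ℕ} (hj1 : j1 ≤ 4 + 1)
    (e1 : c j1 = x 1) (hodd : pos 4 j1 % 2 = 1) : M4 k x y c := by
  have hak := hX.ak
  have PO : ∀ j ≤ 4 + 1, pos 4 j % 2 = 1 → j = 0 ∨ j = 1 ∨ j = 3 := by
    intro j hj hj'
    unfold pos at hj'
    split_ifs at hj' <;> omega
  have PE : ∀ j ≤ 4 + 1, pos 4 j % 2 = 0 → j = 2 ∨ j = 4 ∨ j = 5 := by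
    intro j hj hj'
    unfold pos at hj'
    split_ifs at hj' <;> omega
  have par : ∀ i j u v, i ≤ 4 + 1 → j ≤ 4 + 1 → 1 ≤ u → u ≤ a → 1 ≤ v → v ≤ a → c i = x u → c j = x v →
      (pos 4 i + u) % 2 = (pos 4 j + v) % 2 := fun i j u v hi hj u1 u2 v1 v2 e1 e2 =>
    port_par h hK hi hj ⟨u1, by omega⟩ ⟨v1, by omega⟩ (Or.inl e1) (Or.inl e2)
  have ne : ∀ {i j u v : ℕ}, 1 ≤ u → u ≤ a → 1 ≤ v → v ≤ a → u ≠ v → c i = x u → c j = x v → i ≠ j := by
    rintro i j u v u1 u2 v1 v2 huv e e' rfl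
    exact huv (h.injx u v u1 (by omega) v1 (by omega) (e.symm.trans e'))
  have ha4 : 4 ≤ a := by
    rcases hN with ⟨b0, b1, b4, b5⟩ | ⟨b0, b1, b2, b3, -⟩ | ⟨b4, b5, b2, b3, -⟩
    · refine le_trans ?_ (hX.card_le h {0, 1, 4, 5} ?_)
      · decide
      · intro j hj
        simp only [mem_insert, mem_singleton] at hj
        rcases hj with rfl | rfl | rfl | rfl
        exacts [⟨by omega, b0⟩, ⟨by omega, b1⟩, ⟨by omega, b4⟩, ⟨by omega, b5⟩]
    · refine le_trans ?_ (hX.card_le h {0, 1, 2, 3} ?_)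
      · decide
      · intro j hj
        simp only [mem_insert, mem_singleton] at hj
        rcases hj with rfl | rfl | rfl | rfl
        exacts [⟨by omega, b0⟩, ⟨by omega, b1⟩, ⟨by omega, b2⟩, ⟨by omega, b3⟩]
    · refine le_trans ?_ (hX.card_le h {4, 5, 2, 3} ?_)
      · decide
      · intro j hj
        simp only [mem_insert, mem_singleton] at hj
        rcases hj with rfl | rfl | rfl | rfl
        exacts [⟨by omega, b4⟩, ⟨by omega, b5⟩, ⟨by omega, b2⟩, ⟨by omega, b3⟩]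
  obtain ⟨j2, hj2, e2⟩ := hX.see 2 (by omega) (by omega)
  obtain ⟨j3, hj3, e3⟩ := hX.see 3 (by omega) (by omega)
  obtain ⟨j4, hj4, e4⟩ := hX.see 4 (by omega) (by omega)
  have q12 := par j1 j2 1 2 hj1 hj2 (by omega) (by omega) (by omega) (by omega) e1 e2
  have q13 := par j1 j3 1 3 hj1 hj3 (by omega) (by omega) (by omega) (by omega) e1 e3
  have q14 := par j1 j4 1 4 hj1 hj4 (by omega) (by omega) (by omega) (by omega) e1 e4
  have p1 := PO j1 hj1 hodd
  have p2 := PE j2 hj2 (by omega)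
  have p3 := PO j3 hj3 (by omega)
  have p4 := PE j4 hj4 (by omega)
  have n13 : j1 ≠ j3 := ne (u := 1) (v := 3) (by omega) (by omega) (by omega) (by omega) (by omega) e1 e3
  have n24 : j2 ≠ j4 := ne (u := 2) (v := 4) (by omega) (by omega) (by omega) (by omega) (by omega) e2 e4
  -- the class of the even units
  obtain ⟨q, q', hqq, hcase⟩ : ∃ q q', ((q = 4 ∧ q' = 5) ∨ (q = 5 ∧ q' = 4)) ∧
      ((c 2 = x 2 ∧ c q = x 4) ∨ (c 2 = x 4 ∧ c q = x 2)) := by
    have hnf : ¬ LM 4 j4 j2 := fun hl =>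
      no_fork_xx hH h hK (by omega) hl (u := 4) (v := 2) (by omega) (by omega) (by omega) e4 e2
    rcases p2 with rfl | rfl | rfl
    · rcases p4 with rfl | rfl | rfl
      · exact absurd rfl n24
      · exact ⟨4, 5, by omega, Or.inl ⟨e2, e4⟩⟩
      · exact ⟨5, 4, by omega, Or.inl ⟨e2, e4⟩⟩
    · rcases p4 with rfl | rfl | rfl
      · exact ⟨4, 5, by omega, Or.inr ⟨e4, e2⟩⟩
      · exact absurd rfl n24
      · exact absurd (by unfold LM; omega) hnf
    · rcases p4 with rfl | rfl | rfl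
      · exact ⟨5, 4, by omega, Or.inr ⟨e4, e2⟩⟩
      · exact absurd (by unfold LM; omega) hnf
      · exact absurd rfl n24
  have hq' : q' ≤ 4 + 1 := by omega
  have hq'E : pos 4 q' % 2 = 0 := by
    rcases hqq with ⟨-, rfl⟩ | ⟨-, rfl⟩ <;> decide
  have hq'n : q' ≠ j2 ∧ q' ≠ j4 := by
    constructor
    · rintro rfl
      rcases hcase with ⟨c1, -⟩ | ⟨-, c1⟩
      · have := hX.inj 2 q' (by omega) hq' (c1.trans e2.symm)
        omega
      · have := hX.inj q q' (by omega) hq' (c1.trans e2.symm)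
        omega
    · rintro rfl
      rcases hcase with ⟨-, c1⟩ | ⟨c1, -⟩
      · have := hX.inj q q' (by omega) hq' (c1.trans e4.symm)
        omega
      · have := hX.inj 2 q' (by omega) hq' (c1.trans e4.symm)
        omega
  -- the vertex at `q'`
  have hout : ∀ i, 1 ≤ i → i ≤ a → c q' = x i → 6 ≤ i := by
    intro i i1 i2 e
    have hp := par q' j1 i 1 hq' hj1 i1 i2 (by omega) (by omega) e e1
    by_contra hcon
    have : i = 2 ∨ i = 4 := by omega
    rcases this with rfl | rfl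
    · exact hq'n.1 (hX.inj q' j2 hq' hj2 (e.trans e2.symm))
    · exact hq'n.2 (hX.inj q' j4 hq' hj4 (e.trans e4.symm))
  have ha5 : 5 ≤ a := by
    rcases hN with ⟨b0, b1, b4, b5⟩ | ⟨b0, b1, b2, b3, b⟩ | ⟨b4, b5, b2, b3, b⟩
    · have : JC k x y c q' := by
        rcases hqq with ⟨-, rfl⟩ | ⟨-, rfl⟩
        · exact b5
        · exact b4
      obtain ⟨i, i1, i2, i3⟩ := hX.all q' hq' this
      have := hout i i1 i2 i3
      omega
    · rcases b with b | b
      · refine le_trans ?_ (hX.card_le h {0, 1, 2, 3, 4} ?_)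
        · decide
        · intro j hj
          simp only [mem_insert, mem_singleton] at hj
          rcases hj with rfl | rfl | rfl | rfl | rfl
          exacts [⟨by omega, b0⟩, ⟨by omega, b1⟩, ⟨by omega, b2⟩, ⟨by omega, b3⟩, ⟨by omega, b⟩]
      · refine le_trans ?_ (hX.card_le h {0, 1, 2, 3, 5} ?_)
        · decide
        · intro j hj
          simp only [mem_insert, mem_singleton] at hj
          rcases hj with rfl | rfl | rfl | rfl | rfl
          exacts [⟨by omega, b0⟩, ⟨by omega, b1⟩, ⟨by omega, b2⟩, ⟨by omega, b3⟩, ⟨by omega, b⟩]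
    · rcases b with b | b
      · refine le_trans ?_ (hX.card_le h {4, 5, 2, 3, 0} ?_)
        · decide
        · intro j hj
          simp only [mem_insert, mem_singleton] at hj
          rcases hj with rfl | rfl | rfl | rfl | rfl
          exacts [⟨by omega, b4⟩, ⟨by omega, b5⟩, ⟨by omega, b2⟩, ⟨by omega, b3⟩, ⟨by omega, b⟩]
      · refine le_trans ?_ (hX.card_le h {4, 5, 2, 3, 1} ?_)
        · decide
        · intro j hj
          simp only [mem_insert, mem_singleton] at hj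
          rcases hj with rfl | rfl | rfl | rfl | rfl
          exacts [⟨by omega, b4⟩, ⟨by omega, b5⟩, ⟨by omega, b2⟩, ⟨by omega, b3⟩, ⟨by omega, b⟩]
  obtain ⟨j5, hj5, e5⟩ := hX.see 5 (by omega) (by omega)
  have q15 := par j1 j5 1 5 hj1 hj5 (by omega) (by omega) (by omega) (by omega) e1 e5
  have p5 := PO j5 hj5 (by omega)
  have n15 : j1 ≠ j5 := ne (u := 1) (v := 5) (by omega) (by omega) (by omega) (by omega) (by omega) e1 e5
  have n35 : j3 ≠ j5 := ne (u := 3) (v := 5) (by omega) (by omega) (by omega) (by omega) (by omega) e3 e5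
  -- five seen vertices
  have ha : a = 5 := by
    by_contra hcon
    obtain ⟨j6, hj6, e6⟩ := hX.see 6 (by omega) (by omega)
    have q16 := par j1 j6 1 6 hj1 hj6 (by omega) (by omega) (by omega) (by omega) e1 e6
    have p6 := PE j6 hj6 (by omega)
    have n26 : j2 ≠ j6 := ne (u := 2) (v := 6) (by omega) (by omega) (by omega) (by omega) (by omega) e2 e6
    have n46 : j4 ≠ j6 := ne (u := 4) (v := 6) (by omega) (by omega) (by omega) (by omega) (by omega) e4 e6
    have hj6q : j6 = q' := by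
      rcases hcase with ⟨c1, c2⟩ | ⟨c1, c2⟩
      · have f1 := hX.inj 2 j2 (by omega) hj2 (c1.trans e2.symm)
        have f2 := hX.inj q j4 (by omega) hj4 (c2.trans e4.symm)
        omega
      · have f1 := hX.inj 2 j4 (by omega) hj4 (c1.trans e4.symm)
        have f2 := hX.inj q j2 (by omega) hj2 (c2.trans e2.symm)
        omega
    subst hj6q
    have hl : LM 4 j6 q := by unfold LM; omega
    rcases hcase with ⟨-, c2⟩ | ⟨-, c2⟩
    · exact no_fork_xx hH h hK (by omega) hl (u := 6) (v := 4) (by omega) (by omega) (by omega) e6 c2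
    · exact no_fork_xx hH h hK (by omega) hl (u := 6) (v := 2) (by omega) (by omega) (by omega) e6 c2
  have hqo : ¬ InC k x y (c q') := by
    intro hin
    obtain ⟨i, i1, i2, i3⟩ := hX.all q' hq' hin
    have := hout i i1 i2 i3
    omega
  -- the class of the odd units
  have h3 : j3 = 3 := by
    by_contra hcon
    by_cases h1 : j1 = 3
    · have hl : LM 4 j5 j3 := by unfold LM; omega
      exact no_fork_xx hH h hK (by omega) hl (u := 5) (v := 3) (by omega) (by omega) (by omega) e5 e3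
    · have h5 : j5 = 3 := by omega
      subst h5
      have c2x : c 2 = x 2 ∨ c 2 = x 4 := hcase.imp (fun h => h.1) (fun h => h.1)
      have cqx : c q = x 2 ∨ c q = x 4 := by
        rcases hcase with ⟨-, c2⟩ | ⟨-, c2⟩
        · exact Or.inr c2
        · exact Or.inl c2
      have key := CLB.H3.rstar hH h hK (p := 2) (q := 4) (by omega) (by omega) le_rfl (X := {2, 4, 5})
        (Y := ∅) (Ux := ∅) (Uy := {1, 3}) (O := {c q'}) (J := {2, 3, 4, 5}) ?_ ?_ ?_ ?_ ?_ ?_ ?_ ?_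
      · have hmm : mmS H R {c q'} = 0 := by
          unfold mmS
          rw [Finset.sum_singleton, Finset.card_eq_zero, Finset.filter_eq_empty_iff]
          intro t ht hm
          rw [mem_singleton] at ht
          rw [ht] at hm
          exact hm.1.ne rfl
        rw [hmm] at key
        have c1 : ({1, 3} : Finset ℕ).card = 2 := by decide
        have c2 : ({2, 3, 4, 5} : Finset ℕ).card = 4 := by decide
        have c3 : ({2, 4, 5} : Finset ℕ).card = 3 := by decide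
        rw [c1, c2, c3, Finset.card_singleton] at key
        simp at key
      · intro i hi
        simp only [mem_insert, mem_singleton] at hi
        omega
      · intro i hi; simp at hi
      · intro w hw
        rw [mem_singleton] at hw
        rw [hw]
        exact ⟨hK.cov _ hq', hqo⟩
      · intro i hi; simp at hi
      · intro i hi
        simp only [mem_insert, mem_singleton] at hi
        rcases hi with rfl | rfl
        · exact ⟨⟨by omega, by omega⟩, by decide, by simp, by decide⟩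
        · exact ⟨⟨by omega, by omega⟩, by decide, by simp, by decide⟩
      · simp
      · intro j hj
        simp only [mem_insert, mem_singleton] at hj
        rcases hj with rfl | rfl | rfl | rfl <;> decide
      · intro j hj
        simp only [mem_insert, mem_singleton] at hj
        rw [mem_chs]
        have mk : ∀ {v : V}, (v = x 2 ∨ v = x 4) → (∃ i ∈ ({2, 4, 5} : Finset ℕ), x i = v) := by
          rintro v (e | e)
          · exact ⟨2, by decide, e.symm⟩
          · exact ⟨4, by decide, e.symm⟩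
        rcases hj with rfl | rfl | rfl | rfl
        · exact Or.inl (mk c2x)
        · exact Or.inl ⟨5, by decide, e5.symm⟩
        · rcases hqq with ⟨rfl, rfl⟩ | ⟨rfl, rfl⟩
          · exact Or.inl (mk cqx)
          · exact Or.inr (Or.inr (by simp))
        · rcases hqq with ⟨rfl, rfl⟩ | ⟨rfl, rfl⟩
          · exact Or.inr (Or.inr (by simp))
          · exact Or.inl (mk cqx)
  subst h3
  exact ⟨by omega, j1, j5, q, q', by omega, hqq, e1, e5, e3, hcase, hqo⟩

/-- **The shapes with four vertices**, up to reversal. -/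
theorem one_four (hH : ClassC H R) (h : Chn H R k x y) (hK : Cat H R 4 z c)
    (hN : NCp 4 (JC k x y c)) {a : ℕ} (hX : OneX k x y 4 c a) :
    ∃ z' c', Cat H R 4 z' c' ∧ M4 k x y c' := by
  have hN' := ncp_abc hN
  have ha : 1 ≤ a := by
    have hex : ∃ j ≤ 4 + 1, InC k x y (c j) := by
      rcases hN' with ⟨b0, -⟩ | ⟨b0, -⟩ | ⟨b0, -⟩
      exacts [⟨0, by omega, b0⟩, ⟨0, by omega, b0⟩, ⟨4, by omega, b0⟩]
    obtain ⟨j, hj, hin⟩ := hex
    obtain ⟨i, i1, i2, -⟩ := hX.all j hj hin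
    omega
  obtain ⟨j1, hj1, e1⟩ := hX.see 1 le_rfl ha
  rcases Nat.mod_two_eq_zero_or_one (pos 4 j1) with h0 | h0
  · refine ⟨_, _, cat_rev hK, ?_⟩
    refine one_four_I hH h (cat_rev hK) (a := a) ?_ ?_ (j1 := 4 + 1 - j1) (by omega) ?_ ?_
    · unfold ABC JC at hN' ⊢
      simp only [Nat.reduceAdd, Nat.reduceSub]
      tauto
    · refine ⟨hX.ak, fun i i1 i2 => ?_, fun j hj hin => hX.all (4 + 1 - j) (by omega) hin,
        fun i j hi hj he => ?_⟩
      · obtain ⟨j, hj, e⟩ := hX.see i i1 i2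
        refine ⟨4 + 1 - j, by omega, ?_⟩
        show c (4 + 1 - (4 + 1 - j)) = x i
        rw [show 4 + 1 - (4 + 1 - j) = j by omega]; exact e
      · have := hX.inj _ _ (by omega) (by omega) he
        omega
    · show c (4 + 1 - (4 + 1 - j1)) = x 1
      rw [show 4 + 1 - (4 + 1 - j1) = j1 by omega]; exact e1
    · have hj : j1 = 0 ∨ j1 = 1 ∨ j1 = 2 ∨ j1 = 3 ∨ j1 = 4 ∨ j1 = 5 := by omega
      rcases hj with rfl | rfl | rfl | rfl | rfl | rfl <;> revert h0 <;> decide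
  · exact ⟨z, c, hK, one_four_I hH h hK hN' hX hj1 e1 h0⟩

end CLB.H80
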