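import Pool.Agent.Helper95_CLB.AlphaLab

/-!
MP_da6743_co: finite games on three units next to a caterpillar of two or four vertices.
The three units carry the labels `e, w, t`.
-/

set_option autoImplicit false
set_option linter.unusedSectionVars false

namespace CLB.H80.L4

open Finset CLB.H95
open H3DA (Q neg nr)
open CLB.H3 (CExt)

/-- All labels. -/
def all8 (p : Q → Bool) : Bool :=
  p (false, false, false) && (p (false, false, true) && (p (false, true, false) &&
    (p (false, true, true) && (p (true, false, false) && (p (true, false, true) &&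
      (p (true, true, false) && p (true, true, true)))))))

/-- Some label. -/
def any8 (p : Q → Bool) : Bool :=
  p (false, false, false) || (p (false, false, true) || (p (false, true, false) ||
    (p (false, true, true) || (p (true, false, false) || (p (true, false, true) ||
      (p (true, true, false) || p (true, true, true)))))))

/-- Number of labels. -/
def cnt8 (p : Q → Bool) : ℕ :=
  cond (p (false, false, false)) 1 0 + (cond (p (false, false, true)) 1 0 +
    (cond (p (false, true, false)) 1 0 + (cond (p (false, true, true)) 1 0 +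
      (cond (p (true, false, false)) 1 0 + (cond (p (true, false, true)) 1 0 +
        (cond (p (true, true, false)) 1 0 + cond (p (true, true, true)) 1 0))))))

lemma all8_iff {p : Q → Bool} : all8 p = true ↔ ∀ q, p q = true := by
  constructor
  · intro h q
    unfold all8 at h
    simp only [Bool.and_eq_true] at h
    obtain ⟨h1, h2, h3, h4, h5, h6, h7, h8⟩ := h
    obtain ⟨a, b, c⟩ := q
    cases a <;> cases b <;> cases c <;> assumption
  · intro h
    unfold all8
    simp only [h, Bool.and_self]

lemma any8_iff {p : Q → Bool} : any8 p = true ↔ ∃ q, p q = true := by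
  constructor
  · intro h
    unfold any8 at h
    simp only [Bool.or_eq_true] at h
    rcases h with h | h | h | h | h | h | h | h <;> exact ⟨_, h⟩
  · rintro ⟨⟨a, b, c⟩, h⟩
    unfold any8
    simp only [Bool.or_eq_true]
    cases a <;> cases b <;> cases c <;> simp only [h, true_or, or_true]

lemma cnt8_eq (p : Q → Bool) : (univ.filter (fun q => p q = true)).card = cnt8 p := by
  rw [Finset.card_filter]
  unfold cnt8
  rw [Fintype.sum_prod_type]
  simp only [Fintype.sum_prod_type, Fintype.sum_bool]
  cases p (false, false, false) <;> cases p (false, false, true) <;> cases p (false, true, false) <;>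
    cases p (false, true, true) <;> cases p (true, false, false) <;> cases p (true, false, true) <;>
    cases p (true, true, false) <;> cases p (true, true, true) <;> rfl


/-- The labels of the third unit which are forced to be forbidden; the first unit has the label `e`, the
labels `b1, b2` are forbidden at the second unit. -/
def win (g : Q → Q → Q → Bool) (b1 b2 e t : Q) : Bool :=
  any8 (fun w => nr e w && (nr w t && (!(w == b1) && (!(w == b2) && g e w t))))

/-- Their number for two labels `e, e'`. -/
def wcnt (g : Q → Q → Q → Bool) (b1 b2 e e' : Q) : ℕ :=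
  cnt8 (fun t => win g b1 b2 e t || win g b1 b2 e' t)

lemma win_iff {g : Q → Q → Q → Bool} {b1 b2 e t : Q} : win g b1 b2 e t = true ↔
    ∃ w, nr e w = true ∧ nr w t = true ∧ w ≠ b1 ∧ w ≠ b2 ∧ g e w t = true := by
  unfold win
  rw [any8_iff]
  simp only [Bool.and_eq_true, Bool.not_eq_true', beq_eq_false_iff_ne]

lemma win_swap (g : Q → Q → Q → Bool) (b1 b2 e t : Q) : win g b1 b2 e t = win g b2 b1 e t := by
  rw [Bool.eq_iff_iff, win_iff, win_iff]
  constructor
  · rintro ⟨w, h1, h2, h3, h4, h5⟩; exact ⟨w, h1, h2, h4, h3, h5⟩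
  · rintro ⟨w, h1, h2, h3, h4, h5⟩; exact ⟨w, h1, h2, h4, h3, h5⟩

lemma wcnt_swap (g : Q → Q → Q → Bool) (b1 b2 e e' : Q) : wcnt g b1 b2 e e' = wcnt g b2 b1 e e' := by
  unfold wcnt
  congr 1
  funext t
  rw [win_swap, win_swap g b1 b2 e']

lemma wcnt_swap' (g : Q → Q → Q → Bool) (b1 b2 e e' : Q) : wcnt g b1 b2 e e' = wcnt g b1 b2 e' e := by
  unfold wcnt
  congr 1
  funext t
  rw [Bool.or_comm]

/-- **The game on three units, two labels of the first one.** -/
theorem game2 {g : Q → Q → Q → Bool} {F2 : Finset Q} {F3 : Q → Finset Q} (hF2 : F2.card ≤ 2)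
    {e e' : Q} (hF3 : (F3 e ∪ F3 e').card ≤ 4)
    (hg : ∀ b1 b2, 5 ≤ wcnt g b1 b2 e e')
    (hall : ∀ d, d = e ∨ d = e' → ∀ w, w ∉ F2 → ∀ t, t ∉ F3 d → nr d w = true → nr w t = true →
      g d w t = false) : False := by
  obtain ⟨b1, b2, hb⟩ : ∃ b1 b2 : Q, F2 ⊆ {b1, b2} := by
    rcases Nat.lt_or_ge F2.card 2 with h | h
    · obtain ⟨a, ha⟩ := Finset.card_le_one_iff_subset_singleton.1 (show F2.card ≤ 1 by omega)
      exact ⟨a, a, fun q hq => by have := ha hq; simp only [mem_singleton] at this; simp [this]⟩
    · obtain ⟨a, b, _, ha⟩ := Finset.card_eq_two.1 (le_antisymm hF2 h)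
      exact ⟨a, b, by rw [ha]⟩
  have h1 : univ.filter (fun t => (win g b1 b2 e t || win g b1 b2 e' t) = true) ⊆ F3 e ∪ F3 e' := by
    intro t ht
    simp only [mem_filter, mem_univ, true_and, Bool.or_eq_true] at ht
    rw [mem_union]
    have key : ∀ d, d = e ∨ d = e' → win g b1 b2 d t = true → t ∈ F3 d := by
      intro d hd h
      obtain ⟨w, w1, w2, w3, w4, w5⟩ := win_iff.1 h
      by_contra hcon
      have hw : w ∉ F2 := fun h' => by
        have := hb h'
        simp only [mem_insert, mem_singleton] at this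
        rcases this with h'' | h''
        · exact w3 h''
        · exact w4 h''
      rw [hall d hd w hw t hcon w1 w2] at w5
      exact absurd w5 (by simp)
    rcases ht with ht | ht
    · exact Or.inl (key e (Or.inl rfl) ht)
    · exact Or.inr (key e' (Or.inr rfl) ht)
  have h2 := Finset.card_le_card h1
  rw [cnt8_eq] at h2
  have h3 := hg b1 b2
  unfold wcnt at h3
  omega

/-! ### Translations and symmetric pairs -/

lemma cnt8_add (u : Q) (p : Q → Bool) : cnt8 (fun q => p (add u q)) = cnt8 p := by
  obtain ⟨a, b, c⟩ := u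
  unfold cnt8
  cases a <;> cases b <;> cases c <;>
    simp only [add, Bool.false_xor, Bool.true_xor, Bool.not_false, Bool.not_true] <;> omega

lemma add_self_left : ∀ u q : Q, add u (add u q) = q := by decide

lemma beq_add (u a b : Q) : (add u a == add u b) = (a == b) := by
  rw [Bool.eq_iff_iff, beq_iff_eq, beq_iff_eq]
  exact ⟨fun h => CLB.H95.add_inj u a b h, fun h => by rw [h]⟩

lemma win_add (u : Q) {g g' : Q → Q → Q → Bool}
    (hg : ∀ e w t, g e w t = g' (add u e) (add u w) (add u t)) (b1 b2 e t : Q) :
    win g b1 b2 e t = win g' (add u b1) (add u b2) (add u e) (add u t) := by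
  rw [Bool.eq_iff_iff, win_iff, win_iff]
  constructor
  · rintro ⟨w, h1, h2, h3, h4, h5⟩
    refine ⟨add u w, by rw [nr_add]; exact h1, by rw [nr_add]; exact h2,
      fun h => h3 (CLB.H95.add_inj _ _ _ h), fun h => h4 (CLB.H95.add_inj _ _ _ h), ?_⟩
    rw [← hg]; exact h5
  · rintro ⟨w, h1, h2, h3, h4, h5⟩
    refine ⟨add u w, ?_, ?_, fun h => h3 ?_, fun h => h4 ?_, ?_⟩
    · rw [← nr_add u, add_self_left]; exact h1
    · rw [← nr_add u, add_self_left]; exact h2
    · rw [← h, add_self_left]
    · rw [← h, add_self_left]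
    · rw [hg, add_self_left]; exact h5

lemma wcnt_add (u : Q) {g g' : Q → Q → Q → Bool}
    (hg : ∀ e w t, g e w t = g' (add u e) (add u w) (add u t)) (b1 b2 e e' : Q) :
    wcnt g b1 b2 e e' = wcnt g' (add u b1) (add u b2) (add u e) (add u e') := by
  unfold wcnt
  rw [← cnt8_add u (fun t => win g' (add u b1) (add u b2) (add u e) t ||
    win g' (add u b1) (add u b2) (add u e') t)]
  congr 1
  funext t
  rw [win_add u hg, win_add u hg b1 b2 e']

/-- Codes of labels. -/
def cd (q : Q) : ℕ := cond q.1 4 0 + (cond q.2.1 2 0 + cond q.2.2 1 0)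

lemma cd_inj : ∀ a b : Q, cd a = cd b → a = b := by decide

/-- It is enough to consider ordered pairs. -/
lemma wcnt_sym {g : Q → Q → Q → Bool} {P : Q → Prop} {n : ℕ}
    (h : ∀ e e', P e → P e' → cd e < cd e' → ∀ b1 b2, cd b1 ≤ cd b2 → n ≤ wcnt g b1 b2 e e') :
    ∀ e e', P e → P e' → e ≠ e' → ∀ b1 b2, n ≤ wcnt g b1 b2 e e' := by
  have h1 : ∀ e e', P e → P e' → cd e < cd e' → ∀ b1 b2, n ≤ wcnt g b1 b2 e e' := by
    intro e e' he he' hl b1 b2
    rcases le_total (cd b1) (cd b2) with hb | hb
    · exact h e e' he he' hl b1 b2 hb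
    · rw [wcnt_swap]; exact h e e' he he' hl b2 b1 hb
  intro e e' he he' hne b1 b2
  rcases lt_trichotomy (cd e) (cd e') with hl | hl | hl
  · exact h1 e e' he he' hl b1 b2
  · exact absurd (cd_inj _ _ hl) hne
  · rw [wcnt_swap']; exact h1 e' e he' he hl b1 b2

/-! ### Two vertices, forks `{x_1, x_3}` and `{x_2, f}` -/

/-- The extension criterion; `F` is the label outside. -/
def gD (F e w t : Q) : Bool := !(w == F) && (t == e || !(add (add t w) e == neg F))

def chkD : Bool := all8 (fun e => all8 (fun e' => Nat.ble (cd e') (cd e) || all8 (fun b1 =>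
  all8 (fun b2 => Nat.blt (cd b2) (cd b1) ||
    Nat.ble 5 (wcnt (gD (false, false, false)) b1 b2 e e')))))

lemma chkD_true : chkD = true := by decide +kernel

lemma gD_add (F e w t : Q) : gD F e w t = gD (false, false, false) (add F e) (add F w) (add F t) := by
  have e1 : ∀ F a b c : Q, (add (add (add F a) (add F b)) (add F c) == neg (false, false, false)) =
      (add (add a b) c == neg F) := by decide
  have e2 : ∀ F a : Q, (add F a == (false, false, false)) = (a == F) := by decide
  unfold gD
  rw [beq_add, e1, e2]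

lemma gD_wcnt (F : Q) {e e' : Q} (hne : e ≠ e') (b1 b2 : Q) : 5 ≤ wcnt (gD F) b1 b2 e e' := by
  rw [wcnt_add F (gD_add F)]
  refine wcnt_sym (P := fun _ => True) (n := 5) ?_ _ _ trivial trivial
    (fun h => hne (CLB.H95.add_inj _ _ _ h)) _ _
  intro e e' _ _ hl b1 b2 hb
  have h := chkD_true
  unfold chkD at h
  have h1 := all8_iff.1 (all8_iff.1 h e) e'
  rw [Bool.or_eq_true] at h1
  rcases h1 with h1 | h1
  · have := Nat.le_of_ble_eq_true h1
    omega
  · have h2 := all8_iff.1 (all8_iff.1 h1 b1) b2
    rw [Bool.or_eq_true] at h2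
    rcases h2 with h2 | h2
    · have : cd b2 < cd b1 := Nat.le_of_ble_eq_true h2
      omega
    · exact Nat.le_of_ble_eq_true h2

/-! ### Four vertices, forks `{x_1, x_5}` and `{x_2, f}`, ports `x_4, x_3` -/

/-- The extension criterion; `u, h, F` are the labels of `x_4, x_5, f`. -/
def gB (u h F e w t : Q) : Bool := !(w == F) && (!(t == neg h) &&
  !(add t w == add (neg h) F && (e == add u (add h F) && (nr F (neg e) && (!(F == u) &&
    (!(neg w == F) && !(neg w == u)))))))

def chkB : Bool := all8 (fun h => !(nr (true, true, true) h) || all8 (fun F => all8 (fun e =>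
  !(nr (neg e) (false, false, false)) || all8 (fun e' => !(nr (neg e') (false, false, false)) ||
    (Nat.ble (cd e') (cd e) || all8 (fun b1 => all8 (fun b2 => Nat.blt (cd b2) (cd b1) ||
      Nat.ble 5 (wcnt (gB (false, false, false) h F) b1 b2 e e'))))))))

lemma chkB_true : chkB = true := by decide +kernel

lemma gB_add (u h F e w t : Q) : gB u h F e w t =
    gB (false, false, false) (add u h) (add u F) (add u e) (add u w) (add u t) := by
  have e1 : ∀ u a b : Q, add (add u a) (add u b) = add a b := by decide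
  have e2 : ∀ u a b : Q, add (neg (add u a)) (add u b) = add (neg a) b := by decide
  have e3 : ∀ u e q : Q, (add u e == add (false, false, false) q) = (e == add u q) := by decide
  have e4 : ∀ u a b : Q, nr (add u a) (neg (add u b)) = nr a (neg b) := by decide
  have e5 : ∀ u a : Q, (add u a == (false, false, false)) = (a == u) := by decide
  have e6 : ∀ u a b : Q, (neg (add u a) == add u b) = (neg a == b) := by decide
  have e7 : ∀ u a : Q, (neg (add u a) == (false, false, false)) = (neg a == u) := by decide
  have e8 : ∀ u a b : Q, (add u a == neg (add u b)) = (a == neg b) := by decide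
  unfold gB
  rw [e1, e1, e2, e3, e4, e5, e6, e7, e8, beq_add]

lemma gB_wcnt {u h F e e' : Q} (hh : nr (neg u) h = true) (he : nr (neg e) u = true)
    (he' : nr (neg e') u = true) (hne : e ≠ e') (b1 b2 : Q) :
    5 ≤ wcnt (gB u h F) b1 b2 e e' := by
  rw [wcnt_add u (gB_add u h F)]
  have a1 : nr (true, true, true) (add u h) = true := by
    have : ∀ u h : Q, nr (neg u) h = true → nr (true, true, true) (add u h) = true := by decide
    exact this u h hh
  have a2 : ∀ u e : Q, nr (neg e) u = true → nr (neg (add u e)) (false, false, false) = true := by decide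
  refine wcnt_sym (P := fun e => nr (neg e) (false, false, false) = true) (n := 5) ?_ _ _
    (a2 _ _ he) (a2 _ _ he') (fun h => hne (CLB.H95.add_inj _ _ _ h)) _ _
  intro e e' p1 p2 hl b1 b2 hb
  have hc := chkB_true
  unfold chkB at hc
  have h0 := all8_iff.1 hc (add u h)
  rw [a1] at h0
  simp only [Bool.not_true, Bool.false_or] at h0
  have h1 := all8_iff.1 (all8_iff.1 h0 (add u F)) e
  rw [p1] at h1
  simp only [Bool.not_true, Bool.false_or] at h1
  have h2 := all8_iff.1 h1 e'
  rw [p2] at h2
  simp only [Bool.not_true, Bool.false_or] at h2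
  rw [Bool.or_eq_true] at h2
  rcases h2 with h2 | h2
  · have := Nat.le_of_ble_eq_true h2
    omega
  · have h3 := all8_iff.1 (all8_iff.1 h2 b1) b2
    rw [Bool.or_eq_true] at h3
    rcases h3 with h3 | h3
    · have : cd b2 < cd b1 := Nat.le_of_ble_eq_true h3
      omega
    · exact Nat.le_of_ble_eq_true h3

/-! ### Two excluded labels -/

/-- Two labels are excluded at the third unit. -/
def gA (r1 r2 _e _w t : Q) : Bool := !(t == r1) && !(t == r2)

lemma gA_wcnt (r1 r2 : Q) {e e' : Q} (hne : e ≠ e') (b1 b2 : Q) : 5 ≤ wcnt (gA r1 r2) b1 b2 e e' := by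
  unfold wcnt
  rw [← cnt8_eq]
  have c1 : 6 ≤ (nb {e, e'}).card := nb_card2 (by rw [Finset.card_pair hne])
  have c2 := card_sdiff_ge (nb {e, e'}) {b1, b2}
  have c3 : ({b1, b2} : Finset Q).card ≤ 2 := Finset.card_le_two
  have c4 : 7 ≤ (nb (nb {e, e'} \ {b1, b2})).card := nb_card3 (by omega)
  have c5 := card_sdiff_ge (nb (nb {e, e'} \ {b1, b2})) {r1, r2}
  have c6 : ({r1, r2} : Finset Q).card ≤ 2 := Finset.card_le_two
  have c7 : nb (nb {e, e'} \ {b1, b2}) \ {r1, r2} ⊆
      univ.filter (fun t => (win (gA r1 r2) b1 b2 e t || win (gA r1 r2) b1 b2 e' t) = true) := by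
    intro t ht
    rw [mem_sdiff, mem_nb] at ht
    obtain ⟨⟨w, hw, h1⟩, h2⟩ := ht
    rw [mem_sdiff, mem_nb] at hw
    obtain ⟨⟨d, hd, h3⟩, h4⟩ := hw
    simp only [mem_insert, mem_singleton, not_or] at hd h2 h4
    rw [mem_filter, Bool.or_eq_true, win_iff, win_iff]
    refine ⟨mem_univ _, ?_⟩
    have hg : gA r1 r2 d w t = true := by
      unfold gA
      simp only [Bool.and_eq_true, Bool.not_eq_true', beq_eq_false_iff_ne]
      exact h2
    rcases hd with rfl | rfl
    · exact Or.inl ⟨w, h3, h1, h4.1, h4.2, hg⟩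
    · exact Or.inr ⟨w, h3, h1, h4.1, h4.2, hg⟩
  have c8 := Finset.card_le_card c7
  omega

end CLB.H80.L4
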