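import Pool.Agent.Helper80_DA.Le4X

/-!
MP_da6743_co: finite games on three units next to two caterpillars.
-/

set_option autoImplicit false
set_option linter.unusedSectionVars false

namespace CLB.H80.L4

open Finset CLB.H95
open H3DA (Q neg nr)
open CLB.H3 (CExt)

/-- The labels of the third unit which are forced to be forbidden, no condition at the second unit. -/
def win0 (g : Q → Q → Q → Bool) (e t : Q) : Bool :=
  any8 (fun w => nr e w && (nr w t && g e w t))

lemma win0_iff {g : Q → Q → Q → Bool} {e t : Q} : win0 g e t = true ↔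
    ∃ w, nr e w = true ∧ nr w t = true ∧ g e w t = true := by
  unfold win0
  rw [any8_iff]
  simp only [Bool.and_eq_true]

def ga (F f' e w t : Q) : Bool := gD F e w t && ext2 t (neg e) w f'
def gb (F f' e w t : Q) : Bool := gD F e w t && ext2 (neg t) (neg e) w f'
def gc (F f' p e w t : Q) : Bool := gD F e w t && ext2 p (neg e) w f'

def chkFa : Bool := all8 (fun F => all8 (fun f' => all8 (fun e =>
  Nat.ble 3 (cnt8 (win0 (ga F f') e)))))
lemma chkFa_true : chkFa = true := by decide +kernel

def chkFb : Bool := all8 (fun F => all8 (fun f' => all8 (fun e =>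
  Nat.ble 3 (cnt8 (win0 (gb F f') e)))))
lemma chkFb_true : chkFb = true := by decide +kernel

def chkFc : Bool := all8 (fun F => all8 (fun f' => all8 (fun p =>
  Nat.ble 3 (cnt8 (fun e => Nat.ble 5 (cnt8 (win0 (gc F f' p) e)))) &&
    any8 (fun e => nr e f' && Nat.ble 5 (cnt8 (win0 (gc F f' p) e))))))
lemma chkFc_true : chkFc = true := by decide +kernel

def chkFs : Bool := all8 (fun F => all8 (fun b1 => all8 (fun b2 =>
  Nat.ble 4 (cnt8 (fun e => Nat.ble 5 (cnt8 (win (gD F) b1 b2 e)))))))
lemma chkFs_true : chkFs = true := by decide +kernel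

end CLB.H80.L4
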