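import Pool.Agent.Helper80_DA.Le4W
import Pool.Agent.Helper80_DA.Le4F

/-!
MP_da6743_co: relabelling of the first three units of a chain, in the order 3, 2, 1.
-/

set_option autoImplicit false
set_option linter.unusedSectionVars false

namespace CLB.H80

open Finset Classical CLB.H95
open H3DA (Q neg nr)
open CLB.H3 (CExt Cat IsTwo Fits UPath he_of_unc cat_structure chn_side pos)
open CLB.H91 (LM)

variable {V : Type*} {G : SimpleGraph V} {R : V → Bool} [Fintype V] {k r : ℕ} {x y X Y : ℕ → V}
  {m : ℕ} {z c : ℕ → V} {f : V → Q}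

/-- The three labels. -/
def mw (e w t : Q) : ℕ → Q := fun i => if i = 1 then e else if i = 2 then w else t

/-- The labels `e, w, t` on the units 3, 2, 1. -/
noncomputable def lw (x y : ℕ → V) (f : V → Q) (e w t : Q) : V → Q :=
  lbl 3 (fun i => y (3 + 1 - i)) (fun i => x (3 + 1 - i)) (mw e w t) f

section
variable {e w t : Q}

lemma lw_x1 (h : Chn G R 3 x y) : lw x y f e w t (x 1) = t := by
  have := lbl_y (Chn.rev h) (mu := mw e w t) (f := f) (i := 3) (by omega) le_rfl
  have e1 : neg (sg 3 (mw e w t 3)) = t := by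
    show neg (neg t) = t
    exact H3DA.neg_neg t
  rw [e1] at this
  exact this

lemma lw_y1 (h : Chn G R 3 x y) : lw x y f e w t (y 1) = neg t :=
  lbl_x (Chn.rev h) (mu := mw e w t) (f := f) (i := 3) (by omega) le_rfl

lemma lw_x2 (h : Chn G R 3 x y) : lw x y f e w t (x 2) = neg w :=
  lbl_y (Chn.rev h) (mu := mw e w t) (f := f) (i := 2) (by omega) (by omega)

lemma lw_y2 (h : Chn G R 3 x y) : lw x y f e w t (y 2) = w :=
  lbl_x (Chn.rev h) (mu := mw e w t) (f := f) (i := 2) (by omega) (by omega)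

lemma lw_x3 (h : Chn G R 3 x y) : lw x y f e w t (x 3) = e := by
  have := lbl_y (Chn.rev h) (mu := mw e w t) (f := f) (i := 1) (by omega) (by omega)
  have e1 : neg (sg 1 (mw e w t 1)) = e := by
    show neg (neg e) = e
    exact H3DA.neg_neg e
  rw [e1] at this
  exact this

lemma lw_y3 (h : Chn G R 3 x y) : lw x y f e w t (y 3) = neg e :=
  lbl_x (Chn.rev h) (mu := mw e w t) (f := f) (i := 1) (by omega) (by omega)

lemma lw_out {v : V} (hv : ¬ InC 3 x y v) : lw x y f e w t v = f v :=
  lbl_out (fun h' => hv (inC_rev.1 h'))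

end

/-- Extension of a component is independent of its parametrization. -/
lemma cext_supp {g : V → Q} (hcat : Cat G R m z c) {m' : ℕ} {z' c' : ℕ → V}
    (hcat' : Cat G R m' z' c') (hs : cSupp m' z' = cSupp m z)
    (h : CExt m (fun j => g (c j))) : CExt m' (fun j => g (c' j)) := by
  rw [cext_iff_fits hcat'] 
  rw [cext_iff_fits hcat] at h
  rw [hs]; exact h

/-- **Relabelling three units.** -/
theorem win3 (hG : ClassC G R) (hc : Crit G R) (hcat : Cat G R m z c) (h : Chn G R 3 x y)
    (hl : ∀ v, ¬ Lk G R (x 1) v) (hf : OffC G R 3 x y f) (E : Set V)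
    (hE1 : ∀ v a b, IsTwo G R v a b → v ∉ E) (hcl : CleanE G R 3 x y E) :
    ∃ (F1 F2 : Finset Q) (F3 : Q → Finset Q),
      F1.card ≤ 2 * (fpE G R E (x 3) + fpE G R E (y 3)) ∧
      F2.card ≤ 2 * (fpE G R E (x 2) + fpE G R E (y 2)) ∧
      (∀ e e', (F3 e ∪ F3 e').card ≤ 2 * (fpE G R E (x 1) + fpE G R E (y 1))) ∧
      ∀ e w t, e ∉ F1 → w ∉ F2 → t ∉ F3 e → nr e w = true → nr w t = true →
        (∀ v, Lk G R (y 3) v → nr (neg e) (f v) = true) →
        (∀ m' z' c', Cat G R m' z' c' → cSupp m' z' ≠ cSupp m z → (∃ i, 1 ≤ i ∧ i ≤ m' ∧ z' i ∈ E) →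
          CExt m' (fun j => lw x y f e w t (c' j))) →
        ¬ CExt m (fun j => lw x y f e w t (c j)) := by
  have hr := Chn.rev h
  have hcl' : CleanE G R 3 (fun i => y (3 + 1 - i)) (fun i => x (3 + 1 - i)) E := by
    intro m' z' c' hC hz hex
    obtain ⟨j, hj, hin⟩ := hex
    obtain ⟨a1, a2⟩ := hcl m' z' c' hC hz ⟨j, hj, inC_rev.1 hin⟩
    refine ⟨fun hm i j hi hj h1 h2 => a1 hm i j hi hj (inC_rev.1 h1) (inC_rev.1 h2), fun hm hN => ?_⟩
    have e : (fun j => InC 3 (fun i => y (3 + 1 - i)) (fun i => x (3 + 1 - i)) (c' j)) =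
        (fun j => InC 3 x y (c' j)) := by
      funext j; exact propext inC_rev
    rw [e] at hN
    exact a2 hm hN
  have hf' : OffC G R 3 (fun i => y (3 + 1 - i)) (fun i => x (3 + 1 - i)) f :=
    fun u v huv hu hv => hf u v huv (fun h' => hu (inC_rev.2 h')) (fun h' => hv (inC_rev.2 h'))
  obtain ⟨F, hd, hF, hK⟩ := forbE hG hc hcat hr (fun h' => hl _ h') hf' E hE1 hcl'
  refine ⟨F 1 (fun _ => (false, false, false)), F 2 (fun _ => (false, false, false)),
    fun e => F 3 (mw e (false, false, false) (false, false, false)), ?_, ?_, ?_, ?_⟩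
  · have := hF 1 (fun _ => (false, false, false)) (fun _ => (false, false, false))
    rw [Finset.union_self] at this
    refine this.trans ?_
    show 2 * (fpE G R E (y 3) + fpE G R E (x 3)) ≤ _
    omega
  · have := hF 2 (fun _ => (false, false, false)) (fun _ => (false, false, false))
    rw [Finset.union_self] at this
    refine this.trans ?_
    show 2 * (fpE G R E (y 2) + fpE G R E (x 2)) ≤ _
    omega
  · intro e e'
    refine (hF 3 _ _).trans ?_
    show 2 * (fpE G R E (y 1) + fpE G R E (x 1)) ≤ _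
    omega
  · intro e w t he hw ht h1 h2 hwl hKs
    refine hK (mw e w t) ?_ ?_ ?_ ?_
    · intro i i1 i2
      have : i = 1 ∨ i = 2 := by omega
      rcases this with rfl | rfl
      · exact h1
      · exact h2
    · intro i i1 i2
      have : i = 1 ∨ i = 2 ∨ i = 3 := by omega
      rcases this with rfl | rfl | rfl
      · rw [hd 1 le_rfl (by omega) (mw e w t) (fun _ => (false, false, false))
          (fun j j1 j2 => by omega)]
        exact he
      · rw [hd 2 (by omega) (by omega) (mw e w t) (fun _ => (false, false, false))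
          (fun j j1 j2 => by omega)]
        exact hw
      · rw [hd 3 (by omega) (by omega) (mw e w t) (mw e (false, false, false) (false, false, false))
          (fun j j1 j2 => by
            have : j = 1 := by omega
            subst this; rfl)]
        exact ht
    · intro i i1 i2
      unfold wall
      rw [mem_inter, mem_filter, mem_filter]
      refine ⟨⟨mem_univ _, fun hi v hv => ?_⟩, ⟨mem_univ _, fun hi v hv => ?_⟩⟩
      · subst hi
        exact hwl v hv
      · exact absurd hv (hl v)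
    · intro m' z' c' hC' hne hex hz
      exact hKs m' z' c' hC' hne hz

/-- Extension of a caterpillar of two vertices. -/
lemma cext2_of {s : ℕ → Q} {o o' q q' : ℕ} (h1 : LM 2 o o') (h2 : LM 2 q q')
    (h3 : pos 2 o ≠ pos 2 q) (h : ext2 (s o) (s o') (s q) (s q') = true) : CExt 2 s := by
  have sL : ∀ a b c d : Q, ext2 a b c d = ext2 b a c d := by decide +kernel
  have sR : ∀ a b c d : Q, ext2 a b c d = ext2 a b d c := by decide +kernel
  have sF : ∀ a b c d : Q, ext2 a b c d = ext2 c d a b := by decide +kernel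
  apply ext2_iff
  unfold LM at h1 h2
  unfold pos at h3
  rcases h1 with ⟨rfl, rfl⟩ | ⟨rfl, rfl⟩ | ⟨rfl, rfl⟩ | ⟨rfl, rfl⟩ <;>
    rcases h2 with ⟨rfl, rfl⟩ | ⟨rfl, rfl⟩ | ⟨rfl, rfl⟩ | ⟨rfl, rfl⟩ <;>
    first
    | exact absurd rfl h3
    | exact h
    | (rw [sL]; exact h)
    | (rw [sR]; exact h)
    | (rw [sL, sR]; exact h)
    | (rw [sF]; exact h)
    | (rw [sF, sL]; exact h)
    | (rw [sF, sR]; exact h)
    | (rw [sF, sL, sR]; exact h)

end CLB.H80
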