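import Pool.Agent.Helper80_DA.Star4

/-!
One vertex seeing the two ends of an open chain: a common component at the two ends, with a known port
next to one of the designated positions.
-/

set_option autoImplicit false
set_option linter.unusedSectionVars false

namespace CLB.H80

open Finset Classical
open CLB.H95
open H3DA (Q neg nr)
open CLB.H3 (CExt Cat IsTwo Fits UPath he_of_unc cat_structure chn_side pos)
open CLB.H91 (ovr ovr_in ovr_out sp11 K0K tau tau_tau k0_star ends_rev)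

variable {V : Type*} {G H : SimpleGraph V} {R : V → Bool} [Fintype V] {k : ℕ} {x y : ℕ → V}

lemma ncp_mono {m : ℕ} {J J' : ℕ → Prop} (hJ : ∀ j, J' j → J j) (h : NCp m J') : NCp m J := by
  rcases h with ⟨h1, h2, h3⟩ | ⟨h1, h2, h3, h4, h5⟩ | ⟨h1, h2, h3, h4, h5⟩ | ⟨h1, h2, h3, h4, h5⟩ |
    ⟨h1, h2⟩ | ⟨h1, h2, h3, h4, h5⟩
  · exact Or.inl ⟨h1, h2.imp (hJ _) (hJ _), h3.imp (hJ _) (hJ _)⟩
  · by_cases hm : J m ∧ J (m + 1)
    · exact Or.inr (Or.inr (Or.inr (Or.inl ⟨hJ _ h1, hJ _ h2, hm.1, hm.2,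
        fun i j i1 i2 i3 => Or.inl (hJ _ (h5 i i1 (by omega)))⟩)))
    · exact Or.inr (Or.inl ⟨hJ _ h1, hJ _ h2, hm, h4.imp (hJ _) (hJ _), fun i i1 i2 => hJ _ (h5 i i1 i2)⟩)
  · by_cases hm : J 0 ∧ J 1
    · exact Or.inr (Or.inr (Or.inr (Or.inl ⟨hm.1, hm.2, hJ _ h1, hJ _ h2,
        fun i j i1 i2 i3 => Or.inl (hJ _ (h5 i i1 (by omega)))⟩)))
    · exact Or.inr (Or.inr (Or.inl ⟨hJ _ h1, hJ _ h2, hm, h4.imp (hJ _) (hJ _),
        fun i i1 i2 => hJ _ (h5 i i1 i2)⟩))
  · exact Or.inr (Or.inr (Or.inr (Or.inl ⟨hJ _ h1, hJ _ h2, hJ _ h3, hJ _ h4,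
      fun i j i1 i2 i3 => (h5 i j i1 i2 i3).imp (hJ _) (hJ _)⟩)))
  · exact Or.inr (Or.inr (Or.inr (Or.inr (Or.inl ⟨h1, h2.imp
      (fun a => ⟨hJ _ a.1, hJ _ a.2.1, a.2.2.imp (hJ _) (hJ _)⟩)
      (fun a => ⟨hJ _ a.1, hJ _ a.2.1, a.2.2.imp (hJ _) (hJ _)⟩)⟩))))
  · exact Or.inr (Or.inr (Or.inr (Or.inr (Or.inr ⟨h1, hJ _ h2, hJ _ h3, hJ _ h4, hJ _ h5⟩))))

/-- A bad pattern becomes nearly closed when one more inner port is added. -/
lemma bad_mono {m p1 pk : ℕ} {J J' : ℕ → Prop} (hJ : ∀ j, J' j → J j) (h1 : 2 ≤ p1) (h1m : p1 + 1 ≤ m)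
    (hJ1 : J p1) (hJ1' : ¬ J' p1) (h : BadP m J' pk) : NCp m J := by
  rcases h with ⟨rfl, -, a0, a1, a2, a3, a4, a5⟩ | ⟨rfl, -, a0, a1, a2, a3, a4, a5⟩ |
    ⟨rfl, -, a0, a1, a2, a3, a4, a5, a6⟩ | ⟨rfl, -, a0, a1, a2, a3, a4, a5, a6⟩
  · have e : p1 = 3 := by
      have : p1 ≠ 2 := fun e => hJ1' (by rw [e]; exact a2)
      omega
    subst e
    have hin : ∀ i, 2 ≤ i → i + 1 ≤ 4 → J i := by
      intro i i1 i2
      have : i = 2 ∨ i = 3 := by omega
      rcases this with rfl | rfl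
      · exact hJ _ a2
      · exact hJ1
    by_cases hm : J 4 ∧ J 5
    · exact Or.inr (Or.inr (Or.inr (Or.inl ⟨hJ _ a0, hJ _ a1, hm.1, hm.2,
        fun i j i1 i2 i3 => Or.inl (hin i i1 (by omega))⟩)))
    · exact Or.inr (Or.inl ⟨hJ _ a0, hJ _ a1, hm, a4.imp (hJ _) (hJ _), hin⟩)
  · have e : p1 = 2 := by
      have : p1 ≠ 3 := fun e => hJ1' (by rw [e]; exact a2)
      omega
    subst e
    have hin : ∀ i, 2 ≤ i → i + 1 ≤ 4 → J i := by
      intro i i1 i2
      have : i = 2 ∨ i = 3 := by omega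
      rcases this with rfl | rfl
      · exact hJ1
      · exact hJ _ a2
    by_cases hm : J 0 ∧ J 1
    · exact Or.inr (Or.inr (Or.inr (Or.inl ⟨hm.1, hm.2, hJ _ a0, hJ _ a1,
        fun i j i1 i2 i3 => Or.inl (hin i i1 (by omega))⟩)))
    · exact Or.inr (Or.inr (Or.inl ⟨hJ _ a0, hJ _ a1, hm, a4.imp (hJ _) (hJ _), hin⟩))
  · refine Or.inr (Or.inr (Or.inr (Or.inl ⟨hJ _ a0, hJ _ a1, hJ _ a5, hJ _ a6, ?_⟩)))
    intro i j i1 i2 i3
    have : i = 2 ∨ (i = 3 ∧ j = 4) := by omega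
    rcases this with rfl | ⟨rfl, rfl⟩
    · exact Or.inl (hJ _ a2)
    · have e : p1 = 3 ∨ p1 = 4 := by
        have : p1 ≠ 2 := fun e => hJ1' (by rw [e]; exact a2)
        omega
      rcases e with rfl | rfl
      · exact Or.inl hJ1
      · exact Or.inr hJ1
  · refine Or.inr (Or.inr (Or.inr (Or.inl ⟨hJ _ a0, hJ _ a1, hJ _ a5, hJ _ a6, ?_⟩)))
    intro i j i1 i2 i3
    have : j = 4 ∨ (i = 2 ∧ j = 3) := by omega
    rcases this with rfl | ⟨rfl, rfl⟩
    · exact Or.inr (hJ _ a2)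
    · have e : p1 = 2 ∨ p1 = 3 := by
        have : p1 ≠ 4 := fun e => hJ1' (by rw [e]; exact a2)
        omega
      rcases e with rfl | rfl
      · exact Or.inl hJ1
      · exact Or.inr hJ1

/-- The forbidden sets against conflicts in the forks only. -/
noncomputable def Fd (m : ℕ) (J : ℕ → Prop) (s₀ : ℕ → Q) (j : ℕ) : Finset Q :=
  if j = 0 ∧ ¬ J 1 then {neg (s₀ 1)} else if j = 1 ∧ ¬ J 0 then {neg (s₀ 0)} else
    if j = m ∧ ¬ J (m + 1) then {neg (s₀ (m + 1))} else if j = m + 1 ∧ ¬ J m then {neg (s₀ m)} else ∅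

lemma fd_card (m : ℕ) (J : ℕ → Prop) (s₀ : ℕ → Q) (j : ℕ) : (Fd m J s₀ j).card ≤ 1 := by
  unfold Fd
  split_ifs <;> simp

/-- If two known labels at neighbouring positions are not near then only conflicts have to be avoided. -/
lemma kq_dead {m : ℕ} {J : ℕ → Prop} {e e' : ℕ} {s₀ : ℕ → Q} (hm : 2 ≤ m) (he : e = 0 ∨ e = 1)
    (he' : e' = m ∨ e' = m + 1) (h0 : ¬ J 0 → ¬ J 1 → s₀ 0 ≠ neg (s₀ 1))
    (h0' : ¬ J m → ¬ J (m + 1) → s₀ m ≠ neg (s₀ (m + 1))) {i j : ℕ} (hi : i ≤ m + 1) (hj : j ≤ m + 1)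
    (hiJ : ¬ J i) (hjJ : ¬ J j) (hij : pos m j = pos m i + 1 ∨ pos m i = pos m j + 1)
    (hd : nr (neg (s₀ i)) (s₀ j) = false) : KQ m J e e' s₀ (Fd m J s₀) where
  two j := (fd_card m J s₀ j).trans (by norm_num)
  lft a b := by
    unfold Fd
    rcases he with rfl | rfl
    · rw [if_neg (by omega), if_neg (fun h => h.2 a), if_neg (by omega), if_neg (by omega)]
    · rw [if_neg (fun h => h.2 b), if_neg (by omega), if_neg (by omega), if_neg (by omega)]
  rgt a b := by
    unfold Fd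
    rcases he' with rfl | rfl
    · rw [if_neg (by omega), if_neg (by omega), if_neg (by omega), if_neg (fun h => h.2 a)]
    · rw [if_neg (by omega), if_neg (by omega), if_neg (fun h => h.2 b), if_neg (by omega)]
  ok s hs hav hl hr := by
    rw [cext_iff (by omega)]
    refine ⟨?_, ?_, ?_⟩
    · by_cases a : J 0
      · by_cases b : J 1
        · exact hl a b
        · have := hav 0 (by omega) a
          unfold Fd at this
          rw [if_pos ⟨rfl, b⟩, mem_singleton] at this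
          rw [hs 1 (by omega) b]; exact this
      · by_cases b : J 1
        · have := hav 1 (by omega) b
          unfold Fd at this
          rw [if_neg (by omega), if_pos ⟨rfl, a⟩, mem_singleton] at this
          rw [hs 0 (by omega) a]; exact H3DA.ne_neg_symm this
        · rw [hs 0 (by omega) a, hs 1 (by omega) b]; exact h0 a b
    · by_cases a : J m
      · by_cases b : J (m + 1)
        · exact hr a b
        · have := hav m (by omega) a
          unfold Fd at this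
          rw [if_neg (by omega), if_neg (by omega), if_pos ⟨rfl, b⟩, mem_singleton] at this
          rw [hs (m + 1) le_rfl b]; exact this
      · by_cases b : J (m + 1)
        · have := hav (m + 1) le_rfl b
          unfold Fd at this
          rw [if_neg (by omega), if_neg (by omega), if_neg (by omega), if_pos ⟨rfl, a⟩,
            mem_singleton] at this
          rw [hs m (by omega) a]; exact H3DA.ne_neg_symm this
        · rw [hs m (by omega) a, hs (m + 1) le_rfl b]; exact h0' a b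
    · intro D ht
      have hn : nr (neg (s i)) (s j) = true := by
        rcases hij with hij | hij
        · exact tight_adj hm ht hi hj hij
        · exact nr_neg_swap _ _ (tight_adj hm ht hj hi hij)
      rw [hs i hi hiJ, hs j hj hjJ, hd] at hn
      exact Bool.noConfusion hn

/-- The labels near `a`. -/
def nbq (a : Q) : Finset Q := univ.filter (fun t => nr a t = true)

lemma nbq_card : ∀ a : Q, (nbq a).card = 4 := by unfold nbq; decide +kernel

lemma nbq_neg (a t : Q) (h1 : t ∈ nbq a) (h2 : t ∈ nbq (neg a)) : False := by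
  unfold nbq at h1 h2
  simp only [mem_filter, mem_univ, true_and] at h1 h2
  revert a t
  decide

lemma two_starts {a : Q} {X Y X' Y' : Finset Q} (hX : X.card ≤ 2) (hY : Y.card ≤ 2) (hX' : X'.card ≤ 2)
    (hY' : Y'.card ≤ 2) (h1 : X.card ≤ 1 ∨ X' = X) (h2 : Y.card ≤ 1 ∨ Y' = Y) :
    2 ≤ (nbq a \ (X ∪ Y)).card ∨ 2 ≤ (nbq (neg a) \ (X' ∪ Y')).card := by
  have key : ∀ (b : Q) (X Y : Finset Q), 4 ≤ (nbq b \ (X ∪ Y)).card + (nbq b ∩ X).card +
      (nbq b ∩ Y).card := by
    intro b X Y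
    have e1 : nbq b ⊆ (nbq b \ (X ∪ Y)) ∪ ((nbq b ∩ X) ∪ (nbq b ∩ Y)) := by
      intro t ht
      by_cases h1 : t ∈ X
      · exact mem_union_right _ (mem_union_left _ (mem_inter.2 ⟨ht, h1⟩))
      · by_cases h2 : t ∈ Y
        · exact mem_union_right _ (mem_union_right _ (mem_inter.2 ⟨ht, h2⟩))
        · exact mem_union_left _ (mem_sdiff.2 ⟨ht, fun h => (mem_union.1 h).elim h1 h2⟩)
    have e2 := (Finset.card_le_card e1).trans (Finset.card_union_le _ _)
    have e3 := Finset.card_union_le (nbq b ∩ X) (nbq b ∩ Y)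
    rw [nbq_card] at e2
    omega
  have dis : ∀ X : Finset Q, (nbq a ∩ X).card + (nbq (neg a) ∩ X).card ≤ X.card := by
    intro X
    rw [← Finset.card_union_of_disjoint]
    · refine Finset.card_le_card (fun t ht => ?_)
      rw [mem_union, mem_inter, mem_inter] at ht
      exact ht.elim (fun h => h.2) (fun h => h.2)
    · rw [Finset.disjoint_left]
      intro t ht ht'
      rw [mem_inter] at ht ht'
      exact nbq_neg a t ht.1 ht'.1
  have k1 := key a X Y
  have k2 := key (neg a) X' Y'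
  have d1 := dis X
  have d2 := dis Y
  have l1 : (nbq (neg a) ∩ X').card ≤ X'.card := Finset.card_le_card Finset.inter_subset_right
  have l2 : (nbq (neg a) ∩ Y').card ≤ Y'.card := Finset.card_le_card Finset.inter_subset_right
  have l3 : (nbq a ∩ X).card ≤ X.card := Finset.card_le_card Finset.inter_subset_right
  have l4 : (nbq a ∩ Y).card ≤ Y.card := Finset.card_le_card Finset.inter_subset_right
  rcases h1 with h1 | rfl <;> rcases h2 with h2 | rfl <;> omega

/-- Five labels contain two antipodal ones. -/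
lemma exists_antip {A : Finset Q} (h : 5 ≤ A.card) : ∃ t ∈ A, neg t ∈ A := by
  have e1 : (A.image neg).card = A.card := Finset.card_image_of_injective _ (fun a b hab => by
    rw [← H3DA.neg_neg a, ← H3DA.neg_neg b, hab])
  have e2 : (A ∩ A.image neg).Nonempty := by
    rw [← Finset.card_pos]
    have := Finset.card_union_add_card_inter A (A.image neg)
    have h8 : (A ∪ A.image neg).card ≤ 8 := (Finset.card_le_univ _).trans (by decide)
    omega
  obtain ⟨t, ht⟩ := e2
  rw [mem_inter, mem_image] at ht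
  obtain ⟨h1, s, h2, h3⟩ := ht
  exact ⟨t, h1, by rw [← h3, H3DA.neg_neg]; exact h2⟩

end CLB.H80
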