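import Pool.Agent.Helper80_DA.Le4C
import Pool.Agent.Helper80_DA.Star5

/-!
MP_da6743_co: the other components at the first three units of a chain, when one component sees
`x 1, x 2, x 3`.
-/

set_option autoImplicit false
set_option linter.unusedSectionVars false

namespace CLB.H80

open Finset Classical CLB.H95
open H3DA (Q neg nr)
open CLB.H3 (CExt Cat IsTwo Fits UPath he_of_unc cat_structure chn_side pos NoFull noFull_shape noFull_inj
  noFull_small)
open CLB.H91 (LM no_fork_xx ncp_forks)

variable {V : Type*} {G : SimpleGraph V} {R : V → Bool} [Fintype V] {k : ℕ} {x y : ℕ → V}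
  {m m' : ℕ} {z c z' c' : ℕ → V}

lemma port_mem (hcat : Cat G R m z c) {v : V} {j : ℕ} (hj : j ≤ m + 1) (e : c j = v) :
    z (cl m j) ∈ prt G R v ∧ z (cl m j) ∈ cSupp m z := by
  have a1 := cl_mem hcat.pos hj
  refine ⟨?_, mem_cSupp a1.1 a1.2⟩
  rw [mem_prt, ← e]; exact ⟨cat_adj_cl hcat hj, hcat.unc _ a1.1 a1.2⟩

/-- A linked vertex has only one port. -/
lemma own_lk (hG : ClassC G R) (hcat : Cat G R m z c) (hC : Cat G R m' z' c') {v w : V}
    (hl : Lk G R v w) {j l : ℕ} (hj : j ≤ m + 1) (hl' : l ≤ m' + 1) (e : c j = v) (e' : c' l = v) :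
    cSupp m' z' = cSupp m z := by
  obtain ⟨b1, b3⟩ := port_mem hcat hj e
  obtain ⟨b2, b4⟩ := port_mem hC hl' e'
  have h5 := Finset.card_le_one.1 (prt_card_lk hG hl) _ b1 _ b2
  exact cSupp_eq hC hcat b4 (by rw [← h5]; exact b3)

lemma z_out (hC : Cat G R m' z' c') (hn : ∀ i, 1 ≤ i → i ≤ m' → z' i ∉ cSupp m z) :
    cSupp m' z' ≠ cSupp m z := by
  intro he
  have h1 : z' 1 ∈ cSupp m' z' := mem_cSupp le_rfl hC.pos
  rw [he] at h1
  exact hn 1 le_rfl hC.pos h1

/-- The number of indices at a vertex. -/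
lemma see_card (hC : Cat G R m' z' c') {E : Set V} (hn : ∀ i, 1 ≤ i → i ≤ m' → z' i ∉ E) (v : V) :
    ((range (m' + 2)).filter (fun j => c' j = v)).card ≤ fpE G R E v := by
  unfold fpE
  refine Finset.card_le_card_of_injOn (fun j => z' (cl m' j)) ?_ ?_
  · intro j hj
    rw [mem_coe, mem_filter, mem_range] at hj
    rw [mem_coe, mem_filter]
    have a1 := cl_mem hC.pos (show j ≤ m' + 1 by omega)
    exact ⟨(port_mem hC (by omega) hj.2).1, hn _ a1.1 a1.2⟩
  · intro i hi j hj hij
    rw [mem_coe, mem_filter, mem_range] at hi hj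
    exact port_unique hC (by omega) (by omega) (hi.2.trans hj.2.symm) hij

/-- The vertices of the window open to another component. -/
lemma vis (hG : ClassC G R) (h : Chn G R k x y) (hk : 3 ≤ k) (hcat : Cat G R m z c)
    (s2 : ∃ j ≤ m + 1, c j = x 2) (s3 : ∃ j ≤ m + 1, c j = x 3) (hC : Cat G R m' z' c')
    (hn : ∀ i, 1 ≤ i → i ≤ m' → z' i ∉ cSupp m z) {l : ℕ} (hl : l ≤ m' + 1)
    (hin : InC 3 x y (c' l)) : c' l = x 1 ∨ c' l = y 1 ∨ c' l = y 2 ∨ c' l = y 3 := by
  obtain ⟨i, i1, i2, i3⟩ := hin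
  have hi : i = 1 ∨ i = 2 ∨ i = 3 := by omega
  obtain ⟨j2, hj2, e2⟩ := s2
  obtain ⟨j3, hj3, e3⟩ := s3
  rcases hi with rfl | rfl | rfl
  · rcases i3 with i3 | i3
    · exact Or.inl i3
    · exact Or.inr (Or.inl i3)
  · rcases i3 with i3 | i3
    · exact absurd (own_lk hG hcat hC (h.lk 1 le_rfl (by omega)).symm hj2 hl e2 i3) (z_out hC hn)
    · exact Or.inr (Or.inr (Or.inl i3))
  · rcases i3 with i3 | i3
    · exact absurd (own_lk hG hcat hC (h.lk 2 (by omega) (by omega)).symm hj3 hl e3 i3) (z_out hC hn)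
    · exact Or.inr (Or.inr (Or.inr i3))

lemma ncp_miss {J : ℕ → Prop} (hm : 5 ≤ m) (hN : NCp m J) : ∃ j0, ∀ j ≤ m + 1, j ≠ j0 → J j := by
  rcases hN with h | ⟨h0, h1, -, h2, h3⟩ | ⟨h0, h1, -, h2, h3⟩ | ⟨h0, h1, h2, h3, h4⟩ | ⟨h, -⟩ |
    ⟨h, -⟩
  · exact absurd h.1 (by omega)
  · rcases h2 with h2 | h2
    · refine ⟨m + 1, fun j hj hne => ?_⟩
      by_cases e0 : j = 0
      · subst e0; exact h0
      by_cases e1 : j = 1
      · subst e1; exact h1
      by_cases e2 : j = m
      · subst e2; exact h2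
      exact h3 j (by omega) (by omega)
    · refine ⟨m, fun j hj hne => ?_⟩
      by_cases e0 : j = 0
      · subst e0; exact h0
      by_cases e1 : j = 1
      · subst e1; exact h1
      by_cases e2 : j = m + 1
      · subst e2; exact h2
      exact h3 j (by omega) (by omega)
  · rcases h2 with h2 | h2
    · refine ⟨1, fun j hj hne => ?_⟩
      by_cases e0 : j = 0
      · subst e0; exact h2
      by_cases e1 : j = m
      · subst e1; exact h0
      by_cases e2 : j = m + 1
      · subst e2; exact h1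
      exact h3 j (by omega) (by omega)
    · refine ⟨0, fun j hj hne => ?_⟩
      by_cases e0 : j = 1
      · subst e0; exact h2
      by_cases e1 : j = m
      · subst e1; exact h0
      by_cases e2 : j = m + 1
      · subst e2; exact h1
      exact h3 j (by omega) (by omega)
  · by_cases hall : ∀ i, 2 ≤ i → i + 1 ≤ m → J i
    · refine ⟨m + 5, fun j hj hne => ?_⟩
      by_cases e0 : j = 0
      · subst e0; exact h0
      by_cases e1 : j = 1
      · subst e1; exact h1
      by_cases e2 : j = m
      · subst e2; exact h2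
      by_cases e3 : j = m + 1
      · subst e3; exact h3
      exact hall j (by omega) (by omega)
    · push Not at hall
      obtain ⟨i, i1, i2, i3⟩ := hall
      refine ⟨i, fun j hj hne => ?_⟩
      by_cases e0 : j = 0
      · subst e0; exact h0
      by_cases e1 : j = 1
      · subst e1; exact h1
      by_cases e2 : j = m
      · subst e2; exact h2
      by_cases e3 : j = m + 1
      · subst e3; exact h3
      rcases lt_or_gt_of_ne hne with hlt | hlt
      · rcases h4 j i (by omega) hlt (by omega) with h5 | h5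
        · exact h5
        · exact absurd h5 i3
      · rcases h4 i j i1 hlt (by omega) with h5 | h5
        · exact absurd h5 i3
        · exact h5
  · exact absurd h (by omega)
  · exact absurd h (by omega)

/-- Components with at least five vertices are harmless. -/
theorem clean_big (hG : ClassC G R) (h : Chn G R k x y) (hk : 3 ≤ k) (hcat : Cat G R m z c)
    (s1 : ∃ j ≤ m + 1, c j = x 1) (s2 : ∃ j ≤ m + 1, c j = x 2) (s3 : ∃ j ≤ m + 1, c j = x 3)
    (hC : Cat G R m' z' c') (hn : ∀ i, 1 ≤ i → i ≤ m' → z' i ∉ cSupp m z) (hm' : 5 ≤ m') :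
    ¬ NCp m' (fun j => InC 3 x y (c' j)) := by
  intro hN
  obtain ⟨j0, hj0⟩ := ncp_miss hm' hN
  have c1 : m' + 1 ≤ ((range (m' + 2)).erase j0).card := by
    by_cases hj : j0 ∈ range (m' + 2)
    · rw [Finset.card_erase_of_mem hj, card_range]; omega
    · rw [Finset.erase_eq_of_notMem hj, card_range]; omega
  have c2 : (range (m' + 2)).erase j0 ⊆
      ((range (m' + 2)).filter (fun j => c' j = x 1) ∪ (range (m' + 2)).filter (fun j => c' j = y 1)) ∪
      ((range (m' + 2)).filter (fun j => c' j = y 2) ∪ (range (m' + 2)).filter (fun j => c' j = y 3)) := by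
    intro j hj
    rw [mem_erase, mem_range] at hj
    have hv := vis hG h hk hcat s2 s3 hC hn (show j ≤ m' + 1 by omega) (hj0 j (by omega) hj.1)
    rw [mem_union, mem_union, mem_union, mem_filter, mem_filter, mem_filter, mem_filter, mem_range]
    rcases hv with hv | hv | hv | hv
    · exact Or.inl (Or.inl ⟨hj.2, hv⟩)
    · exact Or.inl (Or.inr ⟨hj.2, hv⟩)
    · exact Or.inr (Or.inl ⟨hj.2, hv⟩)
    · exact Or.inr (Or.inr ⟨hj.2, hv⟩)
  have c3 := Finset.card_le_card c2
  have c4 := Finset.card_union_le ((range (m' + 2)).filter (fun j => c' j = x 1) ∪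
    (range (m' + 2)).filter (fun j => c' j = y 1)) ((range (m' + 2)).filter (fun j => c' j = y 2) ∪
    (range (m' + 2)).filter (fun j => c' j = y 3))
  have c5 := Finset.card_union_le ((range (m' + 2)).filter (fun j => c' j = x 1))
    ((range (m' + 2)).filter (fun j => c' j = y 1))
  have c6 := Finset.card_union_le ((range (m' + 2)).filter (fun j => c' j = y 2))
    ((range (m' + 2)).filter (fun j => c' j = y 3))
  have d1 := see_card hC hn (x 1)
  have d2 := see_card hC hn (y 1)
  have d3 := see_card hC hn (y 2)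
  have d4 := see_card hC hn (y 3)
  obtain ⟨j1, hj1, e1⟩ := s1
  obtain ⟨p1, p2⟩ := port_mem hcat hj1 e1
  have e1 := fpE_own_cov hG p1 p2 (h.cov (InC.x (x := x) (y := y) le_rfl (by omega)))
  have e2 := fpE_lk hG (E := cSupp m z) (h.lk 1 le_rfl (by omega))
  have e3 := fpE_lk hG (E := cSupp m z) (h.lk 2 (by omega) (by omega))
  have e4 := fpE_cov hG (E := cSupp m z) (h.cov (InC.y (x := x) (y := y) (i := 3) (by omega) hk))
  omega

lemma same_unit (h : Chn G R k x y) (hF : NoFull G R m' c')
    (hinj : ∀ i j, i ≤ m' + 1 → j ≤ m' + 1 → c' i = c' j → i = j) {l l' u : ℕ} (hl : l ≤ m' + 1)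
    (hl' : l' ≤ m' + 1) (u1 : 1 ≤ u) (u2 : u ≤ k) (e : c' l = x u ∨ c' l = y u)
    (e' : c' l' = x u ∨ c' l' = y u) : l = l' := by
  have hme := h.me u u1 u2
  rcases e with e | e <;> rcases e' with e' | e'
  · exact hinj l l' hl hl' (e.trans e'.symm)
  · exact absurd (by rw [e, e']; exact hme) (hF l l' hl hl')
  · exact absurd (by rw [e, e']; exact hme) (hF l' l hl' hl)
  · exact hinj l l' hl hl' (e.trans e'.symm)

lemma vis_le (h : Chn G R k x y) (hk : 3 ≤ k) (hF : NoFull G R m' c')
    (hinj : ∀ i j, i ≤ m' + 1 → j ≤ m' + 1 → c' i = c' j → i = j) (T : Finset ℕ)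
    (hT : ∀ j ∈ T, j ≤ m' + 1 ∧ InC 3 x y (c' j)) : T.card ≤ 3 := by
  have h1 : T.card ≤ (Icc 1 3).card := by
    refine Finset.card_le_card_of_injOn (fun j => idx 3 x y (c' j)) ?_ ?_
    · intro j hj
      have := idx_spec (hT j hj).2
      rw [Finset.mem_coe, mem_Icc]
      exact ⟨this.1, this.2.1⟩
    · intro i hi j hj hij
      have e1 := idx_spec (hT i hi).2
      have e2 := idx_spec (hT j hj).2
      have hij' : idx 3 x y (c' i) = idx 3 x y (c' j) := hij
      rw [← hij'] at e2
      exact same_unit h hF hinj (hT i hi).1 (hT j hj).1 e1.1 (by omega) e1.2.2 e2.2.2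
  rw [Nat.card_Icc] at h1
  omega

/-- Components with three or four vertices are harmless. -/
theorem clean_small (hG : ClassC G R) (h : Chn G R k x y) (hk : 3 ≤ k) (hC : Cat G R m' z' c')
    (hF : NoFull G R m' c') (hm' : m' = 3 ∨ m' = 4) : ¬ NCp m' (fun j => InC 3 x y (c' j)) := by
  intro hN
  obtain ⟨hinj, -⟩ := noFull_inj hG h hC hF
  rcases hm' with rfl | rfl
  · obtain ⟨p, q, r, hp, hq, hr, npq, nqr, npr, ⟨u, u1, u2, u3⟩, ⟨v, v1, v2, v3⟩, ⟨w, w1, w2, w3⟩⟩ :=
      ncp_three hN
    have P1 : ∀ j, (j = 0 ∨ j = 1 ∨ j = 3 ∨ j = 4) → j ≤ 3 + 1 ∧ pos 3 j % 2 = 1 := by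
      intro j hj
      unfold pos
      split_ifs
      all_goals omega
    obtain ⟨p1, p2⟩ := P1 p hp
    obtain ⟨q1, q2⟩ := P1 q hq
    obtain ⟨r1, r2⟩ := P1 r hr
    have a1 := port_par h hC p1 q1 ⟨u1, by omega⟩ ⟨v1, by omega⟩ u3 v3
    have a2 := port_par h hC p1 r1 ⟨u1, by omega⟩ ⟨w1, by omega⟩ u3 w3
    have nuv : u ≠ v := by
      rintro rfl; exact npq (same_unit h hF hinj p1 q1 u1 (by omega) u3 v3)
    have nuw : u ≠ w := by
      rintro rfl; exact npr (same_unit h hF hinj p1 r1 u1 (by omega) u3 w3)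
    have nvw : v ≠ w := by
      rintro rfl; exact nqr (same_unit h hF hinj q1 r1 v1 (by omega) v3 w3)
    clear hp hq hr P1
    omega
  · obtain ⟨T, hT, hTc⟩ : ∃ T : Finset ℕ, (∀ j ∈ T, j ≤ 4 + 1 ∧ InC 3 x y (c' j)) ∧ T.card = 4 := by
      rcases ncp_abc hN with ⟨a, b, c, d⟩ | ⟨a, b, c, d, -⟩ | ⟨a, b, c, d, -⟩
      · refine ⟨{0, 1, 4, 5}, fun j hj => ?_, rfl⟩
        simp only [mem_insert, mem_singleton] at hj
        rcases hj with rfl | rfl | rfl | rfl
        · exact ⟨by omega, a⟩
        · exact ⟨by omega, b⟩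
        · exact ⟨by omega, c⟩
        · exact ⟨by omega, d⟩
      · refine ⟨{0, 1, 2, 3}, fun j hj => ?_, rfl⟩
        simp only [mem_insert, mem_singleton] at hj
        rcases hj with rfl | rfl | rfl | rfl
        · exact ⟨by omega, a⟩
        · exact ⟨by omega, b⟩
        · exact ⟨by omega, c⟩
        · exact ⟨by omega, d⟩
      · refine ⟨{4, 5, 2, 3}, fun j hj => ?_, rfl⟩
        simp only [mem_insert, mem_singleton] at hj
        rcases hj with rfl | rfl | rfl | rfl
        · exact ⟨by omega, a⟩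
        · exact ⟨by omega, b⟩
        · exact ⟨by omega, c⟩
        · exact ⟨by omega, d⟩
    have := vis_le h hk hF hinj T hT
    omega

/-- The other component seeing `y 2` and `y 3`: the vertices `v` and `w` are the fork mates of `y 3`
and `y 2`. -/
def UC (k : ℕ) (x y : ℕ → V) (c' : ℕ → V) : Prop :=
  ∃ o o' q q', LM 2 o o' ∧ LM 2 q q' ∧ pos 2 o ≠ pos 2 q ∧ c' o' = y 3 ∧ c' q = y 2 ∧
    ¬ InC 3 x y (c' q') ∧ (k = 4 → c' q' = y 4) ∧
    (c' o = x 1 ∨ (k = 3 ∧ c' o = y 1) ∨ ¬ InC k x y (c' o))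

lemma LM.ex {q : ℕ} (hq : q ≤ 3) : ∃ q', LM 2 q q' := by
  refine ⟨if q = 0 then 1 else if q = 1 then 0 else if q = 2 then 3 else 2, ?_⟩
  unfold LM
  split_ifs <;> omega

theorem unclean_two (hG : ClassC G R) (h : Chn G R k x y) (hk : 3 ≤ k) (hcat : Cat G R m z c)
    (s2 : ∃ j ≤ m + 1, c j = x 2) (s3 : ∃ j ≤ m + 1, c j = x 3) (hC : Cat G R 2 z' c')
    (hF : NoFull G R 2 c') (hn : ∀ i, 1 ≤ i → i ≤ 2 → z' i ∉ cSupp m z)
    (hN : NCp 2 (fun j => InC 3 x y (c' j))) : (k = 3 ∨ k = 4) ∧ UC k x y c' := by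
  obtain ⟨hinj, -⟩ := noFull_inj hG h hC hF
  have P : ∀ j ≤ 2 + 1, (j ≤ 1 ∧ pos 2 j = 1) ∨ (2 ≤ j ∧ pos 2 j = 2) := by
    intro j hj
    unfold pos
    split_ifs <;> omega
  -- the component sees `y 2`
  obtain ⟨l2, hl2, e2⟩ : ∃ l ≤ 2 + 1, c' l = y 2 := by
    obtain ⟨hl, hr⟩ := ncp_forks hN
    obtain ⟨o, ho, u, u1, u2, u3⟩ : ∃ o ≤ 1, InC 3 x y (c' o) := by
      rcases hl with h1 | h1
      · exact ⟨0, by omega, h1⟩
      · exact ⟨1, le_rfl, h1⟩
    obtain ⟨q, hq, hq', v, v1, v2, v3⟩ : ∃ q, 2 ≤ q ∧ q ≤ 3 ∧ InC 3 x y (c' q) := by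
      rcases hr with h1 | h1
      · exact ⟨2, by omega, by omega, h1⟩
      · exact ⟨3, by omega, by omega, h1⟩
    have par := port_par h hC (show o ≤ 2 + 1 by omega) (show q ≤ 2 + 1 by omega) ⟨u1, by omega⟩
      ⟨v1, by omega⟩ u3 v3
    have p1 := P o (by omega)
    have p2 := P q (by omega)
    have key : ∀ l u, l ≤ 2 + 1 → u = 2 → (c' l = x u ∨ c' l = y u) → ∃ l ≤ 2 + 1, c' l = y 2 := by
      rintro l u hl rfl e
      refine ⟨l, hl, ?_⟩
      rcases vis hG h hk hcat s2 s3 hC hn hl ⟨2, by omega, by omega, e⟩ with e1 | e1 | e1 | e1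
      · exfalso
        rcases e with e | e
        · have := h.injx 1 2 (by omega) (by omega) (by omega) (by omega) (e1.symm.trans e); omega
        · exact h.xy 1 2 (by omega) (by omega) (by omega) (by omega) (e1.symm.trans e)
      · exfalso
        rcases e with e | e
        · exact h.xy 2 1 (by omega) (by omega) (by omega) (by omega) (e.symm.trans e1)
        · have := h.injy 1 2 (by omega) (by omega) (by omega) (by omega) (e1.symm.trans e); omega
      · exact e1
      · exfalso
        rcases e with e | e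
        · exact h.xy 2 3 (by omega) (by omega) (by omega) (by omega) (e.symm.trans e1)
        · have := h.injy 3 2 (by omega) (by omega) (by omega) (by omega) (e1.symm.trans e); omega
    by_cases hu : u = 2
    · exact key o u (by omega) hu u3
    · exact key q v (by omega) (by omega) v3
  have hin2 : InC k x y (c' l2) := ⟨2, by omega, by omega, Or.inr e2⟩
  have hNk : NCp 2 (JC k x y c') := ncp_mono (fun j hj => by
    obtain ⟨i, i1, i2, i3⟩ := hj
    exact ⟨i, i1, by omega, i3⟩) hN
  have P2 := P l2 hl2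
  rcases shape_cases hG h hC hF with ⟨a, b, hS⟩ | ⟨a, hX⟩ | ⟨a, hX⟩
  · -- both ends
    have hab := hS.ab
    have ha1 := hS.a1
    have hb : k + 1 ≤ 2 + b := by
      rcases hS.all l2 hl2 hin2 with ⟨i, i1, i2, i3⟩ | ⟨i, i1, i2, i3⟩
      · exact absurd (i3.symm.trans e2) (h.xy i 2 i1 (by omega) (by omega) (by omega))
      · have := h.injy i 2 (by have := hS.ab; omega) i1 (by omega) (by omega) (i3.symm.trans e2)
        omega
    have ha : a = 1 := by omega
    have hb' : b = k - 1 := by omega
    obtain ⟨l1, hl1, e1⟩ := hS.px 1 le_rfl ha1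
    obtain ⟨l3, hl3, e3⟩ := hS.py 3 hk (by omega)
    have q13 := port_par h hC hl1 hl3 (u := 1) (v := 3) ⟨by omega, by omega⟩ ⟨by omega, by omega⟩
      (Or.inl e1) (Or.inr e3)
    have q12 := port_par h hC hl1 hl2 (u := 1) (v := 2) ⟨by omega, by omega⟩ ⟨by omega, by omega⟩
      (Or.inl e1) (Or.inr e2)
    have p1 := P l1 hl1
    have p3 := P l3 hl3
    have n13 : l1 ≠ l3 := by
      rintro rfl
      exact h.xy 1 3 (by omega) (by omega) (by omega) (by omega) (e1.symm.trans e3)
    have l13 : LM 2 l1 l3 := by unfold LM; omega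
    by_cases hk3 : k = 3
    · refine ⟨Or.inl hk3, ?_⟩
      obtain ⟨q', hq'⟩ := LM.ex (q := l2) (by omega)
      have hq3 := hq'.le (by omega : 2 ≤ 2)
      have p4 := P q' hq3.2.1
      have hpq : pos 2 l2 = pos 2 q' := hq'.pos_eq (by omega)
      have hout : ¬ InC 3 x y (c' q') := by
        intro hin
        have hin' : InC k x y (c' q') := by rw [hk3]; exact hin
        rcases hS.all q' hq3.2.1 hin' with ⟨i, i1, i2, i3⟩ | ⟨i, i1, i2, i3⟩
        · have : i = 1 := by omega
          subst this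
          have := hinj q' l1 hq3.2.1 hl1 (i3.trans e1.symm)
          subst this; omega
        · have : i = 2 ∨ i = 3 := by omega
          rcases this with rfl | rfl
          · exact hq3.2.2 (hinj q' l2 hq3.2.1 hl2 (i3.trans e2.symm)).symm
          · have := hinj q' l3 hq3.2.1 hl3 (i3.trans e3.symm)
            subst this; omega
      exact ⟨l1, l3, l2, q', l13, hq', by omega, e3, e2, hout, fun h4 => by omega, Or.inl e1⟩
    · obtain ⟨l4, hl4, e4⟩ := hS.py 4 (by omega) (by omega)
      have q24 := port_par h hC hl2 hl4 (u := 2) (v := 4) ⟨by omega, by omega⟩ ⟨by omega, by omega⟩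
        (Or.inr e2) (Or.inr e4)
      have p4 := P l4 hl4
      have n24 : l2 ≠ l4 := by
        rintro rfl
        have := h.injy 2 4 (by omega) (by omega) (by omega) (by omega) (e2.symm.trans e4)
        omega
      have l24 : LM 2 l2 l4 := by unfold LM; omega
      have hk4 : k = 4 := by
        by_contra hcon
        obtain ⟨l5, hl5, e5⟩ := hS.py 5 (by omega) (by omega)
        have p5 := P l5 hl5
        have m1 : l5 ≠ l1 := by
          rintro rfl
          exact h.xy 1 5 (by omega) (by omega) (by omega) (by omega) (e1.symm.trans e5)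
        have m2 : l5 ≠ l2 := by
          rintro rfl
          have := h.injy 2 5 (by omega) (by omega) (by omega) (by omega) (e2.symm.trans e5); omega
        have m3 : l5 ≠ l3 := by
          rintro rfl
          have := h.injy 3 5 (by omega) (by omega) (by omega) (by omega) (e3.symm.trans e5); omega
        have m4 : l5 ≠ l4 := by
          rintro rfl
          have := h.injy 4 5 (by omega) (by omega) (by omega) (by omega) (e4.symm.trans e5); omega
        omega
      have hout : ¬ InC 3 x y (c' l4) := by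
        rintro ⟨i, i1, i2, i3 | i3⟩
        · exact h.xy i 4 i1 (by omega) (by omega) (by omega) (i3.symm.trans e4)
        · have := h.injy i 4 i1 (by omega) (by omega) (by omega) (i3.symm.trans e4)
          omega
      exact ⟨Or.inr hk4, l1, l3, l2, l4, l13, l24, by omega, e3, e2, hout, fun _ => e4, Or.inl e1⟩
  · -- only `x`
    exfalso
    obtain ⟨i, i1, i2, i3⟩ := hX.all l2 hl2 hin2
    have := hX.ak
    exact h.xy i 2 i1 (by omega) (by omega) (by omega) (i3.symm.trans e2)
  · -- only `y`
    have hr := Chn.rev h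
    have hNr : NCp 2 (JC k (fun i => y (k + 1 - i)) (fun i => x (k + 1 - i)) c') := by
      rw [jc_rev]; exact hNk
    rcases one_two hG hr hC hNr hX with hA | ⟨-, hD⟩
    · obtain ⟨a', b', hab, ea, eb, hall⟩ := hA
      have ea' : c' a' = y k := ea
      have eb' : c' b' = y (k - 1) := eb
      have hl : l2 = a' ∨ l2 = b' := by
        by_contra hcon
        push Not at hcon
        exact hall l2 (by omega) hcon.1 hcon.2 (inC_rev.2 hin2)
      rcases hl with rfl | rfl
      · have := h.injy k 2 (by omega) le_rfl (by omega) (by omega) (ea'.symm.trans e2)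
        omega
      · have hk3 : k - 1 = 2 := h.injy (k - 1) 2 (by omega) (by omega) (by omega) (by omega)
          (eb'.symm.trans e2)
        have hk3' : k = 3 := by omega
        refine ⟨Or.inl hk3', ?_⟩
        obtain ⟨o, ho⟩ := LM.ex (q := a') (by omega)
        obtain ⟨q', hq'⟩ := LM.ex (q := l2) (by omega)
        have ho3 := ho.le (by omega : 2 ≤ 2)
        have hq3 := hq'.le (by omega : 2 ≤ 2)
        have po : pos 2 a' = pos 2 o := ho.pos_eq (by omega)
        have pq : pos 2 l2 = pos 2 q' := hq'.pos_eq (by omega)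
        have p1 := P a' ho3.1
        have p2 := P o ho3.2.1
        have p3 := P q' hq3.2.1
        have ne1 : o ≠ l2 := by rintro rfl; omega
        have ne2 : q' ≠ a' := by rintro rfl; omega
        have outo : ¬ InC k x y (c' o) := fun h' =>
          hall o (by omega) (fun h'' => ho3.2.2 h''.symm) ne1 (inC_rev.2 h')
        have outq : ¬ InC k x y (c' q') := fun h' =>
          hall q' (by omega) ne2 (fun h'' => hq3.2.2 h''.symm) (inC_rev.2 h')
        refine ⟨o, a', l2, q', ho.symm, hq', by omega, ?_, e2, ?_, fun h4 => by omega,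
          Or.inr (Or.inr outo)⟩
        · rw [ea', hk3']
        · rw [hk3'] at outq; exact outq
    · obtain ⟨o, o', q, q', h1, h2, h3, e1, e3, eq, hout⟩ := hD
      have e1' : c' o = y k := e1
      have e3' : c' o' = y (k + 1 - 3) := e3
      have eq' : c' q = y (k - 1) := eq
      have hout' : ¬ InC k x y (c' q') := fun h' => hout (inC_rev.2 h')
      have o1 := h1.le (by omega : 2 ≤ 2)
      have q1 := h2.le (by omega : 2 ≤ 2)
      have po : pos 2 o = pos 2 o' := h1.pos_eq (by omega)
      have pq : pos 2 q = pos 2 q' := h2.pos_eq (by omega)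
      have hl : l2 = o ∨ l2 = o' ∨ l2 = q := by
        by_contra hcon
        push Not at hcon
        have : l2 = q' := by
          have a1 := P o o1.1
          have a2 := P o' o1.2.1
          have a3 := P q q1.1
          have a4 := P q' q1.2.1
          omega
        rw [this] at hin2
        exact hout' hin2
      rcases hl with rfl | rfl | rfl
      · have := h.injy k 2 (by omega) le_rfl (by omega) (by omega) (e1'.symm.trans e2)
        omega
      · have hk4 : k + 1 - 3 = 2 := h.injy (k + 1 - 3) 2 (by omega) (by omega) (by omega) (by omega)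
          (e3'.symm.trans e2)
        have hk4' : k = 4 := by omega
        refine ⟨Or.inr hk4', q', q, l2, o, h2.symm, h1.symm, by omega, ?_, e2, ?_, fun _ => ?_,
          Or.inr (Or.inr hout')⟩
        · rw [eq', hk4']
        · rw [e1', hk4']
          rintro ⟨i, i1, i2, i3 | i3⟩
          · exact h.xy i 4 i1 (by omega) (by omega) (by omega) i3.symm
          · have := h.injy i 4 i1 (by omega) (by omega) (by omega) i3.symm
            omega
        · rw [e1', hk4']
      · have hk3 : k - 1 = 2 := h.injy (k - 1) 2 (by omega) (by omega) (by omega) (by omega)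
          (eq'.symm.trans e2)
        have hk3' : k = 3 := by omega
        refine ⟨Or.inl hk3', o', o, l2, q', h1.symm, h2, by omega, ?_, e2, ?_, fun h4 => by omega,
          Or.inr (Or.inl ⟨hk3', ?_⟩)⟩
        · rw [e1', hk3']
        · rw [hk3'] at hout'; exact hout'
        · rw [e3', hk3']

end CLB.H80
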