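import Pool.Agent.Helper80_DA.Le4D
import Pool.Agent.Helper95_CLB.One

/-!
MP_da6743_co: a component seeing `x 1, x 2, x 3` as a path of two or four vertices, clean windows.
-/

set_option autoImplicit false
set_option linter.unusedSectionVars false

namespace CLB.H80

open Finset Classical CLB.H95
open H3DA (Q neg nr)
open CLB.H3 (CExt Cat IsTwo Fits UPath he_of_unc cat_structure chn_side pos NoFull noFull_shape noFull_inj
  noFull_small)
open CLB.H91 (LM no_fork_xx ncp_forks)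
open CLB.H80.L4

variable {V : Type*} {G : SimpleGraph V} {R : V → Bool} [Fintype V] {k : ℕ} {x y : ℕ → V}
  {m m' : ℕ} {z c z' c' : ℕ → V} {f : V → Q}

/-- The window is clean outside `E`. -/
theorem cleanE_gen (hG : ClassC G R) (hc : Crit G R) (h : Chn G R k x y) (hk : 3 ≤ k)
    (hcat : Cat G R m z c) (s1 : ∃ j ≤ m + 1, c j = x 1) (s2 : ∃ j ≤ m + 1, c j = x 2)
    (s3 : ∃ j ≤ m + 1, c j = x 3) (E : Set V) (hKE : cSupp m z ⊆ E)
    (hst : k = 3 → ∀ z' c', Cat G R 1 z' c' → Sp k x y 1 c' 1 1 → z' 1 ∈ E)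
    (hU : (k = 3 ∨ k = 4) → ∀ z' c', Cat G R 2 z' c' → (∀ i, 1 ≤ i → i ≤ 2 → z' i ∉ cSupp m z) →
      UC k x y c' → z' 1 ∈ E) : CleanE G R 3 x y E := by
  intro m' z' c' hC hz hex
  have hzK : ∀ i, 1 ≤ i → i ≤ m' → z' i ∉ cSupp m z := fun i i1 i2 h' => hz i i1 i2 (hKE h')
  refine ⟨fun hm i j hi hj hin hjn => ?_, fun hm hN => ?_⟩
  · subst hm
    have mono : ∀ v, InC 3 x y v → InC k x y v := by
      rintro v ⟨u, u1, u2, u3⟩
      exact ⟨u, u1, by omega, u3⟩
    rcases oneH hG h hk z' c' hC with hS | hS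
    · by_cases hk3 : k = 3
      · exact absurd (hst hk3 z' c' hC hS) (hz 1 le_rfl le_rfl)
      · have key : ∀ l ≤ 1 + 1, InC 3 x y (c' l) → c' l = x 1 := by
          intro l hl hlin
          rcases hS.all l hl (mono _ hlin) with ⟨u, u1, u2, u3⟩ | ⟨u, u1, u2, u3⟩
          · have : u = 1 := by omega
            rw [this] at u3; exact u3
          · exfalso
            have hu : u = k := by omega
            subst hu
            obtain ⟨v, v1, v2, v3 | v3⟩ := hlin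
            · exact h.xy v u v1 (by omega) (by omega) le_rfl (v3.symm.trans u3)
            · have := h.injy v u v1 (by omega) (by omega) le_rfl (v3.symm.trans u3)
              omega
        exact hS.inj i j hi hj (mono _ hin) ((key i hi hin).trans (key j hj hjn).symm)
    · exact hS i j hi hj (mono _ hin) (mono _ hjn)
  · rcases Nat.lt_or_ge m' 5 with h5 | h5
    · have hF := noFull_small hG hc hC (show m' ≤ 4 by omega)
      by_cases h2 : m' = 2
      · subst h2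
        obtain ⟨hk4, hUC⟩ := unclean_two hG h hk hcat s2 s3 hC hF hzK hN
        exact hz 1 le_rfl (by omega) (hU hk4 z' c' hC hzK hUC)
      · exact clean_small hG h hk hC hF (by omega) hN
    · exact clean_big hG h hk hcat s1 s2 s3 hC hzK h5 hN

lemma fpE_le_one (hG : ClassC G R) (h : Chn G R k x y) (hk : 3 ≤ k) {E : Set V}
    (hcat : Cat G R m z c) (hKE : cSupp m z ⊆ E) (s1 : ∃ j ≤ m + 1, c j = x 1)
    (s2 : ∃ j ≤ m + 1, c j = x 2) (s3 : ∃ j ≤ m + 1, c j = x 3) :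
    fpE G R E (x 1) ≤ 1 ∧ fpE G R E (x 2) = 0 ∧ fpE G R E (x 3) = 0 ∧ fpE G R E (y 1) ≤ 1 ∧
      fpE G R E (y 2) ≤ 1 := by
  obtain ⟨j1, hj1, e1⟩ := s1
  obtain ⟨j2, hj2, e2⟩ := s2
  obtain ⟨j3, hj3, e3⟩ := s3
  obtain ⟨a1, a2⟩ := port_mem hcat hj1 e1
  obtain ⟨b1, b2⟩ := port_mem hcat hj2 e2
  obtain ⟨c1, c2⟩ := port_mem hcat hj3 e3
  exact ⟨fpE_own_cov hG a1 (hKE a2) (h.cov (InC.x (x := x) (y := y) le_rfl (by omega))),
    fpE_own_lk hG b1 (hKE b2) (h.lk 1 le_rfl (by omega)).symm,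
    fpE_own_lk hG c1 (hKE c2) (h.lk 2 (by omega) (by omega)).symm,
    fpE_lk hG (h.lk 1 le_rfl (by omega)), fpE_lk hG (h.lk 2 (by omega) (by omega))⟩

/-- The first three units. -/
lemma chn3 (h : Chn G R k x y) (hk : 3 ≤ k) : Chn G R 3 x y where
  pos := by omega
  me i h1 h2 := h.me i h1 (by omega)
  lk i h1 h2 := h.lk i h1 (by omega)
  injx i j h1 h2 h3 h4 he := h.injx i j h1 (by omega) h3 (by omega) he
  injy i j h1 h2 h3 h4 he := h.injy i j h1 (by omega) h3 (by omega) he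
  xy i j h1 h2 h3 h4 := h.xy i j h1 (by omega) h3 (by omega)

/-- Two labels of the first unit. -/
lemma pick_two {F1 : Finset Q} (hF : F1.card ≤ 2) (u : Q) : ∃ e e', e ≠ e' ∧ e ∉ F1 ∧ e' ∉ F1 ∧
    nr (neg e) u = true ∧ nr (neg e') u = true := by
  have h1 : (univ.filter (fun e : Q => nr (neg e) u = true)).card = 4 := by
    revert u; decide
  have h2 := Finset.le_card_sdiff F1 (univ.filter (fun e : Q => nr (neg e) u = true))
  obtain ⟨e, he, e', he', hne⟩ := Finset.one_lt_card.1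
    (show 1 < (univ.filter (fun e : Q => nr (neg e) u = true) \ F1).card by omega)
  rw [mem_sdiff, mem_filter] at he he'
  exact ⟨e, e', hne, he.2, he'.2, he.1.2, he'.1.2⟩

lemma pick_two' {F1 : Finset Q} (hF : F1.card ≤ 4) : ∃ e e', e ≠ e' ∧ e ∉ F1 ∧ e' ∉ F1 := by
  have h2 := Finset.card_compl F1
  rw [← Finset.card_univ, card_univ_Q] at h2
  obtain ⟨e, he, e', he', hne⟩ := Finset.one_lt_card.1 (show 1 < (F1ᶜ).card by omega)
  rw [mem_compl] at he he'
  exact ⟨e, e', hne, he, he'⟩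

/-- **The pair form of the game**, one uncharged component. -/
theorem clean_pair (hG : ClassC G R) (hc : Crit G R) (h : Chn G R k x y) (hk : 3 ≤ k)
    (hends : (∀ w, ¬ Lk G R (x 1) w) ∧ ∀ w, ¬ Lk G R (y k) w) (hcat : Cat G R m z c)
    (s1 : ∃ j ≤ m + 1, c j = x 1) (s2 : ∃ j ≤ m + 1, c j = x 2) (s3 : ∃ j ≤ m + 1, c j = x 3)
    (hcl : CleanE G R 3 x y (cSupp m z)) (hf : OffC G R 3 x y f) (g : Q → Q → Q → Bool)
    (hg : ∀ e e', e ≠ e' → (4 ≤ k → nr (neg e) (f (x 4)) = true ∧ nr (neg e') (f (x 4)) = true) →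
      ∀ b1 b2, 5 ≤ wcnt g b1 b2 e e')
    (hE : ∀ e w t, nr e w = true → nr w t = true → (4 ≤ k → nr (neg e) (f (x 4)) = true) →
      g e w t = true → CExt m (fun j => lw x y f e w t (c j))) : False := by
  obtain ⟨F1, F2, F3, hF1, hF2, hF3, hK⟩ := win3 hG hc hcat (chn3 h hk) hends.1 hf (cSupp m z)
    (fun v a b hT ⟨i, i1, i2, i3⟩ => isTwo_not_cat hcat i1 i2 (i3 ▸ hT)) hcl
  obtain ⟨f1, f2, f3, f4, f5⟩ := fpE_le_one hG h hk hcat (le_refl (cSupp m z)) s1 s2 s3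
  obtain ⟨e, e', hne, he, he', hw⟩ : ∃ e e', e ≠ e' ∧ e ∉ F1 ∧ e' ∉ F1 ∧
      (4 ≤ k → nr (neg e) (f (x 4)) = true ∧ nr (neg e') (f (x 4)) = true) := by
    by_cases hk4 : 4 ≤ k
    · have f6 := fpE_lk hG (E := cSupp m z) (h.lk 3 (by omega) (by omega))
      obtain ⟨e, e', a1, a2, a3, a4, a5⟩ := pick_two (F1 := F1) (by omega) (f (x 4))
      exact ⟨e, e', a1, a2, a3, fun _ => ⟨a4, a5⟩⟩
    · have f6 := fpE_cov hG (E := cSupp m z) (h.cov (InC.y (x := x) (y := y) (i := 3) (by omega) hk))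
      obtain ⟨e, e', a1, a2, a3⟩ := pick_two' (F1 := F1) (by omega)
      exact ⟨e, e', a1, a2, a3, fun h4 => absurd h4 hk4⟩
  refine game2 (F2 := F2) (F3 := F3) (by omega) ((hF3 e e').trans (by omega)) (hg e e' hne hw) ?_
  intro d hd w hwF t ht h1 h2
  have hdF : d ∉ F1 := by rcases hd with rfl | rfl <;> assumption
  have hdw : 4 ≤ k → nr (neg d) (f (x 4)) = true := fun h4 => by
    rcases hd with rfl | rfl
    · exact (hw h4).1
    · exact (hw h4).2
  by_contra hcon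
  rw [Bool.not_eq_false] at hcon
  refine hK d w t hdF hwF ht h1 h2 (fun v hv => ?_) (fun m' z' c' hC hne ⟨i, i1, i2, i3⟩ => ?_)
    (hE d w t h1 h2 hdw hcon)
  · by_cases hk4 : 4 ≤ k
    · have : v = x 4 := hv.unique hG (h.lk 3 (by omega) (by omega))
      rw [this]; exact hdw hk4
    · have : k = 3 := by omega
      subst this
      exact absurd hv (hends.2 v)
  · exact absurd (cSupp_eq hC hcat (mem_cSupp i1 i2) i3) hne

/-- The labels of the caterpillar of two vertices. -/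
lemma dlt_ext (h : Chn G R 3 x y) {c : ℕ → V} {o o' q q' : ℕ} (h1 : LM 2 o o') (h2 : LM 2 q q')
    (h3 : pos 2 o ≠ pos 2 q) (e1 : c o = x 1) (e2 : c o' = x 3) (e3 : c q = x 2)
    (e4 : ¬ InC 3 x y (c q')) {e w t : Q} (n1 : nr e w = true) (n2 : nr w t = true)
    (hg : gD (f (c q')) e w t = true) : CExt 2 (fun j => lw x y f e w t (c j)) := by
  apply cext2_of h1 h2 h3
  show ext2 (lw x y f e w t (c o)) (lw x y f e w t (c o')) (lw x y f e w t (c q))
    (lw x y f e w t (c q')) = true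
  rw [e1, e2, e3, lw_x1 h, lw_x3 h, lw_x2 h, lw_out e4]
  exact (gD_ext n1 n2 hg).1

theorem dlt_clean (hG : ClassC G R) (hc : Crit G R) (h : Chn G R k x y) (hk : 3 ≤ k)
    (hends : (∀ w, ¬ Lk G R (x 1) w) ∧ ∀ w, ¬ Lk G R (y k) w) (hcat : Cat G R 2 z c)
    (hD : Dlt k x y c) (hcl : CleanE G R 3 x y (cSupp 2 z)) : False := by
  obtain ⟨f, hf⟩ := exists_off (chn3 h hk) hc
  obtain ⟨o, o', q, q', h1, h2, h3, e1, e2, e3, e4⟩ := hD
  have l1 := h1.le (by omega : 2 ≤ 2)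
  have l2 := h2.le (by omega : 2 ≤ 2)
  have e4' : ¬ InC 3 x y (c q') := fun ⟨i, i1, i2, i3⟩ => e4 ⟨i, i1, by omega, i3⟩
  exact clean_pair hG hc h hk hends hcat ⟨o, l1.1, e1⟩ ⟨q, l2.1, e3⟩ ⟨o', l1.2.1, e2⟩ hcl hf
    (gD (f (c q'))) (fun e e' hne _ b1 b2 => gD_wcnt _ hne b1 b2)
    (fun e w t n1 n2 _ hg => dlt_ext (chn3 h hk) h1 h2 h3 e1 e2 e3 e4' n1 n2 hg)

/-- Extension of a caterpillar of four vertices. -/
lemma cext4_of {s : ℕ → Q} {o o' q q' : ℕ} (ho : (o = 0 ∧ o' = 1) ∨ (o = 1 ∧ o' = 0))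
    (hq : (q = 4 ∧ q' = 5) ∨ (q = 5 ∧ q' = 4))
    (h : ext4 (s o) (s o') (s 2) (s 3) (s q) (s q') = true) : CExt 4 s := by
  have hL : ∀ s : ℕ → Q, CExt 4 (fun j => s (swL j)) → CExt 4 s := by
    intro s hs
    have := cext_swL (by omega) hs
    simp only [swL_swL] at this
    exact this
  have hR : ∀ s : ℕ → Q, CExt 4 (fun j => s (swR 4 j)) → CExt 4 s := by
    intro s hs
    have := cext_swR (by omega) hs
    simp only [swR_swR] at this
    exact this
  rcases ho with ⟨rfl, rfl⟩ | ⟨rfl, rfl⟩ <;> rcases hq with ⟨rfl, rfl⟩ | ⟨rfl, rfl⟩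
  · exact ext4_cext h
  · exact hR s (ext4_cext h)
  · exact hL s (ext4_cext h)
  · exact hL s (hR _ (ext4_cext h))

/-- The links beyond the window. -/
lemma off_links (h : Chn G R k x y) (hk : 5 ≤ k) (hf : OffC G R 3 x y f) :
    nr (neg (f (x 4))) (f (x 5)) = true := by
  have o4x : ¬ InC 3 x y (x 4) := by
    rintro ⟨i, i1, i2, i3 | i3⟩
    · have := h.injx 4 i (by omega) (by omega) i1 (by omega) i3; omega
    · exact h.xy 4 i (by omega) (by omega) i1 (by omega) i3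
  have o4y : ¬ InC 3 x y (y 4) := by
    rintro ⟨i, i1, i2, i3 | i3⟩
    · exact h.xy i 4 i1 (by omega) (by omega) (by omega) i3.symm
    · have := h.injy 4 i (by omega) (by omega) i1 (by omega) i3; omega
  have o5x : ¬ InC 3 x y (x 5) := by
    rintro ⟨i, i1, i2, i3 | i3⟩
    · have := h.injx 5 i (by omega) (by omega) i1 (by omega) i3; omega
    · exact h.xy 5 i (by omega) (by omega) i1 (by omega) i3
  have hme := h.me 4 (by omega) (by omega)
  have hlk := h.lk 4 (by omega) (by omega)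
  have a1 : f (y 4) = neg (f (x 4)) := (hf _ _ hme.1 o4x o4y).1 hme.2
  have a2 : nr (f (y 4)) (f (x 5)) = true := (hf _ _ hlk.1.1 o4y o5x).2 hlk.1.2
  rw [← a1]; exact a2

theorem m4_false (hG : ClassC G R) (hc : Crit G R) (h : Chn G R k x y)
    (hends : (∀ w, ¬ Lk G R (x 1) w) ∧ ∀ w, ¬ Lk G R (y k) w) (hcat : Cat G R 4 z c)
    (hD : M4 k x y c) : False := by
  obtain ⟨hk5, o, o', q, q', ho, hq, e1, e2, e3, hcase, e4⟩ := hD
  have hk : 3 ≤ k := by omega
  have h3 := chn3 h hk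
  obtain ⟨f, hf⟩ := exists_off h3 hc
  have hol : o ≤ 4 + 1 := by omega
  have hql : q ≤ 4 + 1 := by omega
  have s1 : ∃ j ≤ 4 + 1, c j = x 1 := ⟨o, hol, e1⟩
  have s2 : ∃ j ≤ 4 + 1, c j = x 2 := by
    rcases hcase with ⟨a, -⟩ | ⟨-, b⟩
    · exact ⟨2, by omega, a⟩
    · exact ⟨q, hql, b⟩
  have s3 : ∃ j ≤ 4 + 1, c j = x 3 := ⟨3, by omega, e3⟩
  have hcl : CleanE G R 3 x y (cSupp 4 z) :=
    cleanE_gen hG hc h hk hcat s1 s2 s3 (cSupp 4 z) (le_refl _) (fun h3 => by omega)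
      (fun h3 => by omega)
  have e4' : ¬ InC 3 x y (c q') := fun ⟨i, i1, i2, i3⟩ => e4 ⟨i, i1, by omega, i3⟩
  have o4 : ¬ InC 3 x y (x 4) := by
    rintro ⟨i, i1, i2, i3 | i3⟩
    · have := h.injx 4 i (by omega) (by omega) i1 (by omega) i3; omega
    · exact h.xy 4 i (by omega) (by omega) i1 (by omega) i3
  have o5 : ¬ InC 3 x y (x 5) := by
    rintro ⟨i, i1, i2, i3 | i3⟩
    · have := h.injx 5 i (by omega) (by omega) i1 (by omega) i3; omega
    · exact h.xy 5 i (by omega) (by omega) i1 (by omega) i3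
  have hlk := off_links h hk5 hf
  rcases hcase with ⟨a, b⟩ | ⟨a, b⟩
  · -- the fork `{x 4, f}`
    have hz4 : ¬ InC 3 x y (z 4) := fun h' => hcat.unc 4 (by omega) le_rfl (h3.cov h')
    have adj : ∀ j, (j = 4 ∨ j = 5) → G.Adj (z 4) (c j) := by
      rintro j (rfl | rfl)
      · exact hcat.adjc 4 (by omega) le_rfl
      · exact hcat.adjm
    have nq : nr (f (z 4)) (f (c q)) = true :=
      (hf _ _ (adj q (by omega)) hz4 (by rw [b]; exact o4)).2
        (he_of_unc (hcat.unc 4 (by omega) le_rfl) (adj q (by omega))).2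
    have nq' : nr (f (z 4)) (f (c q')) = true :=
      (hf _ _ (adj q' (by omega)) hz4 e4').2
        (he_of_unc (hcat.unc 4 (by omega) le_rfl) (adj q' (by omega))).2
    have hne : f (x 4) ≠ neg (f (c q')) := by
      rw [← b]; exact H3DA.nr_common nq nq'
    refine clean_pair hG hc h hk hends hcat s1 s2 s3 hcl hf
      (gA (neg (f (x 5))) (add (f (x 5)) (add (f (x 4)) (f (c q')))))
      (fun e e' hne _ b1 b2 => gA_wcnt _ _ hne b1 b2) (fun e w t n1 n2 hw hg => ?_)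
    apply cext4_of ho hq
    show ext4 (lw x y f e w t (c o)) (lw x y f e w t (c o')) (lw x y f e w t (c 2))
      (lw x y f e w t (c 3)) (lw x y f e w t (c q)) (lw x y f e w t (c q')) = true
    rw [e1, e2, a, e3, b, lw_x1 h3, lw_x2 h3, lw_x3 h3, lw_out e4', lw_out o4, lw_out o5]
    exact (g4_ext hlk (hw (by omega)) n1 n2).1 hne hg
  · refine clean_pair hG hc h hk hends hcat s1 s2 s3 hcl hf
      (gB (f (x 4)) (f (x 5)) (f (c q')))
      (fun e e' hne hw b1 b2 => gB_wcnt hlk (hw (by omega)).1 (hw (by omega)).2 hne b1 b2)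
      (fun e w t n1 n2 hw hg => ?_)
    apply cext4_of ho hq
    show ext4 (lw x y f e w t (c o)) (lw x y f e w t (c o')) (lw x y f e w t (c 2))
      (lw x y f e w t (c 3)) (lw x y f e w t (c q)) (lw x y f e w t (c q')) = true
    rw [e1, e2, a, e3, b, lw_x1 h3, lw_x2 h3, lw_x3 h3, lw_out e4', lw_out o4, lw_out o5]
    exact (g4_ext hlk (hw (by omega)) n1 n2).2 hg

end CLB.H80
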