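import Pool.Agent.Helper80_DA.Le4E

/-!
MP_da6743_co: three units next to a star seeing both ends, `k = 3`; two uncharged components.
-/

set_option autoImplicit false
set_option linter.unusedSectionVars false

namespace CLB.H80

open Finset Classical CLB.H95
open H3DA (Q neg nr)
open CLB.H3 (CExt Cat IsTwo Fits UPath he_of_unc cat_structure chn_side pos NoFull noFull_shape noFull_inj
  noFull_small)
open CLB.H91 (LM no_fork_xx ncp_forks)
open CLB.H80.L4

variable {V : Type*} {G : SimpleGraph V} {R : V → Bool} [Fintype V] {k : ℕ} {x y : ℕ → V}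
  {m m' : ℕ} {z c z' c' : ℕ → V} {f : V → Q}

lemma fpE_mono {E E' : Set V} (hE : E ⊆ E') (v : V) : fpE G R E' v ≤ fpE G R E v := by
  unfold fpE
  apply Finset.card_le_card
  intro w hw
  rw [mem_filter] at hw ⊢
  exact ⟨hw.1, fun h' => hw.2 (hE h')⟩

lemma fpE_more {E E' : Set V} (hE : E ⊆ E') {v w : V} (hw : w ∈ prt G R v) (h1 : w ∉ E)
    (h2 : w ∈ E') : fpE G R E' v + 1 ≤ fpE G R E v := by
  unfold fpE
  have h3 : (prt G R v).filter (fun w => w ∉ E') ⊆ ((prt G R v).filter (fun w => w ∉ E)).erase w := by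
    intro u hu
    rw [mem_filter] at hu
    rw [mem_erase, mem_filter]
    exact ⟨fun he => hu.2 (by rw [he]; exact h2), hu.1, fun h' => hu.2 (hE h')⟩
  have h4 := Finset.card_le_card h3
  have hm : w ∈ (prt G R v).filter (fun w => w ∉ E) := by
    rw [mem_filter]; exact ⟨hw, h1⟩
  rw [Finset.card_erase_of_mem hm] at h4
  have h5 := Finset.card_pos.2 ⟨_, hm⟩
  omega

lemma fpE_two (hG : ClassC G R) {E : Set V} {v w w' : V} (hv : Cov G R v) (hw : w ∈ prt G R v)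
    (hw' : w' ∈ prt G R v) (hne : w ≠ w') (h1 : w ∈ E) (h2 : w' ∈ E) : fpE G R E v = 0 := by
  unfold fpE
  have h3 : (prt G R v).filter (fun w => w ∉ E) ⊆ ((prt G R v).erase w).erase w' := by
    intro u hu
    rw [mem_filter] at hu
    rw [mem_erase, mem_erase]
    exact ⟨fun he => hu.2 (by rw [he]; exact h2), fun he => hu.2 (by rw [he]; exact h1), hu.1⟩
  have h4 := Finset.card_le_card h3
  rw [Finset.card_erase_of_mem (by rw [mem_erase]; exact ⟨fun h => hne h.symm, hw'⟩),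
    Finset.card_erase_of_mem hw] at h4
  have h5 := prt_card hG hv
  omega

lemma star_ext {s : ℕ → Q} (h1 : s 0 ≠ neg (s 1)) (h2 : s 0 ≠ neg (s 2)) (h3 : s 1 ≠ neg (s 2)) :
    CExt 1 s := by
  obtain ⟨x, hx1, hx2, hx3⟩ := H3DA.near3 h1 h2 h3
  refine ⟨fun _ => x, fun i hi him => ?_, hx1, hx3, fun i hi him => by omega⟩
  have : i = 1 := by omega
  subst this; exact hx2

/-- **Three units and a star.** -/
theorem win3S (hG : ClassC G R) (hc : Crit G R) (hcat : Cat G R m z c) (h : Chn G R 3 x y)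
    (hl : ∀ v, ¬ Lk G R (x 1) v) (hf : OffC G R 3 x y f) (E : Set V)
    (hE1 : ∀ v a b, IsTwo G R v a b → v ∉ E) {zs cs : ℕ → V} (hS : Cat G R 1 zs cs)
    (hSp : Sp 3 x y 1 cs 1 1) (hzs : zs 1 ∉ E) (hcl : CleanE G R 3 x y (E ∪ cSupp 1 zs)) :
    ∃ (F1 F2 : Finset Q) (F3 : Q → Finset Q),
      F1.card + 1 ≤ 2 * (fpE G R E (x 3) + fpE G R E (y 3)) ∧
      F2.card ≤ 2 * (fpE G R E (x 2) + fpE G R E (y 2)) ∧
      (∀ e, (F3 e).card ≤ 2 * (fpE G R E (x 1) + fpE G R E (y 1))) ∧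
      ∀ e w t, e ∉ F1 → w ∉ F2 → t ∉ F3 e → nr e w = true → nr w t = true →
        (∀ v, Lk G R (y 3) v → nr (neg e) (f v) = true) →
        (∀ m' z' c', Cat G R m' z' c' → cSupp m' z' ≠ cSupp m z → (∃ i, 1 ≤ i ∧ i ≤ m' ∧ z' i ∈ E) →
          CExt m' (fun j => lw x y f e w t (c' j))) →
        ¬ CExt m (fun j => lw x y f e w t (c j)) := by
  obtain ⟨F1, F2, F3, hF1, hF2, hF3, hK⟩ := win3 hG hc hcat h hl hf (E ∪ cSupp 1 zs)
    (fun v a b hT hv => by
      rcases hv with hv | ⟨i, i1, i2, i3⟩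
      · exact hE1 v a b hT hv
      · exact isTwo_not_cat hS i1 i2 (i3 ▸ hT)) hcl
  obtain ⟨i1, hi1, e1⟩ := hSp.px 1 le_rfl le_rfl
  obtain ⟨i3, hi3, e3⟩ := hSp.py 3 le_rfl (by omega)
  have n13 : i1 ≠ i3 := by
    rintro rfl
    exact h.xy 1 3 (by omega) (by omega) (by omega) (by omega) (e1.symm.trans e3)
  obtain ⟨i0, hi0, n01, n03⟩ : ∃ i0 ≤ 1 + 1, i0 ≠ i1 ∧ i0 ≠ i3 := by
    refine ⟨3 - i1 - i3, by omega, by omega, by omega⟩
  have e0 : ¬ InC 3 x y (cs i0) := by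
    intro hin
    rcases hSp.all i0 hi0 hin with ⟨u, u1, u2, u3⟩ | ⟨u, u1, u2, u3⟩
    · have : u = 1 := by omega
      subst this
      exact n01 (hSp.inj i0 i1 hi0 hi1 hin (u3.trans e1.symm))
    · have : u = 3 := by omega
      subst this
      exact n03 (hSp.inj i0 i3 hi0 hi3 hin (u3.trans e3.symm))
  set p := f (cs i0) with hp
  have px := port_mem hS hi1 e1
  have py := port_mem hS hi3 e3
  have hcl1 : ∀ j ≤ 1 + 1, zs (cl 1 j) = zs 1 := by
    intro j hj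
    have := cl_mem (le_refl 1) hj
    rw [show cl 1 j = 1 by omega]
  rw [hcl1 i1 hi1] at px
  rw [hcl1 i3 hi3] at py
  have m1 := fpE_more (G := G) (R := R) (E := E) (E' := E ∪ cSupp 1 zs) Set.subset_union_left px.1 hzs
    (Or.inr px.2)
  have m3 := fpE_more (G := G) (R := R) (E := E) (E' := E ∪ cSupp 1 zs) Set.subset_union_left py.1 hzs
    (Or.inr py.2)
  have mm := fun v => fpE_mono (G := G) (R := R) (E := E) (E' := E ∪ cSupp 1 zs) Set.subset_union_left v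
  have mx2 := mm (x 2)
  have my2 := mm (y 2)
  have mx3 := mm (x 3)
  have my1 := mm (y 1)
  refine ⟨F1 ∪ {p}, F2, fun e => F3 e ∪ {e, neg p}, ?_, by omega, fun e => ?_, ?_⟩
  · have a1 := Finset.card_union_le F1 {p}
    rw [Finset.card_singleton] at a1
    omega
  · have a1 := Finset.card_union_le (F3 e) {e, neg p}
    have a2 : ({e, neg p} : Finset Q).card ≤ 2 := Finset.card_le_two
    have a3 := hF3 e e
    rw [Finset.union_self] at a3
    show (F3 e ∪ {e, neg p}).card ≤ _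
    omega
  · intro e w t he hw ht h1 h2 hwl hEc
    rw [mem_union, mem_singleton, not_or] at he
    have ht' : t ∉ F3 e ∧ t ∉ ({e, neg p} : Finset Q) := by
      rw [← not_or, ← mem_union]; exact ht
    have ht2 := ht'.2
    rw [mem_insert, mem_singleton, not_or] at ht2
    refine hK e w t he.1 hw ht'.1 h1 h2 hwl (fun m' z' c' hC hne ⟨i, a1, a2, a3⟩ => ?_)
    rcases a3 with a3 | a3
    · exact hEc m' z' c' hC hne ⟨i, a1, a2, a3⟩
    · have hsupp := cSupp_eq hC hS (mem_cSupp a1 a2) a3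
      refine cext_supp hS hC hsupp ?_
      have L1 : lw x y f e w t (cs i1) = t := by rw [e1, lw_x1 h]
      have L3 : lw x y f e w t (cs i3) = neg e := by rw [e3, lw_y3 h]
      have L0 : lw x y f e w t (cs i0) = p := by rw [lw_out e0]
      have nt : t ≠ neg (neg e) := by rw [H3DA.neg_neg]; exact ht2.1
      have ntp : t ≠ neg p := ht2.2
      have nep : neg e ≠ neg p := fun h' => he.2 (H3DA.neg_inj h')
      have key : ∀ i j, i ≤ 2 → j ≤ 2 → i ≠ j →
          lw x y f e w t (cs i) ≠ neg (lw x y f e w t (cs j)) := by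
        intro i j hi hj hij
        have hi' : i = i0 ∨ i = i1 ∨ i = i3 := by omega
        have hj' : j = i0 ∨ j = i1 ∨ j = i3 := by omega
        rcases hi' with rfl | rfl | rfl <;> rcases hj' with rfl | rfl | rfl
        · exact absurd rfl hij
        · rw [L0, L1]; exact H3DA.ne_neg_symm ntp
        · rw [L0, L3]; exact H3DA.ne_neg_symm nep
        · rw [L0, L1]; exact ntp
        · exact absurd rfl hij
        · rw [L1, L3]; exact nt
        · rw [L0, L3]; exact nep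
        · rw [L1, L3]; exact H3DA.ne_neg_symm nt
        · exact absurd rfl hij
      exact star_ext (key 0 1 (by omega) (by omega) (by omega)) (key 0 2 (by omega) (by omega) (by omega))
        (key 1 2 (by omega) (by omega) (by omega))

/-! ### The single form of the game -/

lemma pick0 {g : Q → Q → Q → Bool} {S : Finset Q} {e : Q} (hS : S.card < cnt8 (win0 g e)) :
    ∃ w t, t ∉ S ∧ nr e w = true ∧ nr w t = true ∧ g e w t = true := by
  rw [← cnt8_eq] at hS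
  obtain ⟨t, ht, htS⟩ := Finset.exists_mem_notMem_of_card_lt_card hS
  rw [mem_filter] at ht
  obtain ⟨w, h1, h2, h3⟩ := win0_iff.1 ht.2
  exact ⟨w, t, htS, h1, h2, h3⟩

lemma pick2 {g : Q → Q → Q → Bool} {S F2 : Finset Q} {b1 b2 e : Q} (hF2 : F2 ⊆ {b1, b2})
    (hS : S.card < cnt8 (win g b1 b2 e)) :
    ∃ w t, t ∉ S ∧ w ∉ F2 ∧ nr e w = true ∧ nr w t = true ∧ g e w t = true := by
  rw [← cnt8_eq] at hS
  obtain ⟨t, ht, htS⟩ := Finset.exists_mem_notMem_of_card_lt_card hS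
  rw [mem_filter] at ht
  obtain ⟨w, h1, h2, h3, h4, h5⟩ := win_iff.1 ht.2
  refine ⟨w, t, htS, fun h' => ?_, h1, h2, h5⟩
  have := hF2 h'
  simp only [mem_insert, mem_singleton] at this
  rcases this with h'' | h''
  · exact h3 h''
  · exact h4 h''

lemma sub_pair {F2 : Finset Q} (hF2 : F2.card ≤ 2) : ∃ b1 b2 : Q, F2 ⊆ {b1, b2} := by
  rcases Nat.lt_or_ge F2.card 2 with h | h
  · obtain ⟨a, ha⟩ := Finset.card_le_one_iff_subset_singleton.1 (show F2.card ≤ 1 by omega)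
    exact ⟨a, a, fun q hq => by have := ha hq; simp only [mem_singleton] at this; simp [this]⟩
  · obtain ⟨a, b, _, ha⟩ := Finset.card_eq_two.1 (le_antisymm hF2 h)
    exact ⟨a, b, by rw [ha]⟩

lemma cnt_pick {p : Q → Bool} {S : Finset Q} (hS : S.card < cnt8 p) : ∃ e, e ∉ S ∧ p e = true := by
  rw [← cnt8_eq] at hS
  obtain ⟨t, ht, htS⟩ := Finset.exists_mem_notMem_of_card_lt_card hS
  rw [mem_filter] at ht
  exact ⟨t, htS, ht.2⟩

lemma chkFa_spec (F f' e : Q) : 3 ≤ cnt8 (win0 (ga F f') e) := by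
  have h := chkFa_true
  unfold chkFa at h
  exact Nat.le_of_ble_eq_true (all8_iff.1 (all8_iff.1 (all8_iff.1 h F) f') e)

lemma chkFb_spec (F f' e : Q) : 3 ≤ cnt8 (win0 (gb F f') e) := by
  have h := chkFb_true
  unfold chkFb at h
  exact Nat.le_of_ble_eq_true (all8_iff.1 (all8_iff.1 (all8_iff.1 h F) f') e)

lemma chkFc_spec (F f' p : Q) : 3 ≤ cnt8 (fun e => Nat.ble 5 (cnt8 (win0 (gc F f' p) e))) ∧
    ∃ e, nr e f' = true ∧ 5 ≤ cnt8 (win0 (gc F f' p) e) := by
  have h := chkFc_true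
  unfold chkFc at h
  have h1 := all8_iff.1 (all8_iff.1 (all8_iff.1 h F) f') p
  rw [Bool.and_eq_true, any8_iff] at h1
  obtain ⟨h2, e, h3⟩ := h1
  rw [Bool.and_eq_true] at h3
  exact ⟨Nat.le_of_ble_eq_true h2, e, h3.1, Nat.le_of_ble_eq_true h3.2⟩

lemma chkFs_spec (F b1 b2 : Q) : 4 ≤ cnt8 (fun e => Nat.ble 5 (cnt8 (win (gD F) b1 b2 e))) := by
  have h := chkFs_true
  unfold chkFs at h
  exact Nat.le_of_ble_eq_true (all8_iff.1 (all8_iff.1 (all8_iff.1 h F) b1) b2)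

/-- **Two uncharged components.** -/
theorem uc_fin (hG : ClassC G R) (h : Chn G R k x y) (hk : k = 3 ∨ k = 4)
    (hends : (∀ w, ¬ Lk G R (x 1) w) ∧ ∀ w, ¬ Lk G R (y k) w) (hf : OffC G R 3 x y f)
    (hcat : Cat G R 2 z c) (hC : Cat G R 2 z' c') (hne : cSupp 2 z' ≠ cSupp 2 z)
    (hD : Dlt k x y c) (hU : UC k x y c') {F1 F2 : Finset Q} {F3 : Q → Finset Q}
    (hF1 : F1.card ≤ 2 * (fpE G R (cSupp 2 z ∪ cSupp 2 z') (x 3) +
      fpE G R (cSupp 2 z ∪ cSupp 2 z') (y 3)))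
    (hF2 : F2.card ≤ 2 * (fpE G R (cSupp 2 z ∪ cSupp 2 z') (x 2) +
      fpE G R (cSupp 2 z ∪ cSupp 2 z') (y 2)))
    (hF3 : ∀ e, (F3 e).card ≤ 2 * (fpE G R (cSupp 2 z ∪ cSupp 2 z') (x 1) +
      fpE G R (cSupp 2 z ∪ cSupp 2 z') (y 1)))
    (hK : ∀ e w t, e ∉ F1 → w ∉ F2 → t ∉ F3 e → nr e w = true → nr w t = true →
        (∀ v, Lk G R (y 3) v → nr (neg e) (f v) = true) →
        (∀ m' z'' c'', Cat G R m' z'' c'' → cSupp m' z'' ≠ cSupp 2 z →
          (∃ i, 1 ≤ i ∧ i ≤ m' ∧ z'' i ∈ cSupp 2 z ∪ cSupp 2 z') →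
          CExt m' (fun j => lw x y f e w t (c'' j))) →
        ¬ CExt 2 (fun j => lw x y f e w t (c j))) : False := by
  have hk3 : 3 ≤ k := by omega
  have h3 := chn3 h hk3
  obtain ⟨o, o', q, q', h1, h2, hpq, e1, e2, e3, e4⟩ := hD
  obtain ⟨a, a', b, b', g1, g2, gpq, u1, u2, u3, u4, u5⟩ := hU
  have l1 := h1.le (by omega : 2 ≤ 2)
  have l2 := h2.le (by omega : 2 ≤ 2)
  have l3 := g1.le (by omega : 2 ≤ 2)
  have l4 := g2.le (by omega : 2 ≤ 2)
  have e4' : ¬ InC 3 x y (c q') := fun ⟨i, i1, i2, i3⟩ => e4 ⟨i, i1, by omega, i3⟩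
  set E : Set V := cSupp 2 z ∪ cSupp 2 z' with hE
  have hKE : cSupp 2 z ⊆ E := Set.subset_union_left
  obtain ⟨f1, f2, f3, f4, f5⟩ := fpE_le_one hG h hk3 hcat hKE ⟨o, l1.1, e1⟩ ⟨q, l2.1, e3⟩
    ⟨o', l1.2.1, e2⟩
  have pa := port_mem hC l3.2.1 u1
  have pb := port_mem hC l4.1 u2
  have f6 : fpE G R E (y 2) = 0 := fpE_own_lk hG pb.1 (Or.inr pb.2) (h.lk 2 (by omega) (by omega))
  have f7 : fpE G R E (y 3) ≤ 1 := fpE_own_cov hG pa.1 (Or.inr pa.2)
    (h.cov (InC.y (x := x) (y := y) (i := 3) (by omega) hk3))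
  have hF2' : F2 = ∅ := by
    rw [← Finset.card_eq_zero]; omega
  have hF1' : F1.card ≤ 2 := by omega
  -- closing
  have hwall : ∀ e, (k = 4 → nr (neg e) (f (x 4)) = true) →
      ∀ v, Lk G R (y 3) v → nr (neg e) (f v) = true := by
    intro e he v hv
    by_cases hk4 : k = 4
    · have : v = x 4 := hv.unique hG (h.lk 3 (by omega) (by omega))
      rw [this]; exact he hk4
    · have : k = 3 := by omega
      subst this
      exact absurd hv (hends.2 v)
  have close : ∀ e w t, e ∉ F1 → t ∉ F3 e → nr e w = true → nr w t = true →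
      (k = 4 → nr (neg e) (f (x 4)) = true) → gD (f (c q')) e w t = true →
      ext2 (lw x y f e w t (c' a)) (neg e) w (f (c' b')) = true → False := by
    intro e w t he ht n1 n2 hw hg hx
    refine hK e w t he (by rw [hF2']; exact Finset.notMem_empty _) ht n1 n2 (hwall e hw)
      (fun m' z'' c'' hC'' hne'' ⟨i, i1, i2, i3⟩ => ?_) (dlt_ext h3 h1 h2 hpq e1 e2 e3 e4' n1 n2 hg)
    rcases i3 with i3 | i3
    · exact absurd (cSupp_eq hC'' hcat (mem_cSupp i1 i2) i3) hne''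
    · refine cext_supp hC hC'' (cSupp_eq hC'' hC (mem_cSupp i1 i2) i3) ?_
      apply cext2_of g1 g2 gpq
      show ext2 (lw x y f e w t (c' a)) (lw x y f e w t (c' a')) (lw x y f e w t (c' b))
        (lw x y f e w t (c' b')) = true
      rw [u1, u2, lw_y3 h3, lw_y2 h3, lw_out u3]
      exact hx
  obtain ⟨e, -, -, he, -, hw, -⟩ := pick_two (F1 := F1) hF1' (f (x 4))
  rcases u5 with u5 | ⟨-, u5⟩ | u5
  · -- the end `x 1` in the fork
    have px := port_mem hcat l1.1 e1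
    have px' := port_mem hC l3.1 u5
    have f8 : fpE G R E (x 1) = 0 := by
      refine fpE_two hG (h.cov (InC.x (x := x) (y := y) le_rfl (by omega))) px.1 px'.1 ?_
        (Or.inl px.2) (Or.inr px'.2)
      intro heq
      exact hne (cSupp_eq hC hcat px'.2 (by rw [← heq]; exact px.2))
    have := hF3 e
    have hc3 := chkFa_spec (f (c q')) (f (c' b')) e
    obtain ⟨w, t, ht, n1, n2, hg⟩ := pick0 (S := F3 e) (show (F3 e).card <
      cnt8 (win0 (ga (f (c q')) (f (c' b'))) e) by omega)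
    unfold ga at hg
    rw [Bool.and_eq_true] at hg
    refine close e w t he ht n1 n2 (fun _ => hw) hg.1 ?_
    rw [u5, lw_x1 h3]; exact hg.2
  · -- the end `y 1` in the fork
    have px' := port_mem hC l3.1 u5
    have f8 : fpE G R E (y 1) = 0 := fpE_own_lk hG px'.1 (Or.inr px'.2) (h.lk 1 le_rfl (by omega))
    have := hF3 e
    have hc3 := chkFb_spec (f (c q')) (f (c' b')) e
    obtain ⟨w, t, ht, n1, n2, hg⟩ := pick0 (S := F3 e) (show (F3 e).card <
      cnt8 (win0 (gb (f (c q')) (f (c' b'))) e) by omega)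
    unfold gb at hg
    rw [Bool.and_eq_true] at hg
    refine close e w t he ht n1 n2 (fun _ => hw) hg.1 ?_
    rw [u5, lw_y1 h3]; exact hg.2
  · -- a vertex outside in the fork
    have u5' : ¬ InC 3 x y (c' a) := fun ⟨i, i1, i2, i3⟩ => u5 ⟨i, i1, by omega, i3⟩
    obtain ⟨hs1, e', hs2, hs3⟩ := chkFc_spec (f (c q')) (f (c' b')) (f (c' a))
    obtain ⟨d, hd1, hd2, hd3⟩ : ∃ d, d ∉ F1 ∧ (k = 4 → nr (neg d) (f (x 4)) = true) ∧
        5 ≤ cnt8 (win0 (gc (f (c q')) (f (c' b')) (f (c' a))) d) := by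
      by_cases hk4 : k = 4
      · have f9 : fpE G R E (y 3) = 0 := fpE_own_lk hG pa.1 (Or.inr pa.2) (h.lk 3 (by omega) (by omega))
        have hF0 : F1 = ∅ := by rw [← Finset.card_eq_zero]; omega
        refine ⟨e', by rw [hF0]; exact Finset.notMem_empty _, fun _ => ?_, hs3⟩
        have o4x : ¬ InC 3 x y (x 4) := by
          rintro ⟨i, i1, i2, i3 | i3⟩
          · have := h.injx 4 i (by omega) (by omega) i1 (by omega) i3; omega
          · exact h.xy 4 i (by omega) (by omega) i1 (by omega) i3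
        have o4y : ¬ InC 3 x y (y 4) := by
          rintro ⟨i, i1, i2, i3 | i3⟩
          · exact h.xy i 4 i1 (by omega) (by omega) (by omega) i3.symm
          · have := h.injy 4 i (by omega) (by omega) i1 (by omega) i3; omega
        have hme := h.me 4 (by omega) (by omega)
        have a1 : f (y 4) = neg (f (x 4)) := (hf _ _ hme.1 o4x o4y).1 hme.2
        rw [u4 hk4, a1] at hs2
        rw [← nr_neg_neg, H3DA.neg_neg]; exact hs2
      · obtain ⟨d, hd, hd'⟩ := cnt_pick (S := F1) (show F1.card < _ by omega) (p := fun e =>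
          Nat.ble 5 (cnt8 (win0 (gc (f (c q')) (f (c' b')) (f (c' a))) e)))
        exact ⟨d, hd, fun h4 => absurd h4 hk4, Nat.le_of_ble_eq_true hd'⟩
    have := hF3 d
    obtain ⟨w, t, ht, n1, n2, hg⟩ := pick0 (S := F3 d) (show (F3 d).card <
      cnt8 (win0 (gc (f (c q')) (f (c' b')) (f (c' a))) d) by omega)
    unfold gc at hg
    rw [Bool.and_eq_true] at hg
    refine close d w t hd1 ht n1 n2 hd2 hg.1 ?_
    rw [lw_out u5']; exact hg.2

/-- **A star and no other uncharged component.** -/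
theorem star_fin (hG : ClassC G R) (h : Chn G R 3 x y)
    (hends : (∀ w, ¬ Lk G R (x 1) w) ∧ ∀ w, ¬ Lk G R (y 3) w)
    (hcat : Cat G R 2 z c) (hD : Dlt 3 x y c) {F1 F2 : Finset Q} {F3 : Q → Finset Q}
    (hF1 : F1.card + 1 ≤ 2 * (fpE G R (cSupp 2 z) (x 3) + fpE G R (cSupp 2 z) (y 3)))
    (hF2 : F2.card ≤ 2 * (fpE G R (cSupp 2 z) (x 2) + fpE G R (cSupp 2 z) (y 2)))
    (hF3 : ∀ e, (F3 e).card ≤ 2 * (fpE G R (cSupp 2 z) (x 1) + fpE G R (cSupp 2 z) (y 1)))
    (hK : ∀ e w t, e ∉ F1 → w ∉ F2 → t ∉ F3 e → nr e w = true → nr w t = true →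
        (∀ v, Lk G R (y 3) v → nr (neg e) (f v) = true) →
        (∀ m' z'' c'', Cat G R m' z'' c'' → cSupp m' z'' ≠ cSupp 2 z →
          (∃ i, 1 ≤ i ∧ i ≤ m' ∧ z'' i ∈ cSupp 2 z) →
          CExt m' (fun j => lw x y f e w t (c'' j))) →
        ¬ CExt 2 (fun j => lw x y f e w t (c j))) : False := by
  obtain ⟨o, o', q, q', h1, h2, hpq, e1, e2, e3, e4⟩ := hD
  have l1 := h1.le (by omega : 2 ≤ 2)
  have l2 := h2.le (by omega : 2 ≤ 2)
  obtain ⟨f1, f2, f3, f4, f5⟩ := fpE_le_one hG h le_rfl hcat (le_refl (cSupp 2 z)) ⟨o, l1.1, e1⟩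
    ⟨q, l2.1, e3⟩ ⟨o', l1.2.1, e2⟩
  have f6 := fpE_cov hG (E := cSupp 2 z) (h.cov (InC.y (x := x) (y := y) (i := 3) (by omega) le_rfl))
  obtain ⟨b1, b2, hb⟩ := sub_pair (F2 := F2) (by omega)
  have hs := chkFs_spec (f (c q')) b1 b2
  obtain ⟨e, he, hp⟩ := cnt_pick (S := F1) (show F1.card < _ by omega) (p := fun e =>
    Nat.ble 5 (cnt8 (win (gD (f (c q'))) b1 b2 e)))
  have hp' : 5 ≤ cnt8 (win (gD (f (c q'))) b1 b2 e) := Nat.le_of_ble_eq_true hp
  have := hF3 e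
  obtain ⟨w, t, ht, hw, n1, n2, hg⟩ := pick2 (S := F3 e) hb (show (F3 e).card <
    cnt8 (win (gD (f (c q'))) b1 b2 e) by omega)
  refine hK e w t he hw ht n1 n2 (fun v hv => absurd hv (hends.2 v))
    (fun m' z'' c'' hC'' hne'' ⟨i, i1, i2, i3⟩ => absurd (cSupp_eq hC'' hcat (mem_cSupp i1 i2) i3) hne'')
    (dlt_ext h h1 h2 hpq e1 e2 e3 e4 n1 n2 hg)

end CLB.H80
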