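import Pool.Agent.Helper95_CLB.Win
import Pool.Agent.Helper80_DA.Le4A

/-!
MP_da6743_co: the forbidden sets of a window, several uncharged components.
-/

set_option autoImplicit false
set_option linter.unusedSectionVars false

namespace CLB.H80

open Finset Classical CLB.H95
open H3DA (Q neg nr)
open CLB.H3 (CExt Cat IsTwo Fits UPath he_of_unc cat_structure chn_side KTight exists_ktight no_cext
  Leaf cext_or)

variable {V : Type*} {G : SimpleGraph V} {R : V → Bool} [Fintype V] {k r : ℕ} {x y X Y : ℕ → V}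
  {m : ℕ} {z c : ℕ → V} {f : V → Q}

/-- The number of ports of `v` outside `E`. -/
noncomputable def fpE (G : SimpleGraph V) (R : V → Bool) (E : Set V) (v : V) : ℕ :=
  ((prt G R v).filter (fun w => w ∉ E)).card

lemma fpE_le_prt {E : Set V} (v : V) : fpE G R E v ≤ (prt G R v).card := Finset.card_filter_le _ _

lemma fpE_lk (hG : ClassC G R) {E : Set V} {v w : V} (hl : Lk G R v w) : fpE G R E v ≤ 1 :=
  (fpE_le_prt v).trans (prt_card_lk hG hl)

lemma fpE_cov (hG : ClassC G R) {E : Set V} {v : V} (hv : Cov G R v) : fpE G R E v ≤ 2 :=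
  (fpE_le_prt v).trans (prt_card hG hv)

/-- A port in `E` is not counted. -/
lemma fpE_own {E : Set V} {v w : V} (hw : w ∈ prt G R v) (hE : w ∈ E) :
    fpE G R E v + 1 ≤ (prt G R v).card := by
  have h3 : (prt G R v).filter (fun w => w ∉ E) ⊆ (prt G R v).erase w := by
    intro u hu
    rw [mem_filter] at hu
    rw [mem_erase]
    exact ⟨fun he => hu.2 (by rw [he]; exact hE), hu.1⟩
  have h4 := Finset.card_le_card h3
  rw [Finset.card_erase_of_mem hw] at h4
  have h5 := Finset.card_pos.2 ⟨_, hw⟩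
  unfold fpE
  omega

lemma fpE_own_lk (hG : ClassC G R) {E : Set V} {v w u : V} (hw : w ∈ prt G R v) (hE : w ∈ E)
    (hl : Lk G R v u) : fpE G R E v = 0 := by
  have h1 := fpE_own hw hE
  have h2 := prt_card_lk hG hl
  omega

lemma fpE_own_cov (hG : ClassC G R) {E : Set V} {v w : V} (hw : w ∈ prt G R v) (hE : w ∈ E)
    (hv : Cov G R v) : fpE G R E v ≤ 1 := by
  have h1 := fpE_own hw hE
  have h2 := prt_card hG hv
  omega

/-- The cost of a vertex. -/
lemma cst_le_fpE {E : Set V} {Φ : V → V → Finset Q} (h2 : ∀ v w, (Φ v w).card ≤ 2)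
    (h0 : ∀ v w, w ∈ E → Φ v w = ∅) (v : V) : cst G R Φ v ≤ 2 * fpE G R E v := by
  unfold cst fpE
  rw [← Finset.sum_filter_add_sum_filter_not (prt G R v) (fun w => w ∉ E)]
  have e1 : ∑ w ∈ (prt G R v).filter (fun w => ¬ w ∉ E), (Φ v w).card = 0 := by
    refine Finset.sum_eq_zero fun w hw => ?_
    rw [mem_filter, not_not] at hw
    rw [h0 v w hw.2]; simp
  rw [e1, Nat.add_zero]
  calc ∑ w ∈ (prt G R v).filter (fun w => w ∉ E), (Φ v w).card
      ≤ ∑ _w ∈ (prt G R v).filter (fun w => w ∉ E), 2 := Finset.sum_le_sum fun w _ => h2 v w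
    _ = 2 * ((prt G R v).filter (fun w => w ∉ E)).card := by simp [mul_comm]
    _ ≤ _ := le_rfl

/-- The components outside `E` meet the piece in a harmless way. -/
def CleanE (G : SimpleGraph V) (R : V → Bool) (r : ℕ) (X Y : ℕ → V) (E : Set V) : Prop :=
  ∀ m' z' c', Cat G R m' z' c' → (∀ i, 1 ≤ i → i ≤ m' → z' i ∉ E) →
    (∃ j ≤ m' + 1, InC r X Y (c' j)) →
    (m' = 1 → ∀ i j, i ≤ 2 → j ≤ 2 → InC r X Y (c' i) → InC r X Y (c' j) → i = j) ∧
    (2 ≤ m' → ¬ NCp m' (fun j => InC r X Y (c' j)))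

/-- **The forbidden sets of a window, several uncharged components.** -/
theorem forbE (hG : ClassC G R) (hc : Crit G R) (hcat : Cat G R m z c) (h : Chn G R r X Y)
    (hcyc : ¬ Lk G R (Y r) (X 1)) (hf : OffC G R r X Y f) (E : Set V)
    (hE1 : ∀ v a b, IsTwo G R v a b → v ∉ E) (hcl : CleanE G R r X Y E) :
    ∃ F : ℕ → (ℕ → Q) → Finset Q,
      (∀ i, 1 ≤ i → i ≤ r → ∀ g g', Same (i - 1) g g' → F i g = F i g') ∧
      (∀ i, ∀ g g', (F i g ∪ F i g').card ≤ 2 * (fpE G R E (X i) + fpE G R E (Y i))) ∧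
      ∀ mu, Nwk r mu → (∀ i, 1 ≤ i → i ≤ r → mu i ∉ F i mu) →
        (∀ i, 1 ≤ i → i ≤ r → mu i ∈ wall G R r X Y f i) →
        (∀ m' z' c', Cat G R m' z' c' → cSupp m' z' ≠ cSupp m z →
          (∃ j ≤ m' + 1, InC r X Y (c' j)) →
          (∃ i, 1 ≤ i ∧ i ≤ m' ∧ z' i ∈ E) → CExt m' (fun j => lbl r X Y mu f (c' j))) →
        ¬ CExt m (fun j => lbl r X Y mu f (c j)) := by
  have hrp := h.pos
  obtain ⟨Φ, hΦ⟩ := exists_oforb hG h (f := f) E (X 1) (X 1)
  have hXc : Cov G R (X 1) := h.cov (InC.x (x := X) (y := Y) le_rfl hrp)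
  refine ⟨fun i g => (olst G R X Y Φ g i)ᶜ, ?_, ?_, ?_⟩
  · intro i h1 h2 g g' hs
    have e : olst G R X Y Φ g i = olst G R X Y Φ g' i := lst_congr' (fun w => hΦ.dep i h1 h2 w g g' hs)
    show (olst G R X Y Φ g i)ᶜ = (olst G R X Y Φ g' i)ᶜ
    rw [e]
  · intro i g g'
    have e1 : (olst G R X Y Φ g i)ᶜ ∪ (olst G R X Y Φ g' i)ᶜ ⊆ (lst G R X Y (uni Φ g g') i)ᶜ := by
      intro t ht
      rw [mem_union, mem_compl, mem_compl] at ht
      rw [mem_compl]
      intro ht'
      rcases ht with ht | ht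
      · exact ht (uni_left _ _ _ _ ht')
      · exact ht (uni_right _ _ _ _ ht')
    have e2 := Finset.card_le_card e1
    have e3 := Finset.card_compl_add_card (lst G R X Y (uni Φ g g') i)
    have e4 := lst_card (G := G) (R := R) (x := X) (y := Y) (uni Φ g g') i
    have c2 : ∀ v w, (uni Φ g g' v w).card ≤ 2 := fun v w => hΦ.two v w g g'
    have c0 : ∀ v w, w ∈ E → uni Φ g g' v w = ∅ := by
      intro v w hw
      unfold uni
      rw [hΦ.triv v w g hw, hΦ.triv v w g' hw, Finset.union_empty]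
    have e5 := cst_le_fpE (G := G) (R := R) c2 c0 (X i)
    have e6 := cst_le_fpE (G := G) (R := R) c2 c0 (Y i)
    have e7 : Fintype.card Q = 8 := by
      rw [← Finset.card_univ, card_univ_Q]
    show ((olst G R X Y Φ g i)ᶜ ∪ (olst G R X Y Φ g' i)ᶜ).card ≤ _
    omega
  · intro mu hmu hF hwl hK
    have hpw : PW G R X Y Φ r mu := ⟨hmu, fun i h1 h2 => by
      have := hF i h1 h2
      rwa [mem_compl, not_not] at this⟩
    have av := hpw.avoid h (f := f)
    refine win_contra hG hc hcat h hcyc hf hmu ?_ ?_ ?_ ?_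
    · intro v hv
      have := hwl 1 le_rfl hrp
      unfold wall at this
      rw [mem_inter, mem_filter, mem_filter] at this
      exact this.1.2 rfl v hv
    · intro v hv
      have := hwl r hrp le_rfl
      unfold wall at this
      rw [mem_inter, mem_filter, mem_filter] at this
      exact this.2.2 rfl v hv
    · intro v a b hT ha
      exact hΦ.isTwo mu av v a b hT (hE1 v a b hT) ha
    · intro m' z' c' hC' hex hne
      by_cases hz : ∃ i, 1 ≤ i ∧ i ≤ m' ∧ z' i ∈ E
      · exact hK m' z' c' hC' hne hex hz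
      · push Not at hz
        obtain ⟨o1, o2⟩ := hcl m' z' c' hC' hz hex
        refine hΦ.cat mu hmu av m' z' c' hC' ?_ hz
        refine okill_of_not_nc hG h hf hC' hex o1 o2 ?_
        intro p p1 p2 p3 p4 _
        exact hC'.unc p (by omega) (by omega) (by rw [p4]; exact hXc)

end CLB.H80
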