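import Pool.Agent.Helper80_DA.Le4B

/-!
MP_da6743_co: extension criteria for a caterpillar of two or four vertices next to three units.
-/

set_option autoImplicit false
set_option linter.unusedSectionVars false

namespace CLB.H80.L4

open Finset CLB.H95
open H3DA (Q neg nr)
open CLB.H3 (CExt)

/-- A tight labelling of type `D` of a path of four vertices. -/
def ti4 (D : Ty) (a b c d e f : Q) : Bool :=
  frk D a b && (stp D (neg b) c && (stp (co D) (neg c) d && (stp D (neg d) e && frk D e f)))

/-- The extension criterion for a path of four vertices. -/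
def ext4 (a b c d e f : Q) : Bool := !(a == neg b) && (!(e == neg f) &&
  (!(ti4 (0, true) a b c d e f) && (!(ti4 (0, false) a b c d e f) &&
    (!(ti4 (1, true) a b c d e f) && (!(ti4 (1, false) a b c d e f) &&
      (!(ti4 (2, true) a b c d e f) && !(ti4 (2, false) a b c d e f)))))))

lemma ext4_cext {s : ℕ → Q} (h : ext4 (s 0) (s 1) (s 2) (s 3) (s 4) (s 5) = true) : CExt 4 s := by
  unfold ext4 at h
  simp only [Bool.and_eq_true, Bool.not_eq_true', beq_eq_false_iff_ne] at h
  obtain ⟨h1, h2, k1, k2, k3, k4, k5, k6⟩ := h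
  rw [cext_iff (by omega)]
  refine ⟨h1, h2, fun D hD => ?_⟩
  have e2 : altT D 2 = co D := by rw [show (2 : ℕ) = 1 + 1 by rfl, altT_succ, altT_one]
  have e3 : altT D 3 = D := by rw [show (3 : ℕ) = 2 + 1 by rfl, altT_succ, e2, co_co]
  have e4 : altT D 4 = co D := by rw [show (4 : ℕ) = 3 + 1 by rfl, altT_succ, e3]
  have e5 : altT D (4 + 1) = D := by rw [altT_succ, e4, co_co]
  have g1 := hD.1
  have g2 := hD.2.1 1 le_rfl (by omega)
  have g3 := hD.2.1 2 (by omega) (by omega)
  have g4 := hD.2.1 3 (by omega) (by omega)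
  have g5 := hD.2.2
  rw [altT_one] at g2
  rw [e2] at g3
  rw [e3] at g4
  rw [e5] at g5
  have hT : ti4 D (s 0) (s 1) (s 2) (s 3) (s 4) (s 5) = true := by
    unfold ti4
    rw [g1, g2, g3, g4, g5]
    rfl
  have hm := mem_allT D
  unfold allT at hm
  simp only [List.mem_cons, List.not_mem_nil, or_false] at hm
  rcases hm with rfl | rfl | rfl | rfl | rfl | rfl
  · exact absurd (k1.symm.trans hT) (by simp)
  · exact absurd (k2.symm.trans hT) (by simp)
  · exact absurd (k3.symm.trans hT) (by simp)
  · exact absurd (k4.symm.trans hT) (by simp)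
  · exact absurd (k5.symm.trans hT) (by simp)
  · exact absurd (k6.symm.trans hT) (by simp)

/-! ### Two vertices -/

def chk2 : Bool := all8 (fun F => all8 (fun e => all8 (fun w => !(nr e w) || all8 (fun t => !(nr w t) ||
  (!(gD F e w t) || (ext2 t e (neg w) F && (ext2 e t (neg w) F && (ext2 t e F (neg w) &&
    (ext2 e t F (neg w) && (ext2 (neg w) F t e && (ext2 (neg w) F e t && (ext2 F (neg w) t e &&
      ext2 F (neg w) e t))))))))))))

lemma chk2_true : chk2 = true := by decide +kernel

lemma gD_ext {F e w t : Q} (h1 : nr e w = true) (h2 : nr w t = true) (hg : gD F e w t = true) :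
    ext2 t e (neg w) F = true ∧ ext2 e t (neg w) F = true ∧ ext2 t e F (neg w) = true ∧
      ext2 e t F (neg w) = true ∧ ext2 (neg w) F t e = true ∧ ext2 (neg w) F e t = true ∧
      ext2 F (neg w) t e = true ∧ ext2 F (neg w) e t = true := by
  have hc := chk2_true
  unfold chk2 at hc
  have a1 := all8_iff.1 (all8_iff.1 (all8_iff.1 hc F) e) w
  rw [h1] at a1
  simp only [Bool.not_true, Bool.false_or] at a1
  have a2 := all8_iff.1 a1 t
  rw [h2, hg] at a2
  simp only [Bool.not_true, Bool.false_or, Bool.and_eq_true] at a2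
  exact a2

/-! ### Four vertices -/

def chk4 : Bool := all8 (fun u => all8 (fun h => !(nr (neg u) h) || all8 (fun e => !(nr (neg e) u) ||
  all8 (fun w => !(nr e w) || all8 (fun t => !(nr w t) || all8 (fun F => (u == neg F ||
    (!(gA (neg h) (add h (add u F)) e w t) || ext4 t h (neg w) e u F)) &&
      (!(gB u h F e w t) || ext4 t h u e (neg w) F)))))))

lemma chk4_true : chk4 = true := by decide +kernel

lemma g4_ext {u h F e w t : Q} (h0 : nr (neg u) h = true) (h1 : nr (neg e) u = true)
    (h2 : nr e w = true) (h3 : nr w t = true) :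
    (u ≠ neg F → gA (neg h) (add h (add u F)) e w t = true → ext4 t h (neg w) e u F = true) ∧
      (gB u h F e w t = true → ext4 t h u e (neg w) F = true) := by
  have hc := chk4_true
  unfold chk4 at hc
  have a1 := all8_iff.1 (all8_iff.1 hc u) h
  rw [h0] at a1
  simp only [Bool.not_true, Bool.false_or] at a1
  have a2 := all8_iff.1 a1 e
  rw [h1] at a2
  simp only [Bool.not_true, Bool.false_or] at a2
  have a3 := all8_iff.1 a2 w
  rw [h2] at a3
  simp only [Bool.not_true, Bool.false_or] at a3
  have a4 := all8_iff.1 a3 t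
  rw [h3] at a4
  simp only [Bool.not_true, Bool.false_or] at a4
  have a5 := all8_iff.1 a4 F
  simp only [Bool.and_eq_true, Bool.or_eq_true, Bool.not_eq_true', beq_iff_eq] at a5
  refine ⟨fun hu hg => ?_, fun hg => ?_⟩
  · rcases a5.1 with h' | h' | h'
    · exact absurd h' hu
    · rw [hg] at h'; exact absurd h' (by simp)
    · exact h'
  · rcases a5.2 with h' | h'
    · rw [hg] at h'; exact absurd h' (by simp)
    · exact h'

end CLB.H80.L4
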