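import Pool.Agent.Helper80_DA.M5W
import Pool.Agent.Helper86_DA.Wq

/-!
MP_da6743_co: a component which sees `x 1, y 1, x 3, x 4`: the game on the first four units, windows
W1 and W5 of a component with five vertices.
-/

set_option autoImplicit false
set_option linter.unusedSectionVars false

namespace CLB.H80

open Finset Classical CLB.H95
open H3DA (Q neg nr)
open CLB.H3 (CExt Cat IsTwo Fits UPath he_of_unc cat_structure chn_side pos NoFull noFull_shape noFull_inj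
  noFull_small KTight exists_ktight ll5')
open CLB.H91 (LM no_fork_xx ncp_forks ends_rev K5 OutU Base W1Stmt W5Stmt)

section
variable {V : Type*} {G : SimpleGraph V} {R : V → Bool} [Fintype V] {k r : ℕ} {x y : ℕ → V}
  {m m' : ℕ} {z c z' c' : ℕ → V} {f : V → Q}

lemma chn4 (h : Chn G R k x y) (hk : 4 ≤ k) : Chn G R 4 x y where
  pos := by omega
  me i h1 h2 := h.me i h1 (by omega)
  lk i h1 h2 := h.lk i h1 (by omega)
  injx i j h1 h2 h3 h4 he := h.injx i j h1 (by omega) h3 (by omega) he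
  injy i j h1 h2 h3 h4 he := h.injy i j h1 (by omega) h3 (by omega) he
  xy i j h1 h2 h3 h4 := h.xy i j h1 (by omega) h3 (by omega)

lemma fpE_zero {E : Set V} {v w : V} (h0 : fpE G R E v = 0) (hw : w ∈ prt G R v) : w ∈ E := by
  unfold fpE at h0
  rw [Finset.card_eq_zero] at h0
  by_contra hE
  have : w ∈ (prt G R v).filter (fun w => w ∉ E) := by
    rw [mem_filter]; exact ⟨hw, hE⟩
  rw [h0] at this
  exact absurd this (Finset.notMem_empty _)

lemma add_flip : ∀ a b κ : Q, b = add κ a → a = add κ b := by decide +kernel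

/-- **A couple with one window port in every fork extends unless the walk meets two labels.** -/
lemma twoP_ext (h : Chn G R 4 x y) {v : V} {d : ℕ}
    (hv : (d = 3 ∧ v = x 2) ∨ (d = 1 ∧ v = y 4)) (hT : TwoP x y c' v) :
    ∃ α β κ : Q, ∀ p s w t, t ≠ α → mv p s w t d ≠ β → t ≠ add κ (mv p s w t d) →
      CExt 2 (fun j => lv x y f p s w t (c' j)) := by
  obtain ⟨o, o', q, q', h1, h2, h3, e1, n1, e2, n2⟩ := hT
  have hr := Chn.rev h
  have i1 : InU (fun i => y (4 + 1 - i)) (fun i => x (4 + 1 - i)) 4 (c' o) := Or.inr e1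
  have i2 : InU (fun i => y (4 + 1 - i)) (fun i => x (4 + 1 - i)) d (c' q) := by
    rcases hv with ⟨rfl, rfl⟩ | ⟨rfl, rfl⟩
    · exact Or.inr e2
    · exact Or.inl e2
  have hd : 1 ≤ d ∧ d ≤ 4 := by omega
  have m1 : ¬ InC 4 (fun i => y (4 + 1 - i)) (fun i => x (4 + 1 - i)) (c' o') :=
    fun h' => n1 (inC_rev.1 h')
  have m2 : ¬ InC 4 (fun i => y (4 + 1 - i)) (fun i => x (4 + 1 - i)) (c' q') :=
    fun h' => n2 (inC_rev.1 h')
  have hpos : ((o = 0 ∨ o = 1) ∧ o' = 1 - o ∧ (q = 2 ∨ q = 3) ∧ q' = 5 - q) ∨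
      ((q = 0 ∨ q = 1) ∧ q' = 1 - q ∧ (o = 2 ∨ o = 3) ∧ o' = 5 - o) := by
    unfold LM at h1 h2
    rcases h1 with ⟨rfl, rfl⟩ | ⟨rfl, rfl⟩ | ⟨rfl, rfl⟩ | ⟨rfl, rfl⟩ <;>
      rcases h2 with ⟨rfl, rfl⟩ | ⟨rfl, rfl⟩ | ⟨rfl, rfl⟩ | ⟨rfl, rfl⟩ <;>
      first
        | exact absurd rfl h3
        | (left; omega)
        | (right; omega)
  rcases hpos with ⟨a1, a2, a3, a4⟩ | ⟨a1, a2, a3, a4⟩
  · rw [a2] at m1
    rw [a4] at m2
    obtain ⟨α, β, κ, hh⟩ := CLB.H86.two_ext (f := f) hr a1 a3 (show 1 ≤ 4 by omega) le_rfl hd.1 hd.2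
      i1 i2 m1 m2
    exact ⟨α, β, κ, fun p s w t t1 t2 t3 => hh (mv p s w t) t1 t2 t3⟩
  · rw [a2] at m2
    rw [a4] at m1
    obtain ⟨α, β, κ, hh⟩ := CLB.H86.two_ext (f := f) hr a1 a3 hd.1 hd.2 (show 1 ≤ 4 by omega) le_rfl
      i2 i1 m2 m1
    exact ⟨β, α, κ, fun p s w t t1 t2 t3 => hh (mv p s w t) t2 t1 (fun e => t3 (add_flip _ _ _ e))⟩

lemma two_lab {ι : Type*} (F : ι → Finset Q) (hF : ∀ i i', (F i ∪ F i').card ≤ 2) :
    ∃ q : Q, ∀ i, ∃ l : Q, F i ⊆ {q, l} := by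
  by_cases hex : ∃ i0, 2 ≤ (F i0).card
  · obtain ⟨i0, hi0⟩ := hex
    have h1 : (F i0).card ≤ 2 := by
      have := hF i0 i0
      rwa [Finset.union_self] at this
    obtain ⟨q, l, hne, e⟩ := Finset.card_eq_two.1 (le_antisymm h1 hi0)
    refine ⟨q, fun i => ⟨l, ?_⟩⟩
    have h2 : F i0 = F i ∪ F i0 :=
      Finset.eq_of_subset_of_card_le Finset.subset_union_right ((hF i i0).trans hi0)
    rw [← e, h2]
    exact Finset.subset_union_left
  · push Not at hex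
    refine ⟨(false, false, false), fun i => ?_⟩
    have h1 := hex i
    have h2 : (F i).card ≤ 1 := by omega
    rcases Finset.card_le_one_iff_subset_singleton.1 h2 with ⟨l, hl⟩
    exact ⟨l, fun u hu => by
      have := hl hu
      rw [mem_singleton] at this
      rw [mem_insert, mem_singleton]
      exact Or.inr this⟩

/-- **The data of the game** on the units 4, 3, 2, 1. -/
theorem w_data (hG : ClassC G R) (hc : Crit G R) (h : Chn G R k x y) (hk : 6 ≤ k)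
    (hends : (∀ w, ¬ Lk G R (x 1) w) ∧ ∀ w, ¬ Lk G R (y k) w) (hcat : Cat G R m z c)
    (s1 : ∃ j ≤ m + 1, c j = x 1) (s1' : ∃ j ≤ m + 1, c j = y 1) (s3 : ∃ j ≤ m + 1, c j = x 3)
    (s4 : ∃ j ≤ m + 1, c j = x 4) (hf : OffC G R 4 x y f) :
    ∃ (F4 F3 : Finset Q) (F2 : Q → Finset Q) (q : Q) (l : Q → Q → Q → Q),
      F4.card ≤ 2 ∧ F3.card ≤ 2 ∧ (∀ p p', (F2 p ∪ F2 p').card ≤ 4) ∧
      ∀ p s w t, p ∉ F4 → s ∉ F3 → w ∉ F2 p → t ≠ q → t ≠ l p s w → nr p s = true →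
        nr s w = true → nr w t = true → nr (neg p) (f (x 5)) = true →
        ¬ CExt m (fun j => lv x y f p s w t (c j)) := by
  have h4 := chn4 h (by omega)
  have hl := hends.1
  obtain ⟨j1, hj1, e1⟩ := s1
  obtain ⟨j1', hj1', e1'⟩ := s1'
  obtain ⟨j3, hj3, e3⟩ := s3
  obtain ⟨j4, hj4, e4⟩ := s4
  obtain ⟨a1, a2⟩ := port_mem hcat hj1 e1
  obtain ⟨a1', a2'⟩ := port_mem hcat hj1' e1'
  obtain ⟨a3, a3'⟩ := port_mem hcat hj3 e3
  obtain ⟨a4, a4'⟩ := port_mem hcat hj4 e4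
  have hE1 : ∀ {m' : ℕ} {z' c' : ℕ → V}, Cat G R m' z' c' → ∀ v a b, IsTwo G R v a b →
      v ∉ cSupp m' z' := fun hC v a b hT ⟨i, i1, i2, i3⟩ => isTwo_not_cat hC i1 i2 (i3 ▸ hT)
  have cnt : ∀ E : Set V, cSupp m z ⊆ E → fpE G R E (x 1) ≤ 1 ∧ fpE G R E (y 1) = 0 ∧
      fpE G R E (x 2) ≤ 1 ∧ fpE G R E (y 2) ≤ 1 ∧ fpE G R E (x 3) = 0 ∧ fpE G R E (y 3) ≤ 1 ∧
      fpE G R E (x 4) = 0 ∧ fpE G R E (y 4) ≤ 1 := fun E hE =>
    ⟨fpE_own_cov hG a1 (hE a2) (h.cov (InC.x (x := x) (y := y) le_rfl (by omega))),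
      fpE_own_lk hG a1' (hE a2') (h.lk 1 le_rfl (by omega)),
      fpE_lk hG (h.lk 1 le_rfl (by omega)).symm, fpE_lk hG (h.lk 2 (by omega) (by omega)),
      fpE_own_lk hG a3 (hE a3') (h.lk 2 (by omega) (by omega)).symm,
      fpE_lk hG (h.lk 3 (by omega) (by omega)),
      fpE_own_lk hG a4 (hE a4') (h.lk 3 (by omega) (by omega)).symm,
      fpE_lk hG (h.lk 4 (by omega) (by omega))⟩
  have hw : ∀ p, nr (neg p) (f (x 5)) = true → ∀ v, Lk G R (y 4) v → nr (neg p) (f v) = true := by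
    intro p hp v hv
    rw [← (h.lk 4 (by omega) (by omega)).unique hG hv]
    exact hp
  have hun : ∀ m' z' c', Cat G R m' z' c' → cSupp m' z' ≠ cSupp m z →
      (m' = 1 → ∀ i j, i ≤ 2 → j ≤ 2 → InC 4 x y (c' i) → InC 4 x y (c' j) → i = j) ∧
      (2 ≤ m' → NCp m' (fun j => InC 4 x y (c' j)) → m' = 2 ∧
        (TwoP x y c' (x 2) ∨ TwoP x y c' (y 4))) := fun m' z' c' hC hne =>
    unclean4 hG hc h hk hends hcat ⟨j1, hj1, e1⟩ ⟨j1', hj1', e1'⟩ ⟨j3, hj3, e3⟩ ⟨j4, hj4, e4⟩ hC hne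
  have hnek : ∀ (E : Set V), cSupp m z ⊆ E → ∀ m' z' c', Cat G R m' z' c' →
      (∀ i, 1 ≤ i → i ≤ m' → z' i ∉ E) → cSupp m' z' ≠ cSupp m z := by
    intro E hE m' z' c' hC hz e
    exact hz 1 le_rfl hC.pos (hE (by rw [← e]; exact mem_cSupp le_rfl hC.pos))
  by_cases hex : ∃ z' c', Cat G R 2 z' c' ∧ cSupp 2 z' ≠ cSupp m z ∧
      (TwoP x y c' (x 2) ∨ TwoP x y c' (y 4))
  · -- a couple
    obtain ⟨z', c', hC, hne, hT⟩ := hex
    obtain ⟨v, d, hvd, hT'⟩ : ∃ v d, ((d = 3 ∧ v = x 2) ∨ (d = 1 ∧ v = y 4)) ∧ TwoP x y c' v := by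
      rcases hT with hT | hT
      · exact ⟨_, 3, Or.inl ⟨rfl, rfl⟩, hT⟩
      · exact ⟨_, 1, Or.inr ⟨rfl, rfl⟩, hT⟩
    obtain ⟨α, β, κ, hαβ⟩ := twoP_ext (f := f) h4 hvd hT'
    obtain ⟨o, o', q, q', t1, t2, t3, b1, -, b2, -⟩ := hT'
    obtain ⟨p1, p1'⟩ := port_mem hC (t1.le (by omega)).1 b1
    obtain ⟨p2, p2'⟩ := port_mem hC (t2.le (by omega)).1 b2
    set E : Set V := cSupp m z ∪ cSupp 2 z' with hEdef
    have hKE : cSupp m z ⊆ E := Set.subset_union_left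
    have hKE' : cSupp 2 z' ⊆ E := Set.subset_union_right
    have f1 : fpE G R E (x 1) = 0 := by
      refine fpE_two hG (h.cov (InC.x (x := x) (y := y) le_rfl (by omega))) a1 p1 (fun e => hne ?_)
        (hKE a2) (hKE' p1')
      obtain ⟨i, i1, i2, i3⟩ := p1'
      exact cSupp_eq hC hcat (mem_cSupp i1 i2) (by rw [i3, ← e]; exact a2)
    obtain ⟨-, f2, f3, f4, f5, f6, f7, f8⟩ := cnt E hKE
    have hcl : CleanE G R 4 x y E := by
      intro m'' z'' c'' hC'' hz hin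
      obtain ⟨u1, u2⟩ := hun m'' z'' c'' hC'' (hnek E hKE _ _ _ hC'' hz)
      refine ⟨u1, fun hm'' hN => ?_⟩
      obtain ⟨rfl, u4⟩ := u2 hm'' hN
      have : ∃ j ≤ 2 + 1, c'' j = x 1 := by
        rcases u4 with ⟨o2, o2', q2, q2', g1, g2, g3, g4, -⟩ | ⟨o2, o2', q2, q2', g1, g2, g3, g4, -⟩
        · exact ⟨o2, (g1.le (by omega)).1, g4⟩
        · exact ⟨o2, (g1.le (by omega)).1, g4⟩
      obtain ⟨j, hj, ej⟩ := this
      obtain ⟨g5, g6⟩ := port_mem hC'' hj ej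
      have g7 : z'' (cl 2 j) ∉ E := hz _ (cl_mem hC''.pos hj).1 (cl_mem hC''.pos hj).2
      exact g7 (fpE_zero f1 g5)
    obtain ⟨F4, F3, F2, F1, c4, c3, c2, c1, hK⟩ := win4 hG hc hcat h4 hl hf E (fun v a b hT hv => by
      rcases hv with hv | hv
      · exact hE1 hcat v a b hT hv
      · exact hE1 hC v a b hT hv) hcl
    have hF1 : ∀ p s, F1 p s = ∅ := by
      intro p s
      have := c1 p s p s
      rw [Finset.union_self, f1, f2] at this
      exact Finset.card_eq_zero.1 (by omega)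
    have hEc : ∀ p s w t, CExt 2 (fun j => lv x y f p s w t (c' j)) →
        ∀ m'' z'' c'', Cat G R m'' z'' c'' → cSupp m'' z'' ≠ cSupp m z →
          (∃ i, 1 ≤ i ∧ i ≤ m'' ∧ z'' i ∈ E) → CExt m'' (fun j => lv x y f p s w t (c'' j)) := by
      intro p s w t hx m'' z'' c'' hC'' hne'' ⟨i, i1, i2, i3⟩
      rcases i3 with i3 | i3
      · exact absurd (cSupp_eq hC'' hcat (mem_cSupp i1 i2) i3) hne''
      · exact cext_supp hC hC'' (cSupp_eq hC'' hC (mem_cSupp i1 i2) i3) hx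
    rcases hvd with ⟨rfl, rfl⟩ | ⟨rfl, rfl⟩
    · -- `x 2`
      have f3' : fpE G R E (x 2) = 0 := fpE_own_lk hG p2 (hKE' p2') (h.lk 1 le_rfl (by omega)).symm
      refine ⟨F4, F3, fun p => F2 p ∪ {β}, α, fun p s w => add κ w, by omega, by omega,
        fun p p' => ?_, fun p s w t q1 q2 q3 q4 q5 q6 q7 q8 q9 => ?_⟩
      · have g1 : (F2 p ∪ {β}) ∪ (F2 p' ∪ {β}) ⊆ (F2 p ∪ F2 p') ∪ {β} := by
          intro u hu
          simp only [mem_union, mem_singleton] at hu ⊢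
          tauto
        have g2 := Finset.card_le_card g1
        have g3 := Finset.card_union_le (F2 p ∪ F2 p') {β}
        rw [Finset.card_singleton] at g3
        have g4 := c2 p p'
        show ((F2 p ∪ {β}) ∪ (F2 p' ∪ {β})).card ≤ 4
        omega
      · have g0 : w ∉ F2 p ∧ w ≠ β := by
          have : w ∉ F2 p ∪ {β} := q3
          rw [mem_union, mem_singleton, not_or] at this
          exact this
        refine hK p s w t q1 q2 g0.1 (by rw [hF1]; exact Finset.notMem_empty _) q6 q7 q8 (hw p q9)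
          (hEc p s w t (hαβ p s w t q4 g0.2 q5))
    · -- `y 4`
      have f8' : fpE G R E (y 4) = 0 := fpE_own_lk hG p2 (hKE' p2') (h.lk 4 (by omega) (by omega))
      refine ⟨F4 ∪ {β}, F3, F2, α, fun p s w => add κ p, ?_, by omega,
        fun p p' => (c2 p p').trans (by omega), fun p s w t q1 q2 q3 q4 q5 q6 q7 q8 q9 => ?_⟩
      · have g3 := Finset.card_union_le F4 {β}
        rw [Finset.card_singleton] at g3
        omega
      · rw [mem_union, mem_singleton, not_or] at q1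
        refine hK p s w t q1.1 q2 q3 (by rw [hF1]; exact Finset.notMem_empty _) q6 q7 q8 (hw p q9)
          (hEc p s w t (hαβ p s w t q4 q1.2 q5))
  · -- no couple
    have hcl : CleanE G R 4 x y (cSupp m z) := by
      intro m'' z'' c'' hC'' hz hin
      have hne'' := hnek _ subset_rfl _ _ _ hC'' hz
      obtain ⟨u1, u2⟩ := hun m'' z'' c'' hC'' hne''
      refine ⟨u1, fun hm'' hN => ?_⟩
      obtain ⟨rfl, u4⟩ := u2 hm'' hN
      exact hex ⟨z'', c'', hC'', hne'', u4⟩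
    obtain ⟨f1, f2, f3, f4, f5, f6, f7, f8⟩ := cnt _ subset_rfl
    obtain ⟨F4, F3, F2, F1, c4, c3, c2, c1, hK⟩ := win4 hG hc hcat h4 hl hf (cSupp m z) (hE1 hcat) hcl
    obtain ⟨q, hq⟩ := two_lab (fun i : Q × Q => F1 i.1 i.2) (fun i i' => (c1 _ _ _ _).trans (by omega))
    choose l hl' using hq
    refine ⟨F4, F3, F2, q, fun p s _ => l (p, s), by omega, by omega,
      fun p p' => (c2 p p').trans (by omega), fun p s w t q1 q2 q3 q4 q5 q6 q7 q8 q9 => ?_⟩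
    refine hK p s w t q1 q2 q3 (fun ht => ?_) q6 q7 q8 (hw p q9)
      (fun m'' z'' c'' hC'' hne'' ⟨i, i1, i2, i3⟩ =>
        absurd (cSupp_eq hC'' hcat (mem_cSupp i1 i2) i3) hne'')
    have := hl' (p, s) ht
    rw [mem_insert, mem_singleton] at this
    rcases this with e | e
    · exact q4 e
    · exact q5 e

end

/-! ### The games -/

lemma ball_le2 : ∀ q h : Q, q ≠ h → (ball q ∩ ball h).card ≤ 2 := by decide

lemma ball_three {w a b c : Q} : ∃ t, nr w t = true ∧ t ≠ a ∧ t ≠ b ∧ t ≠ c := by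
  have h1 := card_sdiff_ge (ball w) {a, b, c}
  have h2 := ball_card w
  have h3 : ({a, b, c} : Finset Q).card ≤ 3 := Finset.card_le_three
  obtain ⟨t, ht⟩ := Finset.card_pos.1 (show 0 < (ball w \ {a, b, c}).card by omega)
  rw [mem_sdiff, mem_ball] at ht
  simp only [mem_insert, mem_singleton, not_or] at ht
  exact ⟨t, ht.1, ht.2⟩

lemma pick_t {w q h l s : Q} (hw : q = h ∨ nr w q = false ∨ nr w h = false) :
    ∃ t, nr w t = true ∧ t ≠ q ∧ t ≠ h ∧ t ≠ l ∧ t ≠ s := by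
  rcases hw with rfl | hw | hw
  · obtain ⟨t, h1, h2, h3, h4⟩ := ball_three (w := w) (a := q) (b := l) (c := s)
    exact ⟨t, h1, h2, h2, h3, h4⟩
  · obtain ⟨t, h1, h2, h3, h4⟩ := ball_three (w := w) (a := h) (b := l) (c := s)
    refine ⟨t, h1, fun e => ?_, h2, h3, h4⟩
    rw [e, hw] at h1; exact Bool.false_ne_true h1
  · obtain ⟨t, h1, h2, h3, h4⟩ := ball_three (w := w) (a := q) (b := l) (c := s)
    refine ⟨t, h1, h2, fun e => ?_, h3, h4⟩
    rw [e, hw] at h1; exact Bool.false_ne_true h1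

section
variable {F4 F3 : Finset Q} {F2 : Q → Finset Q} {q : Q} {l : Q → Q → Q → Q}

lemma game_w1 (h4 : F4.card ≤ 2) (h3 : F3.card ≤ 2) (h2 : ∀ p p', (F2 p ∪ F2 p').card ≤ 4)
    (u h : Q) :
    ∃ p s w t, p ∉ F4 ∧ s ∉ F3 ∧ w ∉ F2 p ∧ t ≠ q ∧ t ≠ l p s w ∧ nr p s = true ∧ nr s w = true ∧
      nr w t = true ∧ nr (neg p) u = true ∧ t ≠ h ∧ t ≠ s ∧ s ≠ neg h := by
  obtain ⟨p, p', hne, hp, hp', hu, hu'⟩ := pick_two h4 u
  set S := (ball p ∪ ball p') \ (F3 ∪ {neg h}) with hS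
  have c1 : 3 ≤ S.card := by
    have a1 := card_sdiff_ge (ball p ∪ ball p') (F3 ∪ {neg h})
    rw [← hS] at a1
    have a2 := ball_union_card p p' hne
    have a3 := Finset.card_union_le F3 {neg h}
    rw [Finset.card_singleton] at a3
    omega
  have c2 := nb_card3 c1
  set T := nb S \ (F2 p ∪ F2 p') with hT
  have c3 : 3 ≤ T.card := by
    have a1 := card_sdiff_ge (nb S) (F2 p ∪ F2 p')
    rw [← hT] at a1
    have a2 := h2 p p'
    omega
  obtain ⟨w, hw, hwq⟩ : ∃ w ∈ T, q = h ∨ nr w q = false ∨ nr w h = false := by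
    by_cases hqh : q = h
    · obtain ⟨w, hw⟩ := Finset.card_pos.1 (show 0 < T.card by omega)
      exact ⟨w, hw, Or.inl hqh⟩
    · have a1 := card_sdiff_ge T (ball q ∩ ball h)
      have a2 := ball_le2 q h hqh
      obtain ⟨w, hw⟩ := Finset.card_pos.1 (show 0 < (T \ (ball q ∩ ball h)).card by omega)
      rw [mem_sdiff, mem_inter, mem_ball, mem_ball] at hw
      refine ⟨w, hw.1, Or.inr ?_⟩
      by_contra hcon
      rw [not_or, Bool.not_eq_false, Bool.not_eq_false] at hcon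
      exact hw.2 ⟨nr_symm hcon.1, nr_symm hcon.2⟩
  rw [hT, mem_sdiff, mem_union, not_or, mem_nb] at hw
  obtain ⟨⟨s, hs, hsw⟩, hw1, hw2⟩ := hw
  rw [hS, mem_sdiff, mem_union, mem_union, mem_singleton, not_or, mem_ball, mem_ball] at hs
  obtain ⟨hs1, hs2, hs3⟩ := hs
  rcases hs1 with hs1 | hs1
  · obtain ⟨t, t1, t2, t3, t4, t5⟩ := pick_t (w := w) (q := q) (h := h) (l := l p s w) (s := s) hwq
    exact ⟨p, s, w, t, hp, hs2, hw1, t2, t4, hs1, hsw, t1, hu, t3, t5, hs3⟩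
  · obtain ⟨t, t1, t2, t3, t4, t5⟩ := pick_t (w := w) (q := q) (h := h) (l := l p' s w) (s := s) hwq
    exact ⟨p', s, w, t, hp', hs2, hw2, t2, t4, hs1, hsw, t1, hu', t3, t5, hs3⟩

lemma w5_card : ∀ p p' b : Q, p ≠ p' →
    4 ≤ (univ.filter (fun s : Q => (nr p s = true ∧ add p s ≠ b) ∨
      (nr p' s = true ∧ add p' s ≠ b))).card := by decide +kernel

lemma game_w5 (h4 : F4.card ≤ 2) (h3 : F3.card ≤ 2) (h2 : ∀ p p', (F2 p ∪ F2 p').card ≤ 4)
    (u h b : Q) :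
    ∃ p s w t, p ∉ F4 ∧ s ∉ F3 ∧ w ∉ F2 p ∧ t ≠ q ∧ t ≠ l p s w ∧ nr p s = true ∧ nr s w = true ∧
      nr w t = true ∧ nr (neg p) u = true ∧ t ≠ h ∧ t ≠ neg h ∧ add p s ≠ b := by
  obtain ⟨p, p', hne, hp, hp', hu, hu'⟩ := pick_two h4 u
  set S := (univ.filter (fun s : Q => (nr p s = true ∧ add p s ≠ b) ∨
      (nr p' s = true ∧ add p' s ≠ b))) \ F3 with hS
  have c1 : 2 ≤ S.card := by
    have a1 := card_sdiff_ge (univ.filter (fun s : Q => (nr p s = true ∧ add p s ≠ b) ∨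
      (nr p' s = true ∧ add p' s ≠ b))) F3
    rw [← hS] at a1
    have a2 := w5_card p p' b hne
    omega
  have c2 := nb_card2 c1
  obtain ⟨w, hw⟩ := Finset.card_pos.1 (show 0 < (nb S \ (F2 p ∪ F2 p')).card by
    have a1 := card_sdiff_ge (nb S) (F2 p ∪ F2 p')
    have a2 := h2 p p'
    omega)
  have hwq : h = neg h ∨ nr w h = false ∨ nr w (neg h) = false := by
    right
    rw [nr_neg']
    cases nr w h <;> simp
  rw [mem_sdiff, mem_union, not_or, mem_nb] at hw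
  obtain ⟨⟨s, hs, hsw⟩, hw1, hw2⟩ := hw
  rw [hS, mem_sdiff, mem_filter] at hs
  obtain ⟨⟨-, hs1⟩, hs2⟩ := hs
  rcases hs1 with ⟨hs1, hs3⟩ | ⟨hs1, hs3⟩
  · obtain ⟨t, t1, t2, t3, t4, t5⟩ := pick_t (w := w) (q := h) (h := neg h) (l := q) (s := l p s w) hwq
    exact ⟨p, s, w, t, hp, hs2, hw1, t4, t5, hs1, hsw, t1, hu, t2, t3, hs3⟩
  · obtain ⟨t, t1, t2, t3, t4, t5⟩ := pick_t (w := w) (q := h) (h := neg h) (l := q) (s := l p' s w) hwq
    exact ⟨p', s, w, t, hp', hs2, hw2, t4, t5, hs1, hsw, t1, hu', t2, t3, hs3⟩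

end

lemma outU_inC {V : Type*} {x y : ℕ → V} {n : ℕ} {v : V} (h : OutU x y n v) : ¬ InC n x y v := by
  rintro ⟨i, i1, i2, i3 | i3⟩
  · exact (h i i1 i2).1 i3
  · exact (h i i1 i2).2 i3

/-- A labelling outside the first `r` units. -/
lemma start5 {V : Type*} [Fintype V] {G : SimpleGraph V} {R : V → Bool} {k r : ℕ} {x y z c : ℕ → V}
    {v : ℕ} (hG : ClassC G R) (hc : Crit G R) (h : Chn G R k x y) (hK : K5 G R k x y z c v)
    {j0 : ℕ} (hj0 : j0 ≤ 6) (hin : InC r x y (c j0)) :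
    ∃ f D, OffC G R r x y f ∧ Tight D (fun j => f (c j)) 5 ∧ f (y v) = neg (f (x v)) := by
  obtain ⟨f0, D, hKt⟩ := exists_ktight hG hc hK.cat (by omega)
  obtain ⟨f, hf, hff⟩ := exists_offw (r := r) (X := x) (Y := y) hK.cat (by omega) hKt hj0 hin
  refine ⟨f, D, hf, ?_, ?_⟩
  · obtain ⟨t1, t2, t3⟩ := hKt.tight
    have e : ∀ j ≤ 5 + 1, f (c j) = f0 (c j) := fun j hj => hff _ (hK.cat.cov j hj)
    refine ⟨?_, fun i i1 i2 => ?_, ?_⟩
    · show frk D (f (c 0)) (f (c 1)) = true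
      rw [e 0 (by omega), e 1 (by omega)]; exact t1
    · show stp (altT D i) (neg (f (c i))) (f (c (i + 1))) = true
      rw [e i (by omega), e (i + 1) (by omega)]; exact t2 i i1 i2
    · show frk (altT D (5 + 1)) (f (c 5)) (f (c (5 + 1))) = true
      rw [e 5 (by omega), e (5 + 1) le_rfl]; exact t3
  · rw [hff _ (h.cov (InC.y hK.v1 hK.vk)), hff _ (h.cov (InC.x hK.v1 hK.vk))]
    have hme := h.me v hK.v1 hK.vk
    exact (hKt.ok _ _ hme.1 (fun h' => by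
      obtain ⟨l, l1, l2, l3⟩ := h'.1
      exact hK.cat.unc l l1 l2 (by rw [l3]; exact hme.cov))).1 hme.2

/-- The failures of a path with five vertices and a full unit with leaves in both forks. -/
lemma fail5 {s : ℕ → Q} (hn : ¬ CExt 5 s) (h6 : s 5 = neg (s 1)) :
    s 0 = s 5 ∨ s 5 = neg (s 6) ∨ (s 0 = s 6 ∧ s 0 = add (add (s 2) (s 3)) (s 4)) := by
  rw [cext_iff (by omega)] at hn
  by_cases h0 : s 0 = neg (s 1)
  · left; rw [h0, h6]
  · by_cases h1 : s 5 = neg (s 6)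
    · right; left; exact h1
    · right; right
      have : ∃ D, Tight D s 5 := by
        by_contra hcon
        push Not at hcon
        exact hn ⟨h0, h1, hcon⟩
      obtain ⟨D, hD⟩ := this
      exact ll5' (e := 1) (e' := 5) (Or.inr rfl) (Or.inl rfl) hD h6

/-- **The window W1.** -/
theorem w1 : W1Stmt := by
  intro V _ H R k x y z c hB hK hk e6 e4 o0 o2 o3
  obtain ⟨hG, hc, h, hl, hl'⟩ := hB
  have h4 := chn4 h (by omega)
  obtain ⟨f, D, hf, -, -⟩ := start5 (r := 4) hG hc h hK (j0 := 1) (by omega)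
    ⟨1, le_rfl, by omega, Or.inl hK.c1⟩
  obtain ⟨F4, F3, F2, q, l, c4, c3, c2, hd⟩ := w_data hG hc h hk ⟨hl, hl'⟩ hK.cat
    ⟨1, by omega, hK.c1⟩ ⟨5, by omega, hK.c5⟩ ⟨6, by omega, e6⟩ ⟨4, by omega, e4⟩ hf
  obtain ⟨p, s, w, t, g1, g2, g3, g4, g5, g6, g7, g8, g9, n1, n2, n3⟩ :=
    game_w1 (q := q) (l := l) c4 c3 c2 (f (x 5)) (f (c 0))
  have hn := hd p s w t g1 g2 g3 g4 g5 g6 g7 g8 g9
  have l1 : lv x y f p s w t (c 1) = neg t := by rw [hK.c1]; exact lv_x1 h4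
  have l5 : lv x y f p s w t (c 5) = t := by rw [hK.c5]; exact lv_y1 h4
  have l6 : lv x y f p s w t (c 6) = neg s := by rw [e6]; exact lv_x3 h4
  have l0 : lv x y f p s w t (c 0) = f (c 0) := lv_out (outU_inC o0)
  rcases fail5 hn (by show lv x y f p s w t (c 5) = neg (lv x y f p s w t (c 1))
                      rw [l1, l5, H3DA.neg_neg]) with h0 | h0 | ⟨h0, -⟩
  · have h0' : lv x y f p s w t (c 0) = lv x y f p s w t (c 5) := h0
    rw [l0, l5] at h0'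
    exact n1 h0'.symm
  · have h0' : lv x y f p s w t (c 5) = neg (lv x y f p s w t (c 6)) := h0
    rw [l5, l6, H3DA.neg_neg] at h0'
    exact n2 h0'
  · have h0' : lv x y f p s w t (c 0) = lv x y f p s w t (c 6) := h0
    rw [l0, l6] at h0'
    exact n3 (by rw [h0', H3DA.neg_neg])

lemma w5_key : ∀ p s v h : Q, h = add (add p (neg s)) v → add p s = add (add h v) (true, true, true) := by
  decide +kernel

/-- **The window W5.** -/
theorem w5 : W5Stmt := by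
  intro V _ H R k x y z c hB hK hk e2 e3 o0 o4 o6
  obtain ⟨hG, hc, h, hl, hl'⟩ := hB
  have h4 := chn4 h (by omega)
  obtain ⟨f, D, hf, hT, hy⟩ := start5 (r := 4) hG hc h hK (j0 := 1) (by omega)
    ⟨1, le_rfl, by omega, Or.inl hK.c1⟩
  have hT0 : f (c 0) = f (c 6) := (ll5' (e := 1) (e' := 5) (Or.inr rfl) (Or.inl rfl) hT (by
    show f (c 5) = neg (f (c 1))
    rw [hK.c5, hK.c1]; exact hy)).1
  obtain ⟨F4, F3, F2, q, l, c4, c3, c2, hd⟩ := w_data hG hc h hk ⟨hl, hl'⟩ hK.cat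
    ⟨1, by omega, hK.c1⟩ ⟨5, by omega, hK.c5⟩ ⟨3, by omega, e3⟩ ⟨2, by omega, e2⟩ hf
  obtain ⟨p, s, w, t, g1, g2, g3, g4, g5, g6, g7, g8, g9, n1, n2, n3⟩ :=
    game_w5 (q := q) (l := l) c4 c3 c2 (f (x 5)) (f (c 0))
      (add (add (f (c 0)) (f (c 4))) (true, true, true))
  have hn := hd p s w t g1 g2 g3 g4 g5 g6 g7 g8 g9
  have l1 : lv x y f p s w t (c 1) = neg t := by rw [hK.c1]; exact lv_x1 h4
  have l5 : lv x y f p s w t (c 5) = t := by rw [hK.c5]; exact lv_y1 h4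
  have l2 : lv x y f p s w t (c 2) = p := by rw [e2]; exact lv_x4 h4
  have l3 : lv x y f p s w t (c 3) = neg s := by rw [e3]; exact lv_x3 h4
  have l0 : lv x y f p s w t (c 0) = f (c 0) := lv_out (outU_inC o0)
  have l4 : lv x y f p s w t (c 4) = f (c 4) := lv_out (outU_inC o4)
  have l6 : lv x y f p s w t (c 6) = f (c 0) := by rw [hT0]; exact lv_out (outU_inC o6)
  rcases fail5 hn (by show lv x y f p s w t (c 5) = neg (lv x y f p s w t (c 1))
                      rw [l1, l5, H3DA.neg_neg]) with h0 | h0 | ⟨-, h0⟩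
  · have h0' : lv x y f p s w t (c 0) = lv x y f p s w t (c 5) := h0
    rw [l0, l5] at h0'
    exact n1 h0'.symm
  · have h0' : lv x y f p s w t (c 5) = neg (lv x y f p s w t (c 6)) := h0
    rw [l5, l6] at h0'
    exact n2 h0'
  · have h0' : lv x y f p s w t (c 0) = add (add (lv x y f p s w t (c 2)) (lv x y f p s w t (c 3)))
        (lv x y f p s w t (c 4)) := h0
    rw [l0, l2, l3, l4] at h0'
    exact n3 (w5_key _ _ _ _ h0')

end CLB.H80
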