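import Pool.Agent.Helper80_DA.CleanEnd
import Pool.Agent.Helper91_DA.M5Defs
import Pool.Agent.Helper3_DA.Fork

/-!
MP_da6743_co: relabelling of the first four units of a chain, in the order 4, 3, 2, 1; the foreign
components when a component sees `x 1, y 1, x 3, x 4`.
-/

set_option autoImplicit false
set_option linter.unusedSectionVars false

namespace CLB.H80

open Finset Classical CLB.H95
open H3DA (Q neg nr)
open CLB.H3 (CExt Cat IsTwo Fits UPath he_of_unc cat_structure chn_side pos NoFull noFull_shape noFull_inj
  noFull_small)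
open CLB.H91 (LM no_fork_xx ncp_forks ends_rev)

variable {V : Type*} {G : SimpleGraph V} {R : V → Bool} [Fintype V] {k r : ℕ} {x y : ℕ → V}
  {m m' : ℕ} {z c z' c' : ℕ → V} {f : V → Q}

/-- The four labels. -/
def mv (p s w t : Q) : ℕ → Q := fun i => if i = 1 then p else if i = 2 then s else if i = 3 then w else t

/-- The labels `p, s, w, t` on the units 4, 3, 2, 1. -/
noncomputable def lv (x y : ℕ → V) (f : V → Q) (p s w t : Q) : V → Q :=
  lbl 4 (fun i => y (4 + 1 - i)) (fun i => x (4 + 1 - i)) (mv p s w t) f

section
variable {p s w t : Q}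

lemma lv_y1 (h : Chn G R 4 x y) : lv x y f p s w t (y 1) = t :=
  lbl_x (Chn.rev h) (mu := mv p s w t) (f := f) (i := 4) (by omega) le_rfl

lemma lv_x1 (h : Chn G R 4 x y) : lv x y f p s w t (x 1) = neg t :=
  lbl_y (Chn.rev h) (mu := mv p s w t) (f := f) (i := 4) (by omega) le_rfl

lemma lv_y2 (h : Chn G R 4 x y) : lv x y f p s w t (y 2) = neg w :=
  lbl_x (Chn.rev h) (mu := mv p s w t) (f := f) (i := 3) (by omega) (by omega)

lemma lv_x2 (h : Chn G R 4 x y) : lv x y f p s w t (x 2) = w := by
  have := lbl_y (Chn.rev h) (mu := mv p s w t) (f := f) (i := 3) (by omega) (by omega)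
  have e1 : neg (sg 3 (mv p s w t 3)) = w := by
    show neg (neg w) = w
    exact H3DA.neg_neg w
  rw [e1] at this
  exact this

lemma lv_y3 (h : Chn G R 4 x y) : lv x y f p s w t (y 3) = s :=
  lbl_x (Chn.rev h) (mu := mv p s w t) (f := f) (i := 2) (by omega) (by omega)

lemma lv_x3 (h : Chn G R 4 x y) : lv x y f p s w t (x 3) = neg s :=
  lbl_y (Chn.rev h) (mu := mv p s w t) (f := f) (i := 2) (by omega) (by omega)

lemma lv_y4 (h : Chn G R 4 x y) : lv x y f p s w t (y 4) = neg p :=
  lbl_x (Chn.rev h) (mu := mv p s w t) (f := f) (i := 1) (by omega) (by omega)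

lemma lv_x4 (h : Chn G R 4 x y) : lv x y f p s w t (x 4) = p := by
  have := lbl_y (Chn.rev h) (mu := mv p s w t) (f := f) (i := 1) (by omega) (by omega)
  have e1 : neg (sg 1 (mv p s w t 1)) = p := by
    show neg (neg p) = p
    exact H3DA.neg_neg p
  rw [e1] at this
  exact this

lemma lv_out {v : V} (hv : ¬ InC 4 x y v) : lv x y f p s w t v = f v :=
  lbl_out (fun h' => hv (inC_rev.1 h'))

end

/-- **Relabelling four units.** -/
theorem win4 (hG : ClassC G R) (hc : Crit G R) (hcat : Cat G R m z c) (h : Chn G R 4 x y)
    (hl : ∀ v, ¬ Lk G R (x 1) v) (hf : OffC G R 4 x y f) (E : Set V)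
    (hE1 : ∀ v a b, IsTwo G R v a b → v ∉ E) (hcl : CleanE G R 4 x y E) :
    ∃ (F4 F3 : Finset Q) (F2 : Q → Finset Q) (F1 : Q → Q → Finset Q),
      F4.card ≤ 2 * (fpE G R E (x 4) + fpE G R E (y 4)) ∧
      F3.card ≤ 2 * (fpE G R E (x 3) + fpE G R E (y 3)) ∧
      (∀ p p', (F2 p ∪ F2 p').card ≤ 2 * (fpE G R E (x 2) + fpE G R E (y 2))) ∧
      (∀ p s p' s', (F1 p s ∪ F1 p' s').card ≤ 2 * (fpE G R E (x 1) + fpE G R E (y 1))) ∧
      ∀ p s w t, p ∉ F4 → s ∉ F3 → w ∉ F2 p → t ∉ F1 p s → nr p s = true → nr s w = true →
        nr w t = true → (∀ v, Lk G R (y 4) v → nr (neg p) (f v) = true) →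
        (∀ m' z' c', Cat G R m' z' c' → cSupp m' z' ≠ cSupp m z → (∃ i, 1 ≤ i ∧ i ≤ m' ∧ z' i ∈ E) →
          CExt m' (fun j => lv x y f p s w t (c' j))) →
        ¬ CExt m (fun j => lv x y f p s w t (c j)) := by
  have hr := Chn.rev h
  have hcl' : CleanE G R 4 (fun i => y (4 + 1 - i)) (fun i => x (4 + 1 - i)) E := by
    intro m' z' c' hC hz hex
    obtain ⟨j, hj, hin⟩ := hex
    obtain ⟨a1, a2⟩ := hcl m' z' c' hC hz ⟨j, hj, inC_rev.1 hin⟩
    refine ⟨fun hm i j hi hj h1 h2 => a1 hm i j hi hj (inC_rev.1 h1) (inC_rev.1 h2), fun hm hN => ?_⟩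
    have e : (fun j => InC 4 (fun i => y (4 + 1 - i)) (fun i => x (4 + 1 - i)) (c' j)) =
        (fun j => InC 4 x y (c' j)) := by
      funext j; exact propext inC_rev
    rw [e] at hN
    exact a2 hm hN
  have hf' : OffC G R 4 (fun i => y (4 + 1 - i)) (fun i => x (4 + 1 - i)) f :=
    fun u v huv hu hv => hf u v huv (fun h' => hu (inC_rev.2 h')) (fun h' => hv (inC_rev.2 h'))
  obtain ⟨F, hd, hF, hK⟩ := forbE hG hc hcat hr (fun h' => hl _ h') hf' E hE1 hcl'
  have o : Q := (false, false, false)
  refine ⟨F 1 (mv o o o o), F 2 (mv o o o o), fun p => F 3 (mv p o o o), fun p s => F 4 (mv p s o o),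
    ?_, ?_, ?_, ?_, ?_⟩
  · have := hF 1 (mv o o o o) (mv o o o o)
    rw [Finset.union_self] at this
    refine this.trans ?_
    show 2 * (fpE G R E (y 4) + fpE G R E (x 4)) ≤ _
    omega
  · have := hF 2 (mv o o o o) (mv o o o o)
    rw [Finset.union_self] at this
    refine this.trans ?_
    show 2 * (fpE G R E (y 3) + fpE G R E (x 3)) ≤ _
    omega
  · intro e e'
    refine (hF 3 _ _).trans ?_
    show 2 * (fpE G R E (y 2) + fpE G R E (x 2)) ≤ _
    omega
  · intro p s p' s'
    refine (hF 4 _ _).trans ?_
    show 2 * (fpE G R E (y 1) + fpE G R E (x 1)) ≤ _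
    omega
  · intro p s w t hp hs hw ht h1 h2 h3 hwl hKs
    refine hK (mv p s w t) ?_ ?_ ?_ ?_
    · intro i i1 i2
      have : i = 1 ∨ i = 2 ∨ i = 3 := by omega
      rcases this with rfl | rfl | rfl
      · exact h1
      · exact h2
      · exact h3
    · intro i i1 i2
      have : i = 1 ∨ i = 2 ∨ i = 3 ∨ i = 4 := by omega
      rcases this with rfl | rfl | rfl | rfl
      · rw [hd 1 le_rfl (by omega) (mv p s w t) (mv o o o o) (fun j j1 j2 => by omega)]
        exact hp
      · rw [hd 2 (by omega) (by omega) (mv p s w t) (mv o o o o) (fun j j1 j2 => by omega)]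
        exact hs
      · rw [hd 3 (by omega) (by omega) (mv p s w t) (mv p o o o) (fun j j1 j2 => by
            have : j = 1 := by omega
            subst this; rfl)]
        exact hw
      · rw [hd 4 (by omega) (by omega) (mv p s w t) (mv p s o o) (fun j j1 j2 => by
            have : j = 1 ∨ j = 2 := by omega
            rcases this with rfl | rfl <;> rfl)]
        exact ht
    · intro i i1 i2
      unfold wall
      rw [mem_inter, mem_filter, mem_filter]
      refine ⟨⟨mem_univ _, fun hi v hv => ?_⟩, ⟨mem_univ _, fun hi v hv => ?_⟩⟩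
      · subst hi
        exact hwl v hv
      · exact absurd hv (hl v)
    · intro m' z' c' hC' hne hex hz
      exact hKs m' z' c' hC' hne hz

/-- The number of seen vertices. -/
lemma sp_card (h : Chn G R k x y) {a b : ℕ} (hS : Sp k x y m' c' a b) : a + b ≤ m' + 2 := by
  have hab := hS.ab
  have ex1 : ∀ i, 1 ≤ i → i ≤ a → ∃ j ≤ m' + 1, c' j = x i := fun i i1 i2 => hS.px i i1 i2
  have ex2 : ∀ i, i ≤ k → k + 1 ≤ i + b → ∃ j ≤ m' + 1, c' j = y i := fun i i1 i2 => hS.py i i1 i2
  let g : ℕ → ℕ := fun i => if hi : 1 ≤ i ∧ i ≤ a then (ex1 i hi.1 hi.2).choose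
    else if hi : i ≤ k ∧ k + 1 ≤ i + b then (ex2 i hi.1 hi.2).choose else 0
  have gx : ∀ i, 1 ≤ i → i ≤ a → g i ≤ m' + 1 ∧ c' (g i) = x i := by
    intro i i1 i2
    simp only [g, dif_pos (show 1 ≤ i ∧ i ≤ a from ⟨i1, i2⟩)]
    exact (ex1 i i1 i2).choose_spec
  have gy : ∀ i, a < i → i ≤ k → k + 1 ≤ i + b → g i ≤ m' + 1 ∧ c' (g i) = y i := by
    intro i i0 i1 i2
    simp only [g, dif_neg (show ¬ (1 ≤ i ∧ i ≤ a) by omega),
      dif_pos (show i ≤ k ∧ k + 1 ≤ i + b from ⟨i1, i2⟩)]
    exact (ex2 i i1 i2).choose_spec
  have hcd : ((Icc 1 a) ∪ (Icc (k + 1 - b) k)).card ≤ (range (m' + 2)).card := by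
    refine Finset.card_le_card_of_injOn g ?_ ?_
    · intro i hi
      rw [mem_coe, mem_union, mem_Icc, mem_Icc] at hi
      rw [mem_coe, mem_range]
      rcases hi with hi | hi
      · have := (gx i hi.1 hi.2).1; omega
      · have := (gy i (by omega) hi.2 (by omega)).1; omega
    · intro i hi j hj hij
      rw [mem_coe, mem_union, mem_Icc, mem_Icc] at hi hj
      rcases hi with hi | hi <;> rcases hj with hj | hj
      · have e1 := (gx i hi.1 hi.2).2
        have e2 := (gx j hj.1 hj.2).2
        rw [hij] at e1
        exact h.injx i j hi.1 (by omega) hj.1 (by omega) (e1.symm.trans e2)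
      · have e1 := (gx i hi.1 hi.2).2
        have e2 := (gy j (by omega) hj.2 (by omega)).2
        rw [hij] at e1
        exact absurd (e1.symm.trans e2) (h.xy i j hi.1 (by omega) (by omega) hj.2)
      · have e1 := (gy i (by omega) hi.2 (by omega)).2
        have e2 := (gx j hj.1 hj.2).2
        rw [hij] at e1
        exact absurd (e2.symm.trans e1) (h.xy j i hj.1 (by omega) (by omega) hi.2)
      · have e1 := (gy i (by omega) hi.2 (by omega)).2
        have e2 := (gy j (by omega) hj.2 (by omega)).2
        rw [hij] at e1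
        exact h.injy i j (by omega) hi.2 (by omega) hj.2 (e1.symm.trans e2)
  rw [Finset.card_union_of_disjoint (by
    rw [Finset.disjoint_left]
    intro i hi hi'
    rw [mem_Icc] at hi hi'
    omega), Nat.card_Icc, Nat.card_Icc, card_range] at hcd
  have := hS.a1
  have := hS.b1
  omega

/-- The component sees `x 1` and `v` with different forks, nothing else in the first four units. -/
def TwoP (x y : ℕ → V) (c' : ℕ → V) (v : V) : Prop :=
  ∃ o o' q q', LM 2 o o' ∧ LM 2 q q' ∧ pos 2 o ≠ pos 2 q ∧ c' o = x 1 ∧ ¬ InC 4 x y (c' o') ∧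
    c' q = v ∧ ¬ InC 4 x y (c' q')

/-- **Foreign components in the first four units.** -/
theorem unclean4 (hG : ClassC G R) (hc : Crit G R) (h : Chn G R k x y) (hk : 6 ≤ k)
    (hends : (∀ w, ¬ Lk G R (x 1) w) ∧ ∀ w, ¬ Lk G R (y k) w) (hcat : Cat G R m z c)
    (s1 : ∃ j ≤ m + 1, c j = x 1) (s1' : ∃ j ≤ m + 1, c j = y 1) (s3 : ∃ j ≤ m + 1, c j = x 3)
    (s4 : ∃ j ≤ m + 1, c j = x 4) (hC : Cat G R m' z' c')
    (hne : cSupp m' z' ≠ cSupp m z) :
    (m' = 1 → ∀ i j, i ≤ 2 → j ≤ 2 → InC 4 x y (c' i) → InC 4 x y (c' j) → i = j) ∧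
    (2 ≤ m' → NCp m' (fun j => InC 4 x y (c' j)) → m' = 2 ∧
      (TwoP x y c' (x 2) ∨ TwoP x y c' (y 4))) := by
  have hk3 : 3 ≤ k := by omega
  have mono : ∀ v, InC 4 x y v → InC k x y v := by
    rintro v ⟨u, u1, u2, u3⟩
    exact ⟨u, u1, by omega, u3⟩
  refine ⟨fun hm i j hi hj hin hjn => ?_, fun hm hN => ?_⟩
  · subst hm
    rcases oneH hG h hk3 z' c' hC with hS | hS
    · have key : ∀ l ≤ 1 + 1, InC 4 x y (c' l) → c' l = x 1 := by
        intro l hl hlin
        rcases hS.all l hl (mono _ hlin) with ⟨u, u1, u2, u3⟩ | ⟨u, u1, u2, u3⟩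
        · have : u = 1 := by omega
          rw [this] at u3; exact u3
        · exfalso
          have hu : u = k := by omega
          subst hu
          obtain ⟨v, v1, v2, v3 | v3⟩ := hlin
          · exact h.xy v u v1 (by omega) (by omega) le_rfl (v3.symm.trans u3)
          · have := h.injy v u v1 (by omega) (by omega) le_rfl (v3.symm.trans u3)
            omega
      exact hS.inj i j hi hj (mono _ hin) ((key i hi hin).trans (key j hj hjn).symm)
    · exact hS i j hi hj (mono _ hin) (mono _ hjn)
  · -- the visible vertices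
    have vs : ∀ l ≤ m' + 1, c' l ≠ y 1 ∧ c' l ≠ x 3 ∧ c' l ≠ x 4 := by
      obtain ⟨j1, hj1, e1⟩ := s1'
      obtain ⟨j3, hj3, e3⟩ := s3
      obtain ⟨j4, hj4, e4⟩ := s4
      intro l hl
      refine ⟨fun e => hne ?_, fun e => hne ?_, fun e => hne ?_⟩
      · exact own_lk hG hcat hC (h.lk 1 le_rfl (by omega)) hj1 hl e1 e
      · exact own_lk hG hcat hC (h.lk 2 (by omega) (by omega)).symm hj3 hl e3 e
      · exact own_lk hG hcat hC (h.lk 3 (by omega) (by omega)).symm hj4 hl e4 e
    rcases Nat.lt_or_ge m' 5 with h5 | h5
    swap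
    · exfalso
      obtain ⟨j0, hj0⟩ := ncp_miss h5 hN
      have c1 : m' + 1 ≤ ((range (m' + 2)).erase j0).card := by
        by_cases hj : j0 ∈ range (m' + 2)
        · rw [Finset.card_erase_of_mem hj, card_range]; omega
        · rw [Finset.erase_eq_of_notMem hj, card_range]; omega
      have c2 : (range (m' + 2)).erase j0 ⊆ (range (m' + 2)).filter (fun j => InC 4 x y (c' j)) := by
        intro j hj
        rw [mem_erase, mem_range] at hj
        rw [mem_filter, mem_range]
        exact ⟨hj.2, hj0 j (by omega) hj.1⟩
      have c3 := Finset.card_le_card c2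
      have c4 := win_see (r := 4) (x := x) (y := y) c' (m' + 2)
      have c5 : ∑ i ∈ Icc 1 4, (((range (m' + 2)).filter (fun j => c' j = x i)).card +
          ((range (m' + 2)).filter (fun j => c' j = y i)).card) ≤
          ∑ i ∈ Icc 1 4, (fp G R m z (x i) + fp G R m z (y i)) :=
        Finset.sum_le_sum fun i _ => Nat.add_le_add
          (see_card hC (E := cSupp m z) (fun i h1 h2 => not_mem_supp hcat hC hne h1 h2) (x i))
          (see_card hC (E := cSupp m z) (fun i h1 h2 => not_mem_supp hcat hC hne h1 h2) (y i))
      have c6 := fp_sum_le (z := z) hG h (show 4 < k by omega) hcat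
      have c7 : 4 ≤ ((range (m + 2)).filter (fun j => InC 4 x y (c j))).card := by
        obtain ⟨j1, hj1, e1⟩ := s1
        obtain ⟨j1', hj1', e1'⟩ := s1'
        obtain ⟨j3, hj3, e3⟩ := s3
        obtain ⟨j4, hj4, e4⟩ := s4
        have n1 : j1 ≠ j1' := by
          rintro rfl; exact h.xy 1 1 le_rfl (by omega) le_rfl (by omega) (e1.symm.trans e1')
        have n2 : j1 ≠ j3 := by
          rintro rfl
          have := h.injx 1 3 le_rfl (by omega) (by omega) (by omega) (e1.symm.trans e3); omega
        have n3 : j1 ≠ j4 := by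
          rintro rfl
          have := h.injx 1 4 le_rfl (by omega) (by omega) (by omega) (e1.symm.trans e4); omega
        have n4 : j1' ≠ j3 := by
          rintro rfl; exact h.xy 3 1 (by omega) (by omega) le_rfl (by omega) (e3.symm.trans e1')
        have n5 : j1' ≠ j4 := by
          rintro rfl; exact h.xy 4 1 (by omega) (by omega) le_rfl (by omega) (e4.symm.trans e1')
        have n6 : j3 ≠ j4 := by
          rintro rfl
          have := h.injx 3 4 (by omega) (by omega) (by omega) (by omega) (e3.symm.trans e4); omega
        have hsub : ({j1, j1', j3, j4} : Finset ℕ) ⊆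
            (range (m + 2)).filter (fun j => InC 4 x y (c j)) := by
          intro j hj
          simp only [mem_insert, mem_singleton] at hj
          rw [mem_filter, mem_range]
          rcases hj with rfl | rfl | rfl | rfl
          · exact ⟨by omega, 1, by omega, by omega, Or.inl e1⟩
          · exact ⟨by omega, 1, by omega, by omega, Or.inr e1'⟩
          · exact ⟨by omega, 3, by omega, by omega, Or.inl e3⟩
          · exact ⟨by omega, 4, by omega, by omega, Or.inl e4⟩
        have := Finset.card_le_card hsub
        rw [Finset.card_insert_of_notMem (by simp [n1, n2, n3]), Finset.card_insert_of_notMem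
          (by simp [n4, n5]), Finset.card_insert_of_notMem (by simp [n6]), Finset.card_singleton] at this
        exact this
      omega
    · have hF := noFull_small hG hc hC (show m' ≤ 4 by omega)
      obtain ⟨hinj, -⟩ := noFull_inj hG h hC hF
      have su : ∀ {l l' u : ℕ}, l ≤ m' + 1 → l' ≤ m' + 1 → 1 ≤ u → u ≤ k →
          (c' l = x u ∨ c' l = y u) → (c' l' = x u ∨ c' l' = y u) → l = l' :=
        fun hl hl' u1 u2 e e' => same_unit h hF hinj hl hl' u1 u2 e e'
      have hNk : NCp m' (JC k x y c') := ncp_mono (fun j hj => mono _ hj) hN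
      have hm' : m' = 2 ∨ m' = 3 ∨ m' = 4 := by omega
      rcases hm' with rfl | rfl | rfl
      · -- two vertices
        refine ⟨rfl, ?_⟩
        have P : ∀ j ≤ 2 + 1, (j ≤ 1 ∧ pos 2 j = 1) ∨ (2 ≤ j ∧ pos 2 j = 2) := by
          intro j hj
          unfold pos
          split_ifs <;> omega
        obtain ⟨hl, hrr⟩ := ncp_forks hN
        obtain ⟨o, ho, hoJ⟩ : ∃ o ≤ 1, InC 4 x y (c' o) := by
          rcases hl with h1 | h1
          · exact ⟨0, by omega, h1⟩
          · exact ⟨1, le_rfl, h1⟩
        obtain ⟨q, hq, hq', hqJ⟩ : ∃ q, 2 ≤ q ∧ q ≤ 3 ∧ InC 4 x y (c' q) := by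
          rcases hrr with h1 | h1
          · exact ⟨2, by omega, by omega, h1⟩
          · exact ⟨3, by omega, by omega, h1⟩
        -- exactly two ports in the window: `x 1` and `v`
        have main : ∀ v, (∀ j ≤ 3, InC 4 x y (c' j) → c' j = x 1 ∨ c' j = v) → TwoP x y c' v := by
          intro v hv
          have hoq : (c' o = x 1 ∧ c' q = v) ∨ (c' q = x 1 ∧ c' o = v) := by
            rcases hv o (by omega) hoJ with h1 | h1 <;> rcases hv q (by omega) hqJ with h2 | h2
            · have := hinj o q (by omega) (by omega) (h1.trans h2.symm); omega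
            · exact Or.inl ⟨h1, h2⟩
            · exact Or.inr ⟨h2, h1⟩
            · have := hinj o q (by omega) (by omega) (h1.trans h2.symm); omega
          have fin : ∀ j1 j2, j1 ≤ 3 → j2 ≤ 3 → pos 2 j1 ≠ pos 2 j2 → c' j1 = x 1 → c' j2 = v →
              TwoP x y c' v := by
            intro j1 j2 hj1 hj2 hp e1 e2
            obtain ⟨o', ho'⟩ := LM.ex (q := j1) (by omega)
            obtain ⟨q', hq'⟩ := LM.ex (q := j2) (by omega)
            have l1 := ho'.le (by omega : 2 ≤ 2)
            have l2 := hq'.le (by omega : 2 ≤ 2)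
            have p1 : pos 2 j1 = pos 2 o' := ho'.pos_eq (by omega)
            have p2 : pos 2 j2 = pos 2 q' := hq'.pos_eq (by omega)
            refine ⟨j1, o', j2, q', ho', hq', hp, e1, fun hin => ?_, e2, fun hin => ?_⟩
            · rcases hv o' (by omega) hin with h1 | h1
              · exact l1.2.2 (hinj _ _ l1.1 l1.2.1 (e1.trans h1.symm))
              · have := hinj _ _ l1.2.1 l2.1 (h1.trans e2.symm)
                subst this; exact hp p1
            · rcases hv q' (by omega) hin with h1 | h1
              · have := hinj _ _ l2.2.1 l1.1 (h1.trans e1.symm)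
                subst this; exact hp p2.symm
              · exact l2.2.2 (hinj _ _ l2.1 l2.2.1 (e2.trans h1.symm))
          have p1 := P o (by omega)
          have p2 := P q (by omega)
          rcases hoq with ⟨h1, h2⟩ | ⟨h1, h2⟩
          · exact fin o q (by omega) (by omega) (by omega) h1 h2
          · exact fin q o (by omega) (by omega) (by omega) h1 h2
        rcases loc_le4 hG hc h hk3 hends hC hm (by omega) hNk with ⟨a, b, hS⟩ | ⟨-, hA⟩ | ⟨-, hA⟩
        · have ha1 := hS.a1
          have hb1 := hS.b1
          have hab := hS.ab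
          have hab4 := sp_card h hS
          have ha2 : a ≤ 2 := by
            by_contra hcon
            obtain ⟨j, hj, e⟩ := hS.px 3 (by omega) (by omega)
            exact (vs j hj).2.1 e
          by_cases hb : k + 1 ≤ 4 + b
          · -- `k = 6`, `b = 3`
            right
            have e1 : k = 6 := by omega
            have e2 : b = 3 := by omega
            have e3 : a = 1 := by omega
            refine main (y 4) (fun j hj hin => ?_)
            rcases hS.all j hj (mono _ hin) with ⟨u, u1, u2, u3⟩ | ⟨u, u1, u2, u3⟩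
            · have : u = 1 := by omega
              subst this
              exact Or.inl u3
            · right
              obtain ⟨v, v1, v2, v3 | v3⟩ := hin
              · exact absurd (v3.symm.trans u3) (h.xy v u v1 (by omega) (by omega) u1)
              · have := h.injy u v (by omega) u1 v1 (by omega) (u3.symm.trans v3)
                have : u = 4 := by omega
                subst this
                exact u3
          · left
            refine main (x 2) (fun j hj hin => ?_)
            rcases hS.all j hj (mono _ hin) with ⟨u, u1, u2, u3⟩ | ⟨u, u1, u2, u3⟩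
            · have : u = 1 ∨ u = 2 := by omega
              rcases this with rfl | rfl
              · exact Or.inl u3
              · exact Or.inr u3
            · exfalso
              obtain ⟨v, v1, v2, v3 | v3⟩ := hin
              · exact absurd (v3.symm.trans u3) (h.xy v u v1 (by omega) (by omega) u1)
              · have := h.injy u v (by omega) u1 v1 (by omega) (u3.symm.trans v3)
                omega
        · obtain ⟨a', b', hab, ea, eb, hall⟩ := hA
          left
          refine main (x 2) (fun j hj hin => ?_)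
          by_cases h1 : j = a'
          · subst h1; exact Or.inl ea
          · by_cases h2 : j = b'
            · subst h2; exact Or.inr eb
            · exact absurd (mono _ hin) (hall j hj h1 h2)
        · exfalso
          obtain ⟨a', b', hab, ea, eb, hall⟩ := hA
          have key : ∀ j ≤ 3, ¬ InC 4 x y (c' j) := by
            intro j hj hin
            obtain ⟨v, v1, v2, v3⟩ := hin
            by_cases h1 : j = a'
            · subst h1
              rcases v3 with v3 | v3
              · exact h.xy v k v1 (by omega) (by omega) le_rfl (v3.symm.trans ea)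
              · have := h.injy v k v1 (by omega) (by omega) le_rfl (v3.symm.trans ea)
                omega
            · by_cases h2 : j = b'
              · subst h2
                rcases v3 with v3 | v3
                · exact h.xy v (k - 1) v1 (by omega) (by omega) (by omega) (v3.symm.trans eb)
                · have := h.injy v (k - 1) v1 (by omega) (by omega) (by omega) (v3.symm.trans eb)
                  omega
              · exact hall j hj h1 h2 ⟨v, v1, by omega, v3⟩
          exact key o (by omega) hoJ
      · -- three vertices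
        exfalso
        obtain ⟨p, q, s, hp, hq, hs, npq, nqs, nps, ⟨u, u1, u2, u3⟩, ⟨v, v1, v2, v3⟩, ⟨w, w1, w2, w3⟩⟩ :=
          ncp_three hN
        have P1 : ∀ j, (j = 0 ∨ j = 1 ∨ j = 3 ∨ j = 4) → j ≤ 3 + 1 ∧ pos 3 j % 2 = 1 := by
          intro j hj
          unfold pos
          split_ifs
          all_goals omega
        obtain ⟨p1, p2⟩ := P1 p hp
        obtain ⟨q1, q2⟩ := P1 q hq
        obtain ⟨s1, s2⟩ := P1 s hs
        have a1 := port_par h hC p1 q1 ⟨u1, by omega⟩ ⟨v1, by omega⟩ u3 v3
        have a2 := port_par h hC p1 s1 ⟨u1, by omega⟩ ⟨w1, by omega⟩ u3 w3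
        have nuv : u ≠ v := by
          rintro rfl; exact npq (su p1 q1 u1 (by omega) u3 v3)
        have nuw : u ≠ w := by
          rintro rfl; exact nps (su p1 s1 u1 (by omega) u3 w3)
        have nvw : v ≠ w := by
          rintro rfl; exact nqs (su q1 s1 v1 (by omega) v3 w3)
        clear hp hq hs P1
        omega
      · -- four vertices
        exfalso
        have hcount : ∀ T : Finset ℕ, (∀ j ∈ T, j ≤ 4 + 1 ∧ InC 4 x y (c' j)) → T.card ≤ 4 := by
          intro T hT
          have h1 : T.card ≤ (Icc 1 4).card := by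
            refine Finset.card_le_card_of_injOn (fun j => idx 4 x y (c' j)) ?_ ?_
            · intro j hj
              have := idx_spec (hT j hj).2
              rw [Finset.mem_coe, mem_Icc]
              exact ⟨this.1, this.2.1⟩
            · intro i hi j hj hij
              have e1 := idx_spec (hT i hi).2
              have e2 := idx_spec (hT j hj).2
              have hij' : idx 4 x y (c' i) = idx 4 x y (c' j) := hij
              rw [← hij'] at e2
              exact su (hT i hi).1 (hT j hj).1 e1.1 (by omega) e1.2.2 e2.2.2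
          rw [Nat.card_Icc] at h1
          omega
        obtain ⟨b0, b1, b4, b5⟩ : InC 4 x y (c' 0) ∧ InC 4 x y (c' 1) ∧ InC 4 x y (c' 4) ∧
            InC 4 x y (c' 5) := by
          rcases ncp_abc hN with hb | ⟨a, b, c, d, e⟩ | ⟨a, b, c, d, e⟩
          · exact hb
          · exfalso
            rcases e with e | e
            · have := hcount {0, 1, 2, 3, 4} (fun j hj => by
                simp only [mem_insert, mem_singleton] at hj
                rcases hj with rfl | rfl | rfl | rfl | rfl
                exacts [⟨by omega, a⟩, ⟨by omega, b⟩, ⟨by omega, c⟩, ⟨by omega, d⟩, ⟨by omega, e⟩])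
              rw [show ({0, 1, 2, 3, 4} : Finset ℕ).card = 5 from rfl] at this
              omega
            · have := hcount {0, 1, 2, 3, 5} (fun j hj => by
                simp only [mem_insert, mem_singleton] at hj
                rcases hj with rfl | rfl | rfl | rfl | rfl
                exacts [⟨by omega, a⟩, ⟨by omega, b⟩, ⟨by omega, c⟩, ⟨by omega, d⟩, ⟨by omega, e⟩])
              rw [show ({0, 1, 2, 3, 5} : Finset ℕ).card = 5 from rfl] at this
              omega
          · exfalso
            rcases e with e | e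
            · have := hcount {4, 5, 2, 3, 0} (fun j hj => by
                simp only [mem_insert, mem_singleton] at hj
                rcases hj with rfl | rfl | rfl | rfl | rfl
                exacts [⟨by omega, a⟩, ⟨by omega, b⟩, ⟨by omega, c⟩, ⟨by omega, d⟩, ⟨by omega, e⟩])
              rw [show ({4, 5, 2, 3, 0} : Finset ℕ).card = 5 from rfl] at this
              omega
            · have := hcount {4, 5, 2, 3, 1} (fun j hj => by
                simp only [mem_insert, mem_singleton] at hj
                rcases hj with rfl | rfl | rfl | rfl | rfl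
                exacts [⟨by omega, a⟩, ⟨by omega, b⟩, ⟨by omega, c⟩, ⟨by omega, d⟩, ⟨by omega, e⟩])
              rw [show ({4, 5, 2, 3, 1} : Finset ℕ).card = 5 from rfl] at this
              omega
        obtain ⟨u0, u01, u02, u03⟩ := b0
        obtain ⟨u1, u11, u12, u13⟩ := b1
        obtain ⟨u4, u41, u42, u43⟩ := b4
        obtain ⟨u5, u51, u52, u53⟩ := b5
        have r01 := port_par h hC (show 0 ≤ 4 + 1 by omega) (show 1 ≤ 4 + 1 by omega) ⟨u01, by omega⟩
          ⟨u11, by omega⟩ u03 u13
        have r04 := port_par h hC (show 0 ≤ 4 + 1 by omega) (show 4 ≤ 4 + 1 by omega) ⟨u01, by omega⟩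
          ⟨u41, by omega⟩ u03 u43
        have r45 := port_par h hC (show 4 ≤ 4 + 1 by omega) (show 5 ≤ 4 + 1 by omega) ⟨u41, by omega⟩
          ⟨u51, by omega⟩ u43 u53
        have q0 : pos 4 0 = 1 := rfl
        have q1 : pos 4 1 = 1 := rfl
        have q4 : pos 4 4 = 4 := rfl
        have q5 : pos 4 5 = 4 := rfl
        have p01 : pos 4 0 = pos 4 1 := rfl
        have p45 : pos 4 4 = pos 4 5 := rfl
        rw [q0, q1] at r01
        rw [q0, q4] at r04
        rw [q4, q5] at r45
        have n01 : u0 ≠ u1 := by
          rintro rfl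
          have := su (show 0 ≤ 4 + 1 by omega) (show 1 ≤ 4 + 1 by omega) u01 (by omega) u03 u13
          omega
        have n45 : u4 ≠ u5 := by
          rintro rfl
          have := su (show 4 ≤ 4 + 1 by omega) (show 5 ≤ 4 + 1 by omega) u41 (by omega) u43 u53
          omega
        obtain ⟨h24, -⟩ := units4 u01 u02 u11 u12 u41 u42 u51 u52 (show u0 % 2 = u1 % 2 by omega)
          (show u0 % 2 ≠ u4 % 2 by omega) (show u4 % 2 = u5 % 2 by omega) n01 n45
        have fin : ∀ j j', j ≤ 4 + 1 → j' ≤ 4 + 1 → j ≠ j' → pos 4 j = pos 4 j' →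
            (c' j = x 2 ∨ c' j = y 2) → (c' j' = x 4 ∨ c' j' = y 4) → False := by
          intro j j' hj hj' hne' hp e e'
          have e4 : c' j' = y 4 := by
            rcases e' with e' | e'
            · exact absurd e' (vs j' hj').2.2
            · exact e'
          have hin : InC k x y (c' j) := ⟨2, by omega, by omega, e⟩
          have hin' : InC k x y (c' j') := ⟨4, by omega, by omega, Or.inr e4⟩
          rcases CLB.H3.fork_cases hG h hC hj hj' hne' hp hin hin' with h1 | h1 | ⟨i, i1, i2, h1⟩
          · rcases h1 with h1 | h1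
            · rcases e with e | e
              · have := h.injx 1 2 (by omega) (by omega) (by omega) (by omega) (h1.symm.trans e); omega
              · exact h.xy 1 2 (by omega) (by omega) (by omega) (by omega) (h1.symm.trans e)
            · rcases e with e | e
              · exact h.xy 2 k (by omega) (by omega) (by omega) (by omega) (e.symm.trans h1)
              · have := h.injy 2 k (by omega) (by omega) (by omega) (by omega) (e.symm.trans h1); omega
          · rcases h1 with h1 | h1
            · exact h.xy 1 4 (by omega) (by omega) (by omega) (by omega) (h1.symm.trans e4)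
            · have := h.injy 4 k (by omega) (by omega) (by omega) (by omega) (e4.symm.trans h1); omega
          · rcases h1 with ⟨-, h1⟩ | ⟨h1, h2⟩
            · exact h.xy (i + 2) 4 (by omega) (by omega) (by omega) (by omega) (h1.symm.trans e4)
            · have := h.injy 4 i (by omega) (by omega) (by omega) (by omega) (e4.symm.trans h1)
              subst this
              rcases e with e | e
              · have := h.injx 2 (4 + 2) (by omega) (by omega) (by omega) (by omega) (e.symm.trans h2)
                omega
              · exact h.xy (4 + 2) 2 (by omega) (by omega) (by omega) (by omega) (h2.symm.trans e)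
        rcases h24 with ⟨e, e'⟩ | ⟨e, e'⟩ | ⟨e, e'⟩ | ⟨e, e'⟩
        · rw [e] at u03; rw [e'] at u13
          exact fin 0 1 (by omega) (by omega) (by omega) p01 u03 u13
        · rw [e] at u03; rw [e'] at u13
          exact fin 1 0 (by omega) (by omega) (by omega) p01.symm u13 u03
        · rw [e] at u43; rw [e'] at u53
          exact fin 4 5 (by omega) (by omega) (by omega) p45 u43 u53
        · rw [e] at u43; rw [e'] at u53
          exact fin 5 4 (by omega) (by omega) (by omega) p45.symm u53 u43

end CLB.H80
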