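import Pool.Agent.Helper80_DA.M5XL

/-!
MP_da6743_co: windows W7 and E2 of a component with five vertices.
-/

set_option autoImplicit false
set_option linter.unusedSectionVars false

namespace CLB.H80

open Finset Classical CLB.H95
open H3DA (Q neg nr)
open CLB.H3 (CExt Cat IsTwo Fits UPath he_of_unc cat_structure chn_side pos NoFull noFull_shape noFull_inj
  noFull_small KTight exists_ktight ll5')
open CLB.H91 (LM no_fork_xx ncp_forks ends_rev K5 OutU Base W7Stmt E2Stmt)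

lemma fail5T {s : ℕ → Q} (hn : ¬ CExt 5 s) (h6 : s 5 = neg (s 1)) :
    s 0 = s 5 ∨ s 5 = neg (s 6) ∨ ∃ D, Tight D s 5 := by
  rw [cext_iff (by omega)] at hn
  by_cases h0 : s 0 = neg (s 1)
  · left; rw [h0, h6]
  · by_cases h1 : s 5 = neg (s 6)
    · right; left; exact h1
    · right; right
      by_contra hcon
      push Not at hcon
      exact hn ⟨h0, h1, hcon⟩

lemma add_out : ∀ a b c h : Q, h = add (add a b) c → a = add (add h b) c := by decide +kernel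

/-- The middle label of a tight labelling. -/
lemma w7B_mem {s : ℕ → Q} {D : Ty} (hT : Tight D s 5) (h6 : s 5 = neg (s 1)) :
    s 3 ∈ w7B (s 0) (s 4) := by
  obtain ⟨-, h2⟩ := ll5' (e := 1) (e' := 5) (Or.inr rfl) (Or.inl rfl) hT h6
  have h2' : s 0 = add (add (s 2) (s 3)) (s 4) := h2
  have h3 := hT.2.1 3 (by omega) (by omega)
  have h4 := hT.2.1 2 (by omega) (by omega)
  have e3 : altT D 3 = D := by unfold altT; rw [if_pos (by omega)]
  have e4 : altT D 2 = co D := by unfold altT; rw [if_neg (by omega)]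
  rw [e3] at h3
  rw [e4, add_out _ _ _ _ h2'] at h4
  unfold w7B
  rw [mem_filter]
  refine ⟨mem_univ _, D, ?_⟩
  rw [Bool.and_eq_true]
  exact ⟨h3, h4⟩

section
variable {V : Type*} {G : SimpleGraph V} {R : V → Bool} [Fintype V] {k : ℕ} {x y : ℕ → V}
  {m : ℕ} {z c : ℕ → V} {f : V → Q}

/-- **The data of the game** on the units 3, 2, 1. -/
theorem v_data (hG : ClassC G R) (hc : Crit G R) (h : Chn G R k x y) (hk : 4 ≤ k)
    (hends : (∀ w, ¬ Lk G R (x 1) w) ∧ ∀ w, ¬ Lk G R (y k) w) (hcat : Cat G R m z c)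
    (s1 : ∃ j ≤ m + 1, c j = x 1) (s2 : ∃ j ≤ m + 1, c j = x 2) (s3 : ∃ j ≤ m + 1, c j = x 3)
    (s3' : ∃ j ≤ m + 1, c j = y 3) (hf : OffC G R 3 x y f) :
    ∃ (a b : Q) (F1 : Q → Finset Q), (∀ p p', (F1 p ∪ F1 p').card ≤ 4) ∧
      ∀ p w t, w ≠ a → w ≠ b → t ∉ F1 p → nr p w = true → nr w t = true →
        nr (neg p) (f (x 4)) = true → ¬ CExt m (fun j => lw x y f p w t (c j)) := by
  have h3 := chn3 h (by omega)
  have hlk : Lk G R (y 3) (x 4) := h.lk 3 (by omega) (by omega)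
  obtain ⟨j3', hj3', e3'⟩ := s3'
  have hcl : CleanE G R 3 x y (cSupp m z) := by
    refine cleanE_gen hG hc h (by omega) hcat s1 s2 s3 _ subset_rfl (fun hk3 => by omega) ?_
    intro _ z' c' hC hz hUC
    exfalso
    obtain ⟨o, o', q, q', t1, t2, t3, b1, -⟩ := hUC
    have := own_lk hG hcat hC hlk hj3' (t1.le (by omega)).2.1 e3' b1
    exact hz 1 le_rfl (by omega) (by rw [← this]; exact mem_cSupp le_rfl (by omega))
  obtain ⟨F1, F2, F3, c1, c2, c3, hK⟩ := win3 hG hc hcat h3 hends.1 hf (cSupp m z)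
    (fun v a b hT ⟨i, i1, i2, i3⟩ => isTwo_not_cat hcat i1 i2 (i3 ▸ hT)) hcl
  obtain ⟨j1, hj1, e1⟩ := s1
  obtain ⟨j2, hj2, e2⟩ := s2
  obtain ⟨j3, hj3, e3⟩ := s3
  obtain ⟨p1, p1'⟩ := port_mem hcat hj1 e1
  obtain ⟨p2, p2'⟩ := port_mem hcat hj2 e2
  obtain ⟨p3, p3'⟩ := port_mem hcat hj3 e3
  obtain ⟨q3, q3'⟩ := port_mem hcat hj3' e3'
  have f1 := fpE_own_cov hG p1 p1' (h.cov (InC.x (x := x) (y := y) le_rfl (by omega)))
  have g1 : fpE G R (cSupp m z) (y 1) ≤ 1 := fpE_lk hG (h.lk 1 le_rfl (by omega))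
  have f2 := fpE_own_lk hG p2 p2' (h.lk 1 le_rfl (by omega)).symm
  have g2 : fpE G R (cSupp m z) (y 2) ≤ 1 := fpE_lk hG (h.lk 2 (by omega) (by omega))
  have f3 := fpE_own_lk hG p3 p3' (h.lk 2 (by omega) (by omega)).symm
  have g3 := fpE_own_lk hG q3 q3' hlk
  have hF1 : F1 = ∅ := Finset.card_eq_zero.1 (by omega)
  obtain ⟨a, b, hab⟩ := sub_pair (F2 := F2) (by omega)
  refine ⟨a, b, F3, fun p p' => (c3 p p').trans (by omega), fun p w t n1 n2 n3 n4 n5 n6 => ?_⟩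
  refine hK p w t (by rw [hF1]; exact Finset.notMem_empty _) (fun hw => ?_) n3 n4 n5 (fun v hv => ?_)
    (fun m'' z'' c'' hC'' hne'' ⟨i, i1, i2, i3⟩ =>
      absurd (cSupp_eq hC'' hcat (mem_cSupp i1 i2) i3) hne'')
  · have := hab hw
    rw [mem_insert, mem_singleton] at this
    rcases this with e | e
    · exact n1 e
    · exact n2 e
  · rw [← hlk.unique hG hv]; exact n6

end

/-- **The window W7.** -/
theorem w7 : W7Stmt := by
  intro V _ H R k x y z c hB hK hk e2 e3 o0 o4 o6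
  obtain ⟨hG, hc, h, hl, hl'⟩ := hB
  have h3 := chn3 h (by omega)
  obtain ⟨f, D, hf, hT, hy⟩ := start5 (r := 3) hG hc h hK (j0 := 1) (by omega)
    ⟨3, by omega, le_rfl, Or.inl hK.c1⟩
  have hT0 : f (c 0) = f (c 6) := (ll5' (e := 1) (e' := 5) (Or.inr rfl) (Or.inl rfl) hT (by
    show f (c 5) = neg (f (c 1))
    rw [hK.c5, hK.c1]; exact hy)).1
  obtain ⟨a, b, F1, c1, hd⟩ := v_data hG hc h hk ⟨hl, hl'⟩ hK.cat ⟨3, by omega, e3⟩
    ⟨2, by omega, e2⟩ ⟨1, by omega, hK.c1⟩ ⟨5, by omega, hK.c5⟩ hf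
  obtain ⟨p, p', hpp, hall⟩ := w7_pair (f (x 4)) (f (c 0)) a b
  simp only [Bool.and_eq_true, Bool.not_eq_true', beq_eq_false_iff_ne] at hpp
  obtain ⟨⟨⟨⟨⟨n1, n2⟩, n3⟩, n4⟩, n5⟩, n6⟩ := hpp
  -- a label outside the forbidden sets
  obtain ⟨t, ht⟩ : ∃ t, t ∉ (F1 p ∪ F1 p') ∪ w7B (f (c 0)) (f (c 4)) := by
    by_contra hcon
    push Not at hcon
    have a1 := Finset.card_le_card (show (univ : Finset Q) ⊆ _ from fun t _ => hcon t)
    have a2 := Finset.card_union_le (F1 p ∪ F1 p') (w7B (f (c 0)) (f (c 4)))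
    have a3 := w7B_card (f (c 0)) (f (c 4))
    have a4 := c1 p p'
    rw [card_univ_Q] at a1
    omega
  rw [mem_union, mem_union, not_or, not_or] at ht
  obtain ⟨⟨t1, t2⟩, t3⟩ := ht
  obtain ⟨w, hw⟩ := hall t
  simp only [Bool.and_eq_true, Bool.not_eq_true', beq_eq_false_iff_ne, Bool.or_eq_true] at hw
  obtain ⟨⟨⟨w1, w2⟩, w3⟩, w4⟩ := hw
  have key : ∀ e, t ∉ F1 e → nr e w = true → nr (neg e) (f (x 4)) = true → e ≠ f (c 0) →
      e ≠ neg (f (c 0)) → False := by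
    intro e q1 q2 q3 q4 q5
    have hn := hd e w t w1 w2 q1 q2 w4 q3
    have l1 : lw x y f e w t (c 1) = e := by rw [hK.c1]; exact lw_x3 h3
    have l5 : lw x y f e w t (c 5) = neg e := by rw [hK.c5]; exact lw_y3 h3
    have l3 : lw x y f e w t (c 3) = t := by rw [e3]; exact lw_x1 h3
    have l0 : lw x y f e w t (c 0) = f (c 0) := lw_out (outU_inC o0)
    have l4 : lw x y f e w t (c 4) = f (c 4) := lw_out (outU_inC o4)
    have l6 : lw x y f e w t (c 6) = f (c 0) := by rw [hT0]; exact lw_out (outU_inC o6)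
    have h6 : lw x y f e w t (c 5) = neg (lw x y f e w t (c 1)) := by rw [l1, l5]
    rcases fail5T hn h6 with h0 | h0 | ⟨D', hD'⟩
    · have h0' : lw x y f e w t (c 0) = lw x y f e w t (c 5) := h0
      rw [l0, l5] at h0'
      exact q5 (by rw [h0', H3DA.neg_neg])
    · have h0' : lw x y f e w t (c 5) = neg (lw x y f e w t (c 6)) := h0
      rw [l5, l6] at h0'
      exact q4 (H3DA.neg_inj h0')
    · have hm := w7B_mem hD' h6
      have hm' : lw x y f e w t (c 3) ∈ w7B (lw x y f e w t (c 0)) (lw x y f e w t (c 4)) := hm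
      rw [l0, l3, l4] at hm'
      exact t3 hm'
  rcases w3 with w3 | w3
  · exact key p t1 w3 n1 n3 n5
  · exact key p' t2 w3 n2 n4 n6

/-- **The window E2.** -/
theorem e2 : E2Stmt := by
  intro V _ H R x y z c hB hK e0 e2 o3 e4 e6
  obtain ⟨hG, hc, h, hl, hl'⟩ := hB
  have h3 := chn3 h (by omega)
  obtain ⟨f, D, hf, hT, hy⟩ := start5 (r := 3) hG hc h hK (j0 := 1) (by omega)
    ⟨3, by omega, le_rfl, Or.inl hK.c1⟩
  obtain ⟨a, b, F1, c1, hd⟩ := v_data hG hc h (by omega) ⟨hl, hl'⟩ hK.cat ⟨6, by omega, e6⟩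
    ⟨2, by omega, e2⟩ ⟨1, by omega, hK.c1⟩ ⟨5, by omega, hK.c5⟩ hf
  obtain ⟨p, p', hne, n1, n2, n3, n4⟩ := pick_two (F1 := {neg (f (c 0))}) (by simp) (f (x 4))
  rw [mem_singleton] at n1 n2
  have hpp : p' ≠ neg p := by
    rintro rfl
    rw [H3DA.neg_neg] at n4
    rw [nr_neg, n4] at n3
    exact Bool.false_ne_true n3
  have cc := e2_card p p' a b hne hpp
  set T := univ.filter (fun t : Q => ∃ e : Q, (e = p ∨ e = p') ∧ e ≠ t ∧
      ∃ w : Q, (!(w == a) && !(w == b) && nr e w && nr w t) = true) with hTdef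
  obtain ⟨t, ht⟩ : ∃ t, t ∈ T \ ((F1 p ∪ F1 p') ∪ {f (c 0)}) := by
    have a1 := Finset.le_card_sdiff ((F1 p ∪ F1 p') ∪ {f (c 0)}) T
    have a2 := Finset.card_union_le (F1 p ∪ F1 p') {f (c 0)}
    have a4 := c1 p p'
    rw [Finset.card_singleton] at a2
    exact Finset.card_pos.1 (by omega)
  rw [mem_sdiff, mem_union, mem_union, not_or, not_or, mem_singleton, hTdef, mem_filter] at ht
  obtain ⟨⟨-, e, he, het, w, hw⟩, ⟨t1, t2⟩, t3⟩ := ht
  simp only [Bool.and_eq_true, Bool.not_eq_true', beq_eq_false_iff_ne] at hw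
  obtain ⟨⟨⟨w1, w2⟩, w3⟩, w4⟩ := hw
  obtain ⟨q1, q2, q3⟩ : t ∉ F1 e ∧ nr (neg e) (f (x 4)) = true ∧ e ≠ neg (f (c 0)) := by
    rcases he with rfl | rfl
    · exact ⟨t1, n3, n1⟩
    · exact ⟨t2, n4, n2⟩
  have hn := hd e w t w1 w2 q1 w3 w4 q2
  have o0 : ¬ InC 3 x y (c 0) := by
    rw [e0]
    rintro ⟨i, i1, i2, i3 | i3⟩
    · exact h.xy i 5 i1 (by omega) (by omega) (by omega) i3.symm
    · have := h.injy 5 i (by omega) (by omega) i1 (by omega) i3; omega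
  have l1 : lw x y f e w t (c 1) = e := by rw [hK.c1]; exact lw_x3 h3
  have l5 : lw x y f e w t (c 5) = neg e := by rw [hK.c5]; exact lw_y3 h3
  have l0 : lw x y f e w t (c 0) = f (c 0) := lw_out o0
  have l6 : lw x y f e w t (c 6) = t := by rw [e6]; exact lw_x1 h3
  have h6 : lw x y f e w t (c 5) = neg (lw x y f e w t (c 1)) := by rw [l1, l5]
  rcases fail5 hn h6 with h0 | h0 | ⟨h0, -⟩
  · have h0' : lw x y f e w t (c 0) = lw x y f e w t (c 5) := h0
    rw [l0, l5] at h0'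
    exact q3 (by rw [h0', H3DA.neg_neg])
  · have h0' : lw x y f e w t (c 5) = neg (lw x y f e w t (c 6)) := h0
    rw [l5, l6] at h0'
    exact het (H3DA.neg_inj h0')
  · have h0' : lw x y f e w t (c 0) = lw x y f e w t (c 6) := h0
    rw [l0, l6] at h0'
    exact t3 h0'.symm

end CLB.H80
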