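import Pool.Agent.Helper80_DA.M5V
import Pool.Agent.Helper91_DA.M5Defs2

/-!
MP_da6743_co: label lemmas for the windows W7 and E2.
-/

set_option autoImplicit false
set_option linter.unusedSectionVars false

namespace CLB.H80

open Finset Classical CLB.H95
open H3DA (Q neg nr)

lemma w7_pair : ∀ u e a b : Q, ∃ p p' : Q, (nr (neg p) u && nr (neg p') u && !(p == e) && !(p' == e) &&
    !(p == neg e) && !(p' == neg e)) = true ∧
    ∀ t : Q, ∃ w : Q, (!(w == a) && !(w == b) && (nr p w || nr p' w) && nr w t) = true := by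
  decide +kernel

/-- The labels of the middle port. -/
def w7B (H H4 : Q) : Finset Q := univ.filter (fun t : Q => ∃ D : Ty,
  (stp D (neg t) H4 && stp (co D) (neg (add (add H t) H4)) t) = true)

lemma w7B_card : ∀ H H4 : Q, (w7B H H4).card ≤ 3 := by decide +kernel

lemma e2_card : ∀ p p' a b : Q, p ≠ p' → p' ≠ neg p →
    6 ≤ (univ.filter (fun t : Q => ∃ e : Q, (e = p ∨ e = p') ∧ e ≠ t ∧
      ∃ w : Q, (!(w == a) && !(w == b) && nr e w && nr w t) = true)).card := by decide +kernel

end CLB.H80
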