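import Pool.Agent.Helper80_DA.K0Base

/-!
One vertex seeing the two ends of an open chain: slack at the ends.
-/

set_option autoImplicit false
set_option linter.unusedSectionVars false

namespace CLB.H80

open Finset Classical
open CLB.H95
open H3DA (Q neg nr)
open CLB.H3 (CExt Cat IsTwo Fits UPath he_of_unc cat_structure chn_side)
open CLB.H91 (ovr ovr_in ovr_out sp11 K0K tau tau_tau)

variable {V : Type*} {G H : SimpleGraph V} {R : V → Bool} [Fintype V] {k : ℕ} {x y : ℕ → V}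

/-- The slack at the left end link. -/
theorem light_first (hR : Opt G R) (hG : ClassC G R) (hle : H ≤ G) (hc : Crit H R)
    (h : Chn H R k x y) (hk : 3 ≤ k) {za : V} (hza : za ∈ prt H R (x 1)) :
    (∃ z₀, ∀ Φ : V → V → Finset Q, (∀ v z, (Φ v z).card ≤ 2) → (Φ (x 1) za).card ≤ 1 →
      (z₀ ∈ prt H R (y 1) → InnerPt H R z₀ → (Φ (y 1) z₀).card ≤ 1) →
        4 ≤ (lst H R x y Φ 1).card) ∨
    (∃ z₀, ∀ Φ : V → V → Finset Q, (∀ v z, (Φ v z).card ≤ 2) →
      (z₀ ∈ prt H R (x 2) → InnerPt H R z₀ → (Φ (x 2) z₀).card ≤ 1) →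
        5 ≤ (lst H R x y Φ 2).card) := by
  have hH := hG.mono hle
  have hx1 : Cov H R (x 1) := h.cov (InC.x le_rfl h.pos)
  have hlk : Lk H R (y 1) (x 2) := h.lk 1 le_rfl (by omega)
  have py1 := prt_card_lk hH hlk
  have px2 := prt_card_lk hH hlk.symm
  have px1 := prt_card hH hx1
  have py2 := prt_card_lk hH (h.lk 2 (by omega) (by omega))
  have b1 : ∀ Φ : V → V → Finset Q, 8 ≤ (lst H R x y Φ 1).card + cst H R Φ (x 1) + cst H R Φ (y 1) :=
    fun Φ => lst_card Φ 1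
  have b2 : ∀ Φ : V → V → Finset Q, 8 ≤ (lst H R x y Φ 2).card + cst H R Φ (x 2) + cst H R Φ (y 2) :=
    fun Φ => lst_card Φ 2
  by_cases hx : (prt H R (x 1)).card ≤ 1
  · refine Or.inl ⟨y 1, fun Φ h2 h1 _ => ?_⟩
    have := cst_le_light h2 (n := 0) hx hza h1
    have := cst_le h2 py1
    have := b1 Φ
    omega
  by_cases hy : (prt H R (y 1)).card = 0
  · refine Or.inl ⟨y 1, fun Φ h2 h1 _ => ?_⟩
    have := cst_le_light h2 (n := 1) px1 hza h1
    have := cst_le h2 (le_of_eq hy)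
    have := b1 Φ
    omega
  by_cases hx2 : (prt H R (x 2)).card = 0
  · refine Or.inr ⟨y 1, fun Φ h2 _ => ?_⟩
    have := cst_le h2 (le_of_eq hx2)
    have := cst_le h2 py2
    have := b2 Φ
    omega
  obtain ⟨u, hu⟩ := Finset.card_pos.1 (Nat.pos_of_ne_zero hy)
  obtain ⟨v, hv⟩ := Finset.card_pos.1 (Nat.pos_of_ne_zero hx2)
  have hpm := pm_sub hR hG hle hc hlk.1 (h.me 1 le_rfl h.pos).symm (h.me 2 (by omega) (by omega)) hu hv
  rw [if_neg hx] at hpm
  have hle1 : (if (prt H R (y 2)).card ≤ 1 then 1 else 0) ≤ 1 := by split_ifs <;> omega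
  by_cases h0 : hcv H R u (y 1) = 0
  · refine Or.inl ⟨u, fun Φ h2 h1 h3 => ?_⟩
    have e1 := cst_le_light h2 (n := 1) px1 hza h1
    have e2 := cst_le_light h2 (n := 0) py1 hu
      (h3 hu (innerPt_of_hcv hH hc hu (h.cov (InC.y le_rfl h.pos)) h0))
    have := b1 Φ
    omega
  · refine Or.inr ⟨v, fun Φ h2 h3 => ?_⟩
    have e1 := cst_le h2 py2
    have e2 := cst_le_light h2 (n := 0) px2 hv
      (h3 hv (innerPt_of_hcv hH hc hv (h.cov (InC.x (by omega) (by omega))) (by omega)))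
    have := b2 Φ
    omega

/-- The slack at the right end link. -/
theorem light_last (hR : Opt G R) (hG : ClassC G R) (hle : H ≤ G) (hc : Crit H R)
    (h : Chn H R k x y) (hk : 3 ≤ k) {zb : V} (hzb : zb ∈ prt H R (y k)) :
    (∃ z₀, ∀ Φ : V → V → Finset Q, (∀ v z, (Φ v z).card ≤ 2) → (Φ (y k) zb).card ≤ 1 →
      (z₀ ∈ prt H R (x k) → InnerPt H R z₀ → (Φ (x k) z₀).card ≤ 1) →
        4 ≤ (lst H R x y Φ k).card) ∨
    (∃ z₀, ∀ Φ : V → V → Finset Q, (∀ v z, (Φ v z).card ≤ 2) →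
      (z₀ ∈ prt H R (y (k - 1)) → InnerPt H R z₀ → (Φ (y (k - 1)) z₀).card ≤ 1) →
        5 ≤ (lst H R x y Φ (k - 1)).card) := by
  have e1 : k + 1 - 1 = k := by omega
  have e2 : k + 1 - 2 = k - 1 := by omega
  have hl := light_first hR hG hle hc h.rev hk (za := zb) (by simp only [e1]; exact hzb)
  simp only [e1, e2, lst_rev_card] at hl
  exact hl

/-- Forbidden sets for one special component. -/
structure Spc (H : SimpleGraph V) (R : V → Bool) (k : ℕ) (x y : ℕ → V) (f : V → Q) (S : Set V)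
    (φ : V → V → (ℕ → Q) → Finset Q) (P : Q → Prop) : Prop where
  two : ∀ v z g g', (φ v z g ∪ φ v z g').card ≤ 2
  dep : ∀ i, 1 ≤ i → i ≤ k → ∀ z g g', Same (i - 1) g g' → φ (x i) z g = φ (x i) z g' ∧
    φ (y i) z g = φ (y i) z g'
  unc : ∀ v ∈ S, ¬ Cov H R v
  it : ∀ v ∈ S, ∀ a b, ¬ IsTwo H R v a b
  sep : ∀ m z c, Cat H R m z c → cSupp m z ≠ S → ∀ i, 1 ≤ i → i ≤ m → z i ∉ S
  ok : ∀ mu : ℕ → Q, P (mu 1) → Nwk k mu → Avd H R k x y f S φ mu → ∀ m z c, Cat H R m z c →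
    cSupp m z = S → CExt m (fun j => lbl k x y mu f (c j))

lemma spc_empty (f : V → Q) (P : Q → Prop) : Spc H R k x y f ∅ (fun _ _ _ => ∅) P where
  two := by simp
  dep := fun _ _ _ _ _ _ _ => ⟨rfl, rfl⟩
  unc v hv := absurd hv (Set.notMem_empty v)
  it v hv := absurd hv (Set.notMem_empty v)
  sep _ _ _ _ _ _ _ _ := Set.notMem_empty _
  ok mu _ _ _ m z c hK hS := by
    exfalso
    have : z 1 ∈ cSupp m z := mem_cSupp le_rfl hK.pos
    rw [hS] at this
    exact this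

lemma spc_okill {f : V → Q} {m : ℕ} {z c : ℕ → V} (hK : Cat H R m z c) {v₀ z₀ : V}
    {φ : V → V → (ℕ → Q) → Finset Q} (hφ : OKill H R k x y f (cSupp m z) v₀ z₀ φ) (P : Q → Prop) :
    Spc H R k x y f (cSupp m z) φ P where
  two := hφ.two
  dep := hφ.dep
  unc v hv := by
    obtain ⟨j, j1, j2, rfl⟩ := hv
    exact hK.unc j j1 j2
  it v hv a b hT := by
    obtain ⟨j, j1, j2, rfl⟩ := hv
    exact isTwo_not_cat hK j1 j2 hT
  sep m' z' c' hK' hne i i1 i2 hi := hne (cSupp_eq hK' hK (mem_cSupp i1 i2) hi)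
  ok mu _ hn hav m' z' c' hK' hS := by
    rw [cext_iff_fits hK', hS]
    exact hφ.ok mu hn hav

section

variable {f : V → Q} {z0 c0 : ℕ → V} {p : Q} {S : Set V} {φ Φ : V → V → (ℕ → Q) → Finset Q}
  {P : Q → Prop} {v₀ z₀ : V}

/-- The family of forbidden sets used for the walks. -/
noncomputable def fam (k : ℕ) (x y : ℕ → V) (z0 : ℕ → V) (p : Q) (S : Set V)
    (φ Φ : V → V → (ℕ → Q) → Finset Q) : V → V → (ℕ → Q) → Finset Q :=
  ovr (cSupp 1 z0) (cg (ends k x y {neg p} {neg p})) (ovr S φ Φ)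

lemma fam_two (h2 : ∀ v z g g', (φ v z g ∪ φ v z g').card ≤ 2)
    (h2' : ∀ v z g g', (Φ v z g ∪ Φ v z g').card ≤ 2) :
    ∀ v z g g', (fam k x y z0 p S φ Φ v z g ∪ fam k x y z0 p S φ Φ v z g').card ≤ 2 := by
  refine ovr_two (ends_card (by simp) (by simp)) ?_
  intro v w g g'
  by_cases hw : w ∈ S
  · rw [ovr_in hw, ovr_in hw]; exact h2 v w g g'
  · rw [ovr_out hw, ovr_out hw]; exact h2' v w g g'

lemma fam_depk (hφ : ∀ i, 1 ≤ i → i ≤ k → ∀ z g g', Same (i - 1) g g' → φ (x i) z g = φ (x i) z g' ∧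
    φ (y i) z g = φ (y i) z g') (hΦ : ∀ i, 1 ≤ i → i ≤ k → ∀ z g g', Same (i - 1) g g' →
    Φ (x i) z g = Φ (x i) z g' ∧ Φ (y i) z g = Φ (y i) z g') {i : ℕ} (h1 : 1 ≤ i) (h2 : i ≤ k) (w : V)
    {g g' : ℕ → Q} (hs : Same (i - 1) g g') :
    fam k x y z0 p S φ Φ (x i) w g = fam k x y z0 p S φ Φ (x i) w g' ∧
      fam k x y z0 p S φ Φ (y i) w g = fam k x y z0 p S φ Φ (y i) w g' := by
  unfold fam
  by_cases hw : w ∈ cSupp 1 z0
  · rw [ovr_in hw, ovr_in hw, ovr_in hw, ovr_in hw]; exact ⟨rfl, rfl⟩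
  · rw [ovr_out hw, ovr_out hw, ovr_out hw, ovr_out hw]
    by_cases hw' : w ∈ S
    · rw [ovr_in hw', ovr_in hw', ovr_in hw', ovr_in hw']; exact hφ i h1 h2 w g g' hs
    · rw [ovr_out hw', ovr_out hw', ovr_out hw', ovr_out hw']; exact hΦ i h1 h2 w g g' hs

/-- Everything that is needed of the forbidden sets. -/
structure Fam (H : SimpleGraph V) (R : V → Bool) (k : ℕ) (x y : ℕ → V) (f : V → Q) (z0 c0 : ℕ → V)
    (p : Q) (S : Set V) (φ Φ : V → V → (ℕ → Q) → Finset Q) (P : Q → Prop) (v₀ z₀ : V) : Prop where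
  star : Cat H R 1 z0 c0
  w1 : z0 1 ∈ prt H R (x 1)
  wk : z0 1 ∈ prt H R (y k)
  k0 : K0K H R k x y f (cSupp 1 z0) p (tau k (neg p)) (tau k)
  ne : cSupp 1 z0 ≠ S
  spc : Spc H R k x y f S φ P
  forb : OForb H R k x y f (cSupp 1 z0 ∪ S) v₀ z₀ Φ
  oth : ∀ m z c, Cat H R m z c → (∃ j ≤ m + 1, InC k x y (c j)) → cSupp m z ≠ cSupp 1 z0 →
    cSupp m z ≠ S → ∃ φ, OKill H R k x y f (cSupp m z) v₀ z₀ φ

variable (hF : Fam H R k x y f z0 c0 p S φ Φ P v₀ z₀)
include hF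

lemma Fam.two : ∀ v z g g', (fam k x y z0 p S φ Φ v z g ∪ fam k x y z0 p S φ Φ v z g').card ≤ 2 :=
  fam_two hF.spc.two hF.forb.two

lemma Fam.dep : Dep k x y (fam k x y z0 p S φ Φ) := fun _ h1 h2 w _ _ hs =>
  fam_depk hF.spc.dep hF.forb.dep h1 h2 w (hs.mono (by omega))

lemma Fam.ldep : LDep k (lis H R x y (fam k x y z0 p S φ Φ)) := ldep_of_dep hF.dep

lemma Fam.ldk (h : Chn H R k x y) : LDk k (lis H R x y (fam k x y z0 p S φ Φ)) := by
  intro g g' hs
  exact lst_congr' (Φ := fun v z => fam k x y z0 p S φ Φ v z g)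
    (Φ' := fun v z => fam k x y z0 p S φ Φ v z g')
    (fun w => fam_depk hF.spc.dep hF.forb.dep h.pos le_rfl w hs)

lemma Fam.mem0 : z0 1 ∈ cSupp 1 z0 := mem_cSupp le_rfl le_rfl

lemma Fam.x1 (g : ℕ → Q) : fam k x y z0 p S φ Φ (x 1) (z0 1) g = {neg p} := by
  unfold fam
  rw [ovr_in hF.mem0]
  unfold cg
  rw [ends_x1]

lemma Fam.yk (h : Chn H R k x y) (g : ℕ → Q) : fam k x y z0 p S φ Φ (y k) (z0 1) g = {neg p} := by
  unfold fam
  rw [ovr_in hF.mem0]
  unfold cg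
  rw [ends_yk h]

lemma Fam.p1 (g : ℕ → Q) : p ∉ lis H R x y (fam k x y z0 p S φ Φ) g 1 := by
  intro hp
  unfold lis olst at hp
  rw [mem_lst] at hp
  have := hp.1 _ hF.w1
  rw [hF.x1, sg_odd (by omega)] at this
  exact this (mem_singleton_self _)

lemma Fam.pk (h : Chn H R k x y) (g : ℕ → Q) :
    tau k (neg p) ∉ lis H R x y (fam k x y z0 p S φ Φ) g k := by
  intro hp
  unfold lis olst at hp
  rw [mem_lst] at hp
  have := hp.2 _ hF.wk
  rw [hF.yk h] at this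
  apply this
  rw [mem_singleton]
  have e := tau_tau k (neg p)
  unfold tau at e ⊢
  exact e

/-- **The end.** -/
theorem Fam.contra (hH : ClassC H R) (hc : Crit H R) (h : Chn H R k x y)
    (hends : (∀ w, ¬ Lk H R (x 1) w) ∧ ∀ w, ¬ Lk H R (y k) w) (hf : OffC H R k x y f) {mu : ℕ → Q}
    (hmu : AW (lis H R x y (fam k x y z0 p S φ Φ)) k mu) (hP : P (mu 1))
    (hK : mu k ≠ tau k (mu 1)) : False := by
  have hkp := h.pos
  have hpw := aw_pw hmu
  refine CLB.H91.end_contra hH hc h hends hf hF.forb ?_ ?_ hpw ?_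
  · rintro v (hv | hv) a b hT
    · obtain ⟨j, j1, j2, rfl⟩ := hv
      exact isTwo_not_cat hF.star j1 j2 hT
    · exact hF.spc.it v hv a b hT
  · intro v w g hw
    unfold fam
    rw [ovr_out (fun h' => hw (Or.inl h')), ovr_out (fun h' => hw (Or.inr h'))]
  · intro m z c hc' hex
    by_cases h0 : cSupp m z = cSupp 1 z0
    · right
      rw [cext_iff_fits hc', h0]
      refine hF.k0.ok mu ?_ ?_ (Or.inr hK)
      · intro he
        have := hmu.mem 1 le_rfl hkp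
        rw [he] at this
        exact hF.p1 _ this
      · intro he
        have := hmu.mem k hkp le_rfl
        rw [he] at this
        exact hF.pk h _ this
    · by_cases hS : cSupp m z = S
      · right
        refine hF.spc.ok mu hP hmu.nwk ?_ m z c hc' hS
        intro w hw v hv hin
        have := hpw.avoid h (f := f) w v (hF.spc.unc w hw) hv hin
        unfold fam at this
        have hw0 : w ∉ cSupp 1 z0 := by
          rintro ⟨j, j1, j2, rfl⟩
          exact hF.spc.sep _ _ _ hF.star hF.ne j j1 j2 hw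
        rwa [ovr_out hw0, ovr_in hw] at this
      · left
        refine ⟨hF.oth m z c hc' hex h0 hS, fun i i1 i2 hi => ?_⟩
        rcases hi with hi | hi
        · exact h0 (cSupp_eq hc' hF.star (mem_cSupp i1 i2) hi)
        · exact hF.spc.sep m z c hc' hS i i1 i2 hi

end

end CLB.H80
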