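import Pool.Agent.Helper80_DA.Star

/-!
One vertex seeing the two ends of an open chain: the contradictions from slack.
-/

set_option autoImplicit false
set_option linter.unusedSectionVars false

namespace CLB.H80

open Finset Classical
open CLB.H95
open H3DA (Q neg nr)
open CLB.H3 (CExt Cat IsTwo Fits UPath he_of_unc cat_structure chn_side)
open CLB.H91 (ovr ovr_in ovr_out sp11 K0K tau tau_tau)

variable {V : Type*} {G H : SimpleGraph V} {R : V → Bool} [Fintype V] {k : ℕ} {x y : ℕ → V}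

lemma tau_injective (n : ℕ) : Function.Injective (tau n) := by
  intro s t hst
  rw [← tau_tau n s, hst, tau_tau]

section

variable {f : V → Q} {z0 c0 : ℕ → V} {p : Q} {S : Set V} {φ Φ : V → V → (ℕ → Q) → Finset Q}
  {P : Q → Prop} {v₀ z₀ : V}

lemma fam_one {v w : V} {g g' : ℕ → Q} (h1 : v ≠ x 1) (h2 : v ≠ y k)
    (hS : w ∈ S → (φ v w g ∪ φ v w g').card ≤ 1) (hO : w ∉ S → (Φ v w g ∪ Φ v w g').card ≤ 1) :
    (fam k x y z0 p S φ Φ v w g ∪ fam k x y z0 p S φ Φ v w g').card ≤ 1 := by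
  unfold fam
  by_cases hw : w ∈ cSupp 1 z0
  · rw [ovr_in hw, ovr_in hw]
    unfold cg ends
    rw [if_neg h1, if_neg h2]; simp
  · rw [ovr_out hw, ovr_out hw]
    by_cases hw' : w ∈ S
    · rw [ovr_in hw', ovr_in hw']; exact hS hw'
    · rw [ovr_out hw', ovr_out hw']; exact hO hw'

variable (hF : Fam H R k x y f z0 c0 p S φ Φ P v₀ z₀)
include hF

lemma Fam.first3 (hH : ClassC H R) (h : Chn H R k x y) (hk : 3 ≤ k) (g : ℕ → Q) :
    3 ≤ (lis H R x y (fam k x y z0 p S φ Φ) g 1).card :=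
  lis_first3 hH h (by omega) hF.two hF.w1 (fun g => by rw [hF.x1]; simp) g

lemma Fam.inner (hH : ClassC H R) (h : Chn H R k x y) (g g' : ℕ → Q) (i : ℕ) (h1 : 1 < i)
    (hk : i < k) : 4 ≤ (lis H R x y (fam k x y z0 p S φ Φ) g i ∩
      lis H R x y (fam k x y z0 p S φ Φ) g' i).card := lis_inner hH h hF.two g g' i h1 hk

lemma Fam.last3 (hH : ClassC H R) (h : Chn H R k x y) (hk : 3 ≤ k) (g g' : ℕ → Q) :
    3 ≤ (lis H R x y (fam k x y z0 p S φ Φ) g k ∩
      lis H R x y (fam k x y z0 p S φ Φ) g' k).card := by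
  refine le_trans ?_ (lis_inter _ g g' k)
  have h2 : ∀ v z, (uni (fam k x y z0 p S φ Φ) g g' v z).card ≤ 2 := fun v z => hF.two v z g g'
  have b := lst_card (G := H) (R := R) (x := x) (y := y) (uni (fam k x y z0 p S φ Φ) g g') k
  have hlk := h.lk (k - 1) (by omega) (by omega)
  rw [show k - 1 + 1 = k by omega] at hlk
  have e1 := cst_le h2 (prt_card_lk hH hlk.symm)
  have e2 := cst_le_light h2 (n := 1) (prt_card hH (h.cov (InC.y h.pos le_rfl))) hF.wk (by
    show (fam k x y z0 p S φ Φ (y k) (z0 1) g ∪ fam k x y z0 p S φ Φ (y k) (z0 1) g').card ≤ 1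
    rw [hF.yk h, hF.yk h]; simp)
  omega

/-- Slack at the last unit but one. -/
theorem Fam.slack (hH : ClassC H R) (hc : Crit H R) (h : Chn H R k x y) (hk : 3 ≤ k)
    (hends : (∀ w, ¬ Lk H R (x 1) w) ∧ ∀ w, ¬ Lk H R (y k) w) (hf : OffC H R k x y f)
    (hP : ∀ t, P t)
    (h5 : ∀ g g', 5 ≤ (lst H R x y (uni (fam k x y z0 p S φ Φ) g g') (k - 1)).card) : False := by
  obtain ⟨mu, m1, m2⟩ := walk_slack hF.ldep (hF.ldk h) hk (hF.inner hH h) (hF.first3 hH h hk)
    (fun g g' => (h5 g g').trans (lis_inter _ g g' _)) (hF.last3 hH h hk) (tau_injective k)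
  exact hF.contra hH hc h hends hf m1 (hP _) m2

/-- Slack at both ends. -/
theorem Fam.ends2 (hH : ClassC H R) (hc : Crit H R) (h : Chn H R k x y) (hk : 3 ≤ k)
    (hends : (∀ w, ¬ Lk H R (x 1) w) ∧ ∀ w, ¬ Lk H R (y k) w) (hf : OffC H R k x y f)
    (hP : ∀ t, P t)
    (h1 : ∀ g, 4 ≤ (lis H R x y (fam k x y z0 p S φ Φ) g 1).card)
    (h4 : ∀ g g', 4 ≤ (lst H R x y (uni (fam k x y z0 p S φ Φ) g g') k).card) : False := by
  obtain ⟨mu, m1, m2⟩ := walk_ends (K := tau k) hF.ldep hk (hF.inner hH h)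
    (fun g g' => (h4 g g').trans (lis_inter _ g g' _)) h1 (p := p) hF.p1 (hF.pk h)
  exact hF.contra hH hc h hends hf m1 (hP _) m2

/-- One start with two labels at unit `2`. -/
theorem Fam.start (hH : ClassC H R) (hc : Crit H R) (h : Chn H R k x y) (hk : 3 ≤ k)
    (hends : (∀ w, ¬ Lk H R (x 1) w) ∧ ∀ w, ¬ Lk H R (y k) w) (hf : OffC H R k x y f) {a b b' : Q}
    (hP : P a) (ha : ∀ g, a ∈ lis H R x y (fam k x y z0 p S φ Φ) g 1) (hbb : b ≠ b')
    (hb : nr a b = true) (hb' : nr a b' = true)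
    (hbm : ∀ g, b ∈ lis H R x y (fam k x y z0 p S φ Φ) g 2)
    (hbm' : ∀ g, b' ∈ lis H R x y (fam k x y z0 p S φ Φ) g 2)
    (h4 : ∀ g g', 4 ≤ (lst H R x y (uni (fam k x y z0 p S φ Φ) g g') k).card) : False := by
  have g0 : ℕ → Q := fun _ => (false, false, false)
  obtain ⟨w1, e1⟩ := aw_one hF.ldep (by omega) (ha g0)
  have u1 := w1.snoc hF.ldep (n := 1) (by omega) (hbm _) (fun _ => by rw [e1]; exact hb)
  have u2 := w1.snoc hF.ldep (n := 1) (by omega) (hbm' _) (fun _ => by rw [e1]; exact hb')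
  obtain ⟨mu, m1, m2, m3⟩ := finish_start (e := tau k a) hF.ldep (hF.inner hH h)
    (fun g g' => (h4 g g').trans (lis_inter _ g g' _)) (a := a) (n0 := 2) (by omega) (by omega) u1 u2
    (by rw [app_gt (by omega), app_gt (by omega)]; exact hbb)
    (by rw [app_le (by omega)]; exact e1) (by rw [app_le (by omega)]; exact e1)
  exact hF.contra hH hc h hends hf m1 (by rw [m3]; exact hP) (by rw [m3]; exact m2)

end

end CLB.H80
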