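import Pool.Agent.Helper80_DA.Star2

/-!
One vertex seeing the two ends of an open chain: the cases without a common component at the two ends.
-/

set_option autoImplicit false
set_option linter.unusedSectionVars false

namespace CLB.H80

open Finset Classical
open CLB.H95
open H3DA (Q neg nr)
open CLB.H3 (CExt Cat IsTwo Fits UPath he_of_unc cat_structure chn_side)
open CLB.H91 (ovr ovr_in ovr_out sp11 K0K tau tau_tau k0_star ends_rev)

variable {V : Type*} {G H : SimpleGraph V} {R : V → Bool} [Fintype V] {k : ℕ} {x y : ℕ → V}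

/-- One vertex sees the two ends; the other components are not nearly closed. -/
structure StarD (H : SimpleGraph V) (R : V → Bool) (k : ℕ) (x y : ℕ → V) (z0 c0 : ℕ → V) : Prop where
  star : Cat H R 1 z0 c0
  sp : Sp k x y 1 c0 1 1
  oth : ∀ m z c, Cat H R m z c → cSupp m z ≠ cSupp 1 z0 →
      (m = 1 → ∀ i j, i ≤ 2 → j ≤ 2 → InC k x y (c i) → InC k x y (c j) → i = j) ∧
      (2 ≤ m → ¬ NCp m (JC k x y c))

lemma StarD.rev {z0 c0 : ℕ → V} (hs : StarD H R k x y z0 c0) :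
    StarD H R k (fun i => y (k + 1 - i)) (fun i => x (k + 1 - i)) z0 c0 where
  star := hs.star
  sp := hs.sp.rev
  oth m z c hc hne := by
    obtain ⟨h1, h2⟩ := hs.oth m z c hc hne
    rw [jc_rev]
    exact ⟨fun hm i j hi hj hin hin' => h1 hm i j hi hj (inC_rev.1 hin) (inC_rev.1 hin'), h2⟩

lemma StarD.ports {z0 c0 : ℕ → V} (hs : StarD H R k x y z0 c0) (h : Chn H R k x y) :
    z0 1 ∈ prt H R (x 1) ∧ z0 1 ∈ prt H R (y k) := by
  obtain ⟨a, b, ha, hb, hab, hca, hcb, -⟩ := sp11 h hs.sp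
  have hu := hs.star.unc 1 le_rfl le_rfl
  have e : ∀ j ≤ 1 + 1, cl 1 j = 1 := by
    intro j hj
    unfold cl
    split_ifs <;> omega
  constructor
  · rw [mem_prt, ← hca]
    have := cat_adj_cl hs.star ha
    rw [e a ha] at this
    exact ⟨this, hu⟩
  · rw [mem_prt, ← hcb]
    have := cat_adj_cl hs.star hb
    rw [e b hb] at this
    exact ⟨this, hu⟩

lemma StarD.famOf {z0 c0 : ℕ → V} (hs : StarD H R k x y z0 c0) (hH : ClassC H R) (h : Chn H R k x y)
    {f : V → Q} (hf : OffC H R k x y f) {p : Q}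
    (hp : K0K H R k x y f (cSupp 1 z0) p (tau k (neg p)) (tau k)) {S : Set V}
    {φ Φ : V → V → (ℕ → Q) → Finset Q} {P : Q → Prop} {v₀ z₀ : V} (hne : cSupp 1 z0 ≠ S)
    (hspc : Spc H R k x y f S φ P) (hΦ : OForb H R k x y f (cSupp 1 z0 ∪ S) v₀ z₀ Φ)
    (hbad : ∀ m z c, Cat H R m z c → cSupp m z ≠ cSupp 1 z0 → cSupp m z ≠ S →
      ∀ p, 2 ≤ p → p + 1 ≤ m → c p = v₀ → z p = z₀ → ¬ BadP m (JC k x y c) p) :
    Fam H R k x y f z0 c0 p S φ Φ P v₀ z₀ where
  star := hs.star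
  w1 := (hs.ports h).1
  wk := (hs.ports h).2
  k0 := hp
  ne := hne
  spc := hspc
  forb := hΦ
  oth m z c hc hex h0 hS := okill_of_not_nc hH h hf hc hex (hs.oth m z c hc h0).1
    (hs.oth m z c hc h0).2 (hbad m z c hc h0 hS)

lemma StarD.ne_empty {z0 c0 : ℕ → V} (hs : StarD H R k x y z0 c0) : cSupp 1 z0 ≠ (∅ : Set V) := by
  intro he
  have : z0 1 ∈ cSupp 1 z0 := mem_cSupp le_rfl hs.star.pos
  rw [he] at this
  exact this

/-- Slack at the unit before the last one. -/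
theorem star_slackR (hG : ClassC G R) (hle : H ≤ G) (hc : Crit H R)
    (h : Chn H R k x y) (hk : 3 ≤ k) (hends : (∀ w, ¬ Lk H R (x 1) w) ∧ ∀ w, ¬ Lk H R (y k) w)
    {z0 c0 : ℕ → V} (hs : StarD H R k x y z0 c0)
    (hbad : ∀ m z c, Cat H R m z c → ∀ p, c p = y (k - 1) → ¬ BadP m (JC k x y c) p)
    {z₀ : V} (h5 : ∀ Φ : V → V → Finset Q, (∀ v z, (Φ v z).card ≤ 2) →
      (z₀ ∈ prt H R (y (k - 1)) → InnerPt H R z₀ → (Φ (y (k - 1)) z₀).card ≤ 1) →
        5 ≤ (lst H R x y Φ (k - 1)).card) : False := by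
  have hH := hG.mono hle
  obtain ⟨f, hf⟩ := exists_off h hc
  obtain ⟨p, hp⟩ := k0_star h (f := f) hs.star hs.sp
  obtain ⟨Φ, hΦ⟩ := exists_oforb hH h (f := f) (cSupp 1 z0 ∪ ∅) (y (k - 1)) z₀
  have hF := hs.famOf hH h hf hp hs.ne_empty (spc_empty f (fun _ => True)) hΦ
    (fun m z c hc' _ _ p _ _ h3 _ => hbad m z c hc' p h3)
  refine hF.slack hH hc h hk hends hf (fun _ => trivial) (fun g g' => h5 _ (fun v w => hF.two v w g g') ?_)
  intro h1 h2
  exact fam_one (fun he => h.xy 1 (k - 1) le_rfl h.pos (by omega) (by omega) he.symm)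
    (fun he => by
      have := h.injy (k - 1) k (by omega) (by omega) (by omega) le_rfl he
      omega) (fun hw => absurd hw (Set.notMem_empty _)) (fun _ => hΦ.one h1 h2 g g')

lemma bad_xk (hH : ClassC H R) (hc : Crit H R) (h : Chn H R k x y) (hk : 3 ≤ k) {m : ℕ} {z c : ℕ → V}
    (hK : Cat H R m z c) {p : ℕ} (hp : c p = x k) : ¬ BadP m (JC k x y c) p :=
  fun hB => (badH hH hc h hk m z c hK p hB).1 hp

lemma bad_y1 (hH : ClassC H R) (hc : Crit H R) (h : Chn H R k x y) (hk : 3 ≤ k) {m : ℕ} {z c : ℕ → V}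
    (hK : Cat H R m z c) {p : ℕ} (hp : c p = y 1) : ¬ BadP m (JC k x y c) p := by
  intro hB
  refine bad_xk hH hc h.rev hk hK (p := p) ?_ ?_
  · show c p = y (k + 1 - k)
    rw [show k + 1 - k = 1 by omega]; exact hp
  · rw [jc_rev]; exact hB

section

variable {f : V → Q} {z0 c0 : ℕ → V} {p : Q} {S : Set V} {φ Φ : V → V → (ℕ → Q) → Finset Q}
  {P : Q → Prop} {v₀ z₀ : V}

/-- Slack at both ends, with the light port edges. -/
theorem Fam.ends3 (hF : Fam H R k x y f z0 c0 p S φ Φ P v₀ z₀) (hH : ClassC H R) (hc : Crit H R)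
    (h : Chn H R k x y) (hk : 3 ≤ k)
    (hends : (∀ w, ¬ Lk H R (x 1) w) ∧ ∀ w, ¬ Lk H R (y k) w) (hf : OffC H R k x y f)
    (hP : ∀ t, P t) {zL zR : V}
    (hL : ∀ Φ : V → V → Finset Q, (∀ v z, (Φ v z).card ≤ 2) → (Φ (x 1) (z0 1)).card ≤ 1 →
      (zL ∈ prt H R (y 1) → InnerPt H R zL → (Φ (y 1) zL).card ≤ 1) →
        4 ≤ (lst H R x y Φ 1).card)
    (hR' : ∀ Φ : V → V → Finset Q, (∀ v z, (Φ v z).card ≤ 2) → (Φ (y k) (z0 1)).card ≤ 1 →
      (zR ∈ prt H R (x k) → InnerPt H R zR → (Φ (x k) zR).card ≤ 1) →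
        4 ≤ (lst H R x y Φ k).card)
    (h1 : zL ∈ prt H R (y 1) → InnerPt H R zL → ∀ g g', (zL ∈ S → (φ (y 1) zL g ∪ φ (y 1) zL g').card ≤ 1) ∧
      (zL ∉ S → (Φ (y 1) zL g ∪ Φ (y 1) zL g').card ≤ 1))
    (h2 : zR ∈ prt H R (x k) → InnerPt H R zR → ∀ g g', (zR ∈ S → (φ (x k) zR g ∪ φ (x k) zR g').card ≤ 1) ∧
      (zR ∉ S → (Φ (x k) zR g ∪ Φ (x k) zR g').card ≤ 1)) : False := by
  have hkp := h.pos
  refine hF.ends2 hH hc h hk hends hf hP (fun g => ?_) (fun g g' => ?_)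
  · refine hL _ (card_of_two hF.two g) (by rw [hF.x1]; simp) (fun a b => ?_)
    have := fam_one (k := k) (x := x) (y := y) (z0 := z0) (p := p) (S := S) (φ := φ) (Φ := Φ)
      (v := y 1) (w := zL) (g := g) (g' := g)
      (fun he => h.xy 1 1 le_rfl hkp le_rfl hkp he.symm)
      (fun he => by
        have := h.injy 1 k le_rfl hkp hkp le_rfl he
        omega) (h1 a b g g).1 (h1 a b g g).2
    rwa [Finset.union_self] at this
  · refine hR' _ (fun v w => hF.two v w g g') ?_ (fun a b => ?_)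
    · show (fam k x y z0 p S φ Φ (y k) (z0 1) g ∪ fam k x y z0 p S φ Φ (y k) (z0 1) g').card ≤ 1
      rw [hF.yk h, hF.yk h]; simp
    · exact fam_one (k := k) (x := x) (y := y) (z0 := z0) (p := p) (S := S) (φ := φ) (Φ := Φ)
        (v := x k) (w := zR) (g := g) (g' := g')
        (fun he => by
          have := h.injx k 1 hkp le_rfl le_rfl hkp he
          omega)
        (fun he => h.xy k k hkp le_rfl hkp le_rfl he) (h2 a b g g').1 (h2 a b g g').2

end

/-- Slack at both ends, without a designated inner port at the left end. -/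
theorem star_none (hG : ClassC G R) (hle : H ≤ G) (hc : Crit H R)
    (h : Chn H R k x y) (hk : 3 ≤ k) (hends : (∀ w, ¬ Lk H R (x 1) w) ∧ ∀ w, ¬ Lk H R (y k) w)
    {z0 c0 : ℕ → V} (hs : StarD H R k x y z0 c0) {zL zR : V}
    (hL : ∀ Φ : V → V → Finset Q, (∀ v z, (Φ v z).card ≤ 2) → (Φ (x 1) (z0 1)).card ≤ 1 →
      (zL ∈ prt H R (y 1) → InnerPt H R zL → (Φ (y 1) zL).card ≤ 1) →
        4 ≤ (lst H R x y Φ 1).card)
    (hR' : ∀ Φ : V → V → Finset Q, (∀ v z, (Φ v z).card ≤ 2) → (Φ (y k) (z0 1)).card ≤ 1 →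
      (zR ∈ prt H R (x k) → InnerPt H R zR → (Φ (x k) zR).card ≤ 1) →
        4 ≤ (lst H R x y Φ k).card)
    (hno : ¬ (zL ∈ prt H R (y 1) ∧ InnerPt H R zL)) : False := by
  have hH := hG.mono hle
  obtain ⟨f, hf⟩ := exists_off h hc
  obtain ⟨p, hp⟩ := k0_star h (f := f) hs.star hs.sp
  obtain ⟨Φ, hΦ⟩ := exists_oforb hH h (f := f) (cSupp 1 z0 ∪ ∅) (x k) zR
  have hF := hs.famOf hH h hf hp hs.ne_empty (spc_empty f (fun _ => True)) hΦ
    (fun m z c hc' _ _ p _ _ h3 _ => bad_xk hH hc h hk hc' h3)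
  exact hF.ends3 hH hc h hk hends hf (fun _ => trivial) hL hR' (fun a b => absurd ⟨a, b⟩ hno)
    (fun a b g g' => ⟨fun hw => absurd hw (Set.notMem_empty _), fun _ => hΦ.one a b g g'⟩)

/-- Slack at both ends, with a designated inner port at the left end in a component that does not
contain the designated vertex at the right end. -/
theorem star_diff (hG : ClassC G R) (hle : H ≤ G) (hc : Crit H R)
    (h : Chn H R k x y) (hk : 3 ≤ k) (hends : (∀ w, ¬ Lk H R (x 1) w) ∧ ∀ w, ¬ Lk H R (y k) w)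
    {z0 c0 : ℕ → V} (hs : StarD H R k x y z0 c0) {zL zR : V}
    (hL : ∀ Φ : V → V → Finset Q, (∀ v z, (Φ v z).card ≤ 2) → (Φ (x 1) (z0 1)).card ≤ 1 →
      (zL ∈ prt H R (y 1) → InnerPt H R zL → (Φ (y 1) zL).card ≤ 1) →
        4 ≤ (lst H R x y Φ 1).card)
    (hR' : ∀ Φ : V → V → Finset Q, (∀ v z, (Φ v z).card ≤ 2) → (Φ (y k) (z0 1)).card ≤ 1 →
      (zR ∈ prt H R (x k) → InnerPt H R zR → (Φ (x k) zR).card ≤ 1) →
        4 ≤ (lst H R x y Φ k).card)
    {m : ℕ} {z c : ℕ → V} (hK : Cat H R m z c) (hne : cSupp m z ≠ cSupp 1 z0)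
    (hex : ∃ j ≤ m + 1, InC k x y (c j)) (hzL : zL ∈ cSupp m z) (hzR : zR ∉ cSupp m z) : False := by
  have hH := hG.mono hle
  obtain ⟨f, hf⟩ := exists_off h hc
  obtain ⟨p, hp⟩ := k0_star h (f := f) hs.star hs.sp
  obtain ⟨φ, hφ⟩ := okill_of_not_nc hH h hf hK hex (v₀ := y 1) (z₀ := zL) (hs.oth m z c hK hne).1
    (hs.oth m z c hK hne).2 (fun p _ _ h3 _ => bad_y1 hH hc h hk hK h3)
  obtain ⟨Φ, hΦ⟩ := exists_oforb hH h (f := f) (cSupp 1 z0 ∪ cSupp m z) (x k) zR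
  have hF := hs.famOf hH h hf hp hne.symm (spc_okill hK hφ (fun _ => True)) hΦ
    (fun m z c hc' _ _ p _ _ h3 _ => bad_xk hH hc h hk hc' h3)
  exact hF.ends3 hH hc h hk hends hf (fun _ => trivial) hL hR'
    (fun a b g g' => ⟨fun _ => hφ.one a b g g', fun hw => absurd hzL hw⟩)
    (fun a b g g' => ⟨fun hw => absurd hw hzR, fun _ => hΦ.one a b g g'⟩)

end CLB.H80
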