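import Pool.Agent.Helper80_DA.Star3
import Pool.Agent.Helper57_DA.Two

/-!
One vertex seeing the two ends of an open chain: a common component at the two ends, no known port next
to the two designated positions.
-/

set_option autoImplicit false
set_option linter.unusedSectionVars false

namespace CLB.H80

open Finset Classical
open CLB.H95
open H3DA (Q neg nr)
open CLB.H3 (CExt Cat IsTwo Fits UPath he_of_unc cat_structure chn_side)
open CLB.H91 (ovr ovr_in ovr_out sp11 K0K tau tau_tau k0_star ends_rev)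

variable {V : Type*} {G H : SimpleGraph V} {R : V → Bool} [Fintype V] {k : ℕ} {x y : ℕ → V}

/-- Forbidden sets from static kill sets; some ports may be left uncharged. -/
lemma spc_phiQ (h : Chn H R k x y) {f : V → Q} {m : ℕ} {z c : ℕ → V} (hK : Cat H R m z c) (hm : 2 ≤ m)
    {e e' : ℕ} {J : ℕ → Prop} {s₀ : ℕ → Q} {F : ℕ → Finset Q} (hE : Early H k x y m c e e')
    (hJ0 : ∀ j ≤ m + 1, J j → InC k x y (c j)) (hF : KQ m J e e' s₀ F) {P : Q → Prop}
    (hs : ∀ mu : ℕ → Q, P (mu 1) → ∀ j ≤ m + 1, ¬ J j → lbl k x y mu f (c j) = s₀ j) :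
    Spc H R k x y f (cSupp m z) (phiQ k x y f m z c e e' J F) P where
  two := phiQ_two hF.two
  dep _ h1 h2 w _ _ hs := phiQ_dep h hK hE hJ0 h1 h2 w hs
  unc v hv := by
    obtain ⟨j, j1, j2, rfl⟩ := hv
    exact hK.unc j j1 j2
  it v hv a b hT := by
    obtain ⟨j, j1, j2, rfl⟩ := hv
    exact isTwo_not_cat hK j1 j2 hT
  sep m' z' c' hK' hne i i1 i2 hi := hne (cSupp_eq hK' hK (mem_cSupp i1 i2) hi)
  ok mu hP _ hav m' z' c' hK' hS := by
    rw [cext_iff_fits hK', hS, ← cext_iff_fits hK]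
    exact phiQ_ok hK hm hE hJ0 hF hav (hs mu hP)

/-- The charge of a port edge of a component at an inner position. -/
lemma phiQ_inner {f : V → Q} {m : ℕ} {z c : ℕ → V} {e e' : ℕ} {J : ℕ → Prop} {F : ℕ → Finset Q}
    (hK : Cat H R m z c) (he : e = 0 ∨ e = 1) (he' : e' = m ∨ e' = m + 1) {p : ℕ} (h1 : 2 ≤ p)
    (h2 : p + 1 ≤ m) (g : ℕ → Q) :
    phiQ k x y f m z c e e' J F (c p) (z p) g = if J p then F p else ∅ := by
  have e0 : cl m p = p := cl_self (by omega) (by omega)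
  have e1 := phiQ_port (k := k) (x := x) (y := y) (f := f) (e := e) (e' := e') (J := J) (F := F) hK
    (j := p) (by omega) g
  rw [e0] at e1
  rw [e1, gam_inner he he' h1 h2]

/-- A common component at the two ends, no known port next to the designated positions. -/
theorem star_C (hG : ClassC G R) (hle : H ≤ G) (hc : Crit H R)
    (h : Chn H R k x y) (hk : 3 ≤ k) (hends : (∀ w, ¬ Lk H R (x 1) w) ∧ ∀ w, ¬ Lk H R (y k) w)
    {z0 c0 : ℕ → V} (hs : StarD H R k x y z0 c0) {m : ℕ} {z c : ℕ → V} (hK : Cat H R m z c)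
    (hne : cSupp m z ≠ cSupp 1 z0) {p1 pk : ℕ} (hp1 : 2 ≤ p1) (hp1m : p1 + 1 ≤ m) (hc1 : c p1 = y 1)
    (hpk : 2 ≤ pk) (hpkm : pk + 1 ≤ m) (hck : c pk = x k)
    (hL : ∀ Φ : V → V → Finset Q, (∀ v z, (Φ v z).card ≤ 2) → (Φ (x 1) (z0 1)).card ≤ 1 →
      (z p1 ∈ prt H R (y 1) → InnerPt H R (z p1) → (Φ (y 1) (z p1)).card ≤ 1) →
        4 ≤ (lst H R x y Φ 1).card)
    (hR' : ∀ Φ : V → V → Finset Q, (∀ v z, (Φ v z).card ≤ 2) → (Φ (y k) (z0 1)).card ≤ 1 →
      (z pk ∈ prt H R (x k) → InnerPt H R (z pk) → (Φ (x k) (z pk)).card ≤ 1) →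
        4 ≤ (lst H R x y Φ k).card)
    (hadj : ∀ j ≤ m + 1, ¬ InC k x y (c j) → (cl m j + 2 ≤ p1 ∨ p1 + 2 ≤ cl m j) ∧
      (cl m j + 2 ≤ pk ∨ pk + 2 ≤ cl m j)) : False := by
  have hH := hG.mono hle
  have hkp := h.pos
  have hm : 2 ≤ m := by omega
  have hJ1 : JC k x y c p1 := by
    show InC k x y (c p1)
    rw [hc1]; exact InC.y le_rfl hkp
  have hJk : JC k x y c pk := by
    show InC k x y (c pk)
    rw [hck]; exact InC.x hkp le_rfl
  have hpp : p1 ≠ pk := by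
    rintro rfl
    exact h.xy k 1 hkp le_rfl le_rfl hkp (hck.symm.trans hc1)
  obtain ⟨f, hf⟩ := exists_off h hc
  obtain ⟨p, hp⟩ := k0_star h (f := f) hs.star hs.sp
  obtain ⟨e, e', hE⟩ := exists_early hH h hK
  obtain ⟨F, f1, f2, f3, f4, f5, f6⟩ := CLB.H57.killsQ2 (J := JC k x y c) (s₀ := fun j => f (c j)) hm hE.he
    hE.he' (fun a b => offC_fork h hf hK (by omega) (by omega) (by
      unfold cl; split_ifs <;> omega) a b)
    (fun a b => offC_fork h hf hK (by omega) (by omega)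
      (by rw [cl_self (by omega) le_rfl, cl_last]) a b)
    ((hs.oth m z c hK hne).2 hm) hp1 hp1m hJ1 hpk hpkm hJk hpp hadj
  have hKQ : KQ m (JC k x y c) e e' (fun j => f (c j)) F := ⟨f1, f4, f5, f6⟩
  obtain ⟨Φ, hΦ⟩ := exists_oforb hH h (f := f) (cSupp 1 z0 ∪ cSupp m z) (x k) (z pk)
  have hF := hs.famOf hH h hf hp hne.symm (P := fun _ => True)
    (spc_phiQ (J := JC k x y c) h hK hm hE (fun j _ hj => hj) hKQ (fun mu _ j hj hJ => lbl_out hJ)) hΦ
    (fun m z c hc' _ _ p _ _ h3 _ => bad_xk hH hc h hk hc' h3)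
  refine hF.ends3 hH hc h hk hends hf (fun _ => trivial) hL hR'
    (fun a b g g' => ⟨fun _ => ?_, fun hw => absurd (mem_cSupp (i := p1) (by omega) (by omega)) hw⟩)
    (fun a b g g' => ⟨fun _ => ?_, fun hw => absurd (mem_cSupp (i := pk) (by omega) (by omega)) hw⟩)
  · rw [← hc1, phiQ_inner hK hE.he hE.he' hp1 hp1m, phiQ_inner hK hE.he hE.he' hp1 hp1m, if_pos hJ1,
      Finset.union_self]
    exact f2
  · rw [← hck, phiQ_inner hK hE.he hE.he' hpk hpkm, phiQ_inner hK hE.he hE.he' hpk hpkm, if_pos hJk,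
      Finset.union_self]
    exact f3

end CLB.H80
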