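import Pool.Agent.Helper80_DA.Star5

/-!
One vertex seeing the two ends of an open chain: the case of a known port next to a designated position.
-/

set_option autoImplicit false
set_option linter.unusedSectionVars false

namespace CLB.H80

open Finset Classical
open CLB.H95
open H3DA (Q neg nr)
open CLB.H3 (CExt Cat IsTwo Fits UPath he_of_unc cat_structure chn_side pos)
open CLB.H91 (ovr ovr_in ovr_out sp11 K0K tau tau_tau k0_star ends_rev)

variable {V : Type*} {G H : SimpleGraph V} {R : V → Bool} [Fintype V] {k : ℕ} {x y : ℕ → V}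

lemma phiQ_one {f : V → Q} {m : ℕ} {z c : ℕ → V} {e e' : ℕ} {J : ℕ → Prop} {F : ℕ → Finset Q}
    (hF : ∀ j, (F j).card ≤ 1) (v w : V) (g : ℕ → Q) :
    (phiQ k x y f m z c e e' J F v w g).card ≤ 1 := by
  unfold phiQ
  split_ifs with hh
  · unfold Gam
    split_ifs
    · simp
    · simp
    · exact hF _
    · simp
  · simp

/-- A vertex without charged ports. -/
lemma phiQ_off {f : V → Q} {m : ℕ} {z c : ℕ → V} {e e' : ℕ} {J : ℕ → Prop} {F : ℕ → Finset Q}
    (he : e = 0 ∨ e = 1) (he' : e' = m ∨ e' = m + 1) (hJ0 : ∀ j ≤ m + 1, J j → InC k x y (c j)) {v : V}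
    (hv : ∀ j ≤ m + 1, c j = v → ¬ J j) (w : V) (g : ℕ → Q) :
    phiQ k x y f m z c e e' J F v w g = ∅ := by
  unfold phiQ
  split_ifs with hh
  · obtain ⟨a1, a2, a3⟩ := hh.choose_spec
    exact gam_none hJ0 he he' (hv _ a1 a2) g
  · rfl

/-- The labels forbidden at one vertex with at most one port edge. -/
lemma fset_card {v : V} (hv : (prt H R v).card ≤ 1) {Ψ : V → Finset Q} {n : ℕ}
    (hn : ∀ z ∈ prt H R v, (Ψ z).card ≤ n) {τ : Q → Q} (hτ : Function.Injective τ) :
    (univ.filter (fun s => ∃ z ∈ prt H R v, τ s ∈ Ψ z)).card ≤ n := by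
  by_cases h0 : ∃ z, z ∈ prt H R v
  · obtain ⟨z, hz⟩ := h0
    have hz' : ∀ z' ∈ prt H R v, z' = z := by
      intro z' h'
      exact Finset.card_le_one.1 hv z' h' z hz
    refine le_trans (Finset.card_le_card_of_injOn τ ?_ hτ.injOn) (hn z hz)
    intro s hs
    simp only [Finset.coe_filter, mem_univ, true_and, Set.mem_ofPred_eq] at hs
    obtain ⟨z', h1, h2⟩ := hs
    rw [hz' z' h1] at h2
    exact h2
  · rw [Finset.filter_eq_empty_iff.2]
    · simp
    · rintro s _ ⟨z, hz, _⟩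
      exact h0 ⟨z, hz⟩

/-- The fork mate of the port `j`. -/
def fm (m j : ℕ) : ℕ := if j = 0 then 1 else if j = 1 then 0 else if j = m then m + 1 else m

section

variable {z0 c0 z c : ℕ → V} {m : ℕ}

/-- A vertex with two port edges has only one port edge into another component if one of them goes to
the vertex seeing both ends. -/
lemma one_port (hH : ClassC H R) (h : Chn H R k x y) (hs : StarD H R k x y z0 c0) (hK : Cat H R m z c)
    (hne : cSupp m z ≠ cSupp 1 z0) {i j : ℕ} (hi : i ≤ m + 1) (hj : j ≤ m + 1) (h1 : c i = x 1)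
    (h2 : c j = x 1) : i = j := by
  by_contra hij
  have hkp := h.pos
  have mi := cl_mem hK.pos hi
  have mj := cl_mem hK.pos hj
  have a1 : z (cl m i) ∈ prt H R (x 1) := by
    rw [mem_prt, ← h1]; exact ⟨cat_adj_cl hK hi, hK.unc _ mi.1 mi.2⟩
  have a2 : z (cl m j) ∈ prt H R (x 1) := by
    rw [mem_prt, ← h2]; exact ⟨cat_adj_cl hK hj, hK.unc _ mj.1 mj.2⟩
  have a3 := (hs.ports h).1
  have n12 : z (cl m i) ≠ z (cl m j) := fun he => hij (port_unique hK hi hj (h1.trans h2.symm) he)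
  have n0 : ∀ i ≤ m + 1, z (cl m i) ≠ z0 1 := by
    intro i hi he
    have mi := cl_mem hK.pos hi
    exact hne (cSupp_eq hK hs.star (mem_cSupp mi.1 mi.2) (by rw [he]; exact mem_cSupp le_rfl le_rfl))
  have hc3 : 2 < (prt H R (x 1)).card :=
    Finset.two_lt_card.2 ⟨_, a1, _, a2, _, a3, n12, n0 i hi, n0 j hj⟩
  have := prt_card hH (h.cov (InC.x le_rfl hkp))
  omega

/-- No conflict in the forks except for one label. -/
lemma fork_ok (h : Chn H R k x y) {f : V → Q} (hf : OffC H R k x y f) (hK : Cat H R m z c) {i j : ℕ}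
    (hi : i ≤ m + 1) (hj : j ≤ m + 1) (hij : cl m i = cl m j) (hi1 : c i ≠ y 1) (hj1 : c j ≠ y 1)
    (hu : ¬ (c i = x 1 ∧ c j = x 1)) {t : Q} (h1 : c i = x 1 → t ≠ f (c j)) (h2 : c j = x 1 → t ≠ f (c i))
    (a : ¬ (InC k x y (c i) ∧ c i ≠ x 1 ∧ c i ≠ y 1)) (b : ¬ (InC k x y (c j) ∧ c j ≠ x 1 ∧ c j ≠ y 1)) :
    lbl k x y (fun _ => t) f (c i) ≠ neg (lbl k x y (fun _ => t) f (c j)) := by
  have hkp := h.pos
  have hx : lbl k x y (fun _ => t) f (x 1) = neg t := by rw [lbl_x h le_rfl hkp, sg_odd (by omega)]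
  by_cases ci : c i = x 1
  · have cj : c j ≠ x 1 := fun cj => hu ⟨ci, cj⟩
    have oj : ¬ InC k x y (c j) := fun h' => b ⟨h', cj, hj1⟩
    rw [lbl_out oj, ci, hx]
    intro he
    apply h1 ci
    rw [← H3DA.neg_neg t, he, H3DA.neg_neg]
  · have oi : ¬ InC k x y (c i) := fun h' => a ⟨h', ci, hi1⟩
    rw [lbl_out oi]
    by_cases cj : c j = x 1
    · rw [cj, hx, H3DA.neg_neg]
      exact fun he => h2 cj he.symm
    · have oj : ¬ InC k x y (c j) := fun h' => b ⟨h', cj, hj1⟩
      rw [lbl_out oj]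
      exact offC_fork h hf hK hi hj hij oi oj

end

end CLB.H80
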