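import Pool.Agent.Helper80_DA.Star6

/-!
One vertex seeing the two ends of an open chain: the case of a known port next to a designated position.
-/

set_option autoImplicit false
set_option linter.unusedSectionVars false

namespace CLB.H80

open Finset Classical
open CLB.H95
open H3DA (Q neg nr)
open CLB.H3 (CExt Cat IsTwo Fits UPath he_of_unc cat_structure chn_side pos)
open CLB.H91 (ovr ovr_in ovr_out sp11 K0K tau tau_tau k0_star ends_rev)

variable {V : Type*} {G H : SimpleGraph V} {R : V → Bool} [Fintype V] {k : ℕ} {x y : ℕ → V}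

lemma nr_dead : ∀ u t : Q, nr u t = true → nr u (neg t) = false := by decide

/-- A common component at the two ends, with a known port next to the position of `y 1`. -/
theorem star_A (hG : ClassC G R) (hle : H ≤ G) (hc : Crit H R)
    (h : Chn H R k x y) (hk : 3 ≤ k) (hends : (∀ w, ¬ Lk H R (x 1) w) ∧ ∀ w, ¬ Lk H R (y k) w)
    {z0 c0 : ℕ → V} (hs : StarD H R k x y z0 c0) {m : ℕ} {z c : ℕ → V} (hK : Cat H R m z c)
    (hne : cSupp m z ≠ cSupp 1 z0) {p1 pk w : ℕ} (hp1 : 2 ≤ p1) (hp1m : p1 + 1 ≤ m) (hc1 : c p1 = y 1)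
    (hpk : 2 ≤ pk) (hpkm : pk + 1 ≤ m) (hck : c pk = x k) (hw : w ≤ m + 1) (hwo : ¬ InC k x y (c w))
    (hadj : pos m p1 = pos m w + 1 ∨ pos m w = pos m p1 + 1)
    (hR' : ∀ Φ : V → V → Finset Q, (∀ v z, (Φ v z).card ≤ 2) → (Φ (y k) (z0 1)).card ≤ 1 →
      (z pk ∈ prt H R (x k) → InnerPt H R (z pk) → (Φ (x k) (z pk)).card ≤ 1) →
        4 ≤ (lst H R x y Φ k).card) : False := by
  have hH := hG.mono hle
  have hkp := h.pos
  have hm : 2 ≤ m := by omega
  obtain ⟨f, hf⟩ := exists_off h hc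
  obtain ⟨p, hp⟩ := k0_star h (f := f) hs.star hs.sp
  obtain ⟨e, e', hE⟩ := exists_early hH h hK
  obtain ⟨Φ, hΦ⟩ := exists_oforb hH h (f := f) (cSupp 1 z0 ∪ cSupp m z) (x k) (z pk)
  set S := cSupp m z with hS
  set J : ℕ → Prop := fun j => InC k x y (c j) ∧ c j ≠ x 1 ∧ c j ≠ y 1 with hJ
  have hJs : ∀ j, J j → JC k x y c j := fun j hj => hj.1
  have hJ0 : ∀ j ≤ m + 1, J j → InC k x y (c j) := fun j _ hj => hj.1
  have hN : ¬ NCp m (JC k x y c) := (hs.oth m z c hK hne).2 hm
  have hJ1 : JC k x y c p1 := by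
    show InC k x y (c p1)
    rw [hc1]; exact InC.y le_rfl hkp
  have hJ1' : ¬ J p1 := fun h' => h'.2.2 hc1
  have hJk : J pk := by
    refine ⟨?_, ?_, ?_⟩
    · rw [hck]; exact InC.x hkp le_rfl
    · rw [hck]; intro he
      have := h.injx k 1 hkp le_rfl le_rfl hkp he
      omega
    · rw [hck]; exact h.xy k 1 hkp le_rfl le_rfl hkp
  have hN' : ¬ NCp m J := fun h' => hN (ncp_mono hJs h')
  have hB' : ¬ BadP m J pk := fun h' => hN (bad_mono hJs hp1 hp1m hJ1 hJ1' h')
  have hsq : SQ m J pk := SQ.of_not_bad hm hN' hB'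
  -- the port edges of `x 1` and `y 1`
  have hcl1 : cl m p1 = p1 := cl_self (by omega) (by omega)
  have hz1 : z p1 ∈ prt H R (y 1) := by
    rw [mem_prt, ← hc1]
    have := cat_adj_cl hK (j := p1) (by omega)
    rw [hcl1] at this
    exact ⟨this, hK.unc _ (by omega) (by omega)⟩
  have hprt : ∀ j ≤ m + 1, z (cl m j) ∈ prt H R (c j) := by
    intro j hj
    have mj := cl_mem hK.pos hj
    rw [mem_prt]; exact ⟨cat_adj_cl hK hj, hK.unc _ mj.1 mj.2⟩
  have hpy1 : (prt H R (y 1)).card ≤ 1 := prt_card_lk hH (h.lk 1 le_rfl (by omega))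
  have hy1 : ∀ j ≤ m + 1, c j = y 1 → j = p1 := by
    intro j hj he
    refine port_unique hK hj (by omega) (he.trans hc1.symm) ?_
    rw [hcl1]
    have := hprt j hj
    rw [he] at this
    exact Finset.card_le_one.1 hpy1 _ this _ hz1
  have hone : ∀ i j, i ≤ m + 1 → j ≤ m + 1 → c i = x 1 → c j = x 1 → i = j :=
    fun i j hi hj h1 h2 => one_port hH h hs hK hne hi hj h1 h2
  -- the known labels
  set s₀ : Q → ℕ → Q := fun t j => lbl k x y (fun _ => t) f (c j) with hs₀
  have hknown : ∀ (t : Q) (mu : ℕ → Q), mu 1 = t → ∀ j ≤ m + 1, ¬ J j →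
      lbl k x y mu f (c j) = s₀ t j := by
    intro t mu ht j hj hjJ
    show lbl k x y mu f (c j) = lbl k x y (fun _ => t) f (c j)
    by_cases e1 : c j = x 1
    · rw [e1, lbl_x h le_rfl hkp, lbl_x h le_rfl hkp, ht]
    · by_cases e2 : c j = y 1
      · rw [e2, lbl_y h le_rfl hkp, lbl_y h le_rfl hkp, ht]
      · have : ¬ InC k x y (c j) := fun h' => hjJ ⟨h', e1, e2⟩
        rw [lbl_out this, lbl_out this]
  -- conflicts
  have hcf : ∃ q : Q, ∀ t, (t ≠ q ∨ ∀ j ≤ m + 1, c j ≠ x 1) →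
      (¬ J 0 → ¬ J 1 → s₀ t 0 ≠ neg (s₀ t 1)) ∧
      (¬ J m → ¬ J (m + 1) → s₀ t m ≠ neg (s₀ t (m + 1))) := by
    have cl01 : cl m 0 = cl m 1 := by rw [cl_zero, cl_self le_rfl (by omega)]
    have clm : cl m m = cl m (m + 1) := by rw [cl_self (by omega) le_rfl, cl_last]
    have y0 : c 0 ≠ y 1 := fun he => by have := hy1 0 (by omega) he; omega
    have y1 : c 1 ≠ y 1 := fun he => by have := hy1 1 (by omega) he; omega
    have ym : c m ≠ y 1 := fun he => by have := hy1 m (by omega) he; omega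
    have ym1 : c (m + 1) ≠ y 1 := fun he => by have := hy1 (m + 1) le_rfl he; omega
    have u01 : ¬ (c 0 = x 1 ∧ c 1 = x 1) := fun he => by
      have := hone 0 1 (by omega) (by omega) he.1 he.2
      omega
    have um : ¬ (c m = x 1 ∧ c (m + 1) = x 1) := fun he => by
      have := hone m (m + 1) (by omega) (by omega) he.1 he.2
      omega
    by_cases hx : ∃ j ≤ m + 1, c j = x 1
    · obtain ⟨j0, hj0, hcj0⟩ := hx
      refine ⟨f (c (fm m j0)), fun t ht => ?_⟩
      have ht' : t ≠ f (c (fm m j0)) := by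
        rcases ht with ht | ht
        · exact ht
        · exact absurd hcj0 (ht j0 hj0)
      have hq : ∀ i i' : ℕ, i ≤ m + 1 → fm m i = i' → c i = x 1 → t ≠ f (c i') := by
        intro i i' hi hii hci
        have := hone i j0 hi hj0 hci hcj0
        subst this
        rw [← hii]; exact ht'
      constructor
      · intro a b
        refine fork_ok h hf hK (by omega) (by omega) cl01 y0 y1 u01 (hq 0 1 (by omega) ?_)
          (hq 1 0 (by omega) ?_) a b
        · unfold fm; simp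
        · unfold fm; simp
      · intro a b
        refine fork_ok h hf hK (by omega) (by omega) clm ym ym1 um (hq m (m + 1) (by omega) ?_)
          (hq (m + 1) m (by omega) ?_) a b
        · unfold fm; rw [if_neg (by omega), if_neg (by omega), if_pos rfl]
        · unfold fm; rw [if_neg (by omega), if_neg (by omega), if_neg (by omega)]
    · push Not at hx
      refine ⟨(false, false, false), fun t _ => ⟨fun a b => ?_, fun a b => ?_⟩⟩
      · exact fork_ok h hf hK (by omega) (by omega) cl01 y0 y1 u01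
          (fun h' => absurd h' (hx 0 (by omega))) (fun h' => absurd h' (hx 1 (by omega))) a b
      · exact fork_ok h hf hK (by omega) (by omega) clm ym ym1 um
          (fun h' => absurd h' (hx m (by omega))) (fun h' => absurd h' (hx (m + 1) (by omega))) a b
  obtain ⟨q, hq⟩ := hcf
  set g0 : ℕ → Q := fun _ => (false, false, false) with hg0
  -- the lists
  set FM : (ℕ → Finset Q) → V → V → (ℕ → Q) → Finset Q := fun F =>
    fam k x y z0 p S (phiQ k x y f m z c e e' J F) Φ with hFM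
  set FM0 : V → V → (ℕ → Q) → Finset Q := fam k x y z0 p S (fun _ _ _ => ∅) Φ with hFM0
  have hoff1 : ∀ (F : ℕ → Finset Q) (v w : V) (g : ℕ → Q), (v = x 1 ∨ v = y 1) →
      phiQ k x y f m z c e e' J F v w g = ∅ := by
    intro F v w g hv
    refine phiQ_off hE.he hE.he' hJ0 (fun j hj hcj hjJ => ?_) w g
    rcases hv with hv | hv
    · exact hjJ.2.1 (hcj.trans hv)
    · exact hjJ.2.2 (hcj.trans hv)
  have hΦdep : ∀ (i : ℕ), 1 ≤ i → i ≤ k → ∀ (w : V) (g g' : ℕ → Q), Same (i - 1) g g' →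
      Φ (x i) w g = Φ (x i) w g' ∧ Φ (y i) w g = Φ (y i) w g' := fun i h1 h2 w g g' hs' =>
    hΦ.dep i h1 h2 w g g' hs'
  have hlist1 : ∀ (F : ℕ → Finset Q) (g : ℕ → Q), lis H R x y (FM F) g 1 = lis H R x y FM0 g0 1 := by
    intro F g
    refine lst_congr' (Φ := fun v z => FM F v z g) (Φ' := fun v z => FM0 v z g0) (fun w => ?_)
    have hd := hΦdep 1 le_rfl hkp w g g0 (fun j j1 j2 => by omega)
    constructor
    · show fam k x y z0 p S (phiQ k x y f m z c e e' J F) Φ (x 1) w g =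
        fam k x y z0 p S (fun _ _ _ => ∅) Φ (x 1) w g0
      unfold fam
      by_cases hw0 : w ∈ cSupp 1 z0
      · rw [ovr_in hw0, ovr_in hw0]; rfl
      · rw [ovr_out hw0, ovr_out hw0]
        by_cases hwS : w ∈ S
        · rw [ovr_in hwS, ovr_in hwS, hoff1 F _ _ _ (Or.inl rfl)]
        · rw [ovr_out hwS, ovr_out hwS]; exact hd.1
    · show fam k x y z0 p S (phiQ k x y f m z c e e' J F) Φ (y 1) w g =
        fam k x y z0 p S (fun _ _ _ => ∅) Φ (y 1) w g0
      unfold fam
      by_cases hw0 : w ∈ cSupp 1 z0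
      · rw [ovr_in hw0, ovr_in hw0]; rfl
      · rw [ovr_out hw0, ovr_out hw0]
        by_cases hwS : w ∈ S
        · rw [ovr_in hwS, ovr_in hwS, hoff1 F _ _ _ (Or.inr rfl)]
        · rw [ovr_out hwS, ovr_out hwS]; exact hd.2
  have hzS : z p1 ∈ S := mem_cSupp (by omega) (by omega)
  have hdisj : ∀ v, v ∈ S → v ∉ cSupp 1 z0 := fun v hv hv' => hne (cSupp_eq hK hs.star hv hv')
  have hFM0two : ∀ v z g g', (FM0 v z g ∪ FM0 v z g').card ≤ 2 := fam_two (by simp) hΦ.two
  have hFM0x : FM0 (x 1) (z0 1) g0 = {neg p} := by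
    show fam k x y z0 p S (fun _ _ _ => ∅) Φ (x 1) (z0 1) g0 = {neg p}
    unfold fam
    rw [ovr_in (mem_cSupp le_rfl le_rfl)]
    unfold cg
    rw [ends_x1]
  have hFM0S : ∀ v ∈ S, ∀ u, FM0 u v g0 = ∅ := by
    intro v hv u
    show fam k x y z0 p S (fun _ _ _ => ∅) Φ u v g0 = ∅
    unfold fam
    rw [ovr_out (hdisj v hv), ovr_in hv]
  have hcy : cst H R (fun v z => FM0 v z g0) (y 1) ≤ 0 :=
    cst_le_zero (card_of_two hFM0two g0) (n := 0) hpy1 hz1 (hFM0S _ hzS _)
  have hlc := lst_card (G := H) (R := R) (x := x) (y := y) (fun v z => FM0 v z g0) 1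
  have hpx1 : (prt H R (x 1)).card ≤ 2 := prt_card hH (h.cov (InC.x le_rfl hkp))
  have hA : ∃ t, (t ≠ q ∨ ∀ j ≤ m + 1, c j ≠ x 1) ∧ t ∈ lis H R x y FM0 g0 1 ∧
      (neg t ≠ q ∨ ∀ j ≤ m + 1, c j ≠ x 1) ∧ neg t ∈ lis H R x y FM0 g0 1 := by
    by_cases hx : ∃ j ≤ m + 1, c j = x 1
    · obtain ⟨j0, hj0, hcj0⟩ := hx
      have hcx : cst H R (fun v z => FM0 v z g0) (x 1) ≤ 1 := by
        unfold cst
        have a1 : z (cl m j0) ∈ prt H R (x 1) := by rw [← hcj0]; exact hprt j0 hj0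
        have mj := cl_mem hK.pos hj0
        have hzj : z (cl m j0) ∈ S := mem_cSupp mj.1 mj.2
        have a2 : z0 1 ∈ (prt H R (x 1)).erase (z (cl m j0)) := by
          rw [mem_erase]
          refine ⟨fun he => hdisj _ hzj ?_, (hs.ports h).1⟩
          rw [← he]; exact mem_cSupp le_rfl le_rfl
        have a3 : (prt H R (x 1)).erase (z (cl m j0)) = {z0 1} := by
          refine (Finset.eq_of_subset_of_card_le (Finset.singleton_subset_iff.2 a2) ?_).symm
          rw [Finset.card_erase_of_mem a1, Finset.card_singleton]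
          omega
        rw [← Finset.add_sum_erase _ _ a1, a3, Finset.sum_singleton]
        show (FM0 (x 1) (z (cl m j0)) g0).card + (FM0 (x 1) (z0 1) g0).card ≤ 1
        rw [hFM0S _ hzj, hFM0x]
        simp
      have h5 : 5 ≤ ((lis H R x y FM0 g0 1).erase q).card := by
        have e1 := Finset.pred_card_le_card_erase (s := lis H R x y FM0 g0 1) (a := q)
        have e2 : (lis H R x y FM0 g0 1).card = (lst H R x y (fun v z => FM0 v z g0) 1).card := rfl
        omega
      obtain ⟨t, t1, t2⟩ := exists_antip h5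
      rw [mem_erase] at t1 t2
      exact ⟨t, Or.inl t1.1, t1.2, Or.inl t2.1, t2.2⟩
    · push Not at hx
      have hcx : cst H R (fun v z => FM0 v z g0) (x 1) ≤ 3 :=
        cst_le_light (card_of_two hFM0two g0) (n := 1) hpx1 (hs.ports h).1 (by rw [hFM0x]; simp)
      have h5 : 5 ≤ (lis H R x y FM0 g0 1).card := by
        have e2 : (lis H R x y FM0 g0 1).card = (lst H R x y (fun v z => FM0 v z g0) 1).card := rfl
        omega
      obtain ⟨t, t1, t2⟩ := exists_antip h5
      exact ⟨t, Or.inr hx, t1, Or.inr hx, t2⟩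
  -- one of the two is dead
  have hA' : ∃ a, (a ≠ q ∨ ∀ j ≤ m + 1, c j ≠ x 1) ∧ a ∈ lis H R x y FM0 g0 1 ∧
      (neg a ≠ q ∨ ∀ j ≤ m + 1, c j ≠ x 1) ∧ neg a ∈ lis H R x y FM0 g0 1 ∧
      nr (neg (f (c w))) a = false := by
    obtain ⟨t, t1, t2, t3, t4⟩ := hA
    by_cases hd : nr (neg (f (c w))) t = true
    · exact ⟨neg t, t3, t4, by rw [H3DA.neg_neg]; exact t1, by rw [H3DA.neg_neg]; exact t2,
        nr_dead _ _ hd⟩
    · exact ⟨t, t1, t2, t3, t4, Bool.eq_false_iff.2 hd⟩
  obtain ⟨a, a1, a2, a3, a4, a5⟩ := hA'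
  have hw' : ¬ J w := fun h' => hwo h'.1
  have hs1 : ∀ t, s₀ t p1 = t := by
    intro t
    show lbl k x y (fun _ => t) f (c p1) = t
    rw [hc1, lbl_y h le_rfl hkp, sg_odd (by omega), H3DA.neg_neg]
  have hsw : ∀ t, s₀ t w = f (c w) := fun t => lbl_out hwo
  -- the forbidden labels at unit `2`
  set X : (ℕ → Finset Q) → Finset Q := fun F =>
    univ.filter (fun s => ∃ w ∈ prt H R (x 2), sg 2 s ∈ FM F (x 2) w g0) with hX
  set Y : (ℕ → Finset Q) → Finset Q := fun F =>
    univ.filter (fun s => ∃ w ∈ prt H R (y 2), neg (sg 2 s) ∈ FM F (y 2) w g0) with hY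
  -- the walk from a start with two labels at unit `2`
  have key : ∀ (t : Q) (F : ℕ → Finset Q), KQ m J e e' (s₀ t) F → (F pk).card ≤ 1 →
      t ∈ lis H R x y FM0 g0 1 → 2 ≤ (nbq t \ (X F ∪ Y F)).card → False := by
    intro t F hF hFk ht h2
    have hfam : Fam H R k x y f z0 c0 p S (phiQ k x y f m z c e e' J F) Φ (fun s => s = t) (x k)
        (z pk) := hs.famOf hH h hf hp hne.symm (spc_phiQ (J := J) h hK hm hE hJ0 hF (hknown t)) hΦ
      (fun m z c hc' _ _ p _ _ h3 _ => bad_xk hH hc h hk hc' h3)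
    have h2' : 1 < (nbq t \ (X F ∪ Y F)).card := h2
    obtain ⟨b, hb, b', hb', hbb⟩ := Finset.one_lt_card.1 h2'
    have hb2 : ∀ s ∈ nbq t \ (X F ∪ Y F), nr t s = true ∧ ∀ g, s ∈ lis H R x y (FM F) g 2 := by
      intro s hs'
      rw [mem_sdiff, mem_union] at hs'
      constructor
      · have := hs'.1
        unfold nbq at this
        simpa using this
      · intro g
        have e1 : lis H R x y (FM F) g 2 = lis H R x y (FM F) g0 2 :=
          lst_congr' (Φ := fun v z => FM F v z g) (Φ' := fun v z => FM F v z g0)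
            (fun w => fam_depk hfam.spc.dep hfam.forb.dep (by omega) (by omega) w
              (fun j j1 j2 => by omega))
        rw [e1]
        show s ∈ lst H R x y (fun v z => FM F v z g0) 2
        rw [mem_lst]
        constructor
        · intro w hw hin
          exact hs'.2 (Or.inl (mem_filter.2 ⟨mem_univ _, w, hw, hin⟩))
        · intro w hw hin
          exact hs'.2 (Or.inr (mem_filter.2 ⟨mem_univ _, w, hw, hin⟩))
    refine hfam.start hH hc h hk hends hf (a := t) rfl (fun g => ?_) hbb (hb2 b hb).1 (hb2 b' hb').1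
      (hb2 b hb).2 (hb2 b' hb').2 (fun g g' => ?_)
    · show t ∈ lis H R x y (FM F) g 1
      rw [hlist1]; exact ht
    · refine hR' _ (fun v w => hfam.two v w g g') ?_ (fun _ _ => ?_)
      · show (fam k x y z0 p S (phiQ k x y f m z c e e' J F) Φ (y k) (z0 1) g ∪
          fam k x y z0 p S (phiQ k x y f m z c e e' J F) Φ (y k) (z0 1) g').card ≤ 1
        rw [hfam.yk h, hfam.yk h]; simp
      · refine fam_one (k := k) (x := x) (y := y) (z0 := z0) (p := p) (S := S) (Φ := Φ)
          (v := x k) (w := z pk) (g := g) (g' := g') (fun he => by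
            have := h.injx k 1 hkp le_rfl le_rfl hkp he
            omega)
          (fun he => h.xy k k hkp le_rfl hkp le_rfl he) (fun _ => ?_)
          (fun hw => absurd (mem_cSupp (i := pk) (by omega) (by omega)) hw)
        rw [← hck, phiQ_inner hK hE.he hE.he' hpk hpkm, phiQ_inner hK hE.he hE.he' hpk hpkm,
          if_pos hJk, Finset.union_self]
        exact hFk
  -- the two strategies
  have hdead : KQ m J e e' (s₀ a) (Fd m J (s₀ a)) := by
    refine kq_dead hm hE.he hE.he' (hq a a1).1 (hq a a1).2 (i := w) (j := p1) hw (by omega) hw' hJ1'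
      hadj ?_
    rw [hs1, hsw]; exact a5
  obtain ⟨F2, hF2, hF2k⟩ : ∃ F, KQ m J e e' (s₀ (neg a)) F ∧ (F pk).card ≤ 1 := by
    obtain ⟨F, b1, b2⟩ := kq_of_killsQ (killsQ (J := J) (s₀ := s₀ (neg a)) (p := pk) hm hE.he hE.he'
      (by omega) ⟨pk, by omega, hJk⟩ (hq (neg a) a3).1 (hq (neg a) a3).2 hsq)
    exact ⟨F, b1, b2 hpk hpkm⟩
  have hpx2 : (prt H R (x 2)).card ≤ 1 := prt_card_lk hH (h.lk 1 le_rfl (by omega)).symm
  have hpy2 : (prt H R (y 2)).card ≤ 1 := prt_card_lk hH (h.lk 2 (by omega) (by omega))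
  have hFM2 : ∀ F : ℕ → Finset Q, (∀ j, (F j).card ≤ 2) → ∀ v w, (FM F v w g0).card ≤ 2 := by
    intro F hF
    exact card_of_two (fam_two (phiQ_two hF) hΦ.two) g0
  have isg : Function.Injective (fun s : Q => sg 2 s) := by
    intro s s' he
    simpa [sg_even (t := 2) (by omega)] using he
  have isg' : Function.Injective (fun s : Q => neg (sg 2 s)) := by
    intro s s' he
    have : neg s = neg s' := by simpa [sg_even (t := 2) (by omega)] using he
    rw [← H3DA.neg_neg s, this, H3DA.neg_neg]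
  have hXc : ∀ F : ℕ → Finset Q, (∀ j, (F j).card ≤ 2) → (X F).card ≤ 2 := fun F hF =>
    fset_card hpx2 (fun w _ => hFM2 F hF _ w) isg
  have hYc : ∀ F : ℕ → Finset Q, (∀ j, (F j).card ≤ 2) → (Y F).card ≤ 2 := fun F hF =>
    fset_card hpy2 (fun w _ => hFM2 F hF _ w) isg'
  have hd1 : ∀ j, (Fd m J (s₀ a) j).card ≤ 1 := fd_card m J (s₀ a)
  -- a vertex of unit `2` seen by the component
  have hin1 : ∀ v, v ≠ x 1 → v ≠ y k → (prt H R v).card ≤ 1 → (∃ j ≤ m + 1, c j = v) →
      ∀ w ∈ prt H R v, (FM (Fd m J (s₀ a)) v w g0).card ≤ 1 := by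
    rintro v v1 v2 v3 ⟨j, hj, hcj⟩ w hw
    have mj := cl_mem hK.pos hj
    have e1 : w = z (cl m j) := by
      have := hprt j hj
      rw [hcj] at this
      exact Finset.card_le_one.1 v3 w hw _ this
    have hwS : w ∈ S := by rw [e1]; exact mem_cSupp mj.1 mj.2
    have := fam_one (k := k) (x := x) (y := y) (z0 := z0) (p := p) (S := S)
      (φ := phiQ k x y f m z c e e' J (Fd m J (s₀ a))) (Φ := Φ) (v := v) (w := w) (g := g0) (g' := g0)
      v1 v2 (fun _ => by rw [Finset.union_self]; exact phiQ_one hd1 _ _ _) (fun h' => absurd hwS h')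
    rwa [Finset.union_self] at this
  have hin2 : ∀ v, (¬ ∃ j ≤ m + 1, c j = v) → ∀ (F F' : ℕ → Finset Q) w, FM F v w g0 = FM F' v w g0 := by
    intro v hv F F' w
    have e1 : ∀ F, phiQ k x y f m z c e e' J F v w g0 = ∅ := fun F =>
      phiQ_none (fun j hj hcj _ => hv ⟨j, hj, hcj⟩) g0
    show fam k x y z0 p S (phiQ k x y f m z c e e' J F) Φ v w g0 =
      fam k x y z0 p S (phiQ k x y f m z c e e' J F') Φ v w g0
    unfold fam
    by_cases hw0 : w ∈ cSupp 1 z0
    · rw [ovr_in hw0, ovr_in hw0]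
    · rw [ovr_out hw0, ovr_out hw0]
      by_cases hwS : w ∈ S
      · rw [ovr_in hwS, ovr_in hwS, e1, e1]
      · rw [ovr_out hwS, ovr_out hwS]
  have x2n : x 2 ≠ x 1 := fun he => by
    have := h.injx 2 1 (by omega) (by omega) le_rfl hkp he
    omega
  have y2n : y 2 ≠ x 1 := fun he => h.xy 1 2 le_rfl hkp (by omega) (by omega) he.symm
  have x2k : x 2 ≠ y k := h.xy 2 k (by omega) (by omega) hkp le_rfl
  have y2k : y 2 ≠ y k := fun he => by
    have := h.injy 2 k (by omega) (by omega) hkp le_rfl he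
    omega
  have c1 : (X (Fd m J (s₀ a))).card ≤ 1 ∨ X F2 = X (Fd m J (s₀ a)) := by
    by_cases hex : ∃ j ≤ m + 1, c j = x 2
    · exact Or.inl (fset_card hpx2 (hin1 (x 2) x2n x2k hpx2 hex) isg)
    · right
      refine Finset.filter_congr (fun s _ => ?_)
      constructor
      · rintro ⟨w, b1, b2⟩
        exact ⟨w, b1, by rw [hin2 _ hex _ F2]; exact b2⟩
      · rintro ⟨w, b1, b2⟩
        exact ⟨w, b1, by rw [hin2 _ hex _ (Fd m J (s₀ a))]; exact b2⟩
  have c2 : (Y (Fd m J (s₀ a))).card ≤ 1 ∨ Y F2 = Y (Fd m J (s₀ a)) := by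
    by_cases hex : ∃ j ≤ m + 1, c j = y 2
    · exact Or.inl (fset_card hpy2 (hin1 (y 2) y2n y2k hpy2 hex) isg')
    · right
      refine Finset.filter_congr (fun s _ => ?_)
      constructor
      · rintro ⟨w, b1, b2⟩
        exact ⟨w, b1, by rw [hin2 _ hex _ F2]; exact b2⟩
      · rintro ⟨w, b1, b2⟩
        exact ⟨w, b1, by rw [hin2 _ hex _ (Fd m J (s₀ a))]; exact b2⟩
  rcases two_starts (a := a) (hXc _ hdead.two) (hYc _ hdead.two) (hXc _ hF2.two) (hYc _ hF2.two) c1 c2 with
    h2 | h2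
  · exact key a _ hdead (hd1 pk) a2 h2
  · exact key (neg a) F2 hF2 hF2k a4 h2

end CLB.H80
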