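import Pool.Agent.Helper80_DA.Star7

/-!
One vertex seeing the two ends of an open chain: all cases.
-/

set_option autoImplicit false
set_option linter.unusedSectionVars false

namespace CLB.H80

open Finset Classical
open CLB.H95
open H3DA (Q neg nr)
open CLB.H3 (CExt Cat IsTwo Fits UPath he_of_unc cat_structure chn_side pos)
open CLB.H91 (ovr ovr_in ovr_out sp11 K0K tau tau_tau k0_star ends_rev)

variable {V : Type*} {G H : SimpleGraph V} {R : V → Bool} [Fintype V] {k : ℕ} {x y : ℕ → V}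

/-- An inner vertex lies in a component. -/
lemma inner_cat (hH : ClassC H R) (hc : Crit H R) {v w : V} (hv : v ∈ prt H R w)
    (hin : InnerPt H R v) : ∃ m z c i, Cat H R m z c ∧ 2 ≤ i ∧ i + 1 ≤ m ∧ z i = v ∧ (Cov H R w → c i = w) := by
  rw [mem_prt] at hv
  obtain ⟨u, u', huu, hu, hu', hcu, hcu'⟩ := hin
  rcases cat_structure hH hc hv.2 with h1 | ⟨a, b, h1⟩ | ⟨m, z, c, hK, i, i1, i2, h1⟩
  · exact absurd hu (h1 u)
  · obtain ⟨_, _, _, _, h5, h6, h7⟩ := h1
    rcases h7 u hu with h8 | h8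
    · exact absurd (h8 ▸ h5) hcu
    · exact absurd (h8 ▸ h6) hcu
  · subst h1
    obtain ⟨j1, j2⟩ := innerPt_pos hK i1 i2 ⟨u, u', huu, hu, hu', hcu, hcu'⟩
    refine ⟨m, z, c, i, hK, j1, j2, rfl, fun hw => ?_⟩
    rcases hK.nbr i i1 i2 w hv.1.symm with h3 | ⟨h3, h4⟩ | ⟨h3, h4⟩ | ⟨h3, h4⟩ | ⟨h3, h4⟩
    · exact h3.symm
    · omega
    · omega
    · exact absurd hw (by rw [h4]; exact hK.unc _ (by omega) (by omega))
    · exact absurd hw (by rw [h4]; exact hK.unc _ (by omega) (by omega))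

/-- **One vertex seeing the two ends.** -/
theorem star_false (hR : Opt G R) (hG : ClassC G R) (hle : H ≤ G) (hc : Crit H R)
    (h : Chn H R k x y) (hk : 3 ≤ k) (hends : (∀ w, ¬ Lk H R (x 1) w) ∧ ∀ w, ¬ Lk H R (y k) w)
    {z0 c0 : ℕ → V} (hs : StarD H R k x y z0 c0)
    (hb1 : ∀ m z c, Cat H R m z c → ∀ p, c p = y (k - 1) → ¬ BadP m (JC k x y c) p)
    (hb2 : ∀ m z c, Cat H R m z c → ∀ p, c p = x 2 → ¬ BadP m (JC k x y c) p) : False := by
  have hH := hG.mono hle
  have hkp := h.pos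
  have hp := hs.ports h
  have e1 : k + 1 - 1 = k := by omega
  have e2 : k + 1 - k = 1 := by omega
  have e3 : k + 1 - (k - 1) = 2 := by omega
  have hrev := ends_rev (H := H) (R := R) (x := x) (y := y) (k := k) hends
  rcases light_last hR hG hle hc h hk hp.2 with ⟨zR, hR1⟩ | ⟨zR, hR2⟩
  swap
  · exact star_slackR hG hle hc h hk hends hs hb1 hR2
  rcases light_first hR hG hle hc h hk hp.1 with ⟨zL, hL1⟩ | ⟨zL, hL2⟩
  swap
  · refine star_slackR hG hle hc h.rev hk hrev hs.rev ?_ (z₀ := zL) ?_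
    · intro m z c hK p hcp
      rw [jc_rev]
      refine hb2 m z c hK p ?_
      simp only [e3] at hcp
      exact hcp
    · intro Φ h2 h3
      rw [lst_rev_card, e3]
      simp only [e3] at h3
      exact hL2 Φ h2 h3
  -- the slack at the left end, for the reversed chain
  have hL1' : ∀ Φ : V → V → Finset Q, (∀ v z, (Φ v z).card ≤ 2) →
      (Φ ((fun i => x (k + 1 - i)) k) (z0 1)).card ≤ 1 →
      (zL ∈ prt H R ((fun i => y (k + 1 - i)) k) → InnerPt H R zL →
        (Φ ((fun i => y (k + 1 - i)) k) zL).card ≤ 1) →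
      4 ≤ (lst H R (fun i => y (k + 1 - i)) (fun i => x (k + 1 - i)) Φ k).card := by
    intro Φ h2 h3 h4
    rw [lst_rev_card, e2]
    simp only [e2] at h3 h4
    exact hL1 Φ h2 h3 h4
  have hR1' : ∀ Φ : V → V → Finset Q, (∀ v z, (Φ v z).card ≤ 2) →
      (Φ ((fun i => y (k + 1 - i)) 1) (z0 1)).card ≤ 1 →
      (zR ∈ prt H R ((fun i => x (k + 1 - i)) 1) → InnerPt H R zR →
        (Φ ((fun i => x (k + 1 - i)) 1) zR).card ≤ 1) →
      4 ≤ (lst H R (fun i => y (k + 1 - i)) (fun i => x (k + 1 - i)) Φ 1).card := by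
    intro Φ h2 h3 h4
    rw [lst_rev_card, e1]
    simp only [e1] at h3 h4
    exact hR1 Φ h2 h3 h4
  by_cases hnoL : zL ∈ prt H R (y 1) ∧ InnerPt H R zL
  swap
  · exact star_none hG hle hc h hk hends hs hL1 hR1 hnoL
  by_cases hnoR : zR ∈ prt H R (x k) ∧ InnerPt H R zR
  swap
  · refine star_none hG hle hc h.rev hk hrev hs.rev hR1' hL1' ?_
    simp only [e1]
    exact hnoR
  obtain ⟨m, z, c, p1, hK, hp1, hp1m, hzp1, hcp1⟩ := inner_cat hH hc hnoL.1 hnoL.2
  have hc1 : c p1 = y 1 := hcp1 (h.cov (InC.y le_rfl hkp))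
  have hne : cSupp m z ≠ cSupp 1 z0 := by
    intro he
    have h1 : zL ∈ cSupp m z := by rw [← hzp1]; exact mem_cSupp (by omega) (by omega)
    rw [he] at h1
    obtain ⟨j, j1, j2, j3⟩ := h1
    have := innerPt_pos hs.star j1 j2 (by rw [j3]; exact hnoL.2)
    omega
  by_cases hzR : zR ∈ cSupp m z
  swap
  · refine star_diff hG hle hc h hk hends hs hL1 hR1 hK hne ⟨p1, by omega, ?_⟩ ?_ hzR
    · rw [hc1]; exact InC.y le_rfl hkp
    · rw [← hzp1]; exact mem_cSupp (by omega) (by omega)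
  obtain ⟨pk, k1, k2, hzpk⟩ := hzR
  obtain ⟨hpk, hpkm⟩ := innerPt_pos hK k1 k2 (by rw [hzpk]; exact hnoR.2)
  have hck : c pk = x k := by
    have hadj := (mem_prt.1 hnoR.1).1
    rw [← hzpk] at hadj
    have hw : Cov H R (x k) := h.cov (InC.x hkp le_rfl)
    rcases hK.nbr pk k1 k2 (x k) hadj.symm with h3 | ⟨h3, h4⟩ | ⟨h3, h4⟩ | ⟨h3, h4⟩ | ⟨h3, h4⟩
    · exact h3.symm
    · omega
    · omega
    · exact absurd hw (by rw [h4]; exact hK.unc _ (by omega) (by omega))
    · exact absurd hw (by rw [h4]; exact hK.unc _ (by omega) (by omega))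
  subst hzp1
  subst hzpk
  by_cases hadj : ∀ j ≤ m + 1, ¬ InC k x y (c j) → (cl m j + 2 ≤ p1 ∨ p1 + 2 ≤ cl m j) ∧
      (cl m j + 2 ≤ pk ∨ pk + 2 ≤ cl m j)
  · exact star_C hG hle hc h hk hends hs hK hne hp1 hp1m hc1 hpk hpkm hck hL1 hR1 hadj
  · push Not at hadj
    obtain ⟨w, hw, hwo, hwn⟩ := hadj
    have hpos : ∀ p, 2 ≤ p → p + 1 ≤ m → InC k x y (c p) → ¬ (cl m w + 2 ≤ p ∨ p + 2 ≤ cl m w) →
        pos m p = pos m w + 1 ∨ pos m w = pos m p + 1 := by
      intro p p1 p2 hin hn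
      have e : pos m w = cl m w := rfl
      have ep : pos m p = p := by unfold pos; rw [if_neg (by omega), if_neg (by omega)]
      rw [e, ep]
      by_cases hwp : cl m w = p
      · exfalso
        apply hwo
        have : w = p := by
          unfold cl at hwp
          split_ifs at hwp <;> omega
        rw [this]; exact hin
      · push Not at hn
        omega
    by_cases hn1 : cl m w + 2 ≤ p1 ∨ p1 + 2 ≤ cl m w
    · have hn2 : ¬ (cl m w + 2 ≤ pk ∨ pk + 2 ≤ cl m w) := by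
        have := hwn hn1
        omega
      refine star_A hG hle hc h.rev hk hrev hs.rev hK hne (p1 := pk) (pk := p1) (w := w) hpk hpkm ?_
        hp1 hp1m ?_ hw (fun h' => hwo (inC_rev.1 h')) ?_ hL1'
      · simp only [e1]; exact hck
      · simp only [e2]; exact hc1
      · exact hpos pk hpk hpkm (by rw [hck]; exact InC.x hkp le_rfl) hn2
    · exact star_A hG hle hc h hk hends hs hK hne hp1 hp1m hc1 hpk hpkm hck hw hwo
        (hpos p1 hp1 hp1m (by rw [hc1]; exact InC.y le_rfl hkp) hn1) hR1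

end CLB.H80
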